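import Pool.Agent.Lib.MP_610fe3_an.T4.MainB
import Pool.Agent.Lib.MP_610fe3_an.Nested

/-!
# The codimension one foliation theorem: the theorem for manifolds
-/

open Set Filter Function Bundle
open scoped Manifold ContDiff Topology

namespace Pool.Agent.Lib.MP610fe3.T4

open Cf H6

universe u v w

namespace MainC

open MainA MainB Gen Mfd

section Rate

variable {V : Type*} [NormedAddCommGroup V] [NormedSpace ℝ V] [FiniteDimensional ℝ V] {N : ℕ}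
  {M : Type*} [MetricSpace M] [CompactSpace M]
  [ChartedSpace V M] [IsManifold 𝓘(ℝ, V) ∞ M]
  [RiemannianBundle (fun x : M => TangentSpace 𝓘(ℝ, V) x)]
  [IsContinuousRiemannianBundle V (fun x : M => TangentSpace 𝓘(ℝ, V) x)]

/-- Rates of the derivative on a family of subspaces, seen in the ambient space. -/
theorem rate_sub (E : Emb M (EuclideanSpace ℝ (Fin N)))
    (he : ContMDiff 𝓘(ℝ, V) (𝓡 N) ∞ E.e)
    (hinj : ∀ x, Injective (mfderiv 𝓘(ℝ, V) (𝓡 N) E.e x))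
    (hP : ∀ x, E.P x = Gen.KF V E.e E.e x)
    {h : M → M} (hh : ContMDiff 𝓘(ℝ, V) 𝓘(ℝ, V) 1 h)
    {D : M → EuclideanSpace ℝ (Fin N) →L[ℝ] EuclideanSpace ℝ (Fin N)} (hD : HasD E h D)
    {F : ∀ x : M, Submodule ℝ (TangentSpace 𝓘(ℝ, V) x)}
    {C κ : ℝ} (hC : 0 ≤ C) (hκ : 0 ≤ κ)
    (H : ∀ (k : ℕ) (x : M), ∀ v ∈ F x,
      ‖mfderiv 𝓘(ℝ, V) 𝓘(ℝ, V) (h^[k]) x v‖ ≤ C * κ ^ k * ‖v‖) :
    ∃ C' : ℝ, 0 ≤ C' ∧ ∀ (k : ℕ) (x : M) (w : EuclideanSpace ℝ (Fin N)),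
      (∃ v ∈ F x, dE V E.e x v = w) → ‖iterD D h k x w‖ ≤ C' * κ ^ k * ‖w‖ := by
  obtain ⟨c₀, C₁, hc₀, hC₁, hn⟩ := exists_norm_bounds E.e he hinj
  have hinj' : ∀ x, Injective (dF V E.e x) := hinj
  have hn' : ∀ x (v : TangentSpace 𝓘(ℝ, V) x), c₀ * ‖v‖ ≤ ‖dE V E.e x v‖ ∧
      ‖dE V E.e x v‖ ≤ C₁ * ‖v‖ := by
    intro x v
    have h1 := hn x v
    rw [norm_tangentSpace_vectorSpace] at h1
    exact h1
  have hDd : ∀ x (u : TangentSpace 𝓘(ℝ, V) x), D x (dE V E.e x u) =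
      dE V E.e (h x) (mfderiv 𝓘(ℝ, V) 𝓘(ℝ, V) h x u) := by
    intro x u
    have he1 : ContMDiff 𝓘(ℝ, V) (𝓡 N) 1 E.e := he.of_le (by exact_mod_cast le_top)
    have h3 := mfderiv_comp (I := 𝓘(ℝ, V)) (I' := 𝓘(ℝ, V)) (I'' := 𝓡 N) (f := h) x
      (he1.mdifferentiable (by norm_num) (h x)) (hh.mdifferentiable (by norm_num) x)
    rw [HasD_eq_KF E he hinj hP hh hD x]
    refine (KF_apply hinj' x u).trans ?_
    unfold dF
    rw [h3]
    rfl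
  refine ⟨C₁ * C * (1 / c₀), by positivity, fun k x w hw => ?_⟩
  obtain ⟨v, hv, hvw'⟩ := hw
  have hit : iterD D h k x (dE V E.e x v) =
      dE V E.e (h^[k] x) (mfderiv 𝓘(ℝ, V) 𝓘(ℝ, V) (h^[k]) x v) := iterD_dE he hh hDd k x v
  have h1 := H k x v hv
  have h2 : ‖v‖ ≤ 1 / c₀ * ‖w‖ := by
    rw [← hvw', one_div, inv_mul_eq_div, le_div_iff₀ hc₀, mul_comm]
    exact (hn' x v).1
  have hκk : 0 ≤ κ ^ k := pow_nonneg hκ k
  rw [← hvw', hit]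
  calc ‖dE V E.e (h^[k] x) (mfderiv 𝓘(ℝ, V) 𝓘(ℝ, V) (h^[k]) x v)‖
      ≤ C₁ * ‖mfderiv 𝓘(ℝ, V) 𝓘(ℝ, V) (h^[k]) x v‖ := (hn' _ _).2
    _ ≤ C₁ * (C * κ ^ k * ‖v‖) := by gcongr
    _ ≤ C₁ * (C * κ ^ k * (1 / c₀ * ‖w‖)) := by gcongr
    _ = C₁ * C * (1 / c₀) * κ ^ k * ‖dE V E.e x v‖ := by rw [hvw']; ring

end Rate

/-- The rates of the `n`-th power satisfy the same inequality. -/
theorem pinch_pow {l₁ l₂ m b : ℝ} {n : ℕ} (hn : 0 < n)
    (h : (Real.log l₁ / Real.log l₂ - 1) * (Real.log b / Real.log m - 1) < 1) :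
    (Real.log (l₁ ^ n) / Real.log (l₂ ^ n) - 1) * (Real.log (b ^ n) / Real.log (m ^ n) - 1) < 1 := by
  have hn' : (n : ℝ) ≠ 0 := by positivity
  simp only [Real.log_pow]
  rw [mul_div_mul_left _ _ hn', mul_div_mul_left _ _ hn']
  exact h

/-- The theorem for metric spaces. -/
theorem main_metric (specLoc : SpecLoc.{v, w}) (specKappa : SpecKappa.{v})
    (specLpath : SpecLpath.{0, v}) (specLgrow : SpecLgrow.{0, v}) (specPow : SpecPow.{u, v, w})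
    (specMtan : SpecMtan.{u, v, w}) (specCore : SpecCore.{v})
    {V : Type u} [NormedAddCommGroup V] [NormedSpace ℝ V] [FiniteDimensional ℝ V]
    {V₀ : Type w} [NormedAddCommGroup V₀] [NormedSpace ℝ V₀] {N : ℕ}
    {M : Type v} [MetricSpace M] [CompactSpace M] [ConnectedSpace M]
    [ChartedSpace V M] [IsManifold 𝓘(ℝ, V) ∞ M]
    [RiemannianBundle (fun x : M => TangentSpace 𝓘(ℝ, V) x)]
    [IsContinuousRiemannianBundle V (fun x : M => TangentSpace 𝓘(ℝ, V) x)]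
    (e : M → EuclideanSpace ℝ (Fin N)) (hiso : Isometry e)
    (he : ContMDiff 𝓘(ℝ, V) (𝓡 N) ∞ e)
    (hinj : ∀ x, Injective (mfderiv 𝓘(ℝ, V) (𝓡 N) e x))
    (f : M ≃ₘ^1⟮𝓘(ℝ, V), 𝓘(ℝ, V)⟯ M)
    (Es Eu Ew : ∀ x : M, Submodule ℝ (TangentSpace 𝓘(ℝ, V) x))
    (hA : Gen.IsAnosovSplitting f Es Eu) (hW : ∀ x, IsHyperplane (Ew x) (Eu x))
    (𝓕 : Set (OpenPartialHomeomorph M (V₀ × ℝ))) (hF1 : IsFoliation 𝓕) (hF2 : IsInvariant f 𝓕)
    (hF3 : ContainsStable f 𝓕) (hF4 : IsTangent (fun x => Es x ⊔ Ew x) 𝓕)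
    (C l₁ l₂ m b : ℝ) (hl₁ : 0 < l₁) (hl : l₁ ≤ l₂) (hl₂ : l₂ < 1) (hm : 1 < m) (hmb : m ≤ b)
    (hR : Rates f Es Eu Ew C l₁ l₂ m b)
    (hpinch : (Real.log l₁ / Real.log l₂ - 1) * (Real.log b / Real.log m - 1) < 1) :
    TopTransitive f := by
  by_contra hnt
  obtain ⟨E, hE, hEP, hr⟩ := Gen.exists_emb e hiso he hinj
  subst hE
  -- the power
  obtain ⟨s₀, hs₀, -, -⟩ := Gen.exists_split E he hinj hr f Es Eu hA
  obtain ⟨c, hc0, hc⟩ := s₀.expansive hs₀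
  have hTM : TM.Hyp f.toHomeomorph c := ⟨hc0, hc, s₀.shadowing hs₀⟩
  obtain ⟨n, A, R, hn, hedge⟩ := hTM.exists_edge hnt
  obtain ⟨g, hg, hg', hAg, hFg2, hFg3, hRg⟩ := specPow f Es Eu Ew 𝓕 C l₁ l₂ m b n hn hA hF1 hF2
    hF3 hR
  obtain ⟨rA, hrA, hattr⟩ := exists_attr (g := g.toHomeomorph) hTM hn hg hg' hedge
  obtain ⟨s, hs, hsS, hsU⟩ := Gen.exists_split E he hinj hr g Es Eu hAg
  obtain ⟨K, hK1, hK⟩ := s.exists_bdd
  have hK0 : 0 ≤ K := by linarith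
  have hC0 : 0 ≤ max C 0 := le_max_right _ _
  have hup : ∀ {κ : ℝ} (k : ℕ) {t u : ℝ}, 0 ≤ κ → 0 ≤ t → u ≤ C * κ ^ k * t →
      u ≤ max C 0 * κ ^ k * t := by
    intro κ k t u hκ ht h
    refine h.trans ?_
    have : 0 ≤ κ ^ k := pow_nonneg hκ k
    gcongr
    exact le_max_left _ _
  have hl₂0 : 0 < l₂ := hl₁.trans_le hl
  have hm0 : 0 < m := by linarith
  have hb0 : 0 < b := by linarith
  set l₁' : ℝ := l₁ ^ n with hl₁'
  set l₂' : ℝ := l₂ ^ n with hl₂'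
  set m' : ℝ := m ^ n with hm'
  set b' : ℝ := b ^ n with hb'
  have pl₁ : 0 < l₁' := by positivity
  have pl₂ : 0 < l₂' := by positivity
  have pm : 0 < m' := by positivity
  have pb : 0 < b' := by positivity
  obtain ⟨C₁, hC₁, H₁⟩ := rate_transfer E he hinj hEP g.contMDiff s.hD hK0 (fun x => (hK x).1)
    hsS hC0 pl₂.le (fun k x v hv => hup k pl₂.le (norm_nonneg _) (hRg.s_fwd k x v hv))
  obtain ⟨C₂, hC₂, H₂⟩ := rate_transfer E he hinj hEP g.symm.contMDiff s.hDi hK0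
    (fun x => (hK x).1) hsS hC0 (inv_nonneg.2 pl₁.le)
    (fun k x v hv => hup k (inv_nonneg.2 pl₁.le) (norm_nonneg _) (hRg.s_bwd k x v hv))
  obtain ⟨C₃, hC₃, H₃⟩ := rate_transfer E he hinj hEP g.symm.contMDiff s.hDi hK0
    (fun x => (hK x).2) hsU hC0 (inv_nonneg.2 pm.le)
    (fun k x v hv => hup k (inv_nonneg.2 pm.le) (norm_nonneg _) (hRg.u_bwd k x v hv))
  obtain ⟨C₄, hC₄, H₄⟩ := rate_sub E he hinj hEP g.contMDiff s.hD (F := Ew) hC0 pb.le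
    (fun k x v hv => hup k pb.le (norm_nonneg _) (hRg.w_fwd k x v hv))
  set C' : ℝ := max (max C₁ C₂) (max C₃ C₄) with hC'
  have hC'0 : 0 ≤ C' := hC₁.trans ((le_max_left _ _).trans (le_max_left _ _))
  have hup' : ∀ {κ c : ℝ} (k : ℕ) {t u : ℝ}, c ≤ C' → 0 ≤ κ → 0 ≤ t → u ≤ c * κ ^ k * t →
      u ≤ C' * κ ^ k * t := by
    intro κ c k t u hc hκ ht h
    refine h.trans ?_
    have : 0 ≤ κ ^ k := pow_nonneg hκ k
    gcongr
  have G₁ : ∀ (k : ℕ) (x : M) (w : EuclideanSpace ℝ (Fin N)),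
      ‖iterD s.D g.toHomeomorph k x (s.S x w)‖ ≤ C' * l₂' ^ k * ‖w‖ := fun k x w =>
    hup' k ((le_max_left _ _).trans (le_max_left _ _)) pl₂.le (norm_nonneg _) (H₁ k x w)
  have G₂ : ∀ (k : ℕ) (x : M) (w : EuclideanSpace ℝ (Fin N)),
      ‖iterD s.Di g.toHomeomorph.symm k x (s.S x w)‖ ≤ C' * l₁'⁻¹ ^ k * ‖w‖ := fun k x w =>
    hup' k ((le_max_right _ _).trans (le_max_left _ _)) (inv_nonneg.2 pl₁.le) (norm_nonneg _)
      (H₂ k x w)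
  have G₃ : ∀ (k : ℕ) (x : M) (w : EuclideanSpace ℝ (Fin N)),
      ‖iterD s.Di g.toHomeomorph.symm k x (s.U x w)‖ ≤ C' * m'⁻¹ ^ k * ‖w‖ := fun k x w =>
    hup' k ((le_max_left _ _).trans (le_max_right _ _)) (inv_nonneg.2 pm.le) (norm_nonneg _)
      (H₃ k x w)
  set F : M → Submodule ℝ (EuclideanSpace ℝ (Fin N)) :=
    fun x => (Ew x).map (mfderiv 𝓘(ℝ, V) (𝓡 N) E.e x).toLinearMap with hF
  have G₄ : ∀ (k : ℕ) (x : M), ∀ w ∈ F x,
      ‖iterD s.D g.toHomeomorph k x w‖ ≤ C' * b' ^ k * ‖w‖ := fun k x w hw =>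
    hup' k ((le_max_right _ _).trans (le_max_right _ _)) pb.le (norm_nonneg _)
      (H₄ k x w (by
        obtain ⟨v, hv, hvw⟩ := hw
        exact ⟨v, hv, hvw⟩))
  -- the foliation
  have hst : StPath g.toHomeomorph := stPath_of_split s hs hC'0 (inv_nonneg.2 pl₁.le) G₂
  obtain ⟨εD, CD, lD, hDec⟩ := exists_dec s hs
  obtain ⟨P, H, Q, r₀, ρ₀, hloc, hchart⟩ := specLoc g.toHomeomorph 𝓕 εD CD lD hF1 hFg2 hFg3 hDec
    hst
  have htan : Tangent s P F := specMtan E he hinj g Es Ew s hsS 𝓕 P hF4 hchart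
  have hFU : ∀ x, ∀ w ∈ F x, s.U x w = w := by
    intro x w hw
    obtain ⟨v, hv, hvw⟩ := hw
    obtain ⟨e', he'1, he'2, he'3⟩ := hW x
    have h1 : v ∈ Eu x := by
      rw [he'3]
      exact Submodule.mem_sup_left hv
    have h2 : w ∈ (s.U x).range := by
      rw [hsU x]
      exact ⟨v, h1, hvw⟩
    obtain ⟨u, hu⟩ := h2
    have hu' : s.U x u = w := hu
    rw [← hu']
    exact s.UU_apply x u
  have hhyp : ∀ x, ∃ e : EuclideanSpace ℝ (Fin N), s.U x e = e ∧ e ∉ F x ∧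
      ∀ u, s.U x u = u → ∃ c : ℝ, u - c • e ∈ F x := by
    intro x
    obtain ⟨e', he'1, he'2, he'3⟩ := hW x
    refine ⟨dE V E.e x e', ?_, ?_, fun u hu => ?_⟩
    · have h2 : dE V E.e x e' ∈ (s.U x).range := by
        rw [hsU x]
        exact ⟨e', he'1, rfl⟩
      obtain ⟨u, hu⟩ := h2
      have hu' : s.U x u = dE V E.e x e' := hu
      rw [← hu']
      exact s.UU_apply x u
    · rintro ⟨v, hv, hve⟩
      have : v = e' := hinj x hve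
      rw [this] at hv
      exact he'2 hv
    · have h2 : u ∈ (s.U x).range := ⟨u, hu⟩
      rw [hsU x] at h2
      obtain ⟨v, hv, hvu⟩ := h2
      have hv' : v ∈ Eu x := hv
      rw [he'3, Submodule.mem_sup] at hv'
      obtain ⟨y, hy, z, hz, hyz⟩ := hv'
      obtain ⟨c, hc⟩ := Submodule.mem_span_singleton.1 hz
      have hvu' : dE V E.e x v = u := hvu
      have h3 : dE V E.e x y = u - c • dE V E.e x e' := by
        rw [← hvu', ← hyz, ← hc, map_add, map_smul]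
        abel
      exact ⟨c, y, hy, h3⟩
  have hl₂1 : l₂' < 1 := pow_lt_one₀ hl₂0.le hl₂ hn.ne'
  have hm1 : 1 < m' := one_lt_pow₀ hm hn.ne'
  obtain ⟨r, hr1, hr2⟩ := basin_univ specKappa specLpath specLgrow specCore s hs P H Q r₀ ρ₀ F
    hloc htan hFU hhyp hC'0 pl₁ (pow_le_pow_left₀ hl₁.le hl n) hl₂1 hm1
    (pow_le_pow_left₀ hm0.le hmb n) G₁ G₂ G₃ G₄ (pinch_pow hn hpinch) A rA hrA
    (fun r hr => (hattr r hr).1)
  exact (hattr r hr1).2 hr2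

/-- **The main theorem** from its modules. -/
theorem specMain (specLoc : SpecLoc.{v, w}) (specKappa : SpecKappa.{v})
    (specLpath : SpecLpath.{0, v}) (specLgrow : SpecLgrow.{0, v}) (specPow : SpecPow.{u, v, w})
    (specMtan : SpecMtan.{u, v, w}) (specCore : SpecCore.{v}) : SpecMain.{u, v, w} := by
  intro V _ _ _ V₀ _ _ M _ _ _ _ _ _ _ _ f Es Eu Ew hA hW 𝓕 hF1 hF2 hF3 hF4 C l₁ l₂ m b
    hl₁ hl hl₂ hm hmb hR hpinch
  obtain ⟨N, e, he, hemb, hinj⟩ := exists_embedding_euclidean_of_compact (I := 𝓘(ℝ, V)) (M := M)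
  let _ : MetricSpace M := hemb.isEmbedding.comapMetricSpace e
  have hiso : Isometry e := hemb.isEmbedding.to_isometry
  exact main_metric specLoc specKappa specLpath specLgrow specPow specMtan specCore e hiso he hinj
    f Es Eu Ew hA hW 𝓕 hF1 hF2 hF3 hF4 C l₁ l₂ m b hl₁ hl hl₂ hm hmb hR hpinch

end MainC

end Pool.Agent.Lib.MP610fe3.T4
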