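import Pool.Agent.Lib.MP_610fe3_an.T4.Spec2

/-!
# Module POW: powers of an Anosov diffeomorphism
-/

open Set Filter Function Bundle
open scoped Topology Manifold ContDiff

namespace Pool.Agent.Lib.MP610fe3.T4

universe u v w

namespace PowM

section Top

variable {M V₀ : Type*} [TopologicalSpace M] [NormedAddCommGroup V₀]
  {𝓕 : Set (OpenPartialHomeomorph M (V₀ × ℝ))} {f f' : M → M}

theorem inv_id (hF : IsFoliation 𝓕) : IsInvariant id 𝓕 := by
  intro φ hφ ψ hψ x hx hx'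
  exact hF.compat φ hφ ψ hψ x hx hx'

theorem inv_comp (hF : IsFoliation 𝓕) (hf : Continuous f) (h : IsInvariant f 𝓕)
    (h' : IsInvariant f' 𝓕) : IsInvariant (f' ∘ f) 𝓕 := by
  intro φ hφ ψ hψ x hx hx'
  obtain ⟨χ, hχ, hxχ⟩ := hF.cover (f x)
  have h1 := h φ hφ χ hχ x hx hxχ
  have h2 := h' χ hχ ψ hψ (f x) hxχ hx'
  have h3 : Tendsto (fun p : M × M => (f p.1, f p.2)) (𝓝 (x, x)) (𝓝 (f x, f x)) :=
    ((hf.comp continuous_fst).prodMk (hf.comp continuous_snd)).tendsto (x, x)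
  filter_upwards [h1, h3.eventually h2] with p hp1 hp2
  exact hp1.trans hp2

theorem inv_iterate (hF : IsFoliation 𝓕) (hf : Continuous f) (h : IsInvariant f 𝓕) (n : ℕ) :
    IsInvariant f^[n] 𝓕 := by
  induction n with
  | zero => exact inv_id hF
  | succ n ih =>
    rw [iterate_succ']
    exact inv_comp hF (hf.iterate n) ih h

theorem stable_iterate (hf : Continuous f) (h : ContainsStable f 𝓕) {n : ℕ} (hn : 0 < n) :
    ContainsStable f^[n] 𝓕 := by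
  intro φ hφ x hx
  obtain ⟨O, hO, hd, hs⟩ := h φ hφ x hx
  refine ⟨⋂ i : Fin n, {p : M × M | (f^[i] p.1, f^[i] p.2) ∈ O}, ?_, ?_, ?_⟩
  · refine isOpen_iInter_of_finite fun i => hO.preimage ?_
    exact ((hf.iterate i).comp continuous_fst).prodMk ((hf.iterate i).comp continuous_snd)
  · intro z
    refine mem_iInter.2 fun i => ?_
    exact hd _
  · intro y hy
    refine hs y fun m => ?_
    have h1 := mem_iInter.1 (hy (m / n)) ⟨m % n, Nat.mod_lt _ hn⟩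
    simp only [mem_ofPred_eq, ← iterate_mul, ← iterate_add_apply, Nat.mod_add_div] at h1
    exact h1

end Top

section Smooth

variable {V : Type u} [NormedAddCommGroup V] [NormedSpace ℝ V]
  {M : Type v} [TopologicalSpace M] [ChartedSpace V M]

/-- The powers of a diffeomorphism. -/
noncomputable def dpow (f : M ≃ₘ^1⟮𝓘(ℝ, V), 𝓘(ℝ, V)⟯ M) : ℕ → M ≃ₘ^1⟮𝓘(ℝ, V), 𝓘(ℝ, V)⟯ M
  | 0 => Diffeomorph.refl 𝓘(ℝ, V) M 1
  | n + 1 => (dpow f n).trans f

variable (f : M ≃ₘ^1⟮𝓘(ℝ, V), 𝓘(ℝ, V)⟯ M)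

theorem dpow_coe (n : ℕ) : ⇑(dpow f n) = (⇑f)^[n] := by
  induction n with
  | zero => rfl
  | succ n ih =>
    rw [iterate_succ', ← ih]
    rfl

theorem dpow_symm_coe (n : ℕ) : ⇑(dpow f n).symm = (⇑f.symm)^[n] := by
  induction n with
  | zero => rfl
  | succ n ih =>
    rw [iterate_succ, ← ih]
    rfl

theorem mdiff (n : ℕ) (x : M) : MDifferentiableAt 𝓘(ℝ, V) 𝓘(ℝ, V) ((⇑f)^[n]) x := by
  rw [← dpow_coe]
  exact (dpow f n).contMDiff.mdifferentiable one_ne_zero x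

theorem mfderiv_iter (n : ℕ) (x : M) :
    mfderiv 𝓘(ℝ, V) 𝓘(ℝ, V) ((⇑f)^[n + 1]) x
      = (mfderiv 𝓘(ℝ, V) 𝓘(ℝ, V) f ((⇑f)^[n] x)).comp
        (mfderiv 𝓘(ℝ, V) 𝓘(ℝ, V) ((⇑f)^[n]) x) := by
  rw [iterate_succ']
  exact mfderiv_comp x (f.contMDiff.mdifferentiable one_ne_zero _) (mdiff f n x)

theorem map_iter {F : ∀ x : M, Submodule ℝ (TangentSpace 𝓘(ℝ, V) x)}
    (h : ∀ x, (F x).map (mfderiv 𝓘(ℝ, V) 𝓘(ℝ, V) f x).toLinearMap = F (f x)) (n : ℕ) (x : M) :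
    (F x).map (mfderiv 𝓘(ℝ, V) 𝓘(ℝ, V) ((⇑f)^[n]) x).toLinearMap = F ((⇑f)^[n] x) := by
  induction n with
  | zero =>
    simp only [iterate_zero, mfderiv_id]
    exact Submodule.map_id _
  | succ n ih =>
    rw [mfderiv_iter, iterate_succ_apply', ← h, ← ih]
    exact Submodule.map_comp _ _ _

end Smooth

end PowM

open PowM in
theorem specPow : SpecPow.{u, v, w} := by
  intro V _ _ _ V₀ _ _ M _ _ _ _ _ _ f Es Eu Ew 𝓕 C l₁ l₂ m b n hn hA hF hI hS hR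
  have hfc : Continuous (⇑f) := f.continuous
  have hg : ⇑(dpow f n) = (⇑f)^[n] := dpow_coe f n
  have hg' : ⇑(dpow f n).symm = (⇑f.symm)^[n] := dpow_symm_coe f n
  have hgk : ∀ k, (⇑(dpow f n))^[k] = (⇑f)^[n * k] := fun k => by rw [hg, iterate_mul]
  have hgk' : ∀ k, (⇑(dpow f n).symm)^[k] = (⇑f.symm)^[n * k] := fun k => by
    rw [hg', iterate_mul]
  refine ⟨dpow f n, hg, hg', ?_, ?_, ?_, ?_⟩
  · refine ⟨hA.isCompl, fun x => ?_, fun x => ?_, ?_⟩
    · rw [hg]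
      exact map_iter f hA.map_s n x
    · rw [hg]
      exact map_iter f hA.map_u n x
    · obtain ⟨C', l, hC, hl, hl1, h⟩ := hA.estimate
      refine ⟨C', l ^ n, hC, pow_pos hl n, pow_lt_one₀ hl.le hl1 hn.ne', fun k x => ?_⟩
      rw [hgk, hgk', ← pow_mul]
      exact h (n * k) x
  · rw [hg]
    exact inv_iterate hF hfc hI n
  · rw [hg]
    exact stable_iterate hfc hS hn
  · refine ⟨fun k x v hv => ?_, fun k x v hv => ?_, fun k x v hv => ?_, fun k x v hv => ?_⟩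
    · rw [hgk, ← pow_mul]
      exact hR.s_fwd (n * k) x v hv
    · rw [hgk', ← inv_pow, ← pow_mul]
      exact hR.s_bwd (n * k) x v hv
    · rw [hgk', ← inv_pow, ← pow_mul]
      exact hR.u_bwd (n * k) x v hv
    · rw [hgk, ← pow_mul]
      exact hR.w_fwd (n * k) x v hv

end Pool.Agent.Lib.MP610fe3.T4
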