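import Pool.Agent.Lib.MP_610fe3_an.T4.Basics

/-!
# Module ALPHA: arcs in the basin have large content after a fixed time (helper80)
-/

open Set Filter Function
open scoped Topology ENNReal

namespace Pool.Agent.Lib.MP610fe3.T4.AlphaM

open Cf H6

universe u

variable {M : Type u} [MetricSpace M] {f : M ≃ₜ M} {E : M → M → Prop} {A B : Set M}
  {H : M → M → ℝ} {κ : M → ℝ → M} {C ν r r₁ ε ρ η : ℝ} {m : Set M → ℝ≥0∞}

/-- Points in the middle of an arc contained in `B` are far from the complement of `B`. -/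
theorem exists_far (hh : Hyp f C ν r r₁) (hb : Box f E H κ r r₁ ε ρ)
    (hB : Bas f E A B r r₁) {ρ₁ : ℝ} (hρ₁ : 0 < ρ₁) (hρ₁ρ : ρ₁ ≤ ρ) :
    ∃ d : ℝ, 0 < d ∧ ∀ (w : M) (τ : ℝ), |τ| = ρ₁ → κ w '' uIcc 0 τ ⊆ B →
      ∀ u ∈ Icc (1 / 4 : ℝ) (3 / 4), ∀ y, y ∉ B → d ≤ dist (κ w (u * τ)) y := by
  have hr := hh.r_pos
  have hr1 := hh.r₁_le
  have hr1' := hh.r₁_pos
  have hε := hb.ε_le
  have hε0 := hb.ε_pos
  obtain ⟨δ, hδ, hδ'⟩ := hb.equi (ρ₁ / 8) (by positivity)
  refine ⟨min δ (r₁ / 2), by positivity, fun w τ hτ hs u hu y hy => ?_⟩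
  by_contra hcon
  push Not at hcon
  have hd1 : dist (κ w (u * τ)) y ≤ δ := hcon.le.trans (min_le_left _ _)
  have hd2 : dist (κ w (u * τ)) y ≤ r₁ / 2 := hcon.le.trans (min_le_right _ _)
  have hut : |u * τ| ≤ 3 / 4 * ρ₁ := by
    rw [abs_mul, hτ, abs_of_nonneg (by linarith [hu.1])]
    nlinarith [hu.2]
  have hutρ : u * τ ∈ Icc (-ρ) ρ := abs_le.1 (by linarith)
  have h1 := hb.dist_κ w hutρ
  have hyw : dist y w ≤ ε + r₁ / 2 := by
    have := dist_triangle_left y w (κ w (u * τ))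
    linarith
  have h2 := hδ' w (κ w (u * τ)) y (by linarith) (by linarith) hd1
  rw [hb.κ_H w _ hutρ] at h2
  have h3 : H w y ∈ uIcc 0 τ := by
    rw [abs_le] at h2
    rcases le_total 0 τ with h | h
    · rw [abs_of_nonneg h] at hτ
      rw [uIcc_of_le h]
      constructor
      · nlinarith [hu.1, h2.2]
      · nlinarith [hu.2, h2.1]
    · rw [abs_of_nonpos h] at hτ
      rw [uIcc_of_ge h]
      constructor
      · nlinarith [hu.2, h2.2]
      · nlinarith [hu.1, h2.1]
  have h4 : |H w y| ≤ ρ := by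
    have := (abs_le.1 h2)
    rw [abs_le] at hut ⊢
    constructor <;> linarith [hut.1, hut.2, this.1, this.2]
  have h5 : E (κ w (H w y)) y := hb.hit (by linarith) (by linarith) h4
  have h6 := hb.dist_κ w (abs_le.1 h4)
  have h7 : dist (κ w (H w y)) y ≤ r₁ := by
    have := dist_triangle_right (κ w (H w y)) y w
    linarith
  exact hy ((hB.sat _ _ h7 h5).1 (hs ⟨_, h3, rfl⟩))

/-- Finite superadditivity. -/
theorem sum_le (hm : Cont E A r₁ η m) (S : ℕ → Set M) (hS : Pairwise (Disjoint on S)) (K : ℕ) :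
    ∑ k ∈ Finset.range K, m (S k) ≤ m (⋃ k < K, S k) := by
  induction K with
  | zero => simp
  | succ K ih =>
    rw [Finset.sum_range_succ]
    have h1 : Disjoint (⋃ k < K, S k) (S K) := by
      simp only [disjoint_iUnion_left]
      intro k hk
      exact hS hk.ne
    refine (add_le_add ih le_rfl).trans ((hm.disj _ _ h1).trans (hm.mono _ _ ?_))
    rw [biUnion_lt_succ]

theorem specAlpha : SpecAlpha.{u} := by
  intro M _ _ f E H κ A B C ν r r₁ ε ρ η q₀ m a q lam hall ρ₁ hρ₁ hρ₁ρ c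
  obtain ⟨hη, hh, hb, hA, hB, hn, hcomp, hm, hg⟩ := hall
  have hr := hh.r_pos
  have hr1 := hh.r₁_le
  have hr1' := hh.r₁_pos
  have hε := hb.ε_le
  have hε0 := hb.ε_pos
  obtain ⟨K, hK⟩ := exists_nat_gt (max c 0)
  have hKc : c ≤ K := (le_max_left _ _).trans hK.le
  have hK0 : (0 : ℝ) < K := (le_max_right _ _).trans_lt hK
  set δ : ℝ := ρ₁ / (8 * K) with hδ
  have hδ0 : 0 < δ := by positivity
  have hδK : 8 * K * δ = ρ₁ := by
    rw [hδ]
    field_simp
  have hK1 : (1 : ℝ) ≤ K := by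
    have : 0 < K := by exact_mod_cast hK0
    exact_mod_cast this
  have hδ8 : δ ≤ ρ₁ / 8 := by nlinarith
  obtain ⟨d, hd, hfar⟩ := exists_far hh hb hB hρ₁ hρ₁ρ
  obtain ⟨δ', hδ', hc1⟩ := hcomp δ hδ0
  set K3 : Set M := {x | ∀ y, y ∉ B → d ≤ dist x y} with hK3
  have hK3B : K3 ⊆ B := by
    intro x hx
    by_contra hcon
    have := hx x hcon
    rw [dist_self] at this
    linarith
  have hK3c : IsCompact K3 := by
    refine IsClosed.isCompact ?_
    have : K3 = ⋂ y, ⋂ (_ : y ∉ B), {x | d ≤ dist x y} := by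
      ext x
      simp [hK3]
    rw [this]
    exact isClosed_iInter fun y => isClosed_iInter fun _ =>
      isClosed_le continuous_const (continuous_id.dist continuous_const)
  obtain ⟨N₀, hN₀⟩ := hB.conv K3 hK3B hK3c δ' hδ'
  obtain ⟨m₀, hm₀⟩ := hc1 N₀
  obtain ⟨L, hL⟩ := hm₀ m₀ le_rfl
  refine ⟨m₀, fun w τ hτ hs => ?_⟩
  -- the intervals
  set u : ℕ → ℝ := fun k => 1 / 4 + (k + 1 / 2) / (2 * K) with hu
  have huI : ∀ k < K, u k ∈ Icc (1 / 4 : ℝ) (3 / 4) := by
    intro k hk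
    have h1 : (k : ℝ) + 1 ≤ K := by exact_mod_cast hk
    have h2 : (0 : ℝ) ≤ (k + 1 / 2) / (2 * K) := by positivity
    have h3 : ((k : ℝ) + 1 / 2) / (2 * K) ≤ 1 / 2 := by
      rw [div_le_iff₀ (by positivity)]
      linarith
    exact ⟨by simp only [hu]; linarith, by simp only [hu]; linarith⟩
  have huτ : ∀ k < K, |u k * τ| ≤ 3 / 4 * ρ₁ := by
    intro k hk
    rw [abs_mul, hτ, abs_of_nonneg (by linarith [(huI k hk).1])]
    nlinarith [(huI k hk).2]
  have hlo : ∀ k < K, -ρ ≤ u k * τ - δ := by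
    intro k hk
    have := (abs_le.1 (huτ k hk)).1
    linarith
  have hhi : ∀ k < K, u k * τ + δ ≤ ρ := by
    intro k hk
    have := (abs_le.1 (huτ k hk)).2
    linarith
  set I : ℕ → Set ℝ := fun k => Icc (u k * τ - δ) (u k * τ + δ) with hI
  have hIs : ∀ k < K, I k ⊆ uIcc 0 τ := by
    intro k hk t ht
    have h1 := huI k hk
    have h2 := ht.1
    have h3 := ht.2
    rcases le_total 0 τ with h | h
    · rw [abs_of_nonneg h] at hτ
      rw [uIcc_of_le h]
      constructor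
      · nlinarith [h1.1]
      · nlinarith [h1.2]
    · rw [abs_of_nonpos h] at hτ
      rw [uIcc_of_ge h]
      constructor
      · nlinarith [h1.2]
      · nlinarith [h1.1]
  have hIρ : ∀ k < K, I k ⊆ Icc (-ρ) ρ := fun k hk t ht =>
    ⟨(hlo k hk).trans ht.1, ht.2.trans (hhi k hk)⟩
  have hdisj : ∀ k < K, ∀ l < K, k ≠ l → Disjoint (I k) (I l) := by
    intro k _ l _ hkl
    rw [Set.disjoint_left]
    intro t ht ht'
    have h1 : |u k * τ - u l * τ| ≤ 2 * δ := by
      rw [abs_le]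
      constructor <;> linarith [ht.1, ht.2, ht'.1, ht'.2]
    have h2 : |u k * τ - u l * τ| = |(k : ℝ) - l| * (4 * δ) := by
      have e1 : u k * τ - u l * τ = ((k : ℝ) - l) * (1 / (2 * K) * τ) := by
        simp only [hu]
        field_simp
        ring
      rw [e1, abs_mul, abs_mul, hτ, abs_of_pos (show (0 : ℝ) < 1 / (2 * K) by positivity), hδ]
      congr 1
      field_simp
      norm_num
    have h3 : (1 : ℝ) ≤ |(k : ℝ) - l| := by
      have h4 : ((k : ℤ) - l) ≠ 0 := by omega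
      have h5 := Int.one_le_abs h4
      exact_mod_cast h5
    nlinarith
  -- the contents
  have hnr : ∀ᶠ j in atTop, ∀ k ∈ Finset.range K,
      ∃ n, Nr E A η n (f^[j + m₀] '' (κ w '' I k)) := by
    rw [Filter.eventually_all_finset]
    intro k hk
    rw [Finset.mem_range] at hk
    exact (tendsto_add_atTop_nat m₀).eventually
      (nr_eventually hη hb hB hn (hlo k hk) (hhi k hk) ((image_mono (hIs k hk)).trans hs))
  obtain ⟨D, hD⟩ := Ebd.iterate hb hh
  filter_upwards [hnr] with j hj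
  have himg : ∀ X : Set M, f^[j] '' (f^[m₀] '' X) = f^[j + m₀] '' X := by
    intro X
    rw [← image_comp, ← iterate_add]
  have hone : ∀ k ∈ Finset.range K, ENNReal.ofReal (a j) ≤
      m (f^[j] '' (f^[m₀] '' (κ w '' I k))) := by
    intro k hk
    refine hg.sup j _ fun T hTA hT => ?_
    have hk' := Finset.mem_range.1 hk
    have h1 : ∃ a ∈ A, f^[N₀] (κ w (u k * τ)) ∈ Wl f δ' a :=
      hN₀ N₀ le_rfl _ fun y hy => hfar w τ hτ hs _ (huI k hk') y hy
    have h2 := hL w (u k * τ) (hlo k hk') (hhi k hk') h1 T hT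
    refine hm.emb _ _ _ (hD j L _ _ h2) ?_
    rw [himg]
    exact hj k hk
  set S : ℕ → Set M := fun k => if k < K then f^[j] '' (f^[m₀] '' (κ w '' I k)) else ∅ with hS
  have hSd : Pairwise (Disjoint on S) := by
    intro k l hkl
    simp only [Function.onFun, hS]
    by_cases hk : k < K
    · by_cases hl : l < K
      · rw [if_pos hk, if_pos hl, himg, himg,
          disjoint_image_iff (f.injective.iterate _)]
        rw [Set.disjoint_left]
        rintro _ ⟨t, ht, rfl⟩ ⟨t', ht', heq⟩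
        have h1 : t = t' := by
          have h2 := congrArg (H w) heq
          rw [hb.κ_H w t (hIρ k hk ht), hb.κ_H w t' (hIρ l hl ht')] at h2
          exact h2.symm
        subst h1
        exact (Set.disjoint_left.1 (hdisj k hk l hl hkl)) ht ht'
      · rw [if_neg hl]
        exact disjoint_bot_right
    · rw [if_neg hk]
      exact disjoint_bot_left
  have hsum := sum_le hm S hSd K
  have h1 : (K : ℝ≥0∞) * ENNReal.ofReal (a j) ≤ ∑ k ∈ Finset.range K, m (S k) := by
    have h2 : ∑ _k ∈ Finset.range K, ENNReal.ofReal (a j) ≤ ∑ k ∈ Finset.range K, m (S k) := by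
      refine Finset.sum_le_sum fun k hk => ?_
      simp only [hS, if_pos (Finset.mem_range.1 hk)]
      exact hone k hk
    rwa [Finset.sum_const, Finset.card_range, nsmul_eq_mul] at h2
  have h3 : ENNReal.ofReal (c * a j) ≤ (K : ℝ≥0∞) * ENNReal.ofReal (a j) := by
    have h4 : ENNReal.ofReal (c * a j) ≤ ENNReal.ofReal (K * a j) :=
      ENNReal.ofReal_le_ofReal (mul_le_mul_of_nonneg_right hKc (hg.pos j).le)
    rwa [ENNReal.ofReal_mul hK0.le, ENNReal.ofReal_natCast] at h4
  refine h3.trans (h1.trans (hsum.trans (hm.mono _ _ ?_)))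
  refine iUnion₂_subset fun k hk => ?_
  simp only [hS, if_pos hk]
  exact image_mono (image_mono (image_mono (hIs k hk)))

end Pool.Agent.Lib.MP610fe3.T4.AlphaM
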