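import Pool.Agent.Lib.MP_610fe3_an.T4.Spec
import Pool.Agent.Lib.MP_610fe3_an.H6G.Corner

/-!
# Module BAS: the basin of an attractor (helper80)
-/

open Set Filter Function
open scoped Topology ENNReal

namespace Pool.Agent.Lib.MP610fe3.T4.BasM

open Cf H6

universe u

variable {M : Type u} [MetricSpace M] {f : M ≃ₜ M} {E : M → M → Prop} {A : Set M}
  {H : M → M → ℝ} {κ : M → ℝ → M} {C ν r r₁ ε ρ e α₁ α₂ β₁ β₂ Λ : ℝ}

/-- Local stable sets become small. -/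
theorem wl_small (hD : Dec f r C ν) {δ : ℝ} (hδ : 0 < δ) : ∃ m₀ : ℕ, ∀ m ≥ m₀, ∀ x y,
    y ∈ Wl f r x → f^[m] y ∈ Wl f δ (f^[m] x) := by
  have hC := hD.one_le
  obtain ⟨m₀, hm₀⟩ := exists_pow_le (C := C) (ε := r) hD.l_pos hD.l_lt hδ
  refine ⟨m₀, fun m hm x y hy k => ?_⟩
  rw [← iterate_add_apply, ← iterate_add_apply]
  have h1 := hD.dec x y hy (k + m)
  have h2 : ν ^ (k + m) ≤ ν ^ m₀ := pow_le_pow_of_le_one hD.l_pos.le hD.l_lt.le (by omega)
  have h3 : 0 ≤ ν ^ (k + m) := pow_nonneg hD.l_pos.le _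
  have h4 := Wl_dist hy
  have h5 : 0 ≤ ν ^ m₀ := pow_nonneg hD.l_pos.le _
  refine (h1.trans ?_).trans hm₀
  gcongr

theorem iter_mem {B : Set M} (h : ∀ x, f x ∈ B ↔ x ∈ B) (n : ℕ) (x : M) :
    f^[n] x ∈ B ↔ x ∈ B := by
  induction n generalizing x with
  | zero => rfl
  | succ n ih => rw [iterate_succ_apply, ih, h]

theorem symm_iter_mem {B : Set M} (h : ∀ x, f x ∈ B ↔ x ∈ B) (n : ℕ) (x : M) :
    f.symm^[n] x ∈ B ↔ x ∈ B := by
  have := iter_mem h n (f.symm^[n] x)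
  rw [iterate_symm_iterate] at this
  exact this.symm

/-- The points which are captured at the time `n`. -/
def cap (f : M ≃ₜ M) (A : Set M) (r : ℝ) (n : ℕ) : Set M := {x | ∃ a ∈ A, f^[n] x ∈ Wl f r a}

theorem cap_mono (hA : Attr f A r) : Monotone (cap f A r) := by
  refine monotone_nat_of_le_succ fun n x hx => ?_
  obtain ⟨a, ha, h⟩ := hx
  refine ⟨f a, (hA.inv a).2 ha, ?_⟩
  rw [iterate_succ_apply']
  exact Wl_map h

theorem mem_basin {x : M} : x ∈ basin f A r ↔ ∃ n, x ∈ cap f A r n := Iff.rfl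

/-- Every point of the basin has a neighbourhood which is captured at one time. -/
theorem exists_interior (hh : Hyp f C ν r r₁) (hA : Attr f A r) {x : M}
    (hx : x ∈ basin f A r) : ∃ n, x ∈ interior (cap f A r n) := by
  obtain ⟨n, a, ha, h⟩ := hx
  have hr : 0 < r := hh.fwd.ε_pos
  obtain ⟨δ, hδ, hex⟩ := hh.br.exist r hr
  obtain ⟨m, hm⟩ := wl_small hh.fwd (show 0 < δ / 2 by positivity)
  refine ⟨m + n, mem_interior_iff_mem_nhds.2 ?_⟩
  have hc : Continuous (f^[m + n]) := f.continuous.iterate _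
  have h1 : ∀ᶠ y in 𝓝 x, dist (f^[m + n] y) (f^[m + n] x) < δ / 2 :=
    (hc.tendsto x) (Metric.ball_mem_nhds _ (by positivity))
  filter_upwards [h1] with y hy
  have h2 := Wl_dist (hm m le_rfl _ _ h)
  rw [← iterate_add_apply] at h2
  have h3 : dist (f^[m + n] y) (f^[m] a) < δ := by
    have := dist_triangle (f^[m + n] y) (f^[m + n] x) (f^[m] a)
    linarith
  obtain ⟨z, hz1, hz2⟩ := hex _ _ h3
  refine ⟨z, ?_, Wl_comm hz1⟩
  exact hA.sat _ ((iter_mem hA.inv m a).2 ha) _ hz2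

theorem stab (hh : Hyp f C ν r r₁) (hA : Attr f A r) : ∀ x, ∀ y ∈ Wl f r x,
    x ∈ basin f A r → y ∈ basin f A r := by
  rintro x y hy ⟨n, a, ha, h⟩
  have hr : 0 < r := hh.fwd.ε_pos
  obtain ⟨m, hm⟩ := wl_small hh.fwd (show 0 < r / 2 by positivity)
  refine ⟨m + n, f^[m] a, (iter_mem hA.inv m a).2 ha, ?_⟩
  have h1 := hm m le_rfl _ _ h
  have h2 := hm (m + n) (by omega) _ _ hy
  rw [← iterate_add_apply] at h1
  have h3 := Wl_trans h1 h2
  rwa [add_halves] at h3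

theorem inv (hA : Attr f A r) (x : M) : f x ∈ basin f A r ↔ x ∈ basin f A r := by
  constructor
  · rintro ⟨n, a, ha, h⟩
    exact ⟨n + 1, a, ha, by rwa [iterate_succ_apply]⟩
  · rintro ⟨n, a, ha, h⟩
    refine ⟨n, f a, (hA.inv a).2 ha, ?_⟩
    rw [← iterate_succ_apply, iterate_succ_apply']
    exact Wl_map h

/-- A point of the basin is joined to a point of the attractor by a stable arc. -/
theorem exists_arc (ha : Arcs f E r e α₁ α₂ β₁ β₂ Λ) (hA : Attr f A r) {x : M}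
    (hx : x ∈ basin f A r) : ∃ (σ : ℝ → M) (Λ' : ℝ), UArc f.symm σ 0 1 ∧ σ 0 = x ∧ σ 1 ∈ A ∧
      Upp f.symm (e / 2) β₂ Λ' σ := by
  obtain ⟨n, a, haA, h⟩ := hx
  obtain ⟨σ, h1, h2, h3, h4⟩ := ha.stb _ _ (Wl_comm h)
  refine ⟨fun t => f.symm^[n] (σ t), Λ * Real.exp (β₂ * n), h1.iter n, ?_, ?_, fun m => ?_⟩
  · simp only [h2, symm_iterate_iterate]
  · simp only [h3]
    exact (symm_iter_mem hA.inv n a).2 haA
  · obtain ⟨K, hK, hS⟩ := h4 (m + n)
    refine ⟨K, hK.trans (le_of_eq ?_), hS.iter⟩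
    rw [mul_assoc, ← Real.exp_add]
    push_cast
    ring_nf

theorem sat_aux [CompactSpace M] (hh : Hyp f C ν r r₁) (hb : Box f E H κ r r₁ ε ρ)
    (ha : Arcs f E r e α₁ α₂ β₁ β₂ Λ) (he : 64 * e ≤ r) (hA : Attr f A r) {x y : M}
    (hd : dist x y ≤ r₁) (hE : E x y) (hx : x ∈ basin f A r) : y ∈ basin f A r := by
  have hr : 0 < r := hh.fwd.ε_pos
  have he0 := ha.ε_pos
  have hr1 := hh.r₁_le
  have hr1' := hh.r₁_pos
  obtain ⟨z, hz1, hz2⟩ := hh.step x y hd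
  have hz1' : z ∈ Wl f.symm r x := Wl_mono (by linarith) hz1
  have hz2' : z ∈ Wl f r y := Wl_mono (by linarith) hz2
  suffices hz : z ∈ basin f A r from stab hh hA z y (Wl_comm hz2') hz
  have hEz : E x z := by
    have h1 : E y z := hb.stab y z hz2'
    have hxx : dist x x ≤ r := by rw [dist_self]; exact hr.le
    have hyx : dist y x ≤ r := by rw [dist_comm]; linarith
    have hzx : dist z x ≤ r := Wl_dist hz1'
    rw [hb.E_iff x x z hxx hzx]
    rw [hb.E_iff x x y hxx hyx] at hE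
    rw [hb.E_iff x y z hyx hzx] at h1
    rw [hE, h1]
  obtain ⟨γ, hγ, hγ0, hγ1, hγU⟩ := ha.leaf x z hz1' hEz
  obtain ⟨σ, Λ', hσ, hσ0, hσ1, hσU⟩ := exists_arc ha hA hx
  have hγU' : Upp f e α₂ Λ γ := fun n => by
    obtain ⟨K, hK, hS⟩ := hγU n
    exact ⟨K, hK, hS.mono_eps (by linarith)⟩
  have hσU' : Upp f.symm e β₂ Λ' σ := fun n => by
    obtain ⟨K, hK, hS⟩ := hσU n
    exact ⟨K, hK, hS.mono_eps (by linarith)⟩
  obtain ⟨N₀, hN₀⟩ := rect_bound_gen ha.α₁_pos ha.α_le ha.β₁_pos ha.β_le ha.rate ha.Λ_nonneg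
    ha.Λ_nonneg hh.fwd hh.bwd he0 (by linarith) ha.low ha.low' Λ Λ'
  obtain ⟨w, hw1, hw2⟩ := exists_corner hh.fwd hh.bwd he0 (by linarith)
    (hh.br.mono he0 (by linarith) le_rfl) (show 0 < e / 2 by positivity) (by linarith) hγ hσ
    (by rw [hγ0, hσ0]) (N₀ := N₀) (hN₀ γ σ hγU' hσU')
  have hwA : w ∈ A := by
    rw [← symm_iter_mem hA.inv N₀]
    refine hA.sat _ ((symm_iter_mem hA.inv N₀ _).2 hσ1) _ fun k => ?_
    rw [← iterate_add_apply, ← iterate_add_apply]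
    exact (hw2 (k + N₀) (by omega)).trans (by linarith)
  rw [← iter_mem (inv hA) N₀]
  refine stab hh hA (f^[N₀] w) _ ?_ ?_
  · refine Wl_comm fun k => ?_
    rw [← iterate_add_apply, ← iterate_add_apply, ← hγ1]
    exact (hw1 (k + N₀) (by omega)).trans (by linarith)
  · rw [iter_mem (inv hA) N₀]
    exact ⟨0, w, hwA, mem_Wl_self hr.le⟩

theorem path (ha : Arcs f E r e α₁ α₂ β₁ β₂ Λ) (hA : Attr f A r) {x : M}
    (hx : x ∈ basin f A r) {δ : ℝ} (hδ : 0 < δ) : ∃ (k : ℕ) (w : ℕ → M), w 0 = x ∧ w k ∈ A ∧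
    ∀ i < k, w (i + 1) ∈ Wl f δ (w i) := by
  obtain ⟨σ, Λ', hσ, hσ0, hσ1, -⟩ := exists_arc ha hA hx
  obtain ⟨η, hη, -, h⟩ := hσ.modulus hδ hδ 0
  obtain ⟨k, hk⟩ := exists_nat_gt (1 / η)
  rw [div_lt_iff₀ hη] at hk
  have hmem : ∀ i : ℕ, min (i * η) 1 ∈ Icc (0 : ℝ) 1 := fun i =>
    ⟨le_min (by positivity) zero_le_one, min_le_right _ _⟩
  refine ⟨k, fun i => σ (min (i * η) 1), ?_, ?_, fun i _ n => ?_⟩
  · simp only [Nat.cast_zero, zero_mul]
    rw [min_eq_left zero_le_one]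
    exact hσ0
  · simp only
    rw [min_eq_right hk.le]
    exact hσ1
  · refine h n _ (hmem _) _ (hmem _) ?_
    have h1 : min ((i : ℝ) * η) 1 ≤ min (((i + 1 : ℕ) : ℝ) * η) 1 := by
      refine min_le_min ?_ le_rfl
      push_cast
      nlinarith
    rw [abs_of_nonneg (by linarith)]
    push_cast
    rcases le_total ((i : ℝ) * η) 1 with h2 | h2
    · rw [min_eq_left h2]
      have := min_le_left (((i : ℝ) + 1) * η) 1
      nlinarith
    · rw [min_eq_right h2]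
      have := min_le_right (((i : ℝ) + 1) * η) 1
      linarith

theorem specBas : SpecBas.{u} := by
  intro M _ _ f E H κ A C ν r r₁ ε ρ e α₁ α₂ β₁ β₂ Λ hh hb ha he1 he2 hA hne
  have hr : 0 < r := hh.fwd.ε_pos
  refine ⟨?_, ?_, inv hA, stab hh hA, ?_, ?_, ?_, hne⟩
  · rw [isOpen_iff_mem_nhds]
    intro x hx
    obtain ⟨n, hn⟩ := exists_interior hh hA hx
    filter_upwards [mem_interior_iff_mem_nhds.1 hn] with y hy
    exact ⟨n, hy⟩
  · exact fun x hx => ⟨0, x, hx, mem_Wl_self hr.le⟩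
  · intro K hKB hK δ hδ
    obtain ⟨m, hm⟩ := wl_small hh.fwd hδ
    obtain ⟨N, hN⟩ := hK.elim_directed_cover (fun n => interior (cap f A r n))
      (fun n => isOpen_interior)
      (fun x hx => mem_iUnion.2 (exists_interior hh hA (hKB hx)))
      (Monotone.directed_le fun i j hij => interior_mono (cap_mono hA hij))
    refine ⟨m + N, fun n hn x hx => ?_⟩
    obtain ⟨a, ha', h⟩ := interior_subset (hN hx)
    obtain ⟨j, rfl⟩ : ∃ j, n = j + N := ⟨n - N, by omega⟩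
    refine ⟨f^[j] a, (iter_mem hA.inv j a).2 ha', ?_⟩
    rw [iterate_add_apply]
    exact hm j (by omega) _ _ h
  · intro x y hd hE
    refine ⟨sat_aux hh hb ha he2 hA hd hE, sat_aux hh hb ha he2 hA (by rwa [dist_comm]) ?_⟩
    have hr1 := hh.r₁_le
    have hr1' := hh.r₁_pos
    have hxx : dist x x ≤ r := by rw [dist_self]; exact hr.le
    have hyx : dist y x ≤ r := by rw [dist_comm]; linarith
    rw [hb.E_iff x y x hyx hxx]
    exact ((hb.E_iff x x y hxx hyx).1 hE).symm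
  · exact fun x hx δ hδ => path ha hA hx hδ

end Pool.Agent.Lib.MP610fe3.T4.BasM
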