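import Pool.Agent.Lib.MP_610fe3_an.T4.Spec

/-!
# Common lemmas for the abstract part of the codimension one foliation theorem
-/

open Set Filter Function
open scoped Topology ENNReal

namespace Pool.Agent.Lib.MP610fe3.T4

open Cf H6

variable {M : Type*} [MetricSpace M] {f : M ≃ₜ M} {E : M → M → Prop} {H : M → M → ℝ}
  {κ : M → ℝ → M} {A B : Set M} {C ν r r₁ ε ρ : ℝ} {p q s x y : M}

/-! ### The scales -/

theorem Hyp.r_pos (hh : Hyp f C ν r r₁) : 0 < r := by linarith [hh.r₁_pos, hh.r₁_le]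

theorem Hyp.r₁_le_r (hh : Hyp f C ν r r₁) : r₁ ≤ r := by linarith [hh.r₁_pos, hh.r₁_le]

theorem Hyp.C_pos (hh : Hyp f C ν r r₁) : 0 < C := by linarith [hh.fwd.one_le]

/-! ### B1: the relation `E` -/

theorem Box.E_self (hb : Box f E H κ r r₁ ε ρ) (hr : 0 ≤ r) (x : M) : E x x :=
  (hb.E_iff x x x (by rwa [dist_self]) (by rwa [dist_self])).2 rfl

theorem Box.r_nonneg_of (h : dist p q ≤ r) : 0 ≤ r := dist_nonneg.trans h

theorem Box.E_symm (hb : Box f E H κ r r₁ ε ρ) (h : dist p q ≤ r) (hE : E p q) : E q p := by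
  have hr : 0 ≤ r := dist_nonneg.trans h
  have h1 := (hb.E_iff q p q h (by rwa [dist_self])).1 hE
  exact (hb.E_iff q q p (by rwa [dist_self]) h).2 h1.symm

theorem Box.E_comm (hb : Box f E H κ r r₁ ε ρ) (h : dist p q ≤ r) : E p q ↔ E q p :=
  ⟨hb.E_symm h, hb.E_symm (by rwa [dist_comm])⟩

theorem Box.E_trans (hb : Box f E H κ r r₁ ε ρ) (h1 : dist p q ≤ r) (h2 : dist q s ≤ r)
    (hpq : E p q) (hqs : E q s) : E p s := by
  have hr : 0 ≤ r := dist_nonneg.trans h1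
  have hs : dist s q ≤ r := by rwa [dist_comm]
  have e1 := (hb.E_iff q p q h1 (by rwa [dist_self])).1 hpq
  have e2 := (hb.E_iff q q s (by rwa [dist_self]) hs).1 hqs
  exact (hb.E_iff q p s h1 hs).2 (e1.trans e2)

theorem Box.E_iff_self (hb : Box f E H κ r r₁ ε ρ) (h : dist p x ≤ r) : E p x ↔ H x p = 0 := by
  have hr : 0 ≤ r := dist_nonneg.trans h
  rw [hb.E_iff x p x h (by rwa [dist_self]), hb.H_self]

/-! ### B2: propagation of `E` -/

theorem Box.prop (hb : Box f E H κ r r₁ ε ρ) (n : ℕ)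
    (h : ∀ k ≤ n, dist (f^[k] p) (f^[k] q) ≤ r) : E p q ↔ E (f^[n] p) (f^[n] q) := by
  induction n with
  | zero => simp
  | succ n ih =>
    rw [ih fun k hk => h k (by omega), iterate_succ_apply', iterate_succ_apply']
    refine hb.inv _ _ (h n (by omega)) ?_
    rw [← iterate_succ_apply' f, ← iterate_succ_apply' f]
    exact h (n + 1) le_rfl

theorem Box.prop_symm (hb : Box f E H κ r r₁ ε ρ) (n : ℕ)
    (h : ∀ k ≤ n, dist (f.symm^[k] p) (f.symm^[k] q) ≤ r) :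
    E p q ↔ E (f.symm^[n] p) (f.symm^[n] q) := by
  induction n with
  | zero => simp
  | succ n ih =>
    rw [ih fun k hk => h k (by omega), iterate_succ_apply', iterate_succ_apply']
    have h1 := h (n + 1) le_rfl
    rw [iterate_succ_apply', iterate_succ_apply'] at h1
    have h2 := hb.inv (f.symm (f.symm^[n] p)) (f.symm (f.symm^[n] q)) h1 (by
      rw [f.apply_symm_apply, f.apply_symm_apply]
      exact h n (by omega))
    rw [f.apply_symm_apply, f.apply_symm_apply] at h2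
    exact h2.symm

theorem Box.prop_wl (hb : Box f E H κ r r₁ ε ρ) (h : q ∈ Wl f.symm r p) (n : ℕ) :
    E p q ↔ E (f.symm^[n] p) (f.symm^[n] q) :=
  hb.prop_symm n fun k _ => by rw [dist_comm]; exact h k

theorem Box.prop_wl' (hb : Box f E H κ r r₁ ε ρ) (h : q ∈ Wl f r p) (n : ℕ) :
    E p q ↔ E (f^[n] p) (f^[n] q) :=
  hb.prop n fun k _ => by rw [dist_comm]; exact h k

/-! ### B3: transversals -/

theorem Box.dist_κ (hb : Box f E H κ r r₁ ε ρ) (x : M) {t : ℝ} (ht : t ∈ Icc (-ρ) ρ) :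
    dist (κ x t) x ≤ ε := hb.κ_mem x t ht 0

theorem Box.zero_mem (hb : Box f E H κ r r₁ ε ρ) : (0 : ℝ) ∈ Icc (-ρ) ρ :=
  ⟨by linarith [hb.ρ_pos], hb.ρ_pos.le⟩

/-- `H x` is small on a uniform neighbourhood of `x`. -/
theorem Box.exists_small (hb : Box f E H κ r r₁ ε ρ) (hr : 0 < r) {t : ℝ} (ht : 0 < t) :
    ∃ δ : ℝ, 0 < δ ∧ δ ≤ r ∧ ∀ x p, dist p x ≤ δ → |H x p| ≤ t := by
  obtain ⟨δ, hδ, h⟩ := hb.equi t ht
  refine ⟨min δ r, lt_min hδ hr, min_le_right _ _, fun x p hp => ?_⟩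
  have h1 := h x p x (hp.trans (min_le_right _ _)) (by rw [dist_self]; exact hr.le)
    (hp.trans (min_le_left _ _))
  rwa [hb.H_self, sub_zero] at h1

/-- The point of the transversal in the plaque of `p`. -/
theorem Box.hit (hb : Box f E H κ r r₁ ε ρ) (hε : ε ≤ r) (hp : dist p x ≤ r)
    (h : |H x p| ≤ ρ) : E (κ x (H x p)) p := by
  have ht : H x p ∈ Icc (-ρ) ρ := abs_le.1 h
  exact (hb.E_iff x _ p ((hb.dist_κ x ht).trans hε) hp).2 (hb.κ_H x _ ht)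

theorem Box.κ_continuousOn (hb : Box f E H κ r r₁ ε ρ) (x : M) :
    ContinuousOn (κ x) (Icc (-ρ) ρ) := by
  refine Metric.continuousOn_iff.2 fun t ht η hη => ?_
  obtain ⟨δ, hδ, h⟩ := hb.κ_equi (η / 2) (by positivity)
  refine ⟨δ, hδ, fun t' ht' hd => ?_⟩
  have h1 := h x t' ht' t ht (by rw [← Real.dist_eq]; exact hd.le)
  linarith

theorem Box.H_continuousOn (hb : Box f E H κ r r₁ ε ρ) (x : M) :
    ContinuousOn (H x) {p | dist p x ≤ r} := by
  refine Metric.continuousOn_iff.2 fun t ht η hη => ?_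
  obtain ⟨δ, hδ, h⟩ := hb.equi (η / 2) (by positivity)
  refine ⟨δ, hδ, fun t' ht' hd => ?_⟩
  have h1 := h x t' t ht' ht hd.le
  rw [Real.dist_eq]
  linarith

/-- The injectivity of the transversal. -/
theorem Box.κ_inj (hb : Box f E H κ r r₁ ε ρ) (hε : ε ≤ r) {t t' : ℝ} (ht : t ∈ Icc (-ρ) ρ)
    (ht' : t' ∈ Icc (-ρ) ρ) (hE : E (κ x t) (κ x t')) : t = t' := by
  have h1 := (hb.E_iff x _ _ ((hb.dist_κ x ht).trans hε) ((hb.dist_κ x ht').trans hε)).1 hE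
  rwa [hb.κ_H x t ht, hb.κ_H x t' ht'] at h1

/-! ### B4: heights along transversals -/

/-- The height at `x` along `f^{-n}` of the transversal at `y`, where `f^{-n} y` is close to
`x`. -/
theorem Box.win_cont (hb : Box f E H κ r r₁ ε ρ) (n : ℕ)
    (h : dist (f.symm^[n] y) x + ε ≤ r) :
    ContinuousOn (fun t => H x (f.symm^[n] (κ y t))) (Icc (-ρ) ρ) := by
  refine (hb.H_continuousOn x).comp
    ((f.symm.continuous.iterate n).comp_continuousOn (hb.κ_continuousOn y)) fun t ht => ?_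
  have h1 := hb.κ_mem y t ht n
  have h2 := dist_triangle (f.symm^[n] (κ y t)) (f.symm^[n] y) x
  simp only [mem_ofPred_eq]
  linarith

theorem Box.win_inj (hb : Box f E H κ r r₁ ε ρ) (hε : 2 * ε ≤ r) (n : ℕ)
    (h : dist (f.symm^[n] y) x + ε ≤ r) :
    InjOn (fun t => H x (f.symm^[n] (κ y t))) (Icc (-ρ) ρ) := by
  intro t ht t' ht' heq
  have hd : ∀ t ∈ Icc (-ρ) ρ, dist (f.symm^[n] (κ y t)) x ≤ r := by
    intro t ht
    have h1 := hb.κ_mem y t ht n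
    have h2 := dist_triangle (f.symm^[n] (κ y t)) (f.symm^[n] y) x
    linarith
  have h1 := (hb.E_iff x _ _ (hd t ht) (hd t' ht')).2 heq
  have h2 : E (κ y t) (κ y t') := by
    rw [hb.prop_symm n]
    · exact h1
    · intro k _
      have h3 := hb.κ_mem y t ht k
      have h4 := hb.κ_mem y t' ht' k
      have h5 := dist_triangle_right (f.symm^[k] (κ y t)) (f.symm^[k] (κ y t')) (f.symm^[k] y)
      linarith
  exact hb.κ_inj (by linarith [hb.ε_pos]) ht ht' h2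

theorem mono_or_anti {F : ℝ → ℝ} {a b : ℝ} (hab : a ≤ b) (hc : ContinuousOn F (Icc a b))
    (hi : InjOn F (Icc a b)) : StrictMonoOn F (Icc a b) ∨ StrictAntiOn F (Icc a b) :=
  hc.strictMonoOn_of_injOn_Icc' hab hi

/-- Heights along transversals are strictly monotone. -/
theorem Box.win_mono (hb : Box f E H κ r r₁ ε ρ) (hε : 2 * ε ≤ r) (n : ℕ)
    (h : dist (f.symm^[n] y) x + ε ≤ r) :
    StrictMonoOn (fun t => H x (f.symm^[n] (κ y t))) (Icc (-ρ) ρ) ∨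
      StrictAntiOn (fun t => H x (f.symm^[n] (κ y t))) (Icc (-ρ) ρ) :=
  mono_or_anti (by linarith [hb.ρ_pos]) (hb.win_cont n h) (hb.win_inj hε n h)

/-! ### B5: chains of plaque steps and moves -/

section Lk

variable {L L' : ℕ} {Γ Γ' Γ'' : Set M}

theorem Lk.zero (p : M) : Lk E r₁ 0 p p := ⟨fun _ => p, rfl, rfl, fun i hi => by omega⟩

theorem Lk.one (hd : dist p q ≤ r₁) (hE : E p q) : Lk E r₁ 1 p q := by
  refine ⟨fun i => if i = 0 then p else q, by simp, by simp, fun i hi => ?_⟩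
  obtain rfl : i = 0 := by omega
  simpa using ⟨hd, hE⟩

theorem Lk.trans (h : Lk E r₁ L p q) (h' : Lk E r₁ L' q s) : Lk E r₁ (L + L') p s := by
  obtain ⟨c, h0, h1, hc⟩ := h
  obtain ⟨c', h0', h1', hc'⟩ := h'
  refine ⟨fun i => if i < L then c i else c' (i - L), ?_, ?_, fun i hi => ?_⟩
  · rcases Nat.eq_zero_or_pos L with h | h
    · subst h
      simp [h0', ← h1, h0]
    · simp [h, h0]
  · simp [h1']
  · rcases lt_trichotomy (i + 1) L with h | h | h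
    · have h2 : i < L := by omega
      simp only [h, h2, if_true]
      exact hc i h2
    · have h2 : i < L := by omega
      have h3 : ¬ (i + 1 < L) := by omega
      simp only [h2, h3, if_true, if_false]
      rw [h, Nat.sub_self, h0', ← h1, ← h]
      exact hc i h2
    · have h2 : ¬ (i < L) := by omega
      have h3 : ¬ (i + 1 < L) := by omega
      simp only [h2, h3, if_false]
      rw [show i + 1 - L = i - L + 1 by omega]
      exact hc' _ (by omega)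

theorem Lk.refl (hb : Box f E H κ r r₁ ε ρ) (hh : Hyp f C ν r r₁) (L : ℕ) (p : M) :
    Lk E r₁ L p p :=
  ⟨fun _ => p, rfl, rfl, fun i _ => ⟨by rw [dist_self]; exact hh.r₁_pos.le,
    hb.E_self hh.r_pos.le p⟩⟩

theorem Lk.mono (hb : Box f E H κ r r₁ ε ρ) (hh : Hyp f C ν r r₁) (hL : L ≤ L')
    (h : Lk E r₁ L p q) : Lk E r₁ L' p q := by
  obtain ⟨k, rfl⟩ := Nat.exists_eq_add_of_le hL
  exact h.trans (Lk.refl hb hh k q)

theorem Lk.symm (hb : Box f E H κ r r₁ ε ρ) (hh : Hyp f C ν r r₁) (h : Lk E r₁ L p q) :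
    Lk E r₁ L q p := by
  obtain ⟨c, h0, h1, hc⟩ := h
  refine ⟨fun i => c (L - i), by simp [h1], by simp [h0], fun i hi => ?_⟩
  obtain ⟨h2, h3⟩ := hc (L - (i + 1)) (by omega)
  have h4 : L - (i + 1) + 1 = L - i := by omega
  rw [h4] at h2 h3
  refine ⟨by rwa [dist_comm], hb.E_symm (h2.trans hh.r₁_le_r) h3⟩

/-- `f` maps steps to chains of bounded length. -/
theorem Lk.image [CompactSpace M] (hb : Box f E H κ r r₁ ε ρ) (hh : Hyp f C ν r r₁) :
    ∃ D : ℕ, ∀ (L : ℕ) (p q : M), Lk E r₁ L p q → Lk E r₁ (D * L) (f p) (f q) := by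
  obtain ⟨η, hη, hu⟩ := Metric.uniformContinuous_iff.1
    (CompactSpace.uniformContinuous_of_continuous f.continuous) r₁ hh.r₁_pos
  obtain ⟨D, hD⟩ := hb.conn (min (η / 2) r₁) (lt_min (by positivity) hh.r₁_pos)
  refine ⟨D, fun L => ?_⟩
  induction L with
  | zero =>
    rintro p q ⟨c, h0, h1, -⟩
    rw [← h0, ← h1, Nat.mul_zero]
    exact Lk.zero _
  | succ L ih =>
    rintro p q ⟨c, h0, h1, hc⟩
    have hfirst : Lk E r₁ (D * L) (f p) (f (c L)) :=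
      ih p (c L) ⟨c, h0, rfl, fun i hi => hc i (by omega)⟩
    obtain ⟨h2, h3⟩ := hc L (by omega)
    rw [h1] at h2 h3
    obtain ⟨d, hd0, hdD, hd⟩ := hD _ _ h2 h3
    have hlast : Lk E r₁ D (f (c L)) (f q) := by
      refine ⟨fun i => f (d i), by simp [hd0], by simp [hdD], fun i hi => ?_⟩
      obtain ⟨h4, h5⟩ := hd i hi
      have h6 : dist (f (d i)) (f (d (i + 1))) ≤ r₁ :=
        (hu (lt_of_le_of_lt (h4.trans (min_le_left _ _)) (by linarith))).le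
      exact ⟨h6, (hb.inv _ _ ((h4.trans (min_le_right _ _)).trans hh.r₁_le_r)
        (h6.trans hh.r₁_le_r)).1 h5⟩
    rw [Nat.mul_succ]
    exact hfirst.trans hlast

theorem Lk.iterate [CompactSpace M] (hb : Box f E H κ r r₁ ε ρ) (hh : Hyp f C ν r r₁) :
    ∃ D : ℕ, ∀ (n L : ℕ) (p q : M), Lk E r₁ L p q →
      Lk E r₁ (D ^ n * L) (f^[n] p) (f^[n] q) := by
  obtain ⟨D, hD⟩ := Lk.image hb hh
  refine ⟨D, fun n => ?_⟩
  induction n with
  | zero => intro L p q h; simpa using h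
  | succ n ih =>
    intro L p q h
    rw [iterate_succ_apply', iterate_succ_apply', pow_succ', mul_assoc]
    exact hD _ _ _ (ih L p q h)

theorem Ebd.mono (hb : Box f E H κ r r₁ ε ρ) (hh : Hyp f C ν r r₁) (hL : L ≤ L')
    (h : Ebd E r₁ L Γ Γ') : Ebd E r₁ L' Γ Γ' := by
  obtain ⟨φ, h1, h2, h3⟩ := h
  exact ⟨φ, h1, h2, fun v hv => (h3 v hv).mono hb hh hL⟩

theorem Ebd.of_subset (h : Γ ⊆ Γ') : Ebd E r₁ 0 Γ Γ' :=
  ⟨id, injOn_id _, fun _ hv => h hv, fun v _ => Lk.zero v⟩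

theorem Ebd.trans (h : Ebd E r₁ L Γ Γ') (h' : Ebd E r₁ L' Γ' Γ'') :
    Ebd E r₁ (L + L') Γ Γ'' := by
  obtain ⟨φ, h1, h2, h3⟩ := h
  obtain ⟨φ', h1', h2', h3'⟩ := h'
  exact ⟨φ' ∘ φ, h1'.comp h1 h2, h2'.comp h2, fun v hv => (h3 v hv).trans (h3' _ (h2 hv))⟩

theorem Ebd.left (h : Ebd E r₁ L Γ' Γ'') (hs : Γ ⊆ Γ') : Ebd E r₁ L Γ Γ'' := by
  obtain ⟨φ, h1, h2, h3⟩ := h
  exact ⟨φ, h1.mono hs, fun v hv => h2 (hs hv), fun v hv => h3 v (hs hv)⟩

theorem Ebd.right (h : Ebd E r₁ L Γ Γ') (hs : Γ' ⊆ Γ'') : Ebd E r₁ L Γ Γ'' := by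
  obtain ⟨φ, h1, h2, h3⟩ := h
  exact ⟨φ, h1, fun v hv => hs (h2 hv), h3⟩

/-- Moves of one step, by choice. -/
theorem Ebd.of_E (hb : Box f E H κ r r₁ ε ρ) (hh : Hyp f C ν r r₁)
    (h : ∀ v ∈ Γ, ∃ v' ∈ Γ', dist v v' ≤ r₁ ∧ E v v')
    (hinj : ∀ v ∈ Γ, ∀ w ∈ Γ, dist v w ≤ 2 * r₁ → E v w → v = w) : Ebd E r₁ 1 Γ Γ' := by
  classical
  choose! φ hφ hd hE using h
  refine ⟨φ, fun v hv w hw heq => ?_, hφ, fun v hv => Lk.one (hd v hv) (hE v hv)⟩
  have h1 := hd v hv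
  have h2 := hd w hw
  rw [← heq, dist_comm] at h2
  have h3 := dist_triangle v (φ v) w
  refine hinj v hv w hw (by linarith) ?_
  have h4 := hE w hw
  rw [← heq] at h4
  refine hb.E_trans (h1.trans hh.r₁_le_r) (h2.trans hh.r₁_le_r) (hE v hv)
    (hb.E_symm ?_ h4)
  rw [dist_comm]
  exact h2.trans hh.r₁_le_r

theorem Ebd.iterate [CompactSpace M] (hb : Box f E H κ r r₁ ε ρ) (hh : Hyp f C ν r r₁) :
    ∃ D : ℕ, ∀ (n L : ℕ) (Γ Γ' : Set M), Ebd E r₁ L Γ Γ' →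
      Ebd E r₁ (D ^ n * L) (f^[n] '' Γ) (f^[n] '' Γ') := by
  obtain ⟨D, hD⟩ := Lk.iterate hb hh
  refine ⟨D, fun n L Γ Γ' h => ?_⟩
  obtain ⟨φ, h1, h2, h3⟩ := h
  refine ⟨fun v => f^[n] (φ (f.symm^[n] v)), ?_, ?_, ?_⟩
  · rintro _ ⟨v, hv, rfl⟩ _ ⟨w, hw, rfl⟩ heq
    simp only [Cf.symm_iterate_iterate] at heq
    rw [h1 hv hw (f.injective.iterate n heq)]
  · rintro _ ⟨v, hv, rfl⟩
    simp only [Cf.symm_iterate_iterate]
    exact ⟨_, h2 hv, rfl⟩
  · rintro _ ⟨v, hv, rfl⟩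
    simp only [Cf.symm_iterate_iterate]
    exact hD n L _ _ (h3 v hv)

end Lk

/-! ### The basin -/

theorem Bas.iter (hB : Bas f E A B r r₁) (n : ℕ) (x : M) : f^[n] x ∈ B ↔ x ∈ B := by
  induction n with
  | zero => simp
  | succ n ih => rw [iterate_succ_apply', hB.inv, ih]

theorem Bas.iter_symm (hB : Bas f E A B r r₁) (n : ℕ) (x : M) : f.symm^[n] x ∈ B ↔ x ∈ B := by
  conv_rhs => rw [← Cf.iterate_symm_iterate f n x]
  rw [hB.iter]

theorem Attr.iter (hA : Attr f A r) (n : ℕ) (x : M) : f^[n] x ∈ A ↔ x ∈ A := by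
  induction n with
  | zero => simp
  | succ n ih => rw [iterate_succ_apply', hA.inv, ih]

theorem Attr.iter_symm (hA : Attr f A r) (n : ℕ) (x : M) : f.symm^[n] x ∈ A ↔ x ∈ A := by
  conv_rhs => rw [← Cf.iterate_symm_iterate f n x]
  rw [hA.iter]

/-- Arcs of transversals in the basin are eventually close to `A`. -/
theorem nr_eventually [CompactSpace M] {η : ℝ} {q₀ : ℕ} (hη : 0 < η)
    (hb : Box f E H κ r r₁ ε ρ) (hB : Bas f E A B r r₁) (hn : NrP f E κ A r₁ ρ η q₀) {w : M}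
    {s t : ℝ} (hs : -ρ ≤ s) (ht : t ≤ ρ) (h : κ w '' Icc s t ⊆ B) :
    ∀ᶠ j in atTop, ∃ n, Nr E A η n (f^[j] '' (κ w '' Icc s t)) := by
  have hK : IsCompact (κ w '' Icc s t) :=
    isCompact_Icc.image_of_continuousOn ((hb.κ_continuousOn w).mono (Icc_subset_Icc hs ht))
  obtain ⟨N, hN⟩ := hB.conv _ h hK (η / 2) (by positivity)
  filter_upwards [eventually_ge_atTop N] with j hj
  obtain ⟨q', hq'⟩ := hn.arcs j
  refine ⟨q', hq' w s t hs ht fun t' ht' => ?_⟩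
  obtain ⟨a, ha, h1⟩ := hN j hj _ ⟨t', ht', rfl⟩
  exact ⟨a, ha, h1 0⟩

/-! ### Small content -/

section Sm

variable {m : Set M → ℝ≥0∞} {a : ℕ → ℝ} {q lam η c c' : ℝ} {Γ Γ' : Set M} {L : ℕ}

/-- Small content moves along the leaves. -/
theorem Sm.ebd [CompactSpace M] (hb : Box f E H κ r r₁ ε ρ) (hh : Hyp f C ν r r₁)
    (hm : Cont E A r₁ η m) (h : Sm f m a c Γ') (he : Ebd E r₁ L Γ Γ')
    (hn : ∀ᶠ j in atTop, ∃ n, Nr E A η n (f^[j] '' Γ')) : Sm f m a c Γ := by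
  obtain ⟨D, hD⟩ := Ebd.iterate hb hh
  filter_upwards [h, hn] with j h1 h2
  exact (hm.emb _ _ _ (hD j L _ _ he) h2).trans h1

theorem Sm.mono_c (hg : Gr f E A η m a q lam) (h : Sm f m a c Γ) (hc : c ≤ c') :
    Sm f m a c' Γ := by
  filter_upwards [h] with j h1
  refine h1.trans (ENNReal.ofReal_le_ofReal ?_)
  exact mul_le_mul_of_nonneg_right hc (hg.pos j).le

/-- Small content at a later time. -/
theorem Sm.of_iter (hg : Gr f E A η m a q lam) (hc : 0 ≤ c) (k : ℕ)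
    (h : Sm f m a c (f^[k] '' Γ)) : Sm f m a (c * q * lam ^ k) Γ := by
  have h1 : ∀ᶠ j in atTop, m (f^[j - k] '' (f^[k] '' Γ)) ≤ ENNReal.ofReal (c * a (j - k)) :=
    (tendsto_sub_atTop_nat k).eventually h
  filter_upwards [h1, eventually_ge_atTop k] with j h2 hj
  have h3 : f^[j - k] '' (f^[k] '' Γ) = f^[j] '' Γ := by
    rw [← image_comp, ← iterate_add, Nat.sub_add_cancel hj]
  rw [h3] at h2
  refine h2.trans (ENNReal.ofReal_le_ofReal ?_)
  have h4 := hg.low (j - k) k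
  rw [Nat.sub_add_cancel hj] at h4
  calc c * a (j - k) ≤ c * (q * lam ^ k * a j) := mul_le_mul_of_nonneg_left h4 hc
    _ = c * q * lam ^ k * a j := by ring

theorem Sm.of_iter' (hg : Gr f E A η m a q lam) (hc : 0 ≤ c) (k : ℕ)
    (h : Sm f m a c (f^[k] '' Γ)) : Sm f m a (c * q) Γ := by
  refine (h.of_iter hg hc k).mono_c hg ?_
  have h1 : lam ^ k ≤ 1 := pow_le_one₀ hg.lam_pos.le hg.lam_lt.le
  have h2 : 0 ≤ c * q := mul_nonneg hc (by linarith [hg.one_le])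
  nlinarith

end Sm

end Pool.Agent.Lib.MP610fe3.T4
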