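import Pool.Agent.Lib.MP_610fe3_an.T4.Hgt
import Pool.Agent.Lib.MP_610fe3_an.T4.Basics

/-!
# Module BETA: the content of the gaps is small
-/

open Set Filter Function
open scoped Topology ENNReal

namespace Pool.Agent.Lib.MP610fe3.T4

universe u

namespace Beta

open Cf H6 Hgt

theorem sign_mul_self {e : ℝ} (he : e = 1 ∨ e = -1) : e * e = 1 := by
  rcases he with h | h <;> rw [h] <;> norm_num

theorem sign_abs {e : ℝ} (he : e = 1 ∨ e = -1) : |e| = 1 := by
  rcases he with h | h <;> rw [h] <;> norm_num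

theorem sign_mem {e : ℝ} (he : e = 1 ∨ e = -1) {s ρ : ℝ} (h : |s| ≤ ρ) :
    e * s ∈ Icc (-ρ) ρ := by
  rw [mem_Icc, ← abs_le, abs_mul, sign_abs he, one_mul]
  exact h

theorem sign_image {e : ℝ} (he : e = 1 ∨ e = -1) {s t ρ : ℝ} (hs : 0 ≤ s) (hst : s ≤ t)
    (ht : t ≤ ρ) : ∃ s' t' : ℝ, -ρ ≤ s' ∧ t' ≤ ρ ∧ (fun u => e * u) '' Icc s t = Icc s' t' := by
  rcases he with h | h
  · refine ⟨s, t, by linarith, ht, ?_⟩
    simp [h]
  · refine ⟨-t, -s, by linarith, by linarith, ?_⟩
    have : (fun u : ℝ => e * u) = fun u => -u := by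
      funext u
      rw [h, neg_one_mul]
    rw [this, image_neg_eq_neg, neg_Icc]

section Uni

variable {M : Type*} [MetricSpace M] {f : M ≃ₜ M} {E : M → M → Prop} {H : M → M → ℝ}
  {κ : M → ℝ → M} {C ν r r₁ ε ρ : ℝ}

/-- uniform continuity of finitely many iterates -/
theorem unif_iter [CompactSpace M] (f : M ≃ₜ M) {η : ℝ} (hη : 0 < η) (n : ℕ) :
    ∃ δ : ℝ, 0 < δ ∧ ∀ p q : M, dist p q ≤ δ → ∀ k ≤ n, dist (f^[k] p) (f^[k] q) ≤ η := by
  induction n with
  | zero =>
    refine ⟨η, hη, fun p q h k hk => ?_⟩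
    obtain rfl : k = 0 := by omega
    exact h
  | succ n ih =>
    obtain ⟨δ, hδ, h⟩ := ih
    obtain ⟨δ', hδ', h'⟩ := Metric.uniformContinuous_iff.1
      (CompactSpace.uniformContinuous_of_continuous (f.continuous.iterate (n + 1))) η hη
    refine ⟨min δ (δ' / 2), lt_min hδ (half_pos hδ'), fun p q hd k hk => ?_⟩
    rcases Nat.lt_or_ge n k with h1 | h1
    · obtain rfl : k = n + 1 := by omega
      exact (h' (lt_of_le_of_lt (hd.trans (min_le_right _ _)) (by linarith))).le
    · exact h p q (hd.trans (min_le_left _ _)) k h1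

/-- the ends of the transversals have heights bounded from below after `n` steps back -/
theorem hgt_lower [CompactSpace M] (hh : Hyp f C ν r r₁) (hb : Box f E H κ r r₁ ε ρ) (n : ℕ) :
    ∃ t₀ : ℝ, 0 < t₀ ∧ ∀ x y : M, f.symm^[n] y = x → ∀ t ∈ Icc (-ρ) ρ, ρ / 2 ≤ |t| →
      t₀ ≤ |H x (f.symm^[n] (κ y t))| := by
  have hε := hb.ε_pos
  have hε2 := eps_le hh hb
  have hρ := hb.ρ_pos
  obtain ⟨δ₃, hδ₃, hδ₃r, h3⟩ := hb.exists_small hh.r_pos (t := ρ / 4) (by linarith)
  obtain ⟨δ₂, hδ₂, h2⟩ := unif_iter f (η := min δ₃ (r / 2))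
    (lt_min hδ₃ (by linarith)) n
  obtain ⟨δ₁, hδ₁, h1⟩ := hb.κ_equi δ₂ hδ₂
  refine ⟨min δ₁ ρ, lt_min hδ₁ hρ, fun x y hy t ht htρ => ?_⟩
  by_contra hcon
  rw [not_le] at hcon
  set h := H x (f.symm^[n] (κ y t)) with hh'
  have hhρ : |h| ≤ ρ := hcon.le.trans (min_le_right _ _)
  have hhm : h ∈ Icc (-ρ) ρ := abs_le.1 hhρ
  have hd : dist (κ x h) x ≤ δ₂ := by
    have := h1 x h hhm 0 hb.zero_mem (by rw [sub_zero]; exact hcon.le.trans (min_le_left _ _))
    rwa [hb.κ_zero] at this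
  have hE : E (κ x h) (f.symm^[n] (κ y t)) := E_kap hh hb hy ht hhm hh'.symm
  have hfy : ∀ k ≤ n, f^[k] (f.symm^[n] y) = f^[k] x := fun k _ => by rw [hy]
  have hE' : E (f^[n] (κ x h)) (κ y t) := by
    have h4 := (hb.prop (p := κ x h) (q := f.symm^[n] (κ y t)) n fun k hk => ?_).1 hE
    · rwa [iterate_symm_iterate] at h4
    · have h5 := h2 _ _ hd k hk
      have h6 := hb.κ_mem y t ht (n - k)
      rw [← iterate_symm_iterate_of_le f hk, ← iterate_symm_iterate_of_le f hk, hfy k hk] at h6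
      have h7 := dist_triangle_right (f^[k] (κ x h)) (f^[k] (f.symm^[n] (κ y t))) (f^[k] x)
      have h8 := h5.trans (min_le_right _ _)
      linarith
  have hd' : dist (f^[n] (κ x h)) y ≤ δ₃ := by
    have h5 := h2 _ _ hd n le_rfl
    rw [← hy, iterate_symm_iterate] at h5
    rw [← hy]
    exact h5.trans (min_le_left _ _)
  have h9 := (hb.E_iff y _ _ (hd'.trans hδ₃r) ((kap_d hb ht).trans (by linarith))).1 hE'
  rw [hb.κ_H y t ht] at h9
  have h10 := h3 y _ hd'
  rw [h9] at h10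
  linarith

end Uni

section Content

variable {M : Type*} [MetricSpace M] {f : M ≃ₜ M} {E : M → M → Prop} {A : Set M}
  {r₁ η q lam : ℝ} {m : Set M → ℝ≥0∞} {a : ℕ → ℝ}

theorem Nr_bound (hm : Cont E A r₁ η m) (hg : Gr f E A η m a q lam) {n : ℕ} {Γ : Set M}
    (h : Nr E A η n Γ) (j : ℕ) : m (f^[j] '' Γ) ≤ ENNReal.ofReal (n * q * a j) := by
  obtain ⟨T, hT, hΓ⟩ := h
  have hq : 0 ≤ q := by linarith [hg.one_le]
  have ha := (hg.pos j).le
  have key : ∀ n : ℕ, m (f^[j] '' ⋃ i < n, T i) ≤ ENNReal.ofReal (n * q * a j) := by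
    intro n
    induction n with
    | zero => simp [hm.empty]
    | succ n ih =>
      rw [biUnion_lt_succ, image_union]
      refine (hm.union _ _).trans ?_
      have h1 := hg.le j (T n) (hT n)
      refine (add_le_add ih h1).trans ?_
      rw [← ENNReal.ofReal_add (by positivity) (by positivity)]
      refine ENNReal.ofReal_le_ofReal ?_
      push_cast
      nlinarith
  exact (hm.mono _ _ (image_mono hΓ)).trans (key n)

theorem Sm_of_Nr (hm : Cont E A r₁ η m) (hg : Gr f E A η m a q lam) {n N : ℕ} {Γ : Set M}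
    (h : Nr E A η n (f^[N] '' Γ)) : Sm f m a (n * q * q) Γ := by
  have hq : 0 ≤ q := by linarith [hg.one_le]
  exact Sm.of_iter' hg (by positivity) N (Eventually.of_forall fun j => Nr_bound hm hg h j)

theorem Sm_union (hm : Cont E A r₁ η m) (hg : Gr f E A η m a q lam) {c c' : ℝ} (hc : 0 ≤ c)
    (hc' : 0 ≤ c') {Γ Γ' : Set M} (h : Sm f m a c Γ) (h' : Sm f m a c' Γ') :
    Sm f m a (c + c') (Γ ∪ Γ') := by
  filter_upwards [h, h'] with j h1 h2
  rw [image_union]
  refine (hm.union _ _).trans ((add_le_add h1 h2).trans ?_)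
  have := hg.pos j
  rw [← ENNReal.ofReal_add (by positivity) (by positivity), add_mul]

theorem Sm_subset (hm : Cont E A r₁ η m) {c : ℝ} {Γ Γ' : Set M} (h : Sm f m a c Γ')
    (hs : Γ ⊆ Γ') : Sm f m a c Γ := by
  filter_upwards [h] with j h1
  exact (hm.mono _ _ (image_mono hs)).trans h1

end Content

end Beta

open Cf H6 Hgt Beta

theorem specBeta : SpecBeta.{u} := by
  intro M _ _ f E H κ A B C ν r r₁ ε ρ η q₀ m a q lam hall ⟨n₀, hn₀⟩
  have hh := hall.hyp
  have hb := hall.box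
  have hB := hall.bas
  have hm := hall.cont
  have hg := hall.gr
  have hη := hall.η_pos
  have hε := hb.ε_pos
  have hε1 := hb.ε_le
  have hε2 := eps_le hh hb
  have hr1 := hh.r₁_le
  have hρ := hb.ρ_pos
  have hq : 0 < q := by linarith [hg.one_le]
  obtain ⟨n₁, hn₁⟩ := hgt_small hh hb (η := ρ / 2) (half_pos hρ)
  obtain ⟨n₂, hn₂⟩ : ∃ n₂ : ℕ, ∀ n ≥ n₂, q * lam ^ n ≤ 1 / 2 := by
    have h1 : Tendsto (fun n : ℕ => q * lam ^ n) atTop (𝓝 (q * 0)) :=
      (tendsto_pow_atTop_nhds_zero_of_lt_one hg.lam_pos.le hg.lam_lt).const_mul q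
    rw [mul_zero] at h1
    exact (h1.eventually (ge_mem_nhds (by norm_num : (0 : ℝ) < 1 / 2))).exists_forall_of_atTop
  set n := max (max n₀ n₁) (max n₂ 1) with hn
  have hnn₀ : n₀ ≤ n := (le_max_left _ _).trans (le_max_left _ _)
  have hnn₁ : n₁ ≤ n := (le_max_right _ _).trans (le_max_left _ _)
  have hnn₂ : n₂ ≤ n := (le_max_left _ _).trans (le_max_right _ _)
  have hn1 : 1 ≤ n := (le_max_right _ _).trans (le_max_right _ _)
  clear_value n
  obtain ⟨z, e, hgap⟩ := hn₀ n hnn₀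
  have hzz : ∀ i, f.symm^[n] (z (i + 1)) = z i := fun i => by
    rw [hgap.succ, symm_iterate_iterate]
  have hzk : ∀ k i, f.symm^[n * k] (z (i + k)) = z i := by
    intro k
    induction k with
    | zero => intro i; rfl
    | succ k ih =>
      intro i
      rw [Nat.mul_succ, iterate_add_apply, ← add_assoc, hzz, ih]
  have hes : ∀ i, e i * e i = 1 := fun i => sign_mul_self (hgap.sign i)
  have hm2 : ∀ i, ∀ s ∈ Icc (0 : ℝ) (ρ / 2), e i * s ∈ Icc (-ρ) ρ := fun i s hs =>
    sign_mem (hgap.sign i) (by rw [abs_of_nonneg hs.1]; linarith [hs.2])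
  -- the return maps
  set F : ℕ → ℝ → ℝ := fun i s => e i * H (z i) (f.symm^[n] (κ (z (i + 1)) (e (i + 1) * s)))
    with hF
  have hF0 : ∀ i, F i 0 = 0 := fun i => by
    simp only [hF, mul_zero, hgt_zero hb (hzz i)]
  have hFc : ∀ i, ContinuousOn (F i) (Icc 0 (ρ / 2)) := by
    intro i
    refine continuousOn_const.mul ?_
    exact (contOn_hgt hh hb (hzz i)).comp (by fun_prop) fun s hs => hm2 (i + 1) s hs
  have hFi : ∀ i, InjOn (F i) (Icc 0 (ρ / 2)) := by
    intro i s hs s' hs' hss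
    have he0 : ∀ i, e i ≠ 0 := fun i h => by
      have := hes i
      rw [h, zero_mul] at this
      exact zero_ne_one this
    have h1 := mul_left_cancel₀ (he0 i) hss
    have h2 := injOn_hgt hh hb (hzz i) (hm2 (i + 1) s hs) (hm2 (i + 1) s' hs') h1
    exact mul_left_cancel₀ (he0 (i + 1)) h2
  have hFm : ∀ i, StrictMonoOn (F i) (Icc 0 (ρ / 2)) := fun i =>
    strictMonoOn_of_nonneg (half_pos hρ) (hFc i) (hFi i) (hF0 i)
      (right_mem_Icc.2 (half_pos hρ).le) (half_pos hρ)
      (hgap.side i _ (right_mem_Icc.2 (half_pos hρ).le))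
  have hFle : ∀ i, ∀ s ∈ Icc (0 : ℝ) (ρ / 2), F i s ≤ ρ / 2 := by
    intro i s hs
    have h1 := hn₁ n hnn₁ (z i) (z (i + 1)) (hzz i) _ (hm2 (i + 1) s hs)
    refine (le_abs_self _).trans ?_
    simp only [hF]
    rw [abs_mul, sign_abs (hgap.sign i), one_mul]
    exact h1
  -- the lower bound
  obtain ⟨t₀, ht₀, ht₀'⟩ := hgt_lower hh hb n
  have hF2 : ∀ i, t₀ ≤ F i (ρ / 2) := by
    intro i
    have h1 := ht₀' (z i) (z (i + 1)) (hzz i) (e (i + 1) * (ρ / 2))
      (hm2 (i + 1) _ (right_mem_Icc.2 (half_pos hρ).le))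
      (by rw [abs_mul, sign_abs (hgap.sign _), one_mul, abs_of_pos (half_pos hρ)])
    have h2 : 0 ≤ F i (ρ / 2) := hgap.side i _ (right_mem_Icc.2 (half_pos hρ).le)
    rw [← abs_of_nonneg h2]
    simp only [hF]
    rw [abs_mul, sign_abs (hgap.sign i), one_mul]
    exact h1
  have ht₀ρ : t₀ ≤ ρ / 2 := (hF2 0).trans (hFle 0 _ (right_mem_Icc.2 (half_pos hρ).le))
  -- the arcs away from the ends
  obtain ⟨c₁, hc₁, hD⟩ : ∃ c₁ : ℝ, 0 ≤ c₁ ∧ ∀ i s, t₀ ≤ s → s ≤ ρ / 2 →
      Sm f m a c₁ (κ (z i) '' ((fun s => e i * s) '' Icc s (ρ / 2))) := by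
    obtain ⟨δ, hδ, hδ'⟩ := hb.equi (t₀ / 2) (half_pos ht₀)
    set d₃ := min δ ε with hd₃
    have hd₃0 : 0 < d₃ := lt_min hδ hε
    set K₃ : Set M := {x | ∀ y, y ∉ B → d₃ ≤ dist x y} with hK₃
    have hK₃c : IsCompact K₃ := by
      have : K₃ = ⋂ y : M, ⋂ (_ : y ∉ B), {x : M | d₃ ≤ dist x y} := by
        ext x
        simp [hK₃]
      rw [this]
      refine IsClosed.isCompact (isClosed_iInter fun y => isClosed_iInter fun _ => ?_)
      exact isClosed_le continuous_const (continuous_id.dist continuous_const)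
    have hK₃B : K₃ ⊆ B := by
      intro x hx
      by_contra hcon
      have := hx x hcon
      rw [dist_self] at this
      exact absurd this (not_le.2 hd₃0)
    obtain ⟨N₃, hN₃⟩ := hB.conv K₃ hK₃B hK₃c (η / 2) (half_pos hη)
    obtain ⟨q', hq'⟩ := hall.nrp.arcs N₃
    refine ⟨q' * q * q, by positivity, fun i s hs hs' => ?_⟩
    obtain ⟨s', t', hs1, ht1, hst⟩ := sign_image (hgap.sign i) (ht₀.le.trans hs) hs'
      (by linarith : ρ / 2 ≤ ρ)
    rw [hst]
    refine Sm_of_Nr hm hg (hq' (z i) s' t' hs1 ht1 fun u hu => ?_)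
    rw [← hst] at hu
    obtain ⟨u, hu, rfl⟩ := hu
    have hu0 : t₀ ≤ u := hs.trans hu.1
    have hx : κ (z i) (e i * u) ∈ K₃ := by
      intro y hy
      by_contra hcon
      rw [not_le] at hcon
      have hum := hm2 i u ⟨ht₀.le.trans hu0, hu.2⟩
      have h1 : dist (κ (z i) (e i * u)) (z i) ≤ ε := kap_d hb hum
      have h2 : dist y (z i) ≤ 2 * ε := by
        have := dist_triangle_left y (z i) (κ (z i) (e i * u))
        have h3 : dist (κ (z i) (e i * u)) y ≤ ε := hcon.le.trans (min_le_right _ _)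
        linarith
      have h3 := hδ' (z i) y (κ (z i) (e i * u)) (by linarith) (by linarith)
        (by rw [dist_comm]; exact hcon.le.trans (min_le_left _ _))
      rw [hb.κ_H _ _ hum] at h3
      set v := e i * H (z i) y with hv
      have hHv : H (z i) y = e i * v := by rw [hv, ← mul_assoc, hes, one_mul]
      have h4 : |v - u| ≤ t₀ / 2 := by
        rw [hHv, ← mul_sub, abs_mul, sign_abs (hgap.sign i), one_mul] at h3
        exact h3
      have h5 := abs_le.1 h4
      have h6 : κ (z i) (e i * v) ∈ B :=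
        hgap.mem i v ⟨by linarith [h5.1], by linarith [h5.2, hu.2]⟩
      have hvm : e i * v ∈ Icc (-ρ) ρ := sign_mem (hgap.sign i)
        (abs_le.2 ⟨by linarith [h5.1], by linarith [h5.2, hu.2]⟩)
      have h7 : E (κ (z i) (e i * v)) y := by
        refine (hb.E_iff (z i) _ _ ((kap_d hb hvm).trans (by linarith)) (by linarith)).2 ?_
        rw [hb.κ_H _ _ hvm, hHv]
      have h8 : dist (κ (z i) (e i * v)) y ≤ r₁ := by
        have := dist_triangle_right (κ (z i) (e i * v)) y (z i)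
        linarith [kap_d hb hvm (x := z i)]
      exact hy ((hB.sat _ _ h8 h7).1 h6)
    obtain ⟨b, hbA, hb'⟩ := hN₃ N₃ le_rfl _ hx
    exact ⟨b, hbA, hb' 0⟩
  -- the induction
  set c := 2 * c₁ with hc
  have hc0 : 0 ≤ c := by positivity
  have key : ∀ k i t, 0 < t → t ≤ ρ / 2 →
      (∀ u ∈ Icc (0 : ℝ) (ρ / 2),
        e i * H (z i) (f.symm^[n * k] (κ (z (i + k)) (e (i + k) * u))) < t) →
      Sm f m a c (κ (z i) '' ((fun s => e i * s) '' Icc t (ρ / 2))) := by
    intro k
    induction k with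
    | zero =>
      intro i t ht ht' hyp
      have h1 := hyp (ρ / 2) (right_mem_Icc.2 (half_pos hρ).le)
      simp only [Nat.mul_zero, iterate_zero, id_eq, add_zero] at h1
      rw [hb.κ_H _ _ (hm2 i _ (right_mem_Icc.2 (half_pos hρ).le)), ← mul_assoc, hes,
        one_mul] at h1
      exact absurd h1 (not_lt.2 ht')
    | succ k ih =>
      intro i t ht ht' hyp
      rcases lt_or_ge (F i (ρ / 2)) t with hcase | hcase
      · exact (hD i t ((hF2 i).trans hcase.le) ht').mono_c hg (by linarith)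
      · -- pull back
        obtain ⟨t', ht'm, hFt'⟩ := intermediate_value_Icc (half_pos hρ).le (hFc i)
          (show t ∈ Icc (F i 0) (F i (ρ / 2)) from ⟨by rw [hF0]; exact ht.le, hcase⟩)
        have ht'0 : 0 < t' := by
          rcases ht'm.1.eq_or_lt with h0 | h0
          · rw [← h0, hF0] at hFt'
            exact absurd hFt' ht.ne
          · exact h0
        have hSm := ih (i + 1) t' ht'0 ht'm.2 (by
          intro u hu
          set y := z (i + 1 + k) with hy
          set v := e (i + 1) * H (z (i + 1)) (f.symm^[n * k] (κ y (e (i + 1 + k) * u))) with hv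
          have hHv : H (z (i + 1)) (f.symm^[n * k] (κ y (e (i + 1 + k) * u)))
              = e (i + 1) * v := by rw [hv, ← mul_assoc, hes, one_mul]
          by_contra hcon
          rw [not_lt] at hcon
          have hvle : v ≤ ρ / 2 := by
            rcases Nat.eq_zero_or_pos k with hk | hk
            · subst hk
              have : v = u := by
                rw [hv]
                simp only [Nat.mul_zero, iterate_zero, id_eq, hy, add_zero]
                rw [hb.κ_H _ _ (hm2 _ _ hu), ← mul_assoc, hes, one_mul]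
              rw [this]
              exact hu.2
            · have h1 := hn₁ (n * k) (hnn₁.trans (Nat.le_mul_of_pos_right n hk)) (z (i + 1)) y
                (hzk k (i + 1)) _ (hm2 (i + 1 + k) u hu)
              refine (le_abs_self _).trans ?_
              rw [hv, abs_mul, sign_abs (hgap.sign _), one_mul]
              exact h1
          have hvm : v ∈ Icc (0 : ℝ) (ρ / 2) := ⟨ht'0.le.trans hcon, hvle⟩
          have h1 := (hFm i).monotoneOn ht'm hvm hcon
          rw [hFt'] at h1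
          have h2 := hgt_back hh hb (hzk k (i + 1)) (hzz i) (hm2 (i + 1 + k) u hu)
            (hm2 (i + 1) v hvm) hHv
          have h3 := hyp u hu
          have e1 : i + (k + 1) = i + 1 + k := by ring
          have e2 : n * (k + 1) = n + n * k := by ring
          rw [e1, e2, ← h2] at h3
          exact absurd h1 (not_le.2 h3))
        set Γ₂ : Set M := κ (z (i + 1)) '' ((fun s => e (i + 1) * s) '' Icc t' (ρ / 2)) with hΓ₂
        have hΓ₂B : Γ₂ ⊆ B := by
          rintro _ ⟨_, ⟨u, hu, rfl⟩, rfl⟩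
          exact hgap.mem (i + 1) u ⟨ht'0.trans_le hu.1, by linarith [hu.2]⟩
        set Γ₁ : Set M := κ (z i) '' ((fun s => e i * s) '' Icc t (F i (ρ / 2))) with hΓ₁
        have hebd : Ebd E r₁ 1 Γ₁ (f.symm^[n] '' Γ₂) := by
          refine Ebd.of_E hb hh ?_ ?_
          · rintro _ ⟨_, ⟨u, hu, rfl⟩, rfl⟩
            obtain ⟨u', hu', hFu'⟩ := intermediate_value_Icc ht'm.2
              ((hFc i).mono (Icc_subset_Icc_left ht'm.1))
              (show u ∈ Icc (F i t') (F i (ρ / 2)) by rw [hFt']; exact hu)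
            have hu'm : u' ∈ Icc (0 : ℝ) (ρ / 2) := ⟨ht'm.1.trans hu'.1, hu'.2⟩
            have hum : u ∈ Icc (0 : ℝ) (ρ / 2) :=
              ⟨ht.le.trans hu.1, hu.2.trans (hFle i _ (right_mem_Icc.2 (half_pos hρ).le))⟩
            refine ⟨_, ⟨_, ⟨_, ⟨u', hu', rfl⟩, rfl⟩, rfl⟩, ?_, ?_⟩
            · exact (dist_kap hb (hzz i) (hm2 _ _ hu'm) (hm2 _ _ hum) 0).trans (by linarith)
            · refine E_kap hh hb (hzz i) (hm2 _ _ hu'm) (hm2 _ _ hum) ?_
              rw [← hFu']
              simp only [hF]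
              rw [← mul_assoc, hes, one_mul]
          · rintro _ ⟨_, ⟨u, hu, rfl⟩, rfl⟩ _ ⟨_, ⟨u', hu', rfl⟩, rfl⟩ _ hE
            have hle := hFle i _ (right_mem_Icc.2 (half_pos hρ).le)
            have h1 := hb.κ_inj (by linarith) (hm2 i u ⟨ht.le.trans hu.1, hu.2.trans hle⟩)
              (hm2 i u' ⟨ht.le.trans hu'.1, hu'.2.trans hle⟩) hE
            show κ (z i) (e i * u) = κ (z i) (e i * u')
            rw [h1]
        have himg : f^[n] '' (f.symm^[n] '' Γ₂) = Γ₂ := by
          rw [← image_comp]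
          have : f^[n] ∘ f.symm^[n] = id := funext fun x => iterate_symm_iterate f n x
          rw [this, image_id]
        have hS1 : Sm f m a (c * q * lam ^ n) (f.symm^[n] '' Γ₂) :=
          Sm.of_iter hg hc0 n (by rw [himg]; exact hSm)
        have hnr : ∀ᶠ j in atTop, ∃ n', Nr E A η n' (f^[j] '' (f.symm^[n] '' Γ₂)) := by
          obtain ⟨s', t'', hs1, ht1, hst⟩ := sign_image (hgap.sign (i + 1)) ht'0.le ht'm.2
            (by linarith : ρ / 2 ≤ ρ)
          have h1 := nr_eventually hη hb hB hall.nrp (w := z (i + 1)) hs1 ht1 (by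
            rw [← hst]; exact hΓ₂B)
          rw [← hst] at h1
          have h2 := (tendsto_sub_atTop_nat n).eventually h1
          filter_upwards [h2, eventually_ge_atTop n] with j hj hj'
          have h3 : f^[j] '' (f.symm^[n] '' Γ₂) = f^[j - n] '' Γ₂ := by
            conv_lhs => rw [← Nat.sub_add_cancel hj', iterate_add, image_comp, himg]
          rw [h3]
          exact hj
        have hS2 : Sm f m a (c / 2) Γ₁ := by
          refine (hS1.ebd hb hh hm hebd hnr).mono_c hg ?_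
          have := hn₂ n hnn₂
          nlinarith
        have hS3 := hD i (F i (ρ / 2)) (hF2 i) (hFle i _ (right_mem_Icc.2 (half_pos hρ).le))
        have hS4 := Sm_union hm hg (by positivity) hc₁ hS2 hS3
        have e1 : c / 2 + c₁ = c := by rw [hc]; ring
        rw [e1] at hS4
        refine Sm_subset hm hS4 ?_
        rintro _ ⟨_, ⟨u, hu, rfl⟩, rfl⟩
        rcases le_total u (F i (ρ / 2)) with h | h
        · exact Or.inl ⟨_, ⟨u, ⟨hu.1, h⟩, rfl⟩, rfl⟩
        · exact Or.inr ⟨_, ⟨u, ⟨h, hu.2⟩, rfl⟩, rfl⟩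
  refine ⟨n, c, z, e, by omega, hgap, fun i t ht ht' => ?_⟩
  obtain ⟨n₃, hn₃⟩ := hgt_small hh hb (η := t / 2) (half_pos ht)
  refine key n₃ i t ht ht' fun u hu => ?_
  have h1 := hn₃ (n * n₃) (Nat.le_mul_of_pos_left n₃ (by omega)) (z i) (z (i + n₃))
    (hzk n₃ i) _ (hm2 (i + n₃) u hu)
  refine ((le_abs_self _).trans ?_).trans_lt (half_lt_self ht)
  rw [abs_mul, sign_abs (hgap.sign i), one_mul]
  exact h1

end Pool.Agent.Lib.MP610fe3.T4
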