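import Pool.Agent.Lib.MP_610fe3_an.T4.Basics
import Pool.Agent.Lib.MP_610fe3_an.Cf.Trans

/-!
# Module COMP: small sets move into the images of short transversals (helper61)
-/

open Set Filter Function
open scoped Topology ENNReal

namespace Pool.Agent.Lib.MP610fe3.T4

open Cf H6

universe u

namespace CompM

variable {M : Type*} [MetricSpace M] {f : M ≃ₜ M}

theorem exists_pow_small {C ν b t : ℝ} (hC : 0 < C) (hb : 0 < b) (ht : 0 < t) (hν : 0 < ν)
    (hν1 : ν < 1) : ∃ n₀ : ℕ, ∀ n ≥ n₀, C * ν ^ n * b ≤ t := by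
  obtain ⟨n₀, hn₀⟩ := exists_pow_lt_of_lt_one (show 0 < t / (C * b) by positivity) hν1
  refine ⟨n₀, fun n hn => ?_⟩
  have h1 : ν ^ n ≤ ν ^ n₀ := pow_le_pow_of_le_one hν.le hν1.le hn
  have h2 : ν ^ n ≤ t / (C * b) := h1.trans hn₀.le
  rw [le_div_iff₀ (by positivity)] at h2
  linarith

end CompM

theorem specComp : SpecComp.{u} := by
  intro M _ _ f E H κ A C ν r r₁ ε ρ hh hb hA
  have hr := hh.r_pos
  have hr₁ := hh.r₁_pos
  have hr₁r := hh.r₁_le
  have hε := hb.ε_pos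
  have hεr₁ := hb.ε_le
  have hC := hh.C_pos
  -- the scale of the brackets
  set s₁ : ℝ := r₁ / 4 with hs₁
  have hs₁0 : 0 < s₁ := by positivity
  obtain ⟨δ₁, hδ₁, hbr₁⟩ := hh.br.exist s₁ hs₁0
  refine ⟨δ₁ / 4, by positivity, fun η hη hηη δ hδ => ?_⟩
  obtain ⟨δH, hδH, hequi⟩ := hb.equi δ hδ
  -- the scale of the second bracket
  set s₂ : ℝ := min (min (δ₁ / 4) (δH / 2)) (r₁ / 4) with hs₂
  have hs₂0 : 0 < s₂ := by positivity
  have hs₂1 : s₂ ≤ δ₁ / 4 := (min_le_left _ _).trans (min_le_left _ _)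
  have hs₂2 : s₂ ≤ δH / 2 := (min_le_left _ _).trans (min_le_right _ _)
  have hs₂3 : s₂ ≤ r₁ / 4 := min_le_right _ _
  obtain ⟨δ₂, hδ₂, hbr₂⟩ := hh.br.exist s₂ hs₂0
  set δ' : ℝ := min (δ₂ / 4) (δ₁ / 4) with hδ'
  have hδ'0 : 0 < δ' := by positivity
  have hδ'1 : δ' ≤ δ₂ / 4 := min_le_left _ _
  have hδ'2 : δ' ≤ δ₁ / 4 := min_le_right _ _
  refine ⟨δ', hδ'0, fun N₀ => ?_⟩
  obtain ⟨n₁, hn₁⟩ := hA.mix δ' hδ'0
  obtain ⟨n₂, hn₂⟩ := CompM.exists_pow_small (t := min (δH / 2) (r₁ / 4)) hC hs₁0 (by positivity)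
    hh.fwd.l_pos hh.fwd.l_lt
  refine ⟨N₀ + max n₁ n₂, fun m hm => ?_⟩
  obtain ⟨D, hD⟩ := Lk.iterate hb hh
  refine ⟨1 + D ^ m * 1, fun w t₀ ht₁ ht₂ ha T hT => ?_⟩
  obtain ⟨a, ha, hxa⟩ := ha
  obtain ⟨⟨a', ha', hTa'⟩, hTE⟩ := hT
  set m₁ := m - N₀ with hm₁
  have hmm : m = N₀ + m₁ := by omega
  have hm₁1 : n₁ ≤ m₁ := by have := le_max_left n₁ n₂; omega
  have hm₁2 : n₂ ≤ m₁ := by have := le_max_right n₁ n₂; omega
  have ht₀ : t₀ ∈ Icc (-ρ) ρ := ⟨by linarith, by linarith⟩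
  set v₀ := κ w t₀ with hv₀
  set x₀ := f^[N₀] v₀ with hx₀
  obtain ⟨z, hz1, hz2⟩ := hn₁ m₁ hm₁1 a ha a' ha'
  -- the bracket of `z` and `x₀`
  obtain ⟨z', hz'1, hz'2⟩ := hbr₂ z x₀ (by
    have h1 := dist_triangle_right z x₀ a
    have h2 := hz1 0
    have h3 := hxa 0
    simp only [iterate_zero, id_eq] at h2 h3
    linarith)
  have hclose : ∀ v ∈ T, dist v (f^[m₁] z') < δ₁ := by
    intro v hv
    have h1 := hTa' v hv
    have h2 := hz2 0
    have h3 := hz'1 m₁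
    simp only [iterate_zero, id_eq] at h2
    have h4 := dist_triangle v a' (f^[m₁] z')
    have h5 := dist_triangle a' (f^[m₁] z) (f^[m₁] z')
    rw [dist_comm a' (f^[m₁] z)] at h5
    rw [dist_comm _ (f^[m₁] z)] at h3
    linarith
  have hbr : ∀ v, ∃ v', v ∈ T → v' ∈ Wl f s₁ v ∧ v' ∈ Wl f.symm s₁ (f^[m₁] z') := by
    intro v
    by_cases hv : v ∈ T
    · obtain ⟨v', h1⟩ := hbr₁ v (f^[m₁] z') (hclose v hv)
      exact ⟨v', fun _ => h1⟩
    · exact ⟨v, fun h => absurd h hv⟩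
  choose g hg using hbr
  -- the points `u v`
  have hu1 : ∀ v ∈ T, f.symm^[m] (g v) ∈ Wl f.symm (min (δH / 2) (r₁ / 4) + s₂) v₀ := by
    intro v hv
    have h1 := Cf.Tr.Wl_dec hh.bwd (by linarith) (hg v hv).2 m₁
    rw [Cf.symm_iterate_iterate] at h1
    have h2 := Wl_mono (f := f.symm) (hn₂ m₁ hm₁2) h1
    have h3 := Wl_trans hz'2 h2
    have h4 := Wl_iter h3 N₀
    rw [hx₀, Cf.symm_iterate_iterate, ← iterate_add_apply, ← hmm] at h4
    exact Wl_mono (by linarith) h4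
  have hu2 : ∀ v ∈ T, dist (f.symm^[m] (g v)) v₀ ≤ δH := by
    intro v hv
    have h1 := hu1 v hv 0
    have h2 := min_le_left (δH / 2) (r₁ / 4)
    simp only [iterate_zero, id_eq] at h1
    linarith
  have hu3 : ∀ v ∈ T, dist (f.symm^[m] (g v)) v₀ ≤ r₁ / 2 := by
    intro v hv
    have h1 := hu1 v hv 0
    have h2 := min_le_right (δH / 2) (r₁ / 4)
    simp only [iterate_zero, id_eq] at h1
    linarith
  have hv₀w : dist v₀ w ≤ ε := hb.dist_κ w ht₀
  have hu4 : ∀ v ∈ T, dist (f.symm^[m] (g v)) w ≤ r₁ / 2 + ε := by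
    intro v hv
    have h1 := hu3 v hv
    have h2 := dist_triangle (f.symm^[m] (g v)) v₀ w
    linarith
  have hH : ∀ v ∈ T, |H w (f.symm^[m] (g v)) - t₀| ≤ δ := by
    intro v hv
    have h1 := hequi w (f.symm^[m] (g v)) v₀ (by linarith [hu4 v hv]) (by linarith) (hu2 v hv)
    rwa [hv₀, hb.κ_H w t₀ ht₀] at h1
  have hH1 : ∀ v ∈ T, H w (f.symm^[m] (g v)) ∈ Icc (t₀ - δ) (t₀ + δ) := by
    intro v hv
    have h1 := abs_le.1 (hH v hv)
    exact ⟨by linarith [h1.1], by linarith [h1.2]⟩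
  have hH2 : ∀ v ∈ T, H w (f.symm^[m] (g v)) ∈ Icc (-ρ) ρ := fun v hv =>
    ⟨ht₁.trans (hH1 v hv).1, (hH1 v hv).2.trans ht₂⟩
  refine ⟨fun v => f^[m] (κ w (H w (f.symm^[m] (g v)))), ?_, ?_, ?_⟩
  · -- injectivity
    intro v hv v' hv' heq
    have h1 := f.injective.iterate m heq
    have h2 : H w (f.symm^[m] (g v)) = H w (f.symm^[m] (g v')) := by
      rw [← hb.κ_H w _ (hH2 v hv), ← hb.κ_H w _ (hH2 v' hv')]
      exact congrArg (H w) h1
    have h3 := (hb.E_iff w _ _ (by linarith [hu4 v hv]) (by linarith [hu4 v' hv'])).2 h2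
    have h4 : g v' ∈ Wl f.symm (s₁ + s₁) (g v) :=
      Wl_trans (Wl_comm (hg v hv).2) (hg v' hv').2
    have h5 : E (g v) (g v') :=
      (hb.prop_wl (Wl_mono (by linarith) h4) m).2 h3
    have h6 : E v (g v) := hb.stab v _ (Wl_mono (by linarith) (hg v hv).1)
    have h7 : E v' (g v') := hb.stab v' _ (Wl_mono (by linarith) (hg v' hv').1)
    have h8 : dist (g v) v ≤ s₁ := (hg v hv).1 0
    have h9 : dist (g v') v' ≤ s₁ := (hg v' hv').1 0
    have h10 : dist (g v') (g v) ≤ s₁ + s₁ := h4 0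
    have h11 : E v (g v') := hb.E_trans (by rw [dist_comm]; linarith)
      (by rw [dist_comm]; linarith) h6 h5
    refine hTE v hv v' hv' (hb.E_trans (q := g v') ?_ (by linarith) h11
      (hb.E_symm (by rw [dist_comm]; linarith) h7))
    have h12 := dist_triangle (g v') (g v) v
    rw [dist_comm]
    linarith
  · intro v hv
    exact ⟨_, ⟨_, hH1 v hv, rfl⟩, rfl⟩
  · intro v hv
    refine Lk.trans (q := g v) (Lk.one ?_ (hb.stab v _ (Wl_mono (by linarith) (hg v hv).1))) ?_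
    · have h8 : dist (g v) v ≤ s₁ := (hg v hv).1 0
      rw [dist_comm]
      linarith
    · have h1 : Lk E r₁ 1 (f.symm^[m] (g v)) (κ w (H w (f.symm^[m] (g v)))) := by
        refine Lk.one ?_ ?_
        · have h2 := hb.dist_κ w (hH2 v hv)
          have h3 := hu4 v hv
          have h4 := dist_triangle_right (f.symm^[m] (g v)) (κ w (H w (f.symm^[m] (g v)))) w
          linarith
        · have h2 := hb.hit (x := w) (p := f.symm^[m] (g v)) (by linarith)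
            (by linarith [hu4 v hv]) (abs_le.2 (hH2 v hv))
          refine hb.E_symm ?_ h2
          have h2 := hb.dist_κ w (hH2 v hv)
          have h3 := hu4 v hv
          have h4 := dist_triangle_right (f.symm^[m] (g v)) (κ w (H w (f.symm^[m] (g v)))) w
          rw [dist_comm]
          linarith
      have h5 := hD m 1 _ _ h1
      rwa [Cf.iterate_symm_iterate] at h5

end Pool.Agent.Lib.MP610fe3.T4
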