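import Pool.Agent.Lib.MP_610fe3_an.T4.Seq

/-!
# Module CONT: the content
-/

open Set Filter Function
open scoped Topology ENNReal

namespace Pool.Agent.Lib.MP610fe3.T4

open Cf H6

universe u

set_option linter.unusedSectionVars false

namespace ContM

variable {M : Type u} [MetricSpace M] {f : M ≃ₜ M} {E : M → M → Prop} {H : M → M → ℝ}
  {κ : M → ℝ → M} {A : Set M} {C ν r r₁ ε ρ η : ℝ}

theorem r_nonneg (hh : Hyp f C ν r r₁) : 0 ≤ r := by linarith [hh.r₁_pos, hh.r₁_le]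

theorem r₁_le_r (hh : Hyp f C ν r r₁) : r₁ ≤ r := by linarith [hh.r₁_pos, hh.r₁_le]

theorem E_refl (hh : Hyp f C ν r r₁) (hb : Box f E H κ r r₁ ε ρ) (x : M) : E x x :=
  (hb.E_iff x x x (by rw [dist_self]; exact r_nonneg hh) (by rw [dist_self]; exact r_nonneg hh)).2
    rfl

theorem E_symm (hh : Hyp f C ν r r₁) (hb : Box f E H κ r r₁ ε ρ) {x y : M} (h : dist x y ≤ r)
    (hE : E x y) : E y x := by
  have h0 : dist x x ≤ r := by rw [dist_self]; exact r_nonneg hh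
  have h1 : dist y x ≤ r := by rwa [dist_comm]
  exact (hb.E_iff x y x h1 h0).2 ((hb.E_iff x x y h0 h1).1 hE).symm

theorem lk_one {p q : M} (hd : dist p q ≤ r₁) (hE : E p q) : Lk E r₁ 1 p q := by
  refine ⟨fun i => if i = 0 then p else q, by simp, by simp, fun i hi => ?_⟩
  have : i = 0 := by omega
  subst this
  simpa using ⟨hd, hE⟩

theorem of_lk_one {p q : M} (h : Lk E r₁ 1 p q) : dist p q ≤ r₁ ∧ E p q := by
  obtain ⟨c, h0, h1, hc⟩ := h
  have := hc 0 one_pos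
  rwa [zero_add, h0, h1] at this

theorem lk_trans {k l : ℕ} {a b c : M} (h1 : Lk E r₁ k a b) (h2 : Lk E r₁ l b c) :
    Lk E r₁ (k + l) a c := by
  obtain ⟨u, hu0, huk, hu⟩ := h1
  obtain ⟨v, hv0, hvl, hv⟩ := h2
  refine ⟨fun i => if i ≤ k then u i else v (i - k), by simp [hu0], ?_, fun i hi => ?_⟩
  · by_cases hl : l = 0
    · subst hl
      simp only [add_zero, le_refl, if_true]
      rw [huk, ← hv0, hvl]
    · have : ¬ k + l ≤ k := by omega
      simp only [this, if_false]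
      rw [show k + l - k = l by omega, hvl]
  · rcases lt_trichotomy i k with h | h | h
    · have h3 : i ≤ k := h.le
      have h4 : i + 1 ≤ k := h
      simp only [h3, h4, if_true]
      exact hu i h
    · subst h
      have h4 : ¬ i + 1 ≤ i := by omega
      simp only [le_refl, if_true, h4, if_false]
      rw [huk, ← hv0, show i + 1 - i = 0 + 1 by omega]
      exact hv 0 (by omega)
    · have h3 : ¬ i ≤ k := by omega
      have h4 : ¬ i + 1 ≤ k := by omega
      simp only [h3, h4, if_false]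
      rw [show i + 1 - k = (i - k) + 1 by omega]
      exact hv (i - k) (by omega)

theorem lk_mono (hh : Hyp f C ν r r₁) (hb : Box f E H κ r r₁ ε ρ) {k l : ℕ} (hkl : k ≤ l)
    {a b : M} (h : Lk E r₁ k a b) : Lk E r₁ l a b := by
  obtain ⟨j, rfl⟩ := Nat.exists_eq_add_of_le hkl
  refine lk_trans h ⟨fun _ => b, rfl, rfl, fun i _ => ⟨?_, E_refl hh hb b⟩⟩
  simp only [dist_self]
  exact hh.r₁_pos.le

/-- The transversal through `x`. -/
def tr (κ : M → ℝ → M) (ρ : ℝ) (x : M) : Set M := κ x '' Icc (-ρ) ρ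

/-- The points which can be reached from `a` by `k` steps. -/
def S (E : M → M → Prop) (r₁ : ℝ) (a : M) (k : ℕ) : Set M := {q | Lk E r₁ k a q}

theorem S_mono (hh : Hyp f C ν r r₁) (hb : Box f E H κ r r₁ ε ρ) (a : M) {k l : ℕ}
    (hkl : k ≤ l) : S E r₁ a k ⊆ S E r₁ a l := fun _ h => lk_mono hh hb hkl h

/-- Small sets close to `A` embed into the transversals of a net. -/
theorem exists_net [CompactSpace M] (hh : Hyp f C ν r r₁) (hb : Box f E H κ r r₁ ε ρ)
    (hA : Attr f A r) : ∃ (η₀ : ℝ) (F : Finset M), 0 < η₀ ∧ (∀ x ∈ F, x ∈ A) ∧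
      ∀ η, η ≤ η₀ → ∀ T, Tn E A η T → ∃ x ∈ F, Ebd E r₁ 1 T (tr κ ρ x) := by
  obtain ⟨δ, hδ, hequi⟩ := hb.equi ρ hb.ρ_pos
  set η₀ : ℝ := min (δ / 2) (r₁ / 4) with hη₀
  have hη₀pos : 0 < η₀ := lt_min (by positivity) (by linarith [hh.r₁_pos])
  have h1 : η₀ ≤ δ / 2 := min_le_left _ _
  have h2 : η₀ ≤ r₁ / 4 := min_le_right _ _
  obtain ⟨t, htA, htf, ht⟩ := finite_cover_balls_of_compact hA.closed.isCompact hη₀pos
  refine ⟨η₀, htf.toFinset, hη₀pos, fun x hx => htA (by simpa using hx), ?_⟩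
  rintro η hη T ⟨⟨a, haA, ha⟩, hinj⟩
  have := ht haA
  simp only [mem_iUnion, Metric.mem_ball] at this
  obtain ⟨x, hx, hax⟩ := this
  have hr1 := r₁_le_r hh
  have hr0 := r_nonneg hh
  have hdx : ∀ v ∈ T, dist v x ≤ 2 * η₀ := fun v hv => by
    linarith [dist_triangle v a x, ha v hv]
  have hdr : ∀ v ∈ T, dist v x ≤ r := fun v hv => by linarith [hdx v hv, hh.r₁_pos]
  have hxx : dist x x ≤ r := by rw [dist_self]; exact hr0
  have hH : ∀ v ∈ T, H x v ∈ Icc (-ρ) ρ := fun v hv => by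
    have := hequi x v x (hdr v hv) hxx (by linarith [hdx v hv])
    rw [hb.H_self, sub_zero] at this
    exact abs_le.1 this
  have hdk : ∀ v ∈ T, dist (κ x (H x v)) x ≤ ε := fun v hv => Wl_dist (hb.κ_mem x _ (hH v hv))
  have hεr : ε ≤ r₁ / 16 := by linarith [hb.ε_le]
  refine ⟨x, by simpa using hx, fun v => κ x (H x v), ?_, ?_, ?_⟩
  · intro v hv w hw hvw
    have h3 := congrArg (H x) hvw
    simp only at h3
    rw [hb.κ_H x _ (hH v hv), hb.κ_H x _ (hH w hw)] at h3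
    exact hinj v hv w hw ((hb.E_iff x v w (hdr v hv) (hdr w hw)).2 h3)
  · intro v hv
    exact mem_image_of_mem _ (hH v hv)
  · intro v hv
    refine lk_one ?_ ?_
    · have h3 := dist_triangle v x (κ x (H x v))
      rw [dist_comm x] at h3
      linarith [hdx v hv, hdk v hv, hh.r₁_pos]
    · refine (hb.E_iff x v _ (hdr v hv) (by linarith [hdk v hv, hh.r₁_pos])).2 ?_
      exact (hb.κ_H x _ (hH v hv)).symm

/-- The transversals through the points of `A` are covered by small sets. -/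
theorem exists_pieces (hh : Hyp f C ν r r₁) (hb : Box f E H κ r r₁ ε ρ) (hA : Attr f A r)
    (hη : 0 < η) {x : M} (hx : x ∈ A) : ∃ (n : ℕ) (T : ℕ → Set M),
      (∀ i, T i ⊆ A ∧ Tn E A η (T i)) ∧ tr κ ρ x ⊆ ⋃ i < n, T i := by
  obtain ⟨δ, hδ, hequi⟩ := hb.κ_equi η hη
  have hρ := hb.ρ_pos
  have hsub : ∀ t ∈ Icc (-ρ) ρ, κ x t ∈ A := fun t ht => hA.sat x hx _ <| by
    refine Wl_mono ?_ (hb.κ_mem x t ht)
    linarith [hb.ε_le, hb.ε_pos, r₁_le_r hh]
  have hinjE : ∀ t ∈ Icc (-ρ) ρ, ∀ t' ∈ Icc (-ρ) ρ, E (κ x t) (κ x t') → t = t' := by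
    intro t ht t' ht' hE
    have h1 : ∀ s ∈ Icc (-ρ) ρ, dist (κ x s) x ≤ r := fun s hs => by
      linarith [Wl_dist (hb.κ_mem x s hs), hb.ε_le, hb.ε_pos, r₁_le_r hh]
    have := (hb.E_iff x _ _ (h1 t ht) (h1 t' ht')).1 hE
    rwa [hb.κ_H x t ht, hb.κ_H x t' ht'] at this
  obtain ⟨n, hn⟩ := exists_nat_gt (2 * ρ / δ)
  refine ⟨n, fun i => {p | ∃ t ∈ Icc (-ρ) ρ, κ x t = p ∧ -ρ + i * δ ≤ t ∧ t ≤ -ρ + (i + 1) * δ},
    fun i => ⟨?_, ?_, ?_⟩, ?_⟩
  · rintro _ ⟨t, ht, rfl, -, -⟩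
    exact hsub t ht
  · by_cases hne : ∃ t ∈ Icc (-ρ) ρ, -ρ + i * δ ≤ t ∧ t ≤ -ρ + (i + 1) * δ
    · obtain ⟨s, hs, hs1, hs2⟩ := hne
      refine ⟨κ x s, hsub s hs, ?_⟩
      rintro _ ⟨t, ht, rfl, ht1, ht2⟩
      refine hequi x t ht s hs ?_
      rw [abs_le]
      constructor <;> linarith
    · refine ⟨x, hx, ?_⟩
      rintro _ ⟨t, ht, rfl, ht1, ht2⟩
      exact absurd ⟨t, ht, ht1, ht2⟩ hne
  · rintro _ ⟨t, ht, rfl, -, -⟩ _ ⟨t', ht', rfl, -, -⟩ hE
    rw [hinjE t ht t' ht' hE]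
  · rintro _ ⟨t, ht, rfl⟩
    set i : ℕ := ⌊(t + ρ) / δ⌋₊ with hi
    have h0 : 0 ≤ (t + ρ) / δ := div_nonneg (by linarith [ht.1]) hδ.le
    have h1 : (i : ℝ) ≤ (t + ρ) / δ := Nat.floor_le h0
    have h2 : (t + ρ) / δ < i + 1 := Nat.lt_floor_add_one _
    have h3 : i < n := by
      have : (t + ρ) / δ ≤ 2 * ρ / δ := div_le_div_of_nonneg_right (by linarith [ht.2]) hδ.le
      exact_mod_cast lt_of_le_of_lt h1 (lt_of_le_of_lt this hn)
    rw [le_div_iff₀ hδ] at h1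
    rw [div_lt_iff₀ hδ] at h2
    simp only [mem_iUnion]
    exact ⟨i, h3, t, ht, rfl, by linarith, by linarith⟩

/-- The number of points. -/
noncomputable def cd (Γ : Set M) : ℝ≥0∞ := (Γ.encard : ℝ≥0∞)

theorem cd_mono {Γ Γ' : Set M} (h : Γ ⊆ Γ') : cd Γ ≤ cd Γ' :=
  ENat.toENNReal_le.2 (encard_le_encard h)

theorem cd_union_le (Γ Γ' : Set M) : cd (Γ ∪ Γ') ≤ cd Γ + cd Γ' := by
  unfold cd
  rw [← ENat.toENNReal_add]
  exact ENat.toENNReal_le.2 (encard_union_le _ _)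

theorem cd_union {Γ Γ' : Set M} (h : Disjoint Γ Γ') : cd (Γ ∪ Γ') = cd Γ + cd Γ' := by
  unfold cd
  rw [← ENat.toENNReal_add, encard_union_eq h]

theorem cd_empty : cd (∅ : Set M) = 0 := by
  simp [cd]

theorem cd_le_of_inj {Γ Γ' : Set M} {φ : M → M} (h1 : InjOn φ Γ) (h2 : MapsTo φ Γ Γ') :
    cd Γ ≤ cd Γ' := by
  unfold cd
  refine ENat.toENNReal_le.2 ?_
  rw [← h1.encard_image]
  exact encard_le_encard h2.image_subset

theorem cd_biUnion_le {ι : Type*} (s : Finset ι) (T : ι → Set M) :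
    cd (⋃ i ∈ s, T i) ≤ ∑ i ∈ s, cd (T i) := by
  classical
  induction s using Finset.induction_on with
  | empty => simp [cd_empty]
  | insert i s hi ih =>
    rw [Finset.set_biUnion_insert, Finset.sum_insert hi]
    exact (cd_union_le _ _).trans (add_le_add le_rfl ih)

/-- embeddings and the sets which can be reached -/
theorem cd_ebd {L k : ℕ} {a : M} {Γ Γ' : Set M} (h : Ebd E r₁ L Γ Γ') :
    cd (Γ ∩ S E r₁ a k) ≤ cd (Γ' ∩ S E r₁ a (k + L)) := by
  obtain ⟨φ, h1, h2, h3⟩ := h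
  refine cd_le_of_inj (φ := φ) (h1.mono inter_subset_left) ?_
  rintro v ⟨hv, hk⟩
  exact ⟨h2 hv, lk_trans hk (h3 v hv)⟩

theorem lk_one_symm (hh : Hyp f C ν r r₁) (hb : Box f E H κ r r₁ ε ρ) {p q : M}
    (h : Lk E r₁ 1 p q) : Lk E r₁ 1 q p := by
  obtain ⟨h1, h2⟩ := of_lk_one h
  exact lk_one (by rwa [dist_comm]) (E_symm hh hb (h1.trans (r₁_le_r hh)) h2)

theorem cd_ebd_diff (hh : Hyp f C ν r r₁) (hb : Box f E H κ r r₁ ε ρ) {k l : ℕ} {a : M}
    {Γ Γ' : Set M} (h : Ebd E r₁ 1 Γ Γ') :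
    cd (Γ ∩ (S E r₁ a l \ S E r₁ a (k + 1))) ≤ cd (Γ' ∩ (S E r₁ a (l + 1) \ S E r₁ a k)) := by
  obtain ⟨φ, h1, h2, h3⟩ := h
  refine cd_le_of_inj (φ := φ) (h1.mono inter_subset_left) ?_
  rintro v ⟨hv, hl, hk⟩
  exact ⟨h2 hv, lk_trans hl (h3 v hv), fun hc => hk (lk_trans hc (lk_one_symm hh hb (h3 v hv)))⟩

end ContM

open ContM in
theorem specCont : SpecCont.{u} := by
  intro M _ _ f E H κ A C ν r r₁ ε ρ hh hb hA hP
  obtain ⟨η₀, F, hη₀, hFA, hnet⟩ := exists_net hh hb hA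
  refine ⟨η₀, hη₀, fun η hη hηle => ?_⟩
  obtain ⟨K, D, hKD⟩ := hP
  obtain ⟨a, haA⟩ := hA.ne
  -- the counting functions
  set Sk : ℕ → Set M := S E r₁ a with hSk
  have hSmono : ∀ {k l : ℕ}, k ≤ l → Sk k ⊆ Sk l := fun hkl => S_mono hh hb a hkl
  set N : ℕ → ℝ≥0∞ := fun k => ∑ x ∈ F, cd (tr κ ρ x ∩ Sk k) with hN
  have hcd : ∀ x k, cd (tr κ ρ x ∩ Sk k) ≤ ((K * (k + 1) ^ D : ℕ) : ℝ≥0∞) := by
    intro x k
    have := ENat.toENNReal_le.2 (hKD x a k)
    simpa [cd, tr, hSk, S] using this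
  have hNle : ∀ k, N k ≤ ((F.card * (K * (k + 1) ^ D) : ℕ) : ℝ≥0∞) := by
    intro k
    have : N k ≤ F.card • ((K * (k + 1) ^ D : ℕ) : ℝ≥0∞) :=
      Finset.sum_le_card_nsmul _ _ _ fun x _ => hcd x k
    rw [nsmul_eq_mul] at this
    rwa [Nat.cast_mul]
  have hNtop : ∀ k, N k ≠ ∞ := fun k => ne_top_of_le_ne_top (ENNReal.natCast_ne_top _) (hNle k)
  have hNmono : Monotone N := fun k l hkl =>
    Finset.sum_le_sum fun x _ => cd_mono (inter_subset_inter_right _ (hSmono hkl))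
  have hTN : ∀ T, Tn E A η T → ∀ k, cd (T ∩ Sk k) ≤ N (k + 1) := by
    intro T hT k
    obtain ⟨x, hx, he⟩ := hnet η hηle T hT
    exact (cd_ebd he).trans (Finset.single_le_sum (f := fun x => cd (tr κ ρ x ∩ Sk (k + 1)))
      (fun _ _ => zero_le) hx)
  have hN1 : 0 < N 1 := by
    have h1 : Tn E A η ({a} : Set M) := by
      refine ⟨⟨a, haA, fun v hv => ?_⟩, fun p hp q hq _ => ?_⟩
      · rw [mem_singleton_iff.1 hv, dist_self]; exact hη.le
      · rw [mem_singleton_iff.1 hp, mem_singleton_iff.1 hq]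
    have h2 := hTN _ h1 0
    have h3 : cd ({a} ∩ Sk 0) = 1 := by
      have : ({a} : Set M) ∩ Sk 0 = {a} :=
        inter_eq_left.2 (singleton_subset_iff.2 ⟨fun _ => a, rfl, rfl, fun i hi => by omega⟩)
      rw [this]
      simp [cd]
    rw [h3, zero_add] at h2
    exact lt_of_lt_of_le one_pos h2
  have hNpos : ∀ k, 1 ≤ k → 0 < N k := fun k hk => lt_of_lt_of_le hN1 (hNmono hk)
  -- the times
  obtain ⟨k, hk, hlim⟩ := specSeq (fun k => (N k).toReal) (F.card * K) D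
    (fun k l hkl => ENNReal.toReal_mono (hNtop l) (hNmono hkl))
    (fun k hk => ENNReal.toReal_pos (hNpos k hk).ne' (hNtop k))
    (fun k => by
      have h1 := ENNReal.toReal_mono (ENNReal.natCast_ne_top _) (hNle k)
      rw [ENNReal.toReal_natCast] at h1
      push_cast at h1
      linarith)
  have hk1 : ∀ L, 1 ≤ k L := fun L => by have := hk L; omega
  have hkpos : ∀ L, 0 < N (k L) := fun L => hNpos _ (hk1 L)
  -- ratios
  have hR : ∀ j : ℕ, Tendsto (fun L => N (k L + j) / N (k L - j)) atTop (𝓝 1) := by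
    intro j
    have h1 := ENNReal.tendsto_ofReal (hlim j)
    rw [ENNReal.ofReal_one] at h1
    refine h1.congr' ?_
    filter_upwards [eventually_ge_atTop j] with L hL
    have hp : 0 < N (k L - j) := hNpos _ (by have := hk L; omega)
    rw [ENNReal.ofReal_div_of_pos (ENNReal.toReal_pos hp.ne' (hNtop _)),
      ENNReal.ofReal_toReal (hNtop _), ENNReal.ofReal_toReal (hNtop _)]
  have hup : ∀ j : ℕ, Tendsto (fun L => N (k L + j) / N (k L)) atTop (𝓝 1) := by
    intro j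
    refine tendsto_of_tendsto_of_tendsto_of_le_of_le tendsto_const_nhds (hR j) ?_ ?_
    · intro L
      simp only
      rw [ENNReal.le_div_iff_mul_le (Or.inl (hkpos L).ne') (Or.inl (hNtop _)), one_mul]
      exact hNmono (by omega)
    · intro L
      exact ENNReal.div_le_div_left (hNmono (by omega)) _
  have hdn : ∀ j : ℕ, Tendsto (fun L => N (k L - j) / N (k L)) atTop (𝓝 1) := by
    intro j
    have h1 : Tendsto (fun L => (N (k L + j) / N (k L - j))⁻¹) atTop (𝓝 1⁻¹) :=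
      tendsto_inv_iff.2 (hR j)
    rw [inv_one] at h1
    refine tendsto_of_tendsto_of_tendsto_of_le_of_le' h1 tendsto_const_nhds ?_ ?_
    · filter_upwards [eventually_ge_atTop j] with L hL
      have hp : 0 < N (k L - j) := hNpos _ (by have := hk L; omega)
      rw [ENNReal.inv_div (Or.inl (hNtop _)) (Or.inl hp.ne')]
      exact ENNReal.div_le_div_left (hNmono (by omega)) _
    · refine Eventually.of_forall fun L => ?_
      refine ENNReal.div_le_of_le_mul ?_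
      rw [one_mul]
      exact hNmono (by omega)
  -- the content
  set 𝒰 : Ultrafilter ℕ := Ultrafilter.of atTop with h𝒰
  have h𝒰le : (𝒰 : Filter ℕ) ≤ atTop := Ultrafilter.of_le _
  set g : Set M → ℕ → ℝ≥0∞ := fun Γ L => cd (Γ ∩ Sk (k L)) / N (k L) with hg
  set m : Set M → ℝ≥0∞ := fun Γ => (𝒰.map (g Γ)).lim with hm
  have hlimm : ∀ Γ, Tendsto (g Γ) 𝒰 (𝓝 (m Γ)) := fun Γ => Ultrafilter.le_nhds_lim _
  have hmono : ∀ Γ Γ', Γ ⊆ Γ' → m Γ ≤ m Γ' := fun Γ Γ' h =>
    le_of_tendsto_of_tendsto' (hlimm Γ) (hlimm Γ') fun L =>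
      ENNReal.div_le_div_right (cd_mono (inter_subset_inter_left _ h)) _
  have hunion : ∀ Γ Γ', m (Γ ∪ Γ') ≤ m Γ + m Γ' := fun Γ Γ' =>
    le_of_tendsto_of_tendsto' (hlimm _) ((hlimm Γ).add (hlimm Γ')) fun L => by
      simp only [hg]
      rw [← ENNReal.add_div, union_inter_distrib_right]
      exact ENNReal.div_le_div_right (cd_union_le _ _) _
  have hempty : m ∅ = 0 := by
    refine tendsto_nhds_unique (hlimm ∅) ?_
    have : g ∅ = fun _ => 0 := by
      funext L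
      simp [hg, cd_empty]
    rw [this]
    exact tendsto_const_nhds
  have hle_one : ∀ T, Tn E A η T → m T ≤ 1 := fun T hT =>
    le_of_tendsto_of_tendsto' (hlimm T) ((hup 1).mono_left h𝒰le) fun L =>
      ENNReal.div_le_div_right (hTN T hT _) _
  have hfin : ∀ (n : ℕ) (T : ℕ → Set M), m (⋃ i < n, T i) ≤ ∑ i ∈ Finset.range n, m (T i) := by
    intro n T
    induction n with
    | zero => simp [hempty]
    | succ n ih =>
      have : (⋃ i < n + 1, T i) = (⋃ i < n, T i) ∪ T n := by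
        ext p
        simp only [mem_iUnion, mem_union]
        constructor
        · rintro ⟨i, hi, hp⟩
          rcases Nat.lt_succ_iff_lt_or_eq.1 hi with h | h
          · exact Or.inl ⟨i, h, hp⟩
          · exact Or.inr (h ▸ hp)
        · rintro (⟨i, hi, hp⟩ | hp)
          · exact ⟨i, by omega, hp⟩
          · exact ⟨n, by omega, hp⟩
      rw [this, Finset.sum_range_succ]
      exact (hunion _ _).trans (add_le_add ih le_rfl)
  refine ⟨m, hmono, hunion, ?_, hempty, ?_, hle_one, ?_⟩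
  · intro Γ Γ' hd
    refine le_of_tendsto_of_tendsto' ((hlimm Γ).add (hlimm Γ')) (hlimm _) fun L => ?_
    simp only [hg]
    rw [← ENNReal.add_div, union_inter_distrib_right,
      cd_union (hd.mono inter_subset_left inter_subset_left)]
  · rintro L Γ Γ' he ⟨n, T, hT, hcov⟩
    -- the key inequality
    have hkey : ∀ l : ℕ, 1 ≤ l → cd (Γ ∩ Sk l) + n * N (l - 1) ≤
        cd (Γ' ∩ Sk l) + n * N (l + (L + 1)) := by
      intro l hl
      have h1 : cd (Γ ∩ Sk l) ≤ cd (Γ' ∩ Sk (l + L)) := cd_ebd he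
      have h2 : Γ' ∩ Sk (l + L) ⊆ (Γ' ∩ Sk l) ∪
          ⋃ i ∈ Finset.range n, (T i ∩ (Sk (l + L) \ Sk l)) := by
        rintro p ⟨hp, hpS⟩
        by_cases hpl : p ∈ Sk l
        · exact Or.inl ⟨hp, hpl⟩
        · refine Or.inr ?_
          have := hcov hp
          simp only [mem_iUnion] at this ⊢
          obtain ⟨i, hi, hpi⟩ := this
          exact ⟨i, Finset.mem_range.2 hi, hpi, hpS, hpl⟩
      have h3 : ∀ i, cd (T i ∩ (Sk (l + L) \ Sk l)) + N (l - 1) ≤ N (l + (L + 1)) := by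
        intro i
        obtain ⟨x, hx, hex⟩ := hnet η hηle (T i) (hT i)
        obtain ⟨l', rfl⟩ : ∃ l', l = l' + 1 := ⟨l - 1, by omega⟩
        have h4 := cd_ebd_diff hh hb (k := l') (l := l' + 1 + L) (a := a) hex
        rw [Nat.add_sub_cancel]
        have h5 : cd (tr κ ρ x ∩ (Sk (l' + 1 + L + 1) \ Sk l')) ≤
            ∑ x ∈ F, cd (tr κ ρ x ∩ (Sk (l' + 1 + L + 1) \ Sk l')) :=
          Finset.single_le_sum (f := fun x => cd (tr κ ρ x ∩ (Sk (l' + 1 + L + 1) \ Sk l')))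
            (fun _ _ => zero_le) hx
        refine (add_le_add (h4.trans h5) le_rfl).trans ?_
        rw [← Finset.sum_add_distrib, ← add_assoc]
        refine Finset.sum_le_sum fun y _ => ?_
        rw [← cd_union]
        · refine cd_mono ?_
          rintro p (⟨hp, hp1, -⟩ | ⟨hp, hp1⟩)
          · exact ⟨hp, hp1⟩
          · exact ⟨hp, hSmono (by omega) hp1⟩
        · rw [Set.disjoint_left]
          rintro p ⟨-, -, hp⟩ ⟨-, hp'⟩
          exact hp hp'
      have h4 : cd (Γ' ∩ Sk (l + L)) ≤ cd (Γ' ∩ Sk l) +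
          ∑ i ∈ Finset.range n, cd (T i ∩ (Sk (l + L) \ Sk l)) :=
        (cd_mono h2).trans ((cd_union_le _ _).trans (add_le_add le_rfl (cd_biUnion_le _ _)))
      calc cd (Γ ∩ Sk l) + n * N (l - 1)
          ≤ (cd (Γ' ∩ Sk l) + ∑ i ∈ Finset.range n, cd (T i ∩ (Sk (l + L) \ Sk l))) +
            n * N (l - 1) := add_le_add (h1.trans h4) le_rfl
        _ = cd (Γ' ∩ Sk l) +
            ∑ i ∈ Finset.range n, (cd (T i ∩ (Sk (l + L) \ Sk l)) + N (l - 1)) := by
          rw [Finset.sum_add_distrib, Finset.sum_const, Finset.card_range, nsmul_eq_mul,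
            add_assoc]
        _ ≤ cd (Γ' ∩ Sk l) + ∑ _i ∈ Finset.range n, N (l + (L + 1)) :=
          add_le_add le_rfl (Finset.sum_le_sum fun i _ => h3 i)
        _ = _ := by rw [Finset.sum_const, Finset.card_range, nsmul_eq_mul]
    have hlim1 : Tendsto (fun L' => g Γ L' + n * (N (k L' - 1) / N (k L'))) 𝒰
        (𝓝 (m Γ + n * 1)) :=
      (hlimm Γ).add (ENNReal.Tendsto.const_mul ((hdn 1).mono_left h𝒰le)
        (Or.inl one_ne_zero))
    have hlim2 : Tendsto (fun L' => g Γ' L' + n * (N (k L' + (L + 1)) / N (k L'))) 𝒰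
        (𝓝 (m Γ' + n * 1)) :=
      (hlimm Γ').add (ENNReal.Tendsto.const_mul ((hup (L + 1)).mono_left h𝒰le)
        (Or.inl one_ne_zero))
    have h5 := le_of_tendsto_of_tendsto' hlim1 hlim2 fun L' => by
      have h6 := ENNReal.div_le_div_right (hkey (k L') (hk1 L')) (N (k L'))
      rw [ENNReal.add_div, ENNReal.add_div, mul_div_assoc, mul_div_assoc] at h6
      exact h6
    have h6 : (n : ℝ≥0∞) * 1 ≠ ∞ := by
      rw [mul_one]
      exact ENNReal.natCast_ne_top _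
    exact (ENNReal.add_le_add_iff_right h6).1 h5
  · by_contra hcon
    push Not at hcon
    have h1 : ∀ x ∈ F, m (tr κ ρ x) = 0 := by
      intro x hx
      obtain ⟨n, T, hT, hcov⟩ := exists_pieces hh hb hA hη (hFA x hx)
      have h2 := (hmono _ _ hcov).trans (hfin n T)
      have h3 : ∑ i ∈ Finset.range n, m (T i) = 0 :=
        Finset.sum_eq_zero fun i _ => le_antisymm (hcon _ (hT i).1 (hT i).2) zero_le
      rw [h3] at h2
      exact le_antisymm h2 zero_le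
    have h2 : Tendsto (fun L => ∑ x ∈ F, g (tr κ ρ x) L) 𝒰 (𝓝 (∑ x ∈ F, m (tr κ ρ x))) :=
      tendsto_finsetSum _ fun x _ => hlimm _
    rw [Finset.sum_eq_zero h1] at h2
    have h3 : (fun L => ∑ x ∈ F, g (tr κ ρ x) L) = fun _ => 1 := by
      funext L
      have : ∑ x ∈ F, g (tr κ ρ x) L = N (k L) / N (k L) := by
        simp only [hg, hN, div_eq_mul_inv]
        rw [← Finset.sum_mul]
      rw [this, ENNReal.div_self (hkpos L).ne' (hNtop _)]
    rw [h3] at h2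
    exact zero_ne_one (tendsto_nhds_unique h2 tendsto_const_nhds)

end Pool.Agent.Lib.MP610fe3.T4
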