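import Pool.Agent.Lib.MP_610fe3_an.T4.Spec

/-!
# The core of the codimension one foliation theorem: assembly
-/

open Set Filter Function
open scoped Topology ENNReal

namespace Pool.Agent.Lib.MP610fe3.T4

open Cf H6

universe u

theorem Sm.mono {M : Type u} [MetricSpace M] {f : M ≃ₜ M} {E : M → M → Prop} {A : Set M}
    {r₁ η : ℝ} {m : Set M → ℝ≥0∞} (hm : Cont E A r₁ η m) {a : ℕ → ℝ} {c : ℝ} {Γ Γ' : Set M}
    (h : Sm f m a c Γ') (hs : Γ ⊆ Γ') : Sm f m a c Γ :=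
  Eventually.mono h fun _ hj => (hm.mono _ _ (image_mono hs)).trans hj

/-- Small and large content exclude each other. -/
theorem Sm.not_lg {M : Type u} [MetricSpace M] {f : M ≃ₜ M} {E : M → M → Prop} {A : Set M}
    {η q lam : ℝ} {m : Set M → ℝ≥0∞} {a : ℕ → ℝ} (hg : Gr f E A η m a q lam) {c c' : ℝ}
    (hc : c < c') (hc' : 0 < c') {Γ : Set M} (h : Sm f m a c Γ) (h' : Lg f m a c' Γ) : False := by
  obtain ⟨j, h1, h2⟩ := (h.and h').exists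
  have h3 := h2.trans h1
  have ha := hg.pos j
  have h4 : c * a j < c' * a j := mul_lt_mul_of_pos_right hc ha
  have h5 : ENNReal.ofReal (c * a j) < ENNReal.ofReal (c' * a j) :=
    (ENNReal.ofReal_lt_ofReal_iff (by positivity)).2 h4
  exact absurd h3 (not_le.2 h5)

theorem specCore (hBas : SpecBas.{u}) (hGrid : SpecGrid.{u}) (hCount : SpecCount.{u})
    (hCont : SpecCont.{u}) (hNr : SpecNr.{u}) (hComp : SpecComp.{u}) (hGr : SpecGr.{u})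
    (hAlpha : SpecAlpha.{u}) (hGap : SpecGap.{u}) (hBeta : SpecBeta.{u})
    (hStart : SpecStart.{u}) (hMove : SpecMove.{u}) : SpecCore.{u} := by
  intro M _ _ _ f E H κ A C ν r r₁ ε ρ e α₁ α₂ β₁ β₂ Λ hh hb ha he1 he2 hA
  by_contra hne
  have hB := hBas f E H κ A C ν r r₁ ε ρ e α₁ α₂ β₁ β₂ Λ hh hb ha he1 he2 hA hne
  obtain ⟨K, hK⟩ := hGrid f E H κ C ν r r₁ ε ρ e α₁ α₂ β₁ β₂ Λ hh hb ha he1 he2
  have hP := hCount f E H κ C ν r r₁ ε ρ K hh hb hK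
  obtain ⟨η₁, hη₁, h1⟩ := hCont f E H κ A C ν r r₁ ε ρ hh hb hA hP
  obtain ⟨η₂, hη₂, h2⟩ := hNr f E H κ A C ν r r₁ ε ρ hh hb hA
  obtain ⟨η₃, hη₃, h3⟩ := hComp f E H κ A C ν r r₁ ε ρ hh hb hA
  have hη : 0 < min η₁ (min η₂ η₃) := by positivity
  obtain ⟨m, hm⟩ := h1 _ hη (min_le_left _ _)
  obtain ⟨q₀, hq₀⟩ := h2 _ hη ((min_le_right _ _).trans (min_le_left _ _))
  have hc := h3 _ hη ((min_le_right _ _).trans (min_le_right _ _))
  obtain ⟨a, q, lam, hg⟩ := hGr f E H κ A C ν r r₁ ε ρ _ q₀ m hη hh hb hA hq₀ hc hm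
  have hall : All f E H κ A (basin f A r) C ν r r₁ ε ρ _ q₀ m a q lam :=
    ⟨hη, hh, hb, hA, hB, hq₀, hc, hm, hg⟩
  have hgap := hGap f E H κ A (basin f A r) C ν r r₁ ε ρ hh hb hB hA
  have hbeta := hBeta f E H κ A (basin f A r) C ν r r₁ ε ρ _ q₀ m a q lam hall hgap
  obtain ⟨c, hstart⟩ := hStart f E H κ A (basin f A r) C ν r r₁ ε ρ _ q₀ m a q lam hall hbeta
  obtain ⟨ρ₁, hρ₁, hρ₁ρ, δ, hδ, hmove⟩ :=
    hMove f E H κ A (basin f A r) C ν r r₁ ε ρ _ q₀ m a q lam hall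
  obtain ⟨n, hn⟩ := hAlpha f E H κ A (basin f A r) C ν r r₁ ε ρ _ q₀ m a q lam hall ρ₁ hρ₁ hρ₁ρ
    (max c 0 + 1)
  obtain ⟨w, τ, hτ, hPP⟩ := hstart ρ₁ hρ₁ hρ₁ρ n
  have hwB : w ∈ basin f A r := by
    have := (hPP.2 0 ⟨le_rfl, one_pos⟩).1
    rwa [zero_mul, hb.κ_zero] at this
  -- `PP` moves, with `|τ| ≤ ρ₁`
  have hstep : ∀ (w w' : M) (τ : ℝ), |τ| ≤ ρ₁ → PP f κ (basin f A r) m a c n w τ →
      w' ∈ Wl f δ w → ∃ τ', |τ'| ≤ ρ₁ ∧ PP f κ (basin f A r) m a c n w' τ' := by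
    intro w w' τ hτ hP hw
    obtain ⟨τ', hτ', hP'⟩ := hmove c n w w' τ hτ hP hw
    refine ⟨τ', ?_, hP'⟩
    by_contra hcon
    push Not at hcon
    have hτ0 : 0 < |τ'| := hρ₁.trans hcon
    set s : ℝ := ρ₁ / |τ'| with hs
    have hs0 : 0 < s := div_pos hρ₁ hτ0
    have hs1 : s < 1 := (div_lt_one hτ0).2 hcon
    have habs : |s * τ'| = ρ₁ := by
      rw [abs_mul, abs_of_pos hs0, hs]
      field_simp
    have hsub : κ w' '' uIcc 0 (s * τ') ⊆ basin f A r := by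
      rintro _ ⟨t, ht, rfl⟩
      have hex : ∃ u ∈ Ico (0 : ℝ) 1, t = u * τ' := by
        have hτ0' : τ' ≠ 0 := abs_pos.1 hτ0
        refine ⟨t / τ', ?_, by field_simp⟩
        rcases lt_or_gt_of_ne hτ0' with hneg | hpos
        · rw [uIcc_of_ge (by nlinarith)] at ht
          refine ⟨div_nonneg_of_nonpos ht.2 hneg.le, ?_⟩
          rw [div_lt_one_of_neg hneg]
          nlinarith [ht.1]
        · rw [uIcc_of_le (by positivity)] at ht
          refine ⟨div_nonneg ht.1 hpos.le, ?_⟩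
          rw [div_lt_one hpos]
          nlinarith [ht.2]
      obtain ⟨u, hu, rfl⟩ := hex
      exact (hP'.2 u hu).1
    have h4 := hn w' (s * τ') habs hsub
    have h5 := (hP'.2 s ⟨hs0.le, hs1⟩).2
    exact Sm.not_lg hg (by linarith [le_max_left c 0]) (by positivity) h5 h4
  -- move to `A`
  obtain ⟨k, v, hv0, hvk, hv⟩ := hB.path w hwB δ hδ
  have hind : ∀ i ≤ k, ∃ τ, |τ| ≤ ρ₁ ∧ PP f κ (basin f A r) m a c n (v i) τ := by
    intro i
    induction i with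
    | zero => intro _; rw [hv0]; exact ⟨τ, hτ, hPP⟩
    | succ i ih =>
      intro hi
      obtain ⟨τ', hτ', hP'⟩ := ih (by omega)
      exact hstep _ _ _ hτ' hP' (hv i (by omega))
  obtain ⟨τ', hτ', hP'⟩ := hind k le_rfl
  refine hP'.1 (hB.sub (hA.sat _ hvk _ ?_))
  have h6 : τ' ∈ Icc (-ρ) ρ := abs_le.1 (hτ'.trans hρ₁ρ)
  have h7 := hb.κ_mem (v k) τ' h6
  refine Wl_mono ?_ h7
  linarith [hb.ε_le, hb.ε_pos, hh.r₁_le, hh.r₁_pos]

end Pool.Agent.Lib.MP610fe3.T4
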