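import Pool.Agent.Lib.MP_610fe3_an.T4.Basics

/-!
# Module COUNT: polynomial growth of the number of points of a transversal which can be reached
-/

open Set Filter Function
open scoped Topology ENNReal

namespace Pool.Agent.Lib.MP610fe3.T4

open Cf H6

universe u

namespace CountM

section Iter

variable {X : Type*}

/-- Iterated covers. -/
theorem cover_iterate {f : X → X} {P : X → Set X} {D : ℕ}
    (h : ∀ b, ∃ T : Finset X, T.card ≤ D ∧ ∀ q ∈ P b, ∃ b' ∈ T, f q ∈ P b') (n : ℕ) (b : X) :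
    ∃ T : Finset X, T.card ≤ D ^ n ∧ ∀ q ∈ P b, ∃ b' ∈ T, f^[n] q ∈ P b' := by
  classical
  induction n with
  | zero => exact ⟨{b}, by simp, fun q hq => ⟨b, by simp, by simpa using hq⟩⟩
  | succ n ih =>
    obtain ⟨T, hT, hcov⟩ := ih
    choose F hF hFcov using h
    refine ⟨T.biUnion F, ?_, ?_⟩
    · refine (Finset.card_biUnion_le_card_mul T F D fun x _ => hF x).trans ?_
      rw [pow_succ]
      exact Nat.mul_le_mul_right _ hT
    · intro q hq
      obtain ⟨b', hb', h1⟩ := hcov q hq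
      obtain ⟨b'', hb'', h2⟩ := hFcov b' _ h1
      refine ⟨b'', Finset.mem_biUnion.2 ⟨b', hb', hb''⟩, ?_⟩
      rw [iterate_succ_apply']
      exact h2

end Iter

variable {M : Type u} [MetricSpace M] {f : M ≃ₜ M} {E : M → M → Prop} {H : M → M → ℝ}
  {κ : M → ℝ → M} {A : Set M} {C ν r r₁ ε ρ : ℝ}

/-- One step: a set of points close to each other in the past is covered, after one iteration,
by a bounded number of such sets. -/
theorem cover_step [CompactSpace M] (hh : Hyp f C ν r r₁) :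
    ∃ D : ℕ, ∀ P : Set M, (∀ p ∈ P, ∀ q ∈ P, q ∈ Wl f.symm (r / 4) p) →
      ∃ T : Finset M, T.card ≤ D ∧ (∀ b ∈ T, ∃ p ∈ P, b = f p) ∧
        ∀ q ∈ P, ∃ b ∈ T, f q ∈ Wl f.symm (r / 8) b := by
  classical
  have hr := hh.r_pos
  have hC := hh.C_pos
  obtain ⟨δ, hδ, hu⟩ := Metric.uniformContinuous_iff.1
    (CompactSpace.uniformContinuous_of_continuous f.symm.continuous) (r / (8 * C))
    (by positivity)
  set e : ℝ := min (δ / 2) (r / 16) with he
  have hepos : 0 < e := lt_min (by positivity) (by positivity)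
  have he1 : e ≤ δ / 2 := min_le_left _ _
  have he2 : e ≤ r / 16 := min_le_right _ _
  obtain ⟨t, -, htf, ht⟩ := finite_cover_balls_of_compact (isCompact_univ (X := M)) hepos
  set F : Finset M := htf.toFinset with hF
  refine ⟨F.card, fun P hP => ?_⟩
  -- a point of `f P` in each ball
  set G : Finset M := F.filter (fun c => ∃ p ∈ P, dist (f p) c < e) with hG
  have hch : ∀ c : M, ∃ b : M, (∃ p ∈ P, dist (f p) c < e) → ∃ p ∈ P, b = f p ∧
      dist (f p) c < e := by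
    intro c
    by_cases hc : ∃ p ∈ P, dist (f p) c < e
    · obtain ⟨p, hp, hd⟩ := hc
      exact ⟨f p, fun _ => ⟨p, hp, rfl, hd⟩⟩
    · exact ⟨c, fun h => absurd h hc⟩
  choose b hb using hch
  refine ⟨G.image b, (Finset.card_image_le.trans (Finset.card_filter_le _ _)), ?_, ?_⟩
  · intro b' hb'
    obtain ⟨c, hc, rfl⟩ := Finset.mem_image.1 hb'
    obtain ⟨p, hp, h1, -⟩ := hb c (Finset.mem_filter.1 hc).2
    exact ⟨p, hp, h1⟩
  · intro q hq
    have := ht (mem_univ (f q))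
    simp only [mem_iUnion, Metric.mem_ball] at this
    obtain ⟨c, hc, hd⟩ := this
    have hcG : c ∈ G := Finset.mem_filter.2 ⟨by simpa [hF] using hc, q, hq, hd⟩
    refine ⟨b c, Finset.mem_image_of_mem b hcG, ?_⟩
    obtain ⟨p, hp, h1, h2⟩ := hb c (Finset.mem_filter.1 hcG).2
    rw [h1]
    have hqp : dist (f q) (f p) < 2 * e := by
      have := dist_triangle_right (f q) (f p) c
      linarith
    have hqp' : dist q p < r / (8 * C) := by
      have := hu (show dist (f q) (f p) < δ by linarith)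
      rwa [f.symm_apply_apply, f.symm_apply_apply] at this
    intro k
    cases k with
    | zero =>
      simp only [iterate_zero, id_eq]
      linarith
    | succ k =>
      rw [iterate_succ_apply, iterate_succ_apply, f.symm_apply_apply, f.symm_apply_apply]
      have h3 := hh.bwd.dec p q (Wl_mono (by linarith) (hP p hp q hq)) k
      have h4 : ν ^ k ≤ 1 := pow_le_one₀ hh.bwd.l_pos.le hh.bwd.l_lt.le
      have h5 : C * ν ^ k * dist q p ≤ C * 1 * dist q p :=
        mul_le_mul_of_nonneg_right (mul_le_mul_of_nonneg_left h4 hC.le) dist_nonneg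
      have h6 : C * 1 * dist q p ≤ C * 1 * (r / (8 * C)) :=
        mul_le_mul_of_nonneg_left hqp'.le (by positivity)
      have h7 : C * 1 * (r / (8 * C)) = r / 8 := by field_simp
      linarith

theorem wl_pair {b p q : M} {e : ℝ} (hp : p ∈ Wl f.symm e b) (hq : q ∈ Wl f.symm e b) :
    q ∈ Wl f.symm (e + e) p :=
  Wl_trans (Wl_comm hp) hq

theorem pow_bound (B K N k : ℕ) (hN : N = K * (Nat.log 2 (k + 1) + 1)) :
    B ^ N ≤ B ^ K * (k + 1) ^ (B ^ K) := by
  subst hN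
  rw [pow_mul, pow_succ]
  set b := B ^ K
  have h1 : b ≤ 2 ^ b := (Nat.lt_two_pow_self).le
  have h2 : b ^ Nat.log 2 (k + 1) ≤ (2 ^ b) ^ Nat.log 2 (k + 1) := Nat.pow_le_pow_left h1 _
  have h3 : (2 ^ b) ^ Nat.log 2 (k + 1) = (2 ^ Nat.log 2 (k + 1)) ^ b := by
    rw [← pow_mul, ← pow_mul, mul_comm]
  have h4 : 2 ^ Nat.log 2 (k + 1) ≤ k + 1 := Nat.pow_log_le_self 2 (by omega)
  have h5 : (2 ^ Nat.log 2 (k + 1)) ^ b ≤ (k + 1) ^ b := Nat.pow_le_pow_left h4 _
  rw [mul_comm]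
  exact Nat.mul_le_mul_left _ ((h2.trans_eq h3).trans h5)

end CountM

open CountM in
theorem specCount : SpecCount.{u} := by
  intro M _ _ f E H κ C ν r r₁ ε ρ K hh hb hG
  classical
  have hr := hh.r_pos
  have hεr : ε ≤ r / 16 := by linarith [hb.ε_le, hh.r₁_le, hh.r₁_pos]
  obtain ⟨D, hD⟩ := cover_step hh
  -- the two kinds of sets
  have hc1 : ∀ b, ∃ T : Finset M, T.card ≤ D ∧
      ∀ q ∈ {q | q ∈ Wl f.symm (r / 8) b ∧ E b q}, ∃ b' ∈ T,
        f q ∈ {q | q ∈ Wl f.symm (r / 8) b' ∧ E b' q} := by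
    intro b
    obtain ⟨T, hT, h1, h2⟩ := hD {q | q ∈ Wl f.symm (r / 8) b ∧ E b q} (by
      rintro p ⟨hp, -⟩ q ⟨hq, -⟩
      exact Wl_mono (by linarith) (wl_pair hp hq))
    refine ⟨T, hT, fun q hq => ?_⟩
    obtain ⟨b', hb', h3⟩ := h2 q hq
    refine ⟨b', hb', h3, ?_⟩
    obtain ⟨p, hp, rfl⟩ := h1 b' hb'
    have hpb : dist b p ≤ r := by
      rw [dist_comm]
      linarith [Wl_dist hp.1]
    have hpb' : dist p b ≤ r := by rwa [dist_comm]
    have hqb : dist b q ≤ r := by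
      rw [dist_comm]
      linarith [Wl_dist hq.1]
    have hpq : E p q := hb.E_trans hpb' hqb (hb.E_symm hpb hp.2) hq.2
    refine (hb.inv p q ?_ ?_).1 hpq
    · have := Wl_dist (wl_pair hp.1 hq.1)
      rw [dist_comm]
      linarith
    · rw [dist_comm]
      linarith [Wl_dist h3]
  have hc2 : ∀ b, ∃ T : Finset M, T.card ≤ D ∧ ∀ q ∈ Wl f.symm (r / 8) b, ∃ b' ∈ T,
      f q ∈ Wl f.symm (r / 8) b' := by
    intro b
    obtain ⟨T, hT, -, h2⟩ := hD (Wl f.symm (r / 8) b)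
      (fun p hp q hq => Wl_mono (by linarith) (wl_pair hp hq))
    exact ⟨T, hT, h2⟩
  have hk1 := cover_iterate (f := f) (P := fun b => {q | q ∈ Wl f.symm (r / 8) b ∧ E b q}) hc1
  have hk2 := cover_iterate (f := f) (P := fun b => Wl f.symm (r / 8) b) hc2
  refine ⟨(D ^ 3) ^ K, (D ^ 3) ^ K, fun x a k => ?_⟩
  obtain ⟨N, hN⟩ : ∃ N, N = K * (Nat.log 2 (k + 1) + 1) := ⟨_, rfl⟩
  obtain ⟨T₁, hT₁, h1⟩ := hk1 (2 * N) (f.symm^[N] a)
  obtain ⟨T₂, hT₂, h2⟩ := hk2 N x
  set Q : Set M := κ x '' Icc (-ρ) ρ ∩ {q | Lk E r₁ k a q} with hQ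
  -- the labels
  have hlab : ∀ P ∈ Q, ∃ c ∈ T₁ ×ˢ T₂, (∃ z, z ∈ Wl f.symm (r / 8) c.1 ∧ E c.1 z ∧
      z ∈ Wl f (r / 16) (f^[N] P)) ∧ f^[N] P ∈ Wl f.symm (r / 8) c.2 := by
    rintro P ⟨⟨t, ht, rfl⟩, hP⟩
    obtain ⟨y, hy1, hy2, hy3⟩ := hG k a _ hP N hN
    have hy4 : f.symm^[N] y ∈ {q | q ∈ Wl f.symm (r / 8) (f.symm^[N] a) ∧ E (f.symm^[N] a) q} := by
      refine ⟨fun n => ?_, hy3⟩
      rw [← iterate_add_apply, ← iterate_add_apply, dist_comm]
      linarith [hy1 (n + N) (by omega)]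
    obtain ⟨b, hb1, hb2, hb3⟩ := h1 _ hy4
    have hy5 : f^[2 * N] (f.symm^[N] y) = f^[N] y := by
      rw [two_mul, iterate_add_apply, iterate_symm_iterate]
    rw [hy5] at hb2 hb3
    have hx : κ x t ∈ Wl f.symm (r / 8) x := Wl_mono (by linarith) (hb.κ_mem x t ht)
    obtain ⟨w, hw1, hw2⟩ := h2 _ hx
    refine ⟨(b, w), Finset.mem_product.2 ⟨hb1, hw1⟩, ⟨f^[N] y, hb2, hb3, fun n => ?_⟩, hw2⟩
    rw [← iterate_add_apply, ← iterate_add_apply, dist_comm]
    exact hy2 (n + N) (by omega)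
  choose! c hcT hc hc' using hlab
  have hinj : InjOn c Q := by
    intro P hP P' hP' heq
    obtain ⟨z, hz1, hz2, hz3⟩ := hc P hP
    obtain ⟨z', hz1', hz2', hz3'⟩ := hc P' hP'
    rw [← heq] at hz1' hz2'
    have hw := hc' P hP
    have hw' := hc' P' hP'
    rw [← heq] at hw'
    -- `f^N P` and `f^N P'` are in the same plaque
    have hb1 : E (c P).1 (f^[N] P) := by
      refine hb.E_trans (q := z) ?_ ?_ hz2 (hb.E_symm ?_ (hb.stab _ z (Wl_mono (by linarith) hz3)))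
      · rw [dist_comm]; linarith [Wl_dist hz1]
      · linarith [Wl_dist hz3]
      · rw [dist_comm]; linarith [Wl_dist hz3]
    have hb2 : E (c P).1 (f^[N] P') := by
      refine hb.E_trans (q := z') ?_ ?_ hz2'
        (hb.E_symm ?_ (hb.stab _ z' (Wl_mono (by linarith) hz3')))
      · rw [dist_comm]; linarith [Wl_dist hz1']
      · linarith [Wl_dist hz3']
      · rw [dist_comm]; linarith [Wl_dist hz3']
    have hd1 : dist (f^[N] P) (c P).1 ≤ r := by
      have := dist_triangle_left (f^[N] P) (c P).1 z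
      linarith [Wl_dist hz3, Wl_dist hz1]
    have hd2 : dist (f^[N] P') (c P).1 ≤ r := by
      have := dist_triangle_left (f^[N] P') (c P).1 z'
      linarith [Wl_dist hz3', Wl_dist hz1']
    have hE : E (f^[N] P) (f^[N] P') :=
      hb.E_trans hd1 (by rwa [dist_comm]) (hb.E_symm (by rwa [dist_comm]) hb1) hb2
    have hWl : f^[N] P' ∈ Wl f.symm r (f^[N] P) := Wl_mono (by linarith) (wl_pair hw hw')
    have hE' := (hb.prop_wl hWl N).1 hE
    rw [symm_iterate_iterate, symm_iterate_iterate] at hE'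
    obtain ⟨⟨t, ht, rfl⟩, -⟩ := hP
    obtain ⟨⟨t', ht', rfl⟩, -⟩ := hP'
    rw [hb.κ_inj (by linarith) ht ht' hE']
  have hcard : Q.encard ≤ ((T₁ ×ˢ T₂).card : ℕ∞) := by
    rw [← hinj.encard_image, ← Set.encard_coe_eq_coe_finsetCard]
    refine encard_le_encard ?_
    rintro _ ⟨P, hP, rfl⟩
    exact hcT P hP
  refine hcard.trans ?_
  rw [Finset.card_product]
  have h3 : T₁.card * T₂.card ≤ (D ^ 3) ^ N := by
    calc T₁.card * T₂.card ≤ D ^ (2 * N) * D ^ N := Nat.mul_le_mul hT₁ hT₂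
      _ = (D ^ 3) ^ N := by rw [← pow_add, ← pow_mul]; ring_nf
  exact_mod_cast h3.trans (pow_bound (D ^ 3) K N k hN)

end Pool.Agent.Lib.MP610fe3.T4
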