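import Pool.Agent.Lib.MP_610fe3_an.H6G.Ext

/-!
# Codimension one foliations containing the stable sets: definitions for the abstract part

`f` is a homeomorphism of a compact metric space. `E p q` is the relation of lying in the
same plaque of a codimension one foliation (used for close points only), `H x` is a height
function near `x` (constant on plaques), `κ x` is a transversal arc through `x` in the local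
unstable set, parametrized by the height. Stable objects are `Wl f _ _`, unstable objects
`Wl f.symm _ _`.
-/

open Set Filter Function
open scoped Topology ENNReal

namespace Pool.Agent.Lib.MP610fe3.T4

open Cf H6

variable {M : Type*} [MetricSpace M]

/-- Hyperbolicity at the scale `r`; points at distance at most `r₁` have a bracket at the scale
`r / 16`. -/
structure Hyp (f : M ≃ₜ M) (C ν r r₁ : ℝ) : Prop where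
  fwd : Dec f r C ν
  bwd : Dec f.symm r C ν
  br : Br f r C
  r₁_pos : 0 < r₁
  r₁_le : 16 * r₁ ≤ r
  step : ∀ p q, dist p q ≤ r₁ → ∃ z, z ∈ Wl f.symm (r / 16) p ∧ z ∈ Wl f (r / 16) q

/-- Local data of a codimension one foliation. `r` is the scale of the charts, `r₁` the size of
one step, `ε` the size of the transversals, `ρ` their height. -/
structure Box (f : M ≃ₜ M) (E : M → M → Prop) (H : M → M → ℝ) (κ : M → ℝ → M)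
    (r r₁ ε ρ : ℝ) : Prop where
  ε_pos : 0 < ε
  ε_le : 16 * ε ≤ r₁
  ρ_pos : 0 < ρ
  H_self : ∀ x, H x x = 0
  E_iff : ∀ x p q, dist p x ≤ r → dist q x ≤ r → (E p q ↔ H x p = H x q)
  equi : ∀ η : ℝ, 0 < η → ∃ δ : ℝ, 0 < δ ∧ ∀ x p q, dist p x ≤ r → dist q x ≤ r →
    dist p q ≤ δ → |H x p - H x q| ≤ η
  inv : ∀ p q, dist p q ≤ r → dist (f p) (f q) ≤ r → (E p q ↔ E (f p) (f q))
  stab : ∀ x, ∀ y ∈ Wl f r x, E x y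
  conn : ∀ η : ℝ, 0 < η → ∃ D : ℕ, ∀ p q, dist p q ≤ r₁ → E p q → ∃ c : ℕ → M, c 0 = p ∧
    c D = q ∧ ∀ i < D, dist (c i) (c (i + 1)) ≤ η ∧ E (c i) (c (i + 1))
  κ_zero : ∀ x, κ x 0 = x
  κ_mem : ∀ x, ∀ t ∈ Icc (-ρ) ρ, κ x t ∈ Wl f.symm ε x
  κ_H : ∀ x, ∀ t ∈ Icc (-ρ) ρ, H x (κ x t) = t
  κ_equi : ∀ η : ℝ, 0 < η → ∃ δ : ℝ, 0 < δ ∧ ∀ x, ∀ t ∈ Icc (-ρ) ρ, ∀ t' ∈ Icc (-ρ) ρ,
    |t - t'| ≤ δ → dist (κ x t) (κ x t') ≤ η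

/-- Growth of unstable arcs, of stable arcs, and of leaf arcs: unstable arcs which join two points
of the same plaque. -/
structure Arcs (f : M ≃ₜ M) (E : M → M → Prop) (r ε α₁ α₂ β₁ β₂ Λ : ℝ) : Prop where
  ε_pos : 0 < ε
  α₁_pos : 0 < α₁
  α_le : α₁ ≤ α₂
  β₁_pos : 0 < β₁
  β_le : β₁ ≤ β₂
  rate : (α₂ - α₁) * (β₂ - β₁) < α₁ * β₁
  Λ_nonneg : 0 ≤ Λ
  low : Low f (3 * ε) α₁ Λ
  low' : Low f.symm (3 * ε) β₁ Λ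
  stb : ∀ x, ∀ y ∈ Wl f r x, ∃ σ : ℝ → M, UArc f.symm σ 0 1 ∧ σ 0 = x ∧ σ 1 = y ∧
    Upp f.symm (ε / 2) β₂ Λ σ
  leaf : ∀ x, ∀ y ∈ Wl f.symm r x, E x y → ∃ γ : ℝ → M, UArc f γ 0 1 ∧ γ 0 = x ∧ γ 1 = y ∧
    Upp f (ε / 2) α₂ Λ γ

/-- A mixing attractor. -/
structure Attr (f : M ≃ₜ M) (A : Set M) (r : ℝ) : Prop where
  ne : A.Nonempty
  closed : IsClosed A
  inv : ∀ x, f x ∈ A ↔ x ∈ A
  sat : ∀ a ∈ A, ∀ y ∈ Wl f.symm r a, y ∈ A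
  mix : ∀ δ : ℝ, 0 < δ → ∃ m₀ : ℕ, ∀ m ≥ m₀, ∀ a ∈ A, ∀ a' ∈ A,
    ∃ z, z ∈ Wl f.symm δ a ∧ f^[m] z ∈ Wl f δ a'

/-- The basin `B` of `A`, with all its properties. -/
structure Bas (f : M ≃ₜ M) (E : M → M → Prop) (A B : Set M) (r r₁ : ℝ) : Prop where
  isOpen : IsOpen B
  sub : A ⊆ B
  inv : ∀ x, f x ∈ B ↔ x ∈ B
  stab : ∀ x, ∀ y ∈ Wl f r x, x ∈ B → y ∈ B
  conv : ∀ K ⊆ B, IsCompact K → ∀ δ : ℝ, 0 < δ → ∃ N : ℕ, ∀ n ≥ N, ∀ x ∈ K, ∃ a ∈ A,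
    f^[n] x ∈ Wl f δ a
  sat : ∀ x y, dist x y ≤ r₁ → E x y → (x ∈ B ↔ y ∈ B)
  path : ∀ x ∈ B, ∀ δ : ℝ, 0 < δ → ∃ (k : ℕ) (w : ℕ → M), w 0 = x ∧ w k ∈ A ∧
    ∀ i < k, w (i + 1) ∈ Wl f δ (w i)
  ne : B ≠ univ

/-- Chains of `L` plaque steps of size at most `r₁`. -/
def Lk (E : M → M → Prop) (r₁ : ℝ) (L : ℕ) (p q : M) : Prop :=
  ∃ c : ℕ → M, c 0 = p ∧ c L = q ∧ ∀ i < L, dist (c i) (c (i + 1)) ≤ r₁ ∧ E (c i) (c (i + 1))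

/-- `Γ` can be moved into `Γ'` along the leaves, injectively, with `L` steps. -/
def Ebd (E : M → M → Prop) (r₁ : ℝ) (L : ℕ) (Γ Γ' : Set M) : Prop :=
  ∃ φ : M → M, InjOn φ Γ ∧ MapsTo φ Γ Γ' ∧ ∀ v ∈ Γ, Lk E r₁ L v (φ v)

/-- Small sets close to `A` which meet every plaque at most once. -/
def Tn (E : M → M → Prop) (A : Set M) (η : ℝ) (T : Set M) : Prop :=
  (∃ a ∈ A, ∀ v ∈ T, dist v a ≤ η) ∧ ∀ p ∈ T, ∀ q ∈ T, E p q → p = q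

/-- Sets covered by at most `n` small sets. -/
def Nr (E : M → M → Prop) (A : Set M) (η : ℝ) (n : ℕ) (Γ : Set M) : Prop :=
  ∃ T : ℕ → Set M, (∀ i, Tn E A η (T i)) ∧ Γ ⊆ ⋃ i < n, T i

/-- A finitely additive content which is monotone under moves along the leaves. -/
structure Cont (E : M → M → Prop) (A : Set M) (r₁ η : ℝ) (ν : Set M → ℝ≥0∞) : Prop where
  mono : ∀ Γ Γ', Γ ⊆ Γ' → ν Γ ≤ ν Γ'
  union : ∀ Γ Γ', ν (Γ ∪ Γ') ≤ ν Γ + ν Γ'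
  disj : ∀ Γ Γ', Disjoint Γ Γ' → ν Γ + ν Γ' ≤ ν (Γ ∪ Γ')
  empty : ν ∅ = 0
  emb : ∀ (L : ℕ) (Γ Γ' : Set M), Ebd E r₁ L Γ Γ' → (∃ n, Nr E A η n Γ') → ν Γ ≤ ν Γ'
  le_one : ∀ T, Tn E A η T → ν T ≤ 1
  pos : ∃ T, T ⊆ A ∧ Tn E A η T ∧ 0 < ν T

/-- Covers by small sets: images of small sets in `A`, transversals in `A`, small sets close to `A`
(moved into `A`, for all times), and images of transversals (with a bound which depends on the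
time only). -/
structure NrP (f : M ≃ₜ M) (E : M → M → Prop) (κ : M → ℝ → M) (A : Set M) (r₁ ρ η : ℝ)
    (q : ℕ) : Prop where
  pos : 0 < q
  img : ∀ T, T ⊆ A → Tn E A η T → ∃ T' : ℕ → Set M, (∀ i, T' i ⊆ A ∧ Tn E A η (T' i)) ∧
    f '' T ⊆ ⋃ i < q, T' i
  arc : ∀ y ∈ A, ∃ T' : ℕ → Set M, (∀ i, T' i ⊆ A ∧ Tn E A η (T' i)) ∧
    κ y '' Icc (-ρ) ρ ⊆ ⋃ i < q, T' i
  move : ∀ T, Tn E A η T → ∃ (T'' : Set M) (T' : ℕ → Set M),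
    (∀ i, T' i ⊆ A ∧ Tn E A η (T' i)) ∧ T'' ⊆ ⋃ i < q, T' i ∧
    ∀ n : ℕ, Ebd E r₁ 1 (f^[n] '' T) (f^[n] '' T'')
  arcs : ∀ j : ℕ, ∃ q' : ℕ, ∀ (w : M) (s t : ℝ), -ρ ≤ s → t ≤ ρ →
    (∀ t' ∈ Icc s t, ∃ a ∈ A, dist (f^[j] (κ w t')) a ≤ η / 2) →
    Nr E A η q' (f^[j] '' (κ w '' Icc s t))

/-- Small sets can be moved into the images of short transversals. -/
def CompP (f : M ≃ₜ M) (E : M → M → Prop) (κ : M → ℝ → M) (A : Set M) (r₁ ρ η : ℝ) : Prop :=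
  ∀ δ : ℝ, 0 < δ → ∃ δ' : ℝ, 0 < δ' ∧ ∀ N₀ : ℕ, ∃ m₀ : ℕ, ∀ m ≥ m₀, ∃ L : ℕ,
    ∀ (w : M) (t₀ : ℝ), -ρ ≤ t₀ - δ → t₀ + δ ≤ ρ →
    (∃ a ∈ A, f^[N₀] (κ w t₀) ∈ Wl f δ' a) → ∀ T, Tn E A η T →
    Ebd E r₁ L T (f^[m] '' (κ w '' Icc (t₀ - δ) (t₀ + δ)))

/-- The growth of the content under `f`; `a n` is the supremum of `ν (f^n T)` over the small
sets `T` contained in `A`. -/
structure Gr (f : M ≃ₜ M) (E : M → M → Prop) (A : Set M) (η : ℝ) (ν : Set M → ℝ≥0∞)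
    (a : ℕ → ℝ) (q lam : ℝ) : Prop where
  pos : ∀ n, 0 < a n
  le : ∀ n T, Tn E A η T → ν (f^[n] '' T) ≤ ENNReal.ofReal (q * a n)
  sup : ∀ n, ∀ b : ℝ≥0∞, (∀ T, T ⊆ A → Tn E A η T → ν (f^[n] '' T) ≤ b) →
    ENNReal.ofReal (a n) ≤ b
  lam_pos : 0 < lam
  lam_lt : lam < 1
  one_le : 1 ≤ q
  up : ∀ i j, a (i + j) ≤ q ^ j * a i
  low : ∀ i j, a i ≤ q * lam ^ j * a (i + j)

/-- The sets with small content. -/
def Sm (f : M ≃ₜ M) (ν : Set M → ℝ≥0∞) (a : ℕ → ℝ) (c : ℝ) (Γ : Set M) : Prop :=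
  ∀ᶠ j in atTop, ν (f^[j] '' Γ) ≤ ENNReal.ofReal (c * a j)

/-- The sets with large content. -/
def Lg (f : M ≃ₜ M) (ν : Set M → ℝ≥0∞) (a : ℕ → ℝ) (c : ℝ) (Γ : Set M) : Prop :=
  ∀ᶠ j in atTop, ENNReal.ofReal (c * a j) ≤ ν (f^[j] '' Γ)

/-- `κ w τ` is not in `B`, the arc before it is in `B` and its pieces have small content after
`n` steps. -/
def PP (f : M ≃ₜ M) (κ : M → ℝ → M) (B : Set M) (ν : Set M → ℝ≥0∞) (a : ℕ → ℝ) (c : ℝ) (n : ℕ)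
    (w : M) (τ : ℝ) : Prop :=
  κ w τ ∉ B ∧ ∀ s ∈ Ico (0 : ℝ) 1, κ w (s * τ) ∈ B ∧
    Sm f ν a c (f^[n] '' (κ w '' uIcc 0 (s * τ)))

end Pool.Agent.Lib.MP610fe3.T4
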