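import Pool.Agent.Lib.MP_610fe3_an.T4.Spec2
import Pool.Agent.Lib.MP_610fe3_an.Cf.Dec
import Pool.Agent.Lib.MP_610fe3_an.Cf.Crd

/-!
# Module LPATH: points of one plaque in a small unstable set are joined by Lipschitz paths
-/

open Set Filter Function
open scoped Topology

namespace Pool.Agent.Lib.MP610fe3.T4

open Cf

universe u v

namespace LpathM

/-- Uniform constants from local ones. -/
theorem unif_of_local {M : Type*} [TopologicalSpace M] [CompactSpace M] {P : ℝ → ℝ → M → Prop}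
    (hP : ∀ ρ ρ' Λ Λ' x, ρ' ≤ ρ → Λ ≤ Λ' → P ρ Λ x → P ρ' Λ' x)
    (h : ∀ x₀, ∃ ρ Λ : ℝ, 0 < ρ ∧ 0 ≤ Λ ∧ ∀ᶠ x in 𝓝 x₀, P ρ Λ x) :
    ∃ ρ Λ : ℝ, 0 < ρ ∧ 0 ≤ Λ ∧ ∀ x, P ρ Λ x := by
  have h1 : ∃ ρ Λ : ℝ, 0 < ρ ∧ 0 ≤ Λ ∧ ∀ x ∈ (univ : Set M), P ρ Λ x := by
    refine isCompact_univ.induction_on (p := fun s => ∃ ρ Λ : ℝ, 0 < ρ ∧ 0 ≤ Λ ∧ ∀ x ∈ s, P ρ Λ x)
      ?_ ?_ ?_ ?_
    · exact ⟨1, 0, one_pos, le_rfl, fun x hx => hx.elim⟩
    · rintro s t hst ⟨ρ, Λ, hρ, hΛ, h2⟩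
      exact ⟨ρ, Λ, hρ, hΛ, fun x hx => h2 x (hst hx)⟩
    · rintro s t ⟨ρ, Λ, hρ, hΛ, h2⟩ ⟨ρ', Λ', hρ', hΛ', h2'⟩
      refine ⟨min ρ ρ', max Λ Λ', lt_min hρ hρ', hΛ.trans (le_max_left _ _), fun x hx => ?_⟩
      rcases hx with hx | hx
      · exact hP _ _ _ _ x (min_le_left _ _) (le_max_left _ _) (h2 x hx)
      · exact hP _ _ _ _ x (min_le_right _ _) (le_max_right _ _) (h2' x hx)
    · intro x _
      obtain ⟨ρ, Λ, hρ, hΛ, h2⟩ := h x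
      exact ⟨{x | P ρ Λ x}, mem_nhdsWithin_of_mem_nhds h2, ρ, Λ, hρ, hΛ, fun _ hx => hx⟩
  obtain ⟨ρ, Λ, hρ, hΛ, h2⟩ := h1
  exact ⟨ρ, Λ, hρ, hΛ, fun x => h2 x (mem_univ x)⟩

/-- Zeros of a family of continuous injective functions. -/
theorem exists_level {g : ℝ → ℝ → ℝ} {a c : ℝ} (ha : 0 < a) (hc : 0 ≤ c) (hca : c < a)
    (hunif : ∀ η : ℝ, 0 < η → ∃ δ : ℝ, 0 < δ ∧ ∀ s ∈ Icc (0 : ℝ) 1, ∀ s' ∈ Icc (0 : ℝ) 1,
      ∀ t ∈ Icc (-a) a, ∀ t' ∈ Icc (-a) a, |s - s'| ≤ δ → |t - t'| ≤ δ → |g s t - g s' t'| ≤ η)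
    (h0 : g 0 0 = 0)
    (hinj : ∀ s ∈ Icc (0 : ℝ) 1, ∀ s' ∈ Icc (0 : ℝ) 1, ∀ t ∈ Icc (-a) a, ∀ t' ∈ Icc (-a) a,
      g s t = g s' t' → |t - t'| ≤ c * |s - s'|) :
    ∀ s ∈ Icc (0 : ℝ) 1, ∃ t ∈ Icc (-a) a, g s t = 0 := by
  have hma : -a ∈ Icc (-a) a := ⟨le_rfl, by linarith⟩
  have hpa : a ∈ Icc (-a) a := ⟨by linarith, le_rfl⟩
  have h0a : (0 : ℝ) ∈ Icc (-a) a := ⟨by linarith, ha.le⟩
  have h01 : (0 : ℝ) ∈ Icc (0 : ℝ) 1 := ⟨le_rfl, zero_le_one⟩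
  have hct : ∀ s ∈ Icc (0 : ℝ) 1, ContinuousOn (g s) (Icc (-a) a) := by
    intro s hs t ht
    rw [Metric.continuousWithinAt_iff]
    intro η hη
    obtain ⟨δ, hδ, h1⟩ := hunif (η / 2) (half_pos hη)
    refine ⟨δ, hδ, fun t' ht' hd => ?_⟩
    rw [Real.dist_eq] at hd ⊢
    have := h1 s hs s hs t' ht' t ht (by simpa using hδ.le) hd.le
    linarith
  have hcs : ∀ t ∈ Icc (-a) a, ContinuousOn (fun s => g s t) (Icc (0 : ℝ) 1) := by
    intro t ht s hs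
    rw [Metric.continuousWithinAt_iff]
    intro η hη
    obtain ⟨δ, hδ, h1⟩ := hunif (η / 2) (half_pos hη)
    refine ⟨δ, hδ, fun s' hs' hd => ?_⟩
    rw [Real.dist_eq] at hd ⊢
    have := h1 s' hs' s hs t ht t ht hd.le (by simpa using hδ.le)
    linarith
  -- the signs at the ends
  have hprod0 : g 0 (-a) * g 0 a < 0 := by
    have hi : InjOn (g 0) (Icc (-a) a) := by
      intro t ht t' ht' h
      have := hinj 0 h01 0 h01 t ht t' ht' h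
      rw [sub_self, abs_zero, mul_zero] at this
      have h2 := abs_nonpos_iff.1 this
      linarith
    rcases (hct 0 h01).strictMonoOn_of_injOn_Icc' (by linarith) hi with h | h
    · have h1 := h hma h0a (by linarith)
      have h2 := h h0a hpa ha
      rw [h0] at h1 h2
      exact mul_neg_of_neg_of_pos h1 h2
    · have h1 := h hma h0a (by linarith)
      have h2 := h h0a hpa ha
      rw [h0] at h1 h2
      exact mul_neg_of_pos_of_neg h1 h2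
  have hne : ∀ s ∈ Icc (0 : ℝ) 1, g s (-a) * g s a ≠ 0 := by
    intro s hs h
    have hs1 : |s - 0| ≤ 1 := by
      rw [sub_zero, abs_of_nonneg hs.1]
      exact hs.2
    rcases mul_eq_zero.1 h with h1 | h1
    · have h2 := hinj s hs 0 h01 (-a) hma 0 h0a (by rw [h1, h0])
      rw [sub_zero, abs_neg, abs_of_pos ha] at h2
      nlinarith
    · have h2 := hinj s hs 0 h01 a hpa 0 h0a (by rw [h1, h0])
      rw [sub_zero, abs_of_pos ha] at h2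
      nlinarith
  have hneg : ∀ s ∈ Icc (0 : ℝ) 1, g s (-a) * g s a < 0 := by
    intro s hs
    by_contra hcon
    have hcon := not_lt.1 hcon
    have hsub : Icc 0 s ⊆ Icc (0 : ℝ) 1 := Icc_subset_Icc le_rfl hs.2
    have hcc : ContinuousOn (fun s => g s (-a) * g s a) (Icc 0 s) :=
      ((hcs (-a) hma).mul (hcs a hpa)).mono hsub
    have h1 := intermediate_value_Icc hs.1 hcc
    obtain ⟨s', hs', h2⟩ := h1 ⟨hprod0.le, hcon⟩
    exact hne s' (hsub hs') h2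
  intro s hs
  have h1 := hneg s hs
  have h2 : (0 : ℝ) ∈ uIcc (g s (-a)) (g s a) := by
    rw [mem_uIcc]
    rcases mul_neg_iff.1 h1 with h | h
    · exact Or.inr ⟨h.2.le, h.1.le⟩
    · exact Or.inl ⟨h.1.le, h.2.le⟩
  have h3 : ContinuousOn (g s) (uIcc (-a) a) := by
    rw [uIcc_of_le (by linarith)]
    exact hct s hs
  obtain ⟨t, ht, h4⟩ := intermediate_value_uIcc h3 h2
  rw [uIcc_of_le (by linarith)] at ht
  exact ⟨t, ht, h4⟩

section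

variable {M : Type*} [MetricSpace M] {W : Type*} [NormedAddCommGroup W]
  [NormedSpace ℝ W] {J : Emb M W} {f : M ≃ₜ M}

/-- The construction of the path. -/
theorem path_at {E : M → M → Prop} {H : M → M → ℝ} {Q : M → ℝ → M} {r₀ ρ₀ : ℝ}
    (hL : Loc f E H Q r₀ ρ₀) (x : M) (U : W →L[ℝ] W)
    (θ : W →L[ℝ] ℝ) (e : W) {ε' Cc r κ N a : ℝ} (hε' : 0 ≤ ε') (hCc : 0 ≤ Cc) (hε'r : ε' ≤ r₀)
    (hlow : ∀ z ∈ Wl f.symm ε' x, ∀ z' ∈ Wl f.symm ε' x,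
      dist z z' ≤ Cc * ‖U (J.e z - J.e z')‖)
    (hsurj : ∀ w, U w = w → ‖w‖ ≤ r → ∃ z ∈ Wl f.symm ε' x, U (J.e z - J.e x) = w)
    (hslope : ∀ z ∈ Wl f.symm ε' x, ∀ z' ∈ Wl f.symm ε' x, E z z' →
      |θ (U (J.e z - J.e z'))| ≤ κ * ‖U (J.e z - J.e z')‖)
    (hθe : 1 / 2 ≤ θ e) (hUe : U e = e) (heN : ‖e‖ ≤ N) (hκ0 : 0 ≤ κ) (hκ : κ ≤ 1 / 4)
    (hκN : κ * N ≤ 1 / 4) (ha : 0 < a) (har : a * (N + 1) ≤ r) (y : M)
    (hy : y ∈ Wl f.symm ε' x) (hE : E x y) (w : W) (τ₁ : ℝ) (hw : U w = w) (hθw : θ w = 0)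
    (hwa : ‖w‖ ≤ a / 2) (hτ : |τ₁| ≤ a) (hwy : U (J.e y - J.e x) = w + τ₁ • e) :
    ∃ γ : ℝ → M, γ 0 = x ∧ γ 1 = y ∧ ∀ t ∈ Icc (0 : ℝ) 1, ∀ t' ∈ Icc (0 : ℝ) 1,
      γ t ∈ Wl f.symm (ε' + ε') (γ t') ∧ E (γ t) (γ t') ∧
        dist (γ t) (γ t') ≤ Cc * (N + 1) * a * |t - t'| := by
  have hN0 : 0 ≤ N := (norm_nonneg e).trans heN
  have hex : ∀ u : W, U u = u ∧ ‖u‖ ≤ r → ∃ z, z ∈ Wl f.symm ε' x ∧ U (J.e z - J.e x) = u := by
    rintro u ⟨hu, hur⟩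
    obtain ⟨z, hz, h⟩ := hsurj u hu hur
    exact ⟨z, hz, h⟩
  have : Nonempty M := ⟨x⟩
  choose! Ψ hΨW hΨU using hex
  have hin : ∀ s ∈ Icc (0 : ℝ) 1, ∀ t ∈ Icc (-a) a, U (s • w + t • e) = s • w + t • e ∧
      ‖s • w + t • e‖ ≤ r := by
    intro s hs t ht
    refine ⟨by rw [map_add, map_smul, map_smul, hw, hUe], ?_⟩
    have h1 : ‖s • w‖ ≤ a := by
      rw [norm_smul, Real.norm_eq_abs, abs_of_nonneg hs.1]
      calc s * ‖w‖ ≤ 1 * (a / 2) := mul_le_mul hs.2 hwa (norm_nonneg _) zero_le_one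
        _ ≤ a := by linarith
    have h2 : ‖t • e‖ ≤ a * N := by
      rw [norm_smul, Real.norm_eq_abs]
      exact mul_le_mul (abs_le.2 ht) heN (norm_nonneg _) ha.le
    calc ‖s • w + t • e‖ ≤ ‖s • w‖ + ‖t • e‖ := norm_add_le _ _
      _ ≤ a + a * N := add_le_add h1 h2
      _ = a * (N + 1) := by ring
      _ ≤ r := har
  have hdiff : ∀ s ∈ Icc (0 : ℝ) 1, ∀ s' ∈ Icc (0 : ℝ) 1, ∀ t ∈ Icc (-a) a, ∀ t' ∈ Icc (-a) a,
      U (J.e (Ψ (s • w + t • e)) - J.e (Ψ (s' • w + t' • e))) =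
        (s - s') • w + (t - t') • e := by
    intro s hs s' hs' t ht t' ht'
    have h1 := hΨU _ (hin s hs t ht)
    have h2 := hΨU _ (hin s' hs' t' ht')
    have h3 : J.e (Ψ (s • w + t • e)) - J.e (Ψ (s' • w + t' • e)) =
        (J.e (Ψ (s • w + t • e)) - J.e x) - (J.e (Ψ (s' • w + t' • e)) - J.e x) := by abel
    rw [h3, map_sub, h1, h2, sub_smul, sub_smul]
    abel
  have hnorm : ∀ s s' t t' : ℝ, ‖(s - s') • w + (t - t') • e‖ ≤
      |s - s'| * ‖w‖ + |t - t'| * N := by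
    intro s s' t t'
    refine (norm_add_le _ _).trans ?_
    rw [norm_smul, norm_smul, Real.norm_eq_abs, Real.norm_eq_abs]
    gcongr
  have hdist : ∀ s ∈ Icc (0 : ℝ) 1, ∀ s' ∈ Icc (0 : ℝ) 1, ∀ t ∈ Icc (-a) a, ∀ t' ∈ Icc (-a) a,
      dist (Ψ (s • w + t • e)) (Ψ (s' • w + t' • e)) ≤
        Cc * (|s - s'| * ‖w‖ + |t - t'| * N) := by
    intro s hs s' hs' t ht t' ht'
    have h1 := hlow _ (hΨW _ (hin s hs t ht)) _ (hΨW _ (hin s' hs' t' ht'))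
    rw [hdiff s hs s' hs' t ht t' ht'] at h1
    exact h1.trans (mul_le_mul_of_nonneg_left (hnorm _ _ _ _) hCc)
  have hball : ∀ s ∈ Icc (0 : ℝ) 1, ∀ t ∈ Icc (-a) a, dist (Ψ (s • w + t • e)) x ≤ r₀ :=
    fun s hs t ht => (Wl_dist (hΨW _ (hin s hs t ht))).trans hε'r
  have h01 : (0 : ℝ) ∈ Icc (0 : ℝ) 1 := ⟨le_rfl, zero_le_one⟩
  have h11 : (1 : ℝ) ∈ Icc (0 : ℝ) 1 := ⟨zero_le_one, le_rfl⟩
  have h0a : (0 : ℝ) ∈ Icc (-a) a := ⟨by linarith, ha.le⟩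
  have hτa : τ₁ ∈ Icc (-a) a := abs_le.1 hτ
  have hΨ0 : Ψ ((0 : ℝ) • w + (0 : ℝ) • e) = x := by
    have h1 := hlow _ (hΨW _ (hin 0 h01 0 h0a)) x (mem_Wl_self hε')
    rw [hΨU _ (hin 0 h01 0 h0a), zero_smul, zero_smul, add_zero, norm_zero, mul_zero] at h1
    rw [zero_smul, zero_smul, add_zero]
    exact dist_le_zero.1 h1
  have hΨ1 : Ψ ((1 : ℝ) • w + τ₁ • e) = y := by
    have h1 := hlow _ (hΨW _ (hin 1 h11 τ₁ hτa)) y hy
    have h2 : J.e (Ψ ((1 : ℝ) • w + τ₁ • e)) - J.e y =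
        (J.e (Ψ ((1 : ℝ) • w + τ₁ • e)) - J.e x) - (J.e y - J.e x) := by abel
    rw [h2, map_sub, hΨU _ (hin 1 h11 τ₁ hτa), hwy, one_smul, sub_self, norm_zero,
      mul_zero] at h1
    rw [one_smul]
    exact dist_le_zero.1 h1
  have hEiff : ∀ s ∈ Icc (0 : ℝ) 1, ∀ s' ∈ Icc (0 : ℝ) 1, ∀ t ∈ Icc (-a) a, ∀ t' ∈ Icc (-a) a,
      (E (Ψ (s • w + t • e)) (Ψ (s' • w + t' • e)) ↔
        H x (Ψ (s • w + t • e)) = H x (Ψ (s' • w + t' • e))) :=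
    fun s hs s' hs' t ht t' ht' => hL.E_iff x _ _ (hball s hs t ht) (hball s' hs' t' ht')
  -- the estimate of the slope
  have hinj : ∀ s ∈ Icc (0 : ℝ) 1, ∀ s' ∈ Icc (0 : ℝ) 1, ∀ t ∈ Icc (-a) a, ∀ t' ∈ Icc (-a) a,
      H x (Ψ (s • w + t • e)) = H x (Ψ (s' • w + t' • e)) → |t - t'| ≤ ‖w‖ * |s - s'| := by
    intro s hs s' hs' t ht t' ht' h
    have h1 := hslope _ (hΨW _ (hin s hs t ht)) _ (hΨW _ (hin s' hs' t' ht'))
      ((hEiff s hs s' hs' t ht t' ht').2 h)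
    rw [hdiff s hs s' hs' t ht t' ht', map_add, map_smul, map_smul, hθw, smul_zero, zero_add,
      smul_eq_mul, abs_mul, abs_of_pos (by linarith : 0 < θ e)] at h1
    have h2 := h1.trans (mul_le_mul_of_nonneg_left (hnorm s s' t t') hκ0)
    have h3 : 0 ≤ |t - t'| := abs_nonneg _
    have h4 : 0 ≤ |s - s'| * ‖w‖ := by positivity
    have h5 : |t - t'| * (1 / 2) ≤ |t - t'| * θ e := mul_le_mul_of_nonneg_left hθe h3
    have h6 : |t - t'| * (κ * N) ≤ |t - t'| * (1 / 4) := mul_le_mul_of_nonneg_left hκN h3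
    have h7 : κ * (|s - s'| * ‖w‖) ≤ 1 / 4 * (|s - s'| * ‖w‖) :=
      mul_le_mul_of_nonneg_right hκ h4
    have h8 : κ * (|s - s'| * ‖w‖ + |t - t'| * N) =
        κ * (|s - s'| * ‖w‖) + |t - t'| * (κ * N) := by ring
    nlinarith
  have hunif : ∀ η : ℝ, 0 < η → ∃ δ : ℝ, 0 < δ ∧ ∀ s ∈ Icc (0 : ℝ) 1, ∀ s' ∈ Icc (0 : ℝ) 1,
      ∀ t ∈ Icc (-a) a, ∀ t' ∈ Icc (-a) a, |s - s'| ≤ δ → |t - t'| ≤ δ →
      |H x (Ψ (s • w + t • e)) - H x (Ψ (s' • w + t' • e))| ≤ η := by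
    intro η hη
    obtain ⟨δ, hδ, h1⟩ := hL.equi η hη
    refine ⟨δ / (Cc * (‖w‖ + N) + 1), by positivity, fun s hs s' hs' t ht t' ht' h2 h3 => ?_⟩
    refine h1 x _ _ (hball s hs t ht) (hball s' hs' t' ht') ?_
    refine (hdist s hs s' hs' t ht t' ht').trans ?_
    have hpos : 0 < Cc * (‖w‖ + N) + 1 := by positivity
    set q : ℝ := δ / (Cc * (‖w‖ + N) + 1) with hq
    have hq0 : 0 ≤ q := by positivity
    calc Cc * (|s - s'| * ‖w‖ + |t - t'| * N) ≤ Cc * (q * ‖w‖ + q * N) := by gcongr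
      _ ≤ q * (Cc * (‖w‖ + N) + 1) := by nlinarith
      _ = δ := by rw [hq]; field_simp
  have h0 : H x (Ψ ((0 : ℝ) • w + (0 : ℝ) • e)) = 0 := by rw [hΨ0, hL.H_self]
  have hlevel := exists_level (g := fun s t => H x (Ψ (s • w + t • e))) ha (norm_nonneg w)
    (by linarith) hunif h0 hinj
  choose! τ hτm hτ0 using hlevel
  have hτz : τ 0 = 0 := by
    have h1 := hinj 0 h01 0 h01 (τ 0) (hτm 0 h01) 0 h0a (by rw [h0]; exact hτ0 0 h01)
    rw [sub_self (0 : ℝ), abs_zero, mul_zero, sub_zero] at h1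
    exact abs_nonpos_iff.1 h1
  have hyH : H x y = 0 := by
    have h1 := (hL.E_iff x x y (by rw [dist_self]; exact hL.r₀_pos.le)
      ((Wl_dist hy).trans hε'r)).1 hE
    rw [← h1, hL.H_self]
  have hτo : τ 1 = τ₁ := by
    have h1 := hinj 1 h11 1 h11 (τ 1) (hτm 1 h11) τ₁ hτa (by
      rw [hΨ1, hyH]; exact hτ0 1 h11)
    rw [sub_self (1 : ℝ), abs_zero, mul_zero] at h1
    have h2 := abs_nonpos_iff.1 h1
    linarith
  refine ⟨fun s => Ψ (s • w + τ s • e), ?_, ?_, fun t ht t' ht' => ⟨?_, ?_, ?_⟩⟩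
  · show Ψ ((0 : ℝ) • w + τ 0 • e) = x
    rw [hτz]
    exact hΨ0
  · show Ψ ((1 : ℝ) • w + τ 1 • e) = y
    rw [hτo]
    exact hΨ1
  · exact Wl_trans (Wl_comm (hΨW _ (hin t' ht' _ (hτm t' ht')))) (hΨW _ (hin t ht _ (hτm t ht)))
  · refine (hEiff t ht t' ht' _ (hτm t ht) _ (hτm t' ht')).2 ?_
    exact (hτ0 t ht).trans (hτ0 t' ht').symm
  · have h1 := hinj t ht t' ht' _ (hτm t ht) _ (hτm t' ht')
      ((hτ0 t ht).trans (hτ0 t' ht').symm)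
    have h2 := hdist t ht t' ht' _ (hτm t ht) _ (hτm t' ht')
    refine h2.trans ?_
    have h3 : 0 ≤ |t - t'| := abs_nonneg _
    have h4 : ‖w‖ ≤ a := by linarith
    calc Cc * (|t - t'| * ‖w‖ + |τ t - τ t'| * N)
        ≤ Cc * (|t - t'| * ‖w‖ + (‖w‖ * |t - t'|) * N) := by gcongr
      _ = Cc * (N + 1) * ‖w‖ * |t - t'| := by ring
      _ ≤ Cc * (N + 1) * a * |t - t'| := by gcongr

/-- A functional vanishing on the tangent space of the plaque. -/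
theorem exists_functional [FiniteDimensional ℝ W] (s : Split J f) {F : M → Submodule ℝ W}
    (x₀ : M) (hFU : ∀ w ∈ F x₀, s.U x₀ w = w) {e₀ : W} (he : s.U x₀ e₀ = e₀)
    (heF : e₀ ∉ F x₀) : ∃ θ : W →L[ℝ] ℝ, θ e₀ = 1 ∧ (∀ v, s.S x₀ v = v → θ v = 0) ∧
      ∀ w ∈ F x₀, θ w = 0 := by
  set T : Submodule ℝ W := (s.S x₀ : W →ₗ[ℝ] W).range ⊔ F x₀ with hT
  have hnot : e₀ ∉ T := by
    intro hmem
    obtain ⟨v, hv, w, hw, hvw⟩ := Submodule.mem_sup.1 hmem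
    obtain ⟨u, hu⟩ := hv
    have h1 : s.U x₀ v = 0 := by
      rw [← hu]
      exact s.US_apply x₀ u
    have h2 : e₀ = w := by
      rw [← he, ← hvw, map_add, h1, zero_add, hFU w hw]
    exact heF (h2 ▸ hw)
  obtain ⟨g, hg, hle⟩ := Submodule.exists_le_ker_of_notMem hnot
  refine ⟨(g e₀)⁻¹ • LinearMap.toContinuousLinearMap g, ?_, ?_, ?_⟩
  · simp [inv_mul_cancel₀ hg]
  · intro v hv
    have h1 : v ∈ T := Submodule.mem_sup_left ⟨v, hv⟩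
    have h2 : g v = 0 := hle h1
    simp [h2]
  · intro w hw
    have h1 : w ∈ T := Submodule.mem_sup_right hw
    have h2 : g w = 0 := hle h1
    simp [h2]

/-- The statement at one point. -/
def PathP (f : M ≃ₜ M) (E : M → M → Prop) (ε₁ ρ Λ : ℝ) (x : M) : Prop :=
  ∀ y ∈ Wl f.symm ρ x, E x y →
      ∃ γ : ℝ → M, γ 0 = x ∧ γ 1 = y ∧ ∀ t ∈ Icc (0 : ℝ) 1, ∀ t' ∈ Icc (0 : ℝ) 1,
        γ t ∈ Wl f.symm ε₁ (γ t') ∧ E (γ t) (γ t') ∧ dist (γ t) (γ t') ≤ Λ * |t - t'|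

/-- The constants near a point. -/
theorem local_const [CompactSpace M] [FiniteDimensional ℝ W] (s : Split J f)
    {E : M → M → Prop} {H : M → M → ℝ} {Q : M → ℝ → M} {r₀ ρ₀ : ℝ} {F : M → Submodule ℝ W}
    (hs : s.Hyperbolic) (hL : Loc f E H Q r₀ ρ₀) (hT : Tangent s E F)
    (hFU : ∀ x, ∀ w ∈ F x, s.U x w = w) (hF : ∀ x, ∃ e : W, s.U x e = e ∧ e ∉ F x)
    {ε₁ : ℝ} (hε₁ : 0 < ε₁) (x₀ : M) :
    ∃ ρ Λ : ℝ, 0 < ρ ∧ 0 ≤ Λ ∧ ∀ᶠ x in 𝓝 x₀, PathP f E ε₁ ρ Λ x := by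
  obtain ⟨e₀, he₀, he₀F⟩ := hF x₀
  obtain ⟨θ, hθe, hθS, hθF⟩ := exists_functional s x₀ (hFU x₀) he₀ he₀F
  obtain ⟨εc, Cc, hcrd⟩ := specCrd M W J f.symm s.swap hs.swap
  obtain ⟨K, hK1, hK⟩ := s.exists_bdd
  have hK0 : 0 < K := by linarith
  have hCc := hcrd.one_le
  have hCc0 : 0 < Cc := by linarith
  set N : ℝ := K * ‖e₀‖ with hN
  have hN0 : 0 ≤ N := by positivity
  set κ : ℝ := 1 / (4 * (N + 1)) with hκ
  have hκ0 : 0 < κ := by positivity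
  have hκN1 : κ * (N + 1) = 1 / 4 := by rw [hκ]; field_simp
  have hκ4 : κ ≤ 1 / 4 := by nlinarith
  have hκN : κ * N ≤ 1 / 4 := by nlinarith
  set B : ℝ := ‖θ‖ with hB
  have hB0 : 0 ≤ B := norm_nonneg _
  set η : ℝ := κ / (2 * (B + 1) * Cc) with hη
  have hη0 : 0 < η := by positivity
  have hηκ : B * (2 * η) * Cc ≤ κ := by
    have h1 : (B + 1) * (2 * η) * Cc = κ := by rw [hη]; field_simp
    have h2 : 0 ≤ 2 * η * Cc := by positivity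
    nlinarith
  obtain ⟨r₁, hr₁, hT1⟩ := Metric.eventually_nhds_iff.1 (hT x₀ η hη0)
  obtain ⟨ε₂, hε₂, hcone⟩ := exists_cone s.swap hs.swap (η := η / 2) (half_pos hη0)
  simp only [Split.swap_S] at hcone
  obtain ⟨r₂, hr₂, hunifU⟩ := s.exists_unifU hs (η := η / 2) (half_pos hη0)
  set ε' : ℝ := min (min (min (ε₁ / 2) (ε₂ / 2)) (min εc r₀)) (min (r₁ / 4) (r₂ / 2)) with hε'
  have hε'0 : 0 < ε' := by
    have := hcrd.ε_pos
    have := hL.r₀_pos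
    positivity
  have hε'1 : ε' + ε' ≤ ε₁ := by
    have : ε' ≤ ε₁ / 2 := (min_le_left _ _).trans ((min_le_left _ _).trans (min_le_left _ _))
    linarith
  have hε'2 : ε' + ε' ≤ ε₂ := by
    have : ε' ≤ ε₂ / 2 := (min_le_left _ _).trans ((min_le_left _ _).trans (min_le_right _ _))
    linarith
  have hε'c : ε' ≤ εc := (min_le_left _ _).trans ((min_le_right _ _).trans (min_le_left _ _))
  have hε'r : ε' ≤ r₀ := (min_le_left _ _).trans ((min_le_right _ _).trans (min_le_right _ _))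
  have hε'r₁ : ε' ≤ r₁ / 4 := (min_le_right _ _).trans (min_le_left _ _)
  have hε'r₂ : ε' ≤ r₂ / 2 := (min_le_right _ _).trans (min_le_right _ _)
  obtain ⟨r, hr, hsurj⟩ := hcrd.surj ε' hε'0
  set a : ℝ := r / (N + 1) with ha
  have ha0 : 0 < a := by positivity
  have har : a * (N + 1) ≤ r := by rw [ha]; field_simp; exact le_rfl
  set T : ℝ := 2 * K * (1 + 2 * B * (N + 1)) with hTdef
  have hT0 : 0 < T := by positivity
  have hcontU : Continuous fun x => θ (s.U x e₀) :=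
    θ.continuous.comp ((s.contU hs).clm_apply continuous_const)
  have hev : ∀ᶠ x in 𝓝 x₀, 1 / 2 < θ (s.U x e₀) := by
    refine hcontU.continuousAt.eventually (lt_mem_nhds ?_)
    simp only [he₀, hθe]
    norm_num
  refine ⟨min ε' (a / T), Cc * (N + 1) * a, by positivity, by positivity, ?_⟩
  filter_upwards [hev, Metric.ball_mem_nhds x₀ (show 0 < r₁ / 2 by positivity)] with x hx hxb
  rw [Metric.mem_ball] at hxb
  intro y hy hE
  set e : W := s.U x e₀ with he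
  have hUe : s.U x e = e := s.UU_apply x e₀
  have heN : ‖e‖ ≤ N := (s.U x).le_of_opNorm_le (hK x).2 e₀
  have hθe' : 1 / 2 ≤ θ e := hx.le
  have hθepos : 0 < θ e := by linarith
  have hyε : y ∈ Wl f.symm ε' x := Wl_mono (min_le_left _ _) hy
  have hyd : dist y x ≤ a / T := (Wl_dist hy).trans (min_le_right _ _)
  set u : W := s.U x (J.e y - J.e x) with hu
  have hUu : s.U x u = u := s.UU_apply x _
  have hun : ‖u‖ ≤ K * (a / T) := by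
    refine ((s.U x).le_of_opNorm_le (hK x).2 _).trans ?_
    rw [← J.dist_eq y x]
    exact mul_le_mul_of_nonneg_left hyd hK0.le
  set τ₁ : ℝ := θ u / θ e with hτ₁
  set w : W := u - τ₁ • e with hw
  have hUw : s.U x w = w := by rw [hw, map_sub, map_smul, hUu, hUe]
  have hθw : θ w = 0 := by
    rw [hw, map_sub, map_smul, smul_eq_mul, hτ₁, div_mul_cancel₀ _ hθepos.ne', sub_self]
  have hτn : |τ₁| ≤ 2 * B * ‖u‖ := by
    rw [hτ₁, abs_div, abs_of_pos hθepos, div_le_iff₀ hθepos]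
    have h1 : |θ u| ≤ B * ‖u‖ := by
      rw [← Real.norm_eq_abs]
      exact θ.le_opNorm u
    have h2 : 0 ≤ B * ‖u‖ := by positivity
    nlinarith
  have hKT : K * (a / T) * (1 + 2 * B * (N + 1)) = a / 2 := by rw [hTdef]; field_simp
  have hKT0 : 0 ≤ K * (a / T) := by positivity
  have hwa : ‖w‖ ≤ a / 2 := by
    calc ‖w‖ ≤ ‖u‖ + ‖τ₁ • e‖ := norm_sub_le _ _
      _ ≤ ‖u‖ + 2 * B * ‖u‖ * N := by
          rw [norm_smul, Real.norm_eq_abs]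
          gcongr
      _ = ‖u‖ * (1 + 2 * B * N) := by ring
      _ ≤ K * (a / T) * (1 + 2 * B * (N + 1)) := by
          gcongr
          linarith
      _ = a / 2 := hKT
  have hτa : |τ₁| ≤ a := by
    calc |τ₁| ≤ 2 * B * ‖u‖ := hτn
      _ ≤ 2 * B * (K * (a / T)) := by gcongr
      _ = K * (a / T) * (2 * B) := by ring
      _ ≤ K * (a / T) * (1 + 2 * B * (N + 1)) := by
          gcongr
          nlinarith [mul_nonneg hB0 hN0]
      _ = a / 2 := hKT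
      _ ≤ a := by linarith
  -- the slope estimate
  have hslope : ∀ z ∈ Wl f.symm ε' x, ∀ z' ∈ Wl f.symm ε' x, E z z' →
      |θ (s.U x (J.e z - J.e z'))| ≤ κ * ‖s.U x (J.e z - J.e z')‖ := by
    intro z hz z' hz' hzz
    have hzx : dist z x₀ < r₁ := by
      have := dist_triangle z x x₀
      have := Wl_dist hz
      linarith
    have hzx' : dist z' x₀ < r₁ := by
      have := dist_triangle z' x x₀
      have := Wl_dist hz'
      linarith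
    obtain ⟨v₁, w₁, hv₁, hw₁, a1⟩ := hT1 (y := (z, z')) (by
      rw [Prod.dist_eq]
      exact max_lt hzx hzx') hzz
    simp only at a1
    have hmut : z ∈ Wl f.symm ε₂ z' := Wl_mono hε'2 (Wl_trans (Wl_comm hz') hz)
    have a2 := hcone z' z hmut
    have a3 := hunifU x z' ((Wl_dist hz').trans_lt (by linarith)) (J.e z - J.e z')
    have a4 := hcrd.lower x z (Wl_mono hε'c hz) z' (Wl_mono hε'c hz')
    simp only [Split.swap_S] at a4
    set v : W := J.e z - J.e z' with hv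
    have hvd : ‖v‖ = dist z z' := (J.dist_eq z z').symm
    rw [hvd] at a3
    have b1 : ‖v - s.U x v‖ ≤ η * dist z z' := by
      have h1 : v - s.U x v = (v - s.U z' v) + (s.U z' v - s.U x v) := by abel
      rw [h1]
      refine (norm_add_le _ _).trans ?_
      linarith
    have b2 : θ v = θ (v - (v₁ + w₁)) := by
      rw [map_sub θ v (v₁ + w₁), map_add θ v₁ w₁, hθS v₁ hv₁, hθF w₁ hw₁, add_zero, sub_zero]
    have b3 : |θ v| ≤ B * (η * dist z z') := by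
      rw [b2, ← Real.norm_eq_abs]
      exact (θ.le_opNorm _).trans (mul_le_mul_of_nonneg_left a1 hB0)
    have b4 : |θ (v - s.U x v)| ≤ B * (η * dist z z') := by
      rw [← Real.norm_eq_abs]
      exact (θ.le_opNorm _).trans (mul_le_mul_of_nonneg_left b1 hB0)
    have b5 : θ (s.U x v) = θ v - θ (v - s.U x v) := by
      rw [map_sub θ v (s.U x v)]; abel
    rw [b5]
    calc |θ v - θ (v - s.U x v)| ≤ |θ v| + |θ (v - s.U x v)| := abs_sub _ _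
      _ ≤ B * (η * dist z z') + B * (η * dist z z') := add_le_add b3 b4
      _ = B * (2 * η) * dist z z' := by ring
      _ ≤ B * (2 * η) * (Cc * ‖s.U x v‖) := by gcongr
      _ = B * (2 * η) * Cc * ‖s.U x v‖ := by ring
      _ ≤ κ * ‖s.U x v‖ := by gcongr
  obtain ⟨γ, hγ0, hγ1, hγ⟩ := path_at hL x (s.U x) θ e hε'0.le hCc0.le hε'r
    (fun z hz z' hz' => hcrd.lower x z (Wl_mono hε'c hz) z' (Wl_mono hε'c hz'))
    (fun w hw hwr => hsurj x w hw hwr) hslope hθe' hUe heN hκ0.le hκ4 hκN ha0 har y hyε hE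
    w τ₁ hUw hθw hwa hτa (by rw [hw, sub_add_cancel])
  exact ⟨γ, hγ0, hγ1, fun t ht t' ht' =>
    ⟨Wl_mono hε'1 (hγ t ht t' ht').1, (hγ t ht t' ht').2⟩⟩

end

end LpathM

open LpathM in
/-- Module LPATH. -/
theorem specLpath : SpecLpath.{u, v} := by
  intro M _ _ W _ _ _ J f s E H Q r₀ ρ₀ F hs hL hT hFU hF ε₁ hε₁
  have hF' : ∀ x, ∃ e : W, s.U x e = e ∧ e ∉ F x := fun x => by
    obtain ⟨e, h1, h2, _⟩ := hF x
    exact ⟨e, h1, h2⟩
  refine unif_of_local (P := fun ρ Λ x => PathP f E ε₁ ρ Λ x) ?_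
    (fun x₀ => local_const s hs hL hT hFU hF' hε₁ x₀)
  intro ρ ρ' Λ Λ' x hρ hΛ h y hy hE
  obtain ⟨γ, h0, h1, h2⟩ := h y (Wl_mono hρ hy) hE
  refine ⟨γ, h0, h1, fun t ht t' ht' => ?_⟩
  obtain ⟨h3, h4, h5⟩ := h2 t ht t' ht'
  exact ⟨h3, h4, h5.trans (mul_le_mul_of_nonneg_right hΛ (abs_nonneg _))⟩

end Pool.Agent.Lib.MP610fe3.T4
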