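import Pool.Agent.Lib.MP_610fe3_an.T4.MainD
import Pool.Agent.Lib.MP_610fe3_an.T4.Lpath

/-!
# The codimension one foliation theorem
-/

namespace Pool.Agent.Lib.MP610fe3.T4

universe u v w

theorem main : SpecMain.{u, v, w} := main_of_lpath specLpath

end Pool.Agent.Lib.MP610fe3.T4
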