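import Pool.Agent.Lib.MP_610fe3_an.T4.Hgt

/-!
# Module GAP: a sequence of gaps of the complement of the basin
-/

open Set Filter Function
open scoped Topology ENNReal

namespace Pool.Agent.Lib.MP610fe3.T4

universe u

namespace Gap74

open Cf H6 Hgt

variable {M : Type*} [MetricSpace M] {f : M ≃ₜ M} {E : M → M → Prop} {H : M → M → ℝ}
  {κ : M → ℝ → M} {C ν r r₁ ε ρ : ℝ}

theorem mem_iter {B : Set M} (hB : ∀ x, f x ∈ B ↔ x ∈ B) (n : ℕ) (x : M) :
    f^[n] x ∈ B ↔ x ∈ B := by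
  induction n generalizing x with
  | zero => rfl
  | succ n ih => rw [iterate_succ_apply, ih, hB]

theorem sign_mul_self {e : ℝ} (he : e = 1 ∨ e = -1) : e * e = 1 := by
  rcases he with h | h <;> rw [h] <;> norm_num

theorem sign_abs {e : ℝ} (he : e = 1 ∨ e = -1) : |e| = 1 := by
  rcases he with h | h <;> rw [h] <;> norm_num

theorem sign_mem {e : ℝ} (he : e = 1 ∨ e = -1) {s ρ : ℝ} (h : |s| ≤ ρ) :
    e * s ∈ Icc (-ρ) ρ := by
  rw [mem_Icc, ← abs_le, abs_mul, sign_abs he, one_mul]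
  exact h

/-- A one sided gap of the complement of `B`. -/
theorem exists_gap [CompactSpace M] [ConnectedSpace M] {A B : Set M} (hh : Hyp f C ν r r₁)
    (hb : Box f E H κ r r₁ ε ρ) (hB : Bas f E A B r r₁) (hA : A.Nonempty) :
    ∃ (z : M) (e t₂ : ℝ), z ∉ B ∧ (e = 1 ∨ e = -1) ∧ 0 < t₂ ∧
      ∀ s ∈ Ioo 0 t₂, s ≤ ρ → κ z (e * s) ∈ B := by
  have hε := hb.ε_pos
  have hε1 := hb.ε_le
  have hε2 := eps_le hh hb
  have hr1 := hh.r₁_le
  have hρ := hb.ρ_pos
  -- a boundary point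
  have hncl : ¬ IsClosed B := by
    intro hc
    rcases isClopen_iff.1 ⟨hc, hB.isOpen⟩ with h | h
    · obtain ⟨a, ha⟩ := hA
      have := hB.sub ha
      rw [h] at this
      exact this
    · exact hB.ne h
  obtain ⟨y, hy1, hy2⟩ : ∃ y, y ∈ closure B ∧ y ∉ B := by
    by_contra hcon
    push Not at hcon
    exact hncl (isClosed_of_closure_subset fun y hy => hcon y hy)
  obtain ⟨δ, hδ, hδ'⟩ := hb.equi ρ hρ
  obtain ⟨b, hbB, hbd⟩ := Metric.mem_closure_iff.1 hy1 (min δ (8 * ε)) (lt_min hδ (by linarith))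
  have hd1 : dist y b ≤ δ := hbd.le.trans (min_le_left _ _)
  have hd2 : dist y b ≤ 8 * ε := hbd.le.trans (min_le_right _ _)
  set h := H b y with hh'
  have hhρ : |h| ≤ ρ := by
    have := hδ' b y b (by linarith) (by rw [dist_self]; linarith) hd1
    rwa [hb.H_self, sub_zero] at this
  have hmem : ∀ t ∈ Icc (0 : ℝ) 1, t * h ∈ Icc (-ρ) ρ := by
    intro t ht
    rw [mem_Icc, ← abs_le, abs_mul, abs_of_nonneg ht.1]
    nlinarith [ht.1, ht.2, abs_nonneg h]
  have hend : κ b h ∉ B := by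
    have hhm : h ∈ Icc (-ρ) ρ := abs_le.1 hhρ
    have h1 : E (κ b h) y := (hb.E_iff b _ _ ((kap_d hb hhm).trans (by linarith))
      (by linarith)).2 (hb.κ_H b h hhm)
    have h2 : dist (κ b h) y ≤ r₁ := by
      have := dist_triangle_right (κ b h) y b
      linarith [kap_d hb hhm (x := b)]
    rw [hB.sat _ _ h2 h1]
    exact hy2
  -- the first exit
  set T : Set ℝ := Icc (0 : ℝ) 1 ∩ (fun t => κ b (t * h)) ⁻¹' Bᶜ with hT
  have hTc : IsClosed T := by
    refine ContinuousOn.preimage_isClosed_of_isClosed ?_ isClosed_Icc hB.isOpen.isClosed_compl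
    exact (contOn_kap hb b).comp (by fun_prop) fun t ht => hmem t ht
  have hTcomp : IsCompact T := isCompact_Icc.of_isClosed_subset hTc inter_subset_left
  have hT1 : (1 : ℝ) ∈ T := ⟨⟨zero_le_one, le_rfl⟩, by
    show κ b (1 * h) ∈ Bᶜ
    rw [one_mul]; exact hend⟩
  obtain ⟨τ, hτT, hτl⟩ := hTcomp.exists_isLeast ⟨1, hT1⟩
  have hτ0 : 0 < τ := by
    rcases hτT.1.1.eq_or_lt with h0 | h0
    · exfalso
      apply hτT.2
      show κ b (τ * h) ∈ B
      rw [← h0, zero_mul, hb.κ_zero]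
      exact hbB
    · exact h0
  have hbef : ∀ t, 0 ≤ t → t < τ → κ b (t * h) ∈ B := by
    intro t ht ht'
    by_contra hcon
    exact absurd (hτl ⟨⟨ht, ht'.le.trans hτT.1.2⟩, hcon⟩) (not_le.2 ht')
  have hh0 : h ≠ 0 := by
    intro h0
    apply hend
    rw [h0, hb.κ_zero]
    exact hbB
  set z := κ b (τ * h) with hz
  have hzB : z ∉ B := hτT.2
  have hzd : dist z b ≤ ε := kap_d hb (hmem τ hτT.1)
  have hd : ∀ s ∈ Icc (-ρ) ρ, dist (κ z s) b ≤ 2 * ε := fun s hs => by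
    linarith [dist_triangle (κ z s) z b, kap_d hb hs (x := z)]
  have hφ0 : H b (κ z 0) = τ * h := by
    rw [hb.κ_zero, hz, hb.κ_H b _ (hmem τ hτT.1)]
  have hφc : ContinuousOn (fun s => H b (κ z s)) (Icc (-ρ) ρ) :=
    (contOn_H hb b).comp (contOn_kap hb z) fun s hs =>
      Metric.mem_closedBall.2 ((hd s hs).trans (by linarith))
  have hφi : InjOn (fun s => H b (κ z s)) (Icc (-ρ) ρ) := by
    intro s hs s' hs' hss
    have h1 : E (κ z s) (κ z s') := (hb.E_iff b _ _ ((hd s hs).trans (by linarith))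
      ((hd s' hs').trans (by linarith))).2 hss
    have h2 := (hb.E_iff z _ _ ((kap_d hb hs).trans (by linarith))
      ((kap_d hb hs').trans (by linarith))).1 h1
    rwa [hb.κ_H z s hs, hb.κ_H z s' hs'] at h2
  obtain ⟨e, he, hpos, -⟩ := sign_lemma (g := fun s => -(H b (κ z s) - τ * h) * h) hρ
    (((hφc.sub continuousOn_const).neg).mul continuousOn_const)
    (by
      intro s hs s' hs' hss
      refine hφi hs hs' ?_
      have h1 := mul_right_cancel₀ hh0 hss
      have h2 : H b (κ z s) = H b (κ z s') := by linarith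
      exact h2)
    (by simp only [hφ0]; ring)
  have hm0 : (0 : ℝ) ∈ Icc (-ρ) ρ := ⟨by linarith, hρ.le⟩
  obtain ⟨t₂, ht₂, ht₂'⟩ := Metric.continuousOn_iff.1 hφc 0 hm0 (τ * |h|)
    (mul_pos hτ0 (abs_pos.2 hh0))
  refine ⟨z, e, t₂, hzB, he, ht₂, fun s hs hsρ => ?_⟩
  have hsm : e * s ∈ Icc (-ρ) ρ := sign_mem he (by rwa [abs_of_pos hs.1])
  have h1 := hpos s ⟨hs.1, hsρ⟩
  have h2 := ht₂' (e * s) hsm (by
    rw [dist_zero_right, Real.norm_eq_abs, abs_mul, sign_abs he, one_mul, abs_of_pos hs.1]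
    exact hs.2)
  rw [Real.dist_eq, hφ0] at h2
  set v := H b (κ z (e * s)) with hv
  set u := v / h with hu
  have huv : v = u * h := by rw [hu, div_mul_cancel₀ _ hh0]
  have hsq : 0 < h * h := mul_self_pos.2 hh0
  have hu1 : u < τ := by
    rw [huv] at h1
    have : 0 < (τ - u) * (h * h) := by nlinarith
    have := (pos_iff_pos_of_mul_pos this).2 hsq
    linarith
  have hu0 : 0 ≤ u := by
    rw [huv, ← sub_mul, abs_mul] at h2
    have h3 : |u - τ| < τ := lt_of_mul_lt_mul_right h2 (abs_nonneg h)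
    have := (abs_lt.1 h3).1
    linarith
  have hum : u * h ∈ Icc (-ρ) ρ := hmem u ⟨hu0, hu1.le.trans hτT.1.2⟩
  have h3 : E (κ z (e * s)) (κ b (u * h)) := by
    refine (hb.E_iff b _ _ ((hd _ hsm).trans (by linarith))
      ((kap_d hb hum).trans (by linarith))).2 ?_
    rw [hb.κ_H b _ hum, ← huv]
  have h4 : dist (κ z (e * s)) (κ b (u * h)) ≤ r₁ := by
    have := dist_triangle_right (κ z (e * s)) (κ b (u * h)) b
    linarith [hd _ hsm, kap_d hb hum (x := b)]
  rw [hB.sat _ _ h4 h3]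
  exact hbef u hu0 hu1

end Gap74

open Cf H6 Hgt Gap74

theorem specGap : SpecGap.{u} := by
  intro M _ _ _ f E H κ A B C ν r r₁ ε ρ hh hb hB hA
  have hε := hb.ε_pos
  have hε1 := hb.ε_le
  have hε2 := eps_le hh hb
  have hr1 := hh.r₁_le
  have hρ := hb.ρ_pos
  obtain ⟨z, e, t₂, hz, he, ht₂, hgap⟩ := exists_gap hh hb hB hA.ne
  have hee := sign_mul_self he
  have he0 : e ≠ 0 := by
    intro h
    rw [h, zero_mul] at hee
    exact zero_ne_one hee
  obtain ⟨n₀, hn₀⟩ := hgt_small hh hb (η := min (t₂ / 2) ρ) (lt_min (half_pos ht₂) hρ)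
  have hσ : ∀ N : ℕ, ∃ σ : ℝ, (σ = 1 ∨ σ = -1) ∧
      (∀ s ∈ Ioc 0 ρ, 0 < e * H z (f.symm^[N] (κ (f^[N] z) (σ * s)))) ∧
      ∀ s ∈ Ioc 0 ρ, e * H z (f.symm^[N] (κ (f^[N] z) (-(σ * s)))) < 0 := by
    intro N
    have hy : f.symm^[N] (f^[N] z) = z := symm_iterate_iterate f N z
    refine sign_lemma (g := fun t => e * H z (f.symm^[N] (κ (f^[N] z) t))) hρ
      (continuousOn_const.mul (contOn_hgt hh hb hy)) ?_ ?_
    · intro s hs s' hs' hss
      exact injOn_hgt hh hb hy hs hs' (mul_left_cancel₀ he0 hss)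
    · simp only [hgt_zero hb hy, mul_zero]
  choose σ hσ1 hσ2 hσ3 using hσ
  refine ⟨max n₀ 1, fun n hn => ⟨fun i => f^[n * (i + 1)] z, fun i => σ (n * (i + 1)), ?_⟩⟩
  have hn0 : n₀ ≤ n := (le_max_left _ _).trans hn
  have hN : ∀ i : ℕ, n₀ ≤ n * (i + 1) := fun i => hn0.trans (Nat.le_mul_of_pos_right n (by omega))
  refine ⟨fun i => ?_, fun i => hσ1 _, fun i => ?_, fun i s hs => ?_, fun i s hs => ?_⟩
  · rw [← iterate_add_apply]
    congr 1
    ring
  · rw [mem_iter hB.inv]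
    exact hz
  · -- the gap
    set N := n * (i + 1) with hNdef
    have hy : f.symm^[N] (f^[N] z) = z := symm_iterate_iterate f N z
    have hsm : σ N * s ∈ Icc (-ρ) ρ := sign_mem (hσ1 N) (by rw [abs_of_pos hs.1]; exact hs.2.le)
    have h1 := hσ2 N s ⟨hs.1, hs.2.le⟩
    have h2 := hn₀ N (hN i) z (f^[N] z) hy _ hsm
    set p := f.symm^[N] (κ (f^[N] z) (σ N * s)) with hp
    set u := e * H z p with hu
    have hHu : H z p = e * u := by rw [hu, ← mul_assoc, hee, one_mul]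
    have hu2 : |u| ≤ min (t₂ / 2) ρ := by rw [hu, abs_mul, sign_abs he, one_mul]; exact h2
    have hu3 : u ≤ min (t₂ / 2) ρ := (le_abs_self u).trans hu2
    have hu4 : u < t₂ := (hu3.trans (min_le_left _ _)).trans_lt (by linarith)
    have hu5 : u ≤ ρ := hu3.trans (min_le_right _ _)
    have h3 : κ z (e * u) ∈ B := hgap u ⟨h1, hu4⟩ hu5
    have hum : e * u ∈ Icc (-ρ) ρ := sign_mem he (by rw [abs_of_pos h1]; exact hu5)
    have h4 : E (κ z (e * u)) p := E_kap hh hb hy hsm hum hHu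
    have h5 : dist (κ z (e * u)) p ≤ r₁ :=
      (dist_kap hb hy hsm hum 0).trans (by linarith)
    have h6 : p ∈ B := (hB.sat _ _ h5 h4).1 h3
    have h7 : f^[N] p = κ (f^[N] z) (σ N * s) := iterate_symm_iterate f N _
    show κ (f^[N] z) (σ N * s) ∈ B
    rw [← h7, mem_iter hB.inv]
    exact h6
  · -- the side
    set N := n * (i + 1) with hNdef
    have hN' : n * (i + 1 + 1) = N + n := by rw [hNdef]; ring
    have hy : f.symm^[N] (f^[N] z) = z := symm_iterate_iterate f N z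
    have hy' : f.symm^[n] (f^[n * (i + 1 + 1)] z) = f^[N] z := by
      rw [hN', add_comm, iterate_add_apply, symm_iterate_iterate]
    set N' := n * (i + 1 + 1) with hN'def
    have hsm : σ N' * s ∈ Icc (-ρ) ρ :=
      sign_mem (hσ1 N') (by rw [abs_of_nonneg hs.1]; linarith [hs.2])
    have h2 := hn₀ n hn0 (f^[N] z) (f^[N'] z) hy' _ hsm
    set v := H (f^[N] z) (f.symm^[n] (κ (f^[N'] z) (σ N' * s))) with hv
    have hvρ : |v| ≤ ρ := h2.trans (min_le_right _ _)
    have h3 := hgt_back hh hb hy' hy hsm (abs_le.1 hvρ) hv.symm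
    rw [← hN'] at h3
    have h4 : 0 ≤ e * H z (f.symm^[N'] (κ (f^[N'] z) (σ N' * s))) := by
      rcases hs.1.eq_or_lt with h0 | h0
      · rw [← h0, mul_zero, hgt_zero hb (symm_iterate_iterate f N' z), mul_zero]
      · exact (hσ2 N' s ⟨h0, by linarith [hs.2]⟩).le
    rw [← h3] at h4
    show 0 ≤ σ N * v
    by_contra hcon
    push Not at hcon
    have hss := sign_mul_self (hσ1 N)
    have h5 := hσ3 N (-(σ N * v)) ⟨by linarith, by
      have : |-(σ N * v)| ≤ ρ := by rw [abs_neg, abs_mul, sign_abs (hσ1 N), one_mul]; exact hvρ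
      exact (le_abs_self _).trans this⟩
    have h6 : -(σ N * -(σ N * v)) = v := by
      have : -(σ N * -(σ N * v)) = σ N * σ N * v := by ring
      rw [this, hss, one_mul]
    rw [h6] at h5
    linarith

end Pool.Agent.Lib.MP610fe3.T4
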