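import Pool.Agent.Lib.MP_610fe3_an.T4.Basics

/-!
# Module GR: exponential growth of the content (helper61)
-/

open Set Filter Function
open scoped Topology ENNReal

namespace Pool.Agent.Lib.MP610fe3.T4

open Cf H6

universe u

namespace GrM

variable {M : Type*} [MetricSpace M] {f : M ≃ₜ M} {E : M → M → Prop} {H : M → M → ℝ}
  {κ : M → ℝ → M} {A : Set M} {C ν r r₁ ε ρ η : ℝ} {m : Set M → ℝ≥0∞}

/-! ### Covers -/

/-- covered by finitely many small sets -/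
def Fin (E : M → M → Prop) (A : Set M) (η : ℝ) (Γ : Set M) : Prop := ∃ n, Nr E A η n Γ

theorem Fin.mono {Γ Γ' : Set M} (h : Fin E A η Γ') (hs : Γ ⊆ Γ') : Fin E A η Γ := by
  obtain ⟨n, T, h1, h2⟩ := h
  exact ⟨n, T, h1, hs.trans h2⟩

theorem Fin.union {Γ Γ' : Set M} (h : Fin E A η Γ) (h' : Fin E A η Γ') :
    Fin E A η (Γ ∪ Γ') := by
  obtain ⟨n, T, h1, h2⟩ := h
  obtain ⟨n', T', h1', h2'⟩ := h'
  refine ⟨n + n', fun i => if i < n then T i else T' (i - n), fun i => ?_, ?_⟩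
  · dsimp only
    split_ifs
    · exact h1 i
    · exact h1' _
  · rintro x (hx | hx)
    · obtain ⟨i, hi, hxi⟩ := mem_iUnion₂.1 (h2 hx)
      refine mem_iUnion₂.2 ⟨i, by omega, ?_⟩
      dsimp only
      rwa [if_pos hi]
    · obtain ⟨i, hi, hxi⟩ := mem_iUnion₂.1 (h2' hx)
      refine mem_iUnion₂.2 ⟨n + i, by omega, ?_⟩
      dsimp only
      rwa [if_neg (by omega), Nat.add_sub_cancel_left]

theorem Fin.of_tn {T : Set M} (h : Tn E A η T) : Fin E A η T :=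
  ⟨1, fun _ => T, fun _ => h, fun x hx => mem_iUnion₂.2 ⟨0, by omega, hx⟩⟩

theorem Fin.biUnion {S : ℕ → Set M} (hemp : Fin E A η ∅) (n : ℕ) (h : ∀ i < n, Fin E A η (S i)) :
    Fin E A η (⋃ i < n, S i) := by
  induction n with
  | zero => simpa using hemp
  | succ n ih =>
    have h1 := (ih fun i hi => h i (by omega)).union (h n (by omega))
    refine h1.mono ?_
    intro x hx
    obtain ⟨i, hi, hxi⟩ := mem_iUnion₂.1 hx
    rcases Nat.lt_succ_iff_lt_or_eq.1 hi with h2 | h2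
    · exact Or.inl (mem_iUnion₂.2 ⟨i, h2, hxi⟩)
    · exact Or.inr (h2 ▸ hxi)

/-- the content of a union -/
theorem cont_biUnion (hm : Cont E A r₁ η m) (S : ℕ → Set M) (b : ℝ≥0∞) (n : ℕ)
    (h : ∀ i < n, m (S i) ≤ b) : m (⋃ i < n, S i) ≤ n * b := by
  induction n with
  | zero => simp [hm.empty]
  | succ n ih =>
    have h1 : (⋃ i < n + 1, S i) ⊆ (⋃ i < n, S i) ∪ S n := by
      intro x hx
      obtain ⟨i, hi, hxi⟩ := mem_iUnion₂.1 hx
      rcases Nat.lt_succ_iff_lt_or_eq.1 hi with h2 | h2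
      · exact Or.inl (mem_iUnion₂.2 ⟨i, h2, hxi⟩)
      · exact Or.inr (h2 ▸ hxi)
    refine (hm.mono _ _ h1).trans ((hm.union _ _).trans ?_)
    rw [Nat.cast_succ, add_mul, one_mul]
    exact add_le_add (ih fun i hi => h i (by omega)) (h n (by omega))

/-- the content of a disjoint union -/
theorem cont_disj (hm : Cont E A r₁ η m) (S : ℕ → Set M) (b : ℝ≥0∞) (n : ℕ)
    (hd : ∀ i < n, ∀ j < n, i ≠ j → Disjoint (S i) (S j))
    (h : ∀ i < n, b ≤ m (S i)) : n * b ≤ m (⋃ i < n, S i) := by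
  induction n with
  | zero => simp
  | succ n ih =>
    have h1 : (⋃ i < n, S i) ∪ S n ⊆ (⋃ i < n + 1, S i) := by
      rintro x (hx | hx)
      · obtain ⟨i, hi, hxi⟩ := mem_iUnion₂.1 hx
        exact mem_iUnion₂.2 ⟨i, by omega, hxi⟩
      · exact mem_iUnion₂.2 ⟨n, by omega, hx⟩
    have h2 : Disjoint (⋃ i < n, S i) (S n) := by
      rw [Set.disjoint_iUnion₂_left]
      exact fun i hi => hd i (by omega) n (by omega) (by omega)
    refine le_trans ?_ (hm.mono _ _ h1)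
    refine le_trans ?_ (hm.disj _ _ h2)
    rw [Nat.cast_succ, add_mul, one_mul]
    exact add_le_add (ih (fun i hi j hj => hd i (by omega) j (by omega))
      fun i hi => h i (by omega)) (h n (by omega))

/-! ### The supremum -/

/-- the supremum of the contents of the images of small sets in `A` -/
noncomputable def sp (f : M ≃ₜ M) (E : M → M → Prop) (A : Set M) (η : ℝ) (m : Set M → ℝ≥0∞)
    (n : ℕ) : ℝ≥0∞ :=
  ⨆ (T : Set M) (_ : T ⊆ A ∧ Tn E A η T), m (f^[n] '' T)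

theorem le_sp {T : Set M} (h1 : T ⊆ A) (h2 : Tn E A η T) (n : ℕ) :
    m (f^[n] '' T) ≤ sp f E A η m n :=
  le_iSup₂_of_le (f := fun (T : Set M) (_ : T ⊆ A ∧ Tn E A η T) => m (f^[n] '' T)) T ⟨h1, h2⟩
    le_rfl

theorem sp_le {n : ℕ} {b : ℝ≥0∞} (h : ∀ T, T ⊆ A → Tn E A η T → m (f^[n] '' T) ≤ b) :
    sp f E A η m n ≤ b :=
  iSup₂_le fun T hT => h T hT.1 hT.2

theorem sp_zero_le (hm : Cont E A r₁ η m) : sp f E A η m 0 ≤ 1 := by
  refine sp_le fun T _ h => ?_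
  simpa using hm.le_one T h

theorem sp_zero_pos (hm : Cont E A r₁ η m) : 0 < sp f E A η m 0 := by
  obtain ⟨T, h1, h2, h3⟩ := hm.pos
  refine h3.trans_le ?_
  simpa using le_sp (m := m) (f := f) h1 h2 0

variable {q₀ : ℕ}

theorem sp_succ_le (hm : Cont E A r₁ η m) (hn : NrP f E κ A r₁ ρ η q₀) (n : ℕ) :
    sp f E A η m (n + 1) ≤ q₀ * sp f E A η m n := by
  refine sp_le fun T h1 h2 => ?_
  obtain ⟨T', h3, h4⟩ := hn.img T h1 h2
  have h5 : f^[n + 1] '' T ⊆ ⋃ i < q₀, f^[n] '' T' i := by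
    rintro _ ⟨x, hx, rfl⟩
    obtain ⟨i, hi, hxi⟩ := mem_iUnion₂.1 (h4 ⟨x, hx, rfl⟩)
    exact mem_iUnion₂.2 ⟨i, hi, ⟨f x, hxi, by rw [iterate_succ_apply]⟩⟩
  exact (hm.mono _ _ h5).trans (cont_biUnion hm _ _ _ fun i _ => le_sp (h3 i).1 (h3 i).2 n)

theorem sp_add_le (hm : Cont E A r₁ η m) (hn : NrP f E κ A r₁ ρ η q₀) (i j : ℕ) :
    sp f E A η m (i + j) ≤ (q₀ : ℝ≥0∞) ^ j * sp f E A η m i := by
  induction j with
  | zero => simp
  | succ j ih =>
    calc sp f E A η m (i + (j + 1)) ≤ q₀ * sp f E A η m (i + j) := sp_succ_le hm hn _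
      _ ≤ q₀ * ((q₀ : ℝ≥0∞) ^ j * sp f E A η m i) := by gcongr
      _ = _ := by rw [pow_succ']; ring

theorem sp_ne_top (hm : Cont E A r₁ η m) (hn : NrP f E κ A r₁ ρ η q₀) (n : ℕ) :
    sp f E A η m n ≠ ⊤ := by
  have h1 := sp_add_le (f := f) hm hn 0 n
  rw [Nat.zero_add] at h1
  refine ne_top_of_le_ne_top ?_ h1
  exact ENNReal.mul_ne_top (by finiteness) (ne_top_of_le_ne_top ENNReal.one_ne_top
    (sp_zero_le hm))

/-- images of small sets in `A` are covered by small sets -/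
theorem fin_img (hn : NrP f E κ A r₁ ρ η q₀) (n : ℕ) :
    ∀ T, T ⊆ A → Tn E A η T → Fin E A η (f^[n] '' T) := by
  induction n with
  | zero => intro T _ h; simpa using Fin.of_tn h
  | succ n ih =>
    intro T h1 h2
    obtain ⟨T', h3, h4⟩ := hn.img T h1 h2
    have h5 : f^[n + 1] '' T ⊆ ⋃ i < q₀, f^[n] '' T' i := by
      rintro _ ⟨x, hx, rfl⟩
      obtain ⟨i, hi, hxi⟩ := mem_iUnion₂.1 (h4 ⟨x, hx, rfl⟩)
      exact mem_iUnion₂.2 ⟨i, hi, ⟨f x, hxi, by rw [iterate_succ_apply]⟩⟩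
    refine (Fin.biUnion ?_ q₀ fun i _ => ih _ (h3 i).1 (h3 i).2).mono h5
    exact (Fin.of_tn (h3 0).2).mono (empty_subset _)

/-- doubling -/
theorem exists_double [CompactSpace M] (hη : 0 < η) (hh : Hyp f C ν r r₁)
    (hb : Box f E H κ r r₁ ε ρ)
    (hA : Attr f A r) (hn : NrP f E κ A r₁ ρ η q₀) (hc : CompP f E κ A r₁ ρ η)
    (hm : Cont E A r₁ η m) : ∃ k : ℕ, 0 < k ∧ ∀ n, 2 * sp f E A η m n ≤ sp f E A η m (n + k) := by
  obtain ⟨y, hy⟩ := hA.ne
  have hq : (0 : ℝ) < q₀ := by exact_mod_cast hn.pos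
  have hρ := hb.ρ_pos
  have hκA : ∀ t ∈ Icc (-ρ) ρ, κ y t ∈ A := fun t ht =>
    hA.sat y hy _ (Wl_mono (by linarith [hb.ε_le, hb.ε_pos, hh.r₁_le, hh.r₁_pos])
      (hb.κ_mem y t ht))
  set δ : ℝ := ρ / (8 * q₀) with hδdef
  have hδ : 0 < δ := by positivity
  have hδq : δ * (8 * q₀) = ρ := by rw [hδdef]; field_simp
  obtain ⟨δ', hδ', h1⟩ := hc δ hδ
  obtain ⟨k₀, hk₀⟩ := h1 0
  obtain ⟨L, hL⟩ := hk₀ (max k₀ 1) (le_max_left _ _)
  set k := max k₀ 1 with hk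
  obtain ⟨D, hD⟩ := Ebd.iterate hb hh
  refine ⟨k, by rw [hk]; positivity, fun n => ?_⟩
  -- the centres of the intervals
  set t : ℕ → ℝ := fun i => -ρ + (4 * i + 1) * δ with ht
  have hti : ∀ i < 2 * q₀, -ρ ≤ t i - δ ∧ t i + δ ≤ ρ := by
    intro i hi
    have hi' : (i : ℝ) + 1 ≤ 2 * q₀ := by exact_mod_cast hi
    have hi0 : (0 : ℝ) ≤ i := by positivity
    constructor
    · simp only [ht]; nlinarith
    · simp only [ht]
      have : (4 * (i : ℝ) + 2) * δ ≤ (2 * (4 * q₀)) * δ := by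
        apply mul_le_mul_of_nonneg_right _ hδ.le
        linarith
      linarith
  have hcov : ∀ t' ∈ Icc (-ρ) ρ, ∃ a ∈ A, dist (f^[n + k] (κ y t')) a ≤ η / 2 := fun t' ht' =>
    ⟨_, (hA.iter (n + k) _).2 (hκA t' ht'), by rw [dist_self]; positivity⟩
  have hcont : ∀ i < 2 * q₀, sp f E A η m n ≤
      m (f^[n + k] '' (κ y '' Icc (t i - δ) (t i + δ))) := by
    intro i hi
    obtain ⟨h3, h4⟩ := hti i hi
    refine sp_le fun T hTA hT => ?_
    have h5 := hL y (t i) h3 h4 ⟨κ y (t i), hκA _ ⟨by linarith, by linarith⟩,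
      mem_Wl_self hδ'.le⟩ T hT
    have h6 := hD n L _ _ h5
    have h7 : f^[n] '' (f^[k] '' (κ y '' Icc (t i - δ) (t i + δ)))
        = f^[n + k] '' (κ y '' Icc (t i - δ) (t i + δ)) := by
      rw [← image_comp, ← iterate_add]
    rw [h7] at h6
    refine hm.emb _ _ _ h6 ?_
    obtain ⟨q', hq'⟩ := hn.arcs (n + k)
    exact ⟨q', hq' y _ _ h3 h4 fun t' ht' => hcov t' ⟨h3.trans ht'.1, ht'.2.trans h4⟩⟩
  have hinj : ∀ s ∈ Icc (-ρ) ρ, ∀ s' ∈ Icc (-ρ) ρ,
      f^[n + k] (κ y s) = f^[n + k] (κ y s') → s = s' := by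
    intro s hs s' hs' heq
    have h1 := f.injective.iterate _ heq
    rw [← hb.κ_H y s hs, ← hb.κ_H y s' hs', h1]
  have hdisj : ∀ i < 2 * q₀, ∀ j < 2 * q₀, i ≠ j →
      Disjoint (f^[n + k] '' (κ y '' Icc (t i - δ) (t i + δ)))
        (f^[n + k] '' (κ y '' Icc (t j - δ) (t j + δ))) := by
    intro i hi j hj hij
    rw [Set.disjoint_left]
    rintro _ ⟨_, ⟨s, hs, rfl⟩, rfl⟩ ⟨_, ⟨s', hs', rfl⟩, heq⟩
    obtain ⟨h3, h4⟩ := hti i hi
    obtain ⟨h5, h6⟩ := hti j hj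
    have h7 := hinj s' ⟨h5.trans hs'.1, hs'.2.trans h6⟩ s ⟨h3.trans hs.1, hs.2.trans h4⟩ heq
    subst h7
    simp only [ht] at hs hs'
    obtain ⟨a1, a2⟩ := hs
    obtain ⟨b1, b2⟩ := hs'
    rcases lt_or_gt_of_ne hij with h | h
    · have : (i : ℝ) + 1 ≤ j := by exact_mod_cast h
      nlinarith
    · have : (j : ℝ) + 1 ≤ i := by exact_mod_cast h
      nlinarith
  have h8 := cont_disj hm (fun i => f^[n + k] '' (κ y '' Icc (t i - δ) (t i + δ))) _ (2 * q₀)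
    hdisj hcont
  have h9 : (⋃ i < 2 * q₀, f^[n + k] '' (κ y '' Icc (t i - δ) (t i + δ)))
      ⊆ f^[n + k] '' (κ y '' Icc (-ρ) ρ) := by
    refine iUnion₂_subset fun i hi => image_mono (image_mono ?_)
    exact Icc_subset_Icc (hti i hi).1 (hti i hi).2
  obtain ⟨T', hT', hT''⟩ := hn.arc y hy
  have h10 : f^[n + k] '' (κ y '' Icc (-ρ) ρ) ⊆ ⋃ i < q₀, f^[n + k] '' T' i := by
    rintro _ ⟨x, hx, rfl⟩
    obtain ⟨i, hi, hxi⟩ := mem_iUnion₂.1 (hT'' hx)
    exact mem_iUnion₂.2 ⟨i, hi, ⟨x, hxi, rfl⟩⟩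
  have h11 : m (⋃ i < q₀, f^[n + k] '' T' i) ≤ q₀ * sp f E A η m (n + k) :=
    cont_biUnion hm _ _ _ fun i _ => le_sp (hT' i).1 (hT' i).2 (n + k)
  have h12 : ((2 * q₀ : ℕ) : ℝ≥0∞) * sp f E A η m n ≤ q₀ * sp f E A η m (n + k) :=
    h8.trans ((hm.mono _ _ (h9.trans h10)).trans h11)
  have hq1 : (q₀ : ℝ≥0∞) ≠ 0 := by exact_mod_cast hn.pos.ne'
  have h13 : (q₀ : ℝ≥0∞) * (2 * sp f E A η m n) ≤ q₀ * sp f E A η m (n + k) := by
    calc (q₀ : ℝ≥0∞) * (2 * sp f E A η m n) = ((2 * q₀ : ℕ) : ℝ≥0∞) * sp f E A η m n := by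
          push_cast; ring
      _ ≤ _ := h12
  exact (ENNReal.mul_le_mul_iff_right hq1 (by finiteness)).1 h13

/-- real sequences which double after `k` steps and grow at most by the factor `q₀` in one step -/
theorem growth {a : ℕ → ℝ} {Q : ℝ} {k : ℕ} (hk : 0 < k) (hQ : 1 ≤ Q)
    (ha : ∀ n, 0 < a n) (hup : ∀ i j, a (i + j) ≤ Q ^ j * a i)
    (hd : ∀ n, 2 * a n ≤ a (n + k)) (i j : ℕ) :
    a i ≤ 2 * Q ^ k * (1 - 1 / (2 * k)) ^ j * a (i + j) := by
  have hk' : (1 : ℝ) ≤ k := by exact_mod_cast hk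
  set lam : ℝ := 1 - 1 / (2 * k) with hlam
  have h0 : 1 / (2 * (k : ℝ)) ≤ 1 / 2 := by
    apply one_div_le_one_div_of_le <;> linarith
  have hl0 : 0 < lam := by rw [hlam]; linarith
  have hl1 : lam ≤ 1 := by
    rw [hlam]
    have : 0 ≤ 1 / (2 * (k : ℝ)) := by positivity
    linarith
  have hlk : 1 / 2 ≤ lam ^ k := by
    have h1 := one_add_mul_le_pow (a := -(1 / (2 * (k : ℝ)))) (by linarith) k
    have h2 : 1 + (k : ℝ) * -(1 / (2 * (k : ℝ))) = 1 / 2 := by field_simp; ring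
    rw [h2] at h1
    rw [hlam, sub_eq_add_neg]
    exact h1
  induction j using Nat.strong_induction_on generalizing i with
  | _ j ih =>
    rcases lt_or_ge j k with hj | hj
    · have h1 := hd i
      have h2 : a (i + k) ≤ Q ^ (k - j) * a (i + j) := by
        have := hup (i + j) (k - j)
        rwa [show i + j + (k - j) = i + k by omega] at this
      have h3 : Q ^ (k - j) ≤ Q ^ k := pow_le_pow_right₀ hQ (by omega)
      have h4 : lam ^ k ≤ lam ^ j := pow_le_pow_of_le_one hl0.le hl1 hj.le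
      have h5 := ha (i + j)
      have h6 : Q ^ (k - j) * a (i + j) ≤ Q ^ k * a (i + j) :=
        mul_le_mul_of_nonneg_right h3 h5.le
      have h7 : 0 < Q ^ k * a (i + j) := by positivity
      have h8 : (1 : ℝ) * (Q ^ k * a (i + j)) ≤ (2 * lam ^ j) * (Q ^ k * a (i + j)) :=
        mul_le_mul_of_nonneg_right (by linarith) h7.le
      have h9 := ha i
      nlinarith
    · have h1 := hd i
      have h2 := ih (j - k) (by omega) (i + k)
      rw [show i + k + (j - k) = i + j by omega] at h2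
      have h3 : lam ^ j = lam ^ k * lam ^ (j - k) := by rw [← pow_add]; congr 1; omega
      have h4 : 0 < 2 * Q ^ k * lam ^ (j - k) * a (i + j) := by
        have := ha (i + j)
        positivity
      have h5 : 1 / 2 * (2 * Q ^ k * lam ^ (j - k) * a (i + j))
          ≤ lam ^ k * (2 * Q ^ k * lam ^ (j - k) * a (i + j)) :=
        mul_le_mul_of_nonneg_right hlk h4.le
      rw [h3]
      nlinarith

end GrM

theorem specGr : SpecGr.{u} := by
  intro M _ _ f E H κ A C ν r r₁ ε ρ η q₀ m hη hh hb hA hn hc hm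
  obtain ⟨k, hk, hd⟩ := GrM.exists_double hη hh hb hA hn hc hm
  set s : ℕ → ℝ≥0∞ := GrM.sp f E A η m with hs
  have htop : ∀ n, s n ≠ ⊤ := GrM.sp_ne_top hm hn
  have hq : 1 ≤ q₀ := hn.pos
  have hq' : (1 : ℝ) ≤ q₀ := by exact_mod_cast hq
  have hk' : (1 : ℝ) ≤ k := by exact_mod_cast hk
  have hkm : ∀ n, s 0 ≤ s (n * k) := by
    intro n
    induction n with
    | zero => simp
    | succ n ih =>
      refine ih.trans ?_
      rw [Nat.succ_mul]
      refine le_trans ?_ (hd (n * k))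
      rw [two_mul]
      exact le_self_add
  have hpos : ∀ n, 0 < s n := by
    intro n
    by_contra hcon
    have h0 : s n = 0 := by simpa using hcon
    have h1 := GrM.sp_add_le (f := f) hm hn n (n * k - n)
    have h2 : n + (n * k - n) = n * k := by
      have : n ≤ n * k := Nat.le_mul_of_pos_right n hk
      omega
    rw [h2] at h1
    have h3 : s (n * k) ≤ 0 := by
      refine h1.trans ?_
      rw [← hs, h0, mul_zero]
    have h4 := GrM.sp_zero_pos (f := f) hm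
    exact absurd (h4.trans_le ((hkm n).trans h3)) (lt_irrefl _)
  have hof : ∀ n, ENNReal.ofReal (s n).toReal = s n := fun n => ENNReal.ofReal_toReal (htop n)
  have hapos : ∀ n, 0 < (s n).toReal := fun n => ENNReal.toReal_pos (hpos n).ne' (htop n)
  have hup : ∀ i j, (s (i + j)).toReal ≤ (q₀ : ℝ) ^ j * (s i).toReal := by
    intro i j
    have h1 := GrM.sp_add_le (f := f) hm hn i j
    have h2 := ENNReal.toReal_mono (ENNReal.mul_ne_top (by finiteness) (htop i)) h1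
    simpa [ENNReal.toReal_mul, ENNReal.toReal_pow] using h2
  have hd' : ∀ n, 2 * (s n).toReal ≤ (s (n + k)).toReal := by
    intro n
    have h2 := ENNReal.toReal_mono (htop (n + k)) (hd n)
    simpa [ENNReal.toReal_mul] using h2
  have h0 : 0 < 1 / (2 * (k : ℝ)) := by positivity
  have h0' : 1 / (2 * (k : ℝ)) ≤ 1 / 2 := by
    apply one_div_le_one_div_of_le <;> linarith
  have hqk : (q₀ : ℝ) ≤ 2 * (q₀ : ℝ) ^ k := by
    have h1 : (q₀ : ℝ) ^ 1 ≤ (q₀ : ℝ) ^ k := pow_le_pow_right₀ hq' hk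
    rw [pow_one] at h1
    linarith
  refine ⟨fun n => (s n).toReal, 2 * (q₀ : ℝ) ^ k, 1 - 1 / (2 * k),
    ⟨hapos, ?_, ?_, by linarith, by linarith, hq'.trans hqk, ?_, ?_⟩⟩
  · -- all small sets
    intro n T hT
    obtain ⟨T'', T', h1, h2, h3⟩ := hn.move T hT
    have h4 : f^[n] '' T'' ⊆ ⋃ i < q₀, f^[n] '' T' i := by
      rintro _ ⟨x, hx, rfl⟩
      obtain ⟨i, hi, hxi⟩ := mem_iUnion₂.1 (h2 hx)
      exact mem_iUnion₂.2 ⟨i, hi, ⟨x, hxi, rfl⟩⟩
    have h5 : GrM.Fin E A η (f^[n] '' T'') :=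
      (GrM.Fin.biUnion ((GrM.Fin.of_tn (h1 0).2).mono (empty_subset _)) q₀
        fun i _ => GrM.fin_img hn n _ (h1 i).1 (h1 i).2).mono h4
    have h6 : m (f^[n] '' T) ≤ q₀ * s n :=
      (hm.emb _ _ _ (h3 n) h5).trans ((hm.mono _ _ h4).trans
        (GrM.cont_biUnion hm _ _ _ fun i _ => GrM.le_sp (h1 i).1 (h1 i).2 n))
    refine h6.trans ?_
    rw [ENNReal.ofReal_mul (by positivity), hof]
    refine mul_le_mul_left ?_ _
    rw [← ENNReal.ofReal_natCast]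
    exact ENNReal.ofReal_le_ofReal hqk
  · intro n b hbn
    rw [hof]
    exact GrM.sp_le hbn
  · intro i j
    refine (hup i j).trans ?_
    exact mul_le_mul_of_nonneg_right (pow_le_pow_left₀ (by positivity) hqk j) (hapos i).le
  · intro i j
    exact GrM.growth (a := fun n => (s n).toReal) hk hq' hapos hup hd' i j

end Pool.Agent.Lib.MP610fe3.T4
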