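import Pool.Agent.Lib.MP_610fe3_an.T4.Spec
import Pool.Agent.Lib.MP_610fe3_an.H6G.Corner
import Pool.Agent.Lib.MP_610fe3_an.H6G.Curve

/-!
# Module GRID: chains of plaque steps are controlled after `O(log k)` iterations (helper96)
-/

set_option autoImplicit false

open Set Filter Function
open scoped Topology

namespace Pool.Agent.Lib.MP610fe3.T4.GridM

open Cf H6

variable {M : Type*} [MetricSpace M] {f : M ≃ₜ M}

/-! ### the relation `E` -/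

section Rel

variable {E : M → M → Prop} {H : M → M → ℝ} {κ : M → ℝ → M} {r r₁ ε ρ : ℝ}

theorem E_refl (b : Box f E H κ r r₁ ε ρ) (hr : 0 ≤ r) (x : M) : E x x :=
  (b.E_iff x x x (by rwa [dist_self]) (by rwa [dist_self])).2 rfl

theorem E_symm (b : Box f E H κ r r₁ ε ρ) {x y : M} (hd : dist x y ≤ r) (h : E x y) :
    E y x := by
  have hr : 0 ≤ r := dist_nonneg.trans hd
  have h1 : dist x x ≤ r := by rwa [dist_self]
  have h2 : dist y x ≤ r := by rwa [dist_comm]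
  exact (b.E_iff x y x h2 h1).2 ((b.E_iff x x y h1 h2).1 h).symm

theorem E_trans (b : Box f E H κ r r₁ ε ρ) {p q s : M} (h1 : dist p q ≤ r) (h2 : dist q s ≤ r)
    (h : E p q) (h' : E q s) : E p s := by
  have hr : 0 ≤ r := dist_nonneg.trans h1
  have h0 : dist q q ≤ r := by rwa [dist_self]
  have h3 : dist s q ≤ r := by rwa [dist_comm]
  refine (b.E_iff q p s h1 h3).2 ?_
  rw [(b.E_iff q p q h1 h0).1 h]
  exact (b.E_iff q q s h0 h3).1 h'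

/-- backward iterates in a local unstable set -/
theorem E_back (b : Box f E H κ r r₁ ε ρ) {p q : M} (h : q ∈ Wl f.symm r p) (hE : E p q)
    (n : ℕ) : E (f.symm^[n] p) (f.symm^[n] q) := by
  induction n with
  | zero => exact hE
  | succ n ih =>
    rw [iterate_succ_apply', iterate_succ_apply']
    refine (b.inv _ _ ?_ ?_).2 ?_
    · have := h (n + 1)
      rw [iterate_succ_apply', iterate_succ_apply'] at this
      rwa [dist_comm]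
    · rw [f.apply_symm_apply, f.apply_symm_apply, dist_comm]
      exact h n
    · rw [f.apply_symm_apply, f.apply_symm_apply]
      exact ih

/-- Two stable arcs which are close to each other. -/
theorem par (b : Box f E H κ r r₁ ε ρ) (hr : 0 < r) {σ σ' : ℝ → M} (hσ : UArc f.symm σ 0 1)
    (hσ' : UArc f.symm σ' 0 1) (hd : ∀ t ∈ Icc (0 : ℝ) 1, dist (σ t) (σ' t) ≤ r / 8)
    (h0 : E (σ 0) (σ' 0)) : E (σ 1) (σ' 1) := by
  obtain ⟨η, hη, -, h1⟩ := hσ.modulus (δ := r / 8) (δ' := r / 8) (by positivity) (by positivity) 0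
  obtain ⟨η', hη', -, h1'⟩ := hσ'.modulus (δ := r / 8) (δ' := r / 8) (by positivity)
    (by positivity) 0
  set ζ : ℝ := min η η' with hζ
  have hζ0 : 0 < ζ := lt_min hη hη'
  have key : ∀ j : ℕ, E (σ (min (j * ζ) 1)) (σ' (min (j * ζ) 1)) := by
    intro j
    induction j with
    | zero => simpa using h0
    | succ j ih =>
      have hm : ∀ i : ℕ, min ((i : ℝ) * ζ) 1 ∈ Icc (0 : ℝ) 1 := fun i =>
        ⟨le_min (by positivity) zero_le_one, min_le_right _ _⟩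
      have hdiff : |min ((j + 1 : ℕ) * ζ) 1 - min ((j : ℝ) * ζ) 1| ≤ ζ := by
        refine (abs_min_sub_min_le_max _ _ _ _).trans ?_
        rw [sub_self, abs_zero]
        push_cast
        rw [show ((j : ℝ) + 1) * ζ - j * ζ = ζ by ring, abs_of_pos hζ0]
        exact max_le le_rfl hζ0.le
      have a1 : σ (min ((j + 1 : ℕ) * ζ) 1) ∈ Wl f r (σ (min ((j : ℝ) * ζ) 1)) := fun k =>
        (h1 k _ (hm (j + 1)) _ (hm j) (hdiff.trans (min_le_left _ _))).trans (by linarith)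
      have a2 : σ' (min ((j + 1 : ℕ) * ζ) 1) ∈ Wl f r (σ' (min ((j : ℝ) * ζ) 1)) := fun k =>
        (h1' k _ (hm (j + 1)) _ (hm j) (hdiff.trans (min_le_right _ _))).trans (by linarith)
      have d1 : dist (σ (min ((j + 1 : ℕ) * ζ) 1)) (σ (min ((j : ℝ) * ζ) 1)) ≤ r / 8 :=
        h1 0 _ (hm (j + 1)) _ (hm j) (hdiff.trans (min_le_left _ _))
      have e1 := b.stab _ _ a1
      have e2 := b.stab _ _ a2
      have d2 := hd _ (hm j)
      have e3 : E (σ (min ((j + 1 : ℕ) * ζ) 1)) (σ (min ((j : ℝ) * ζ) 1)) := by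
        refine E_symm b ?_ e1
        rw [dist_comm]; linarith
      have e4 := E_trans b (by linarith) (by linarith) e3 ih
      refine E_trans b (q := σ' (min ((j : ℝ) * ζ) 1)) ?_ ?_ e4 e2
      · have := dist_triangle (σ (min ((j + 1 : ℕ) * ζ) 1)) (σ (min ((j : ℝ) * ζ) 1))
          (σ' (min ((j : ℝ) * ζ) 1))
        linarith
      · have := h1' 0 _ (hm (j + 1)) _ (hm j) (hdiff.trans (min_le_right _ _))
        simp only [iterate_zero, id_eq] at this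
        rw [dist_comm]
        linarith
  obtain ⟨j, hj⟩ := exists_nat_gt (1 / ζ)
  have hj1 : min ((j : ℝ) * ζ) 1 = 1 := by
    apply min_eq_right
    rw [div_lt_iff₀ hζ0] at hj
    exact hj.le
  have := key j
  rwa [hj1] at this

end Rel

/-! ### rectangles -/

/-- If all vertical lines are short at time `N` then the horizontal lines are small at all earlier
times, with explicit constants. -/
theorem hor_small {ε ε₀ C θ S T α₁ C₁ δ : ℝ} {R : ℝ × ℝ → M} (hα₁ : 0 ≤ α₁)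
    (hD : Dec f.symm ε₀ C θ) (hε : 0 < ε) (hε₀ : 3 * ε ≤ ε₀) (hlow : Low f (3 * ε) α₁ C₁)
    (h : Rct f ε R S T) (hS : 0 ≤ S) {N K : ℕ} (hup : Steps f N ε (fun t => R (0, t)) 0 T K)
    (hN : ∀ t ∈ Icc (0 : ℝ) T, ∀ s ∈ Icc (0 : ℝ) S, ∀ s' ∈ Icc (0 : ℝ) S,
      dist (f^[N] (R (s, t))) (f^[N] (R (s', t))) ≤ ε)
    {n₁ m : ℕ} (hK : C₁ * K < Real.exp (α₁ * (n₁ + N))) (hm : C * θ ^ m * (3 * ε) ≤ δ) :
    ∀ n ≥ n₁ + m, ∀ s ∈ Icc (0 : ℝ) S, ∀ t ∈ Icc (0 : ℝ) T, ∀ t' ∈ Icc (0 : ℝ) T,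
      dist (f.symm^[n] (R (s, t))) (f.symm^[n] (R (s, t'))) ≤ δ := by
  intro n hn s hs t ht t' ht'
  have hC := hD.one_le
  have hclose : ∀ k : ℕ, dist (f.symm^[k + n₁] (R (s, t))) (f.symm^[k + n₁] (R (s, t'))) < 3 * ε := by
    intro k
    refine h.hor_close hD hε (by linarith) hlow hS hup hN (k + n₁) hs ht ht' (hK.trans_le ?_)
    apply Real.exp_le_exp.2
    refine mul_le_mul_of_nonneg_left ?_ hα₁
    push_cast
    have : (0 : ℝ) ≤ k := Nat.cast_nonneg k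
    linarith
  obtain ⟨j, rfl⟩ : ∃ j, n = (m + j) + n₁ := ⟨n - n₁ - m, by omega⟩
  have h1 : f.symm^[n₁] (R (s, t)) ∈ Wl f.symm ε₀ (f.symm^[n₁] (R (s, t'))) := by
    intro k
    rw [← iterate_add_apply, ← iterate_add_apply]
    exact (hclose k).le.trans hε₀
  have h2 := hD.dec _ _ h1 (m + j)
  rw [← iterate_add_apply, ← iterate_add_apply] at h2
  refine h2.trans (le_trans ?_ hm)
  have h3 : θ ^ (m + j) ≤ θ ^ m :=
    pow_le_pow_of_le_one hD.l_pos.le hD.l_lt.le (Nat.le_add_right _ _)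
  have h4 : 0 ≤ θ ^ m := pow_nonneg hD.l_pos.le _
  have h5 := (hclose 0).le
  rw [Nat.zero_add] at h5
  have h6 : 0 ≤ θ ^ (m + j) := pow_nonneg hD.l_pos.le _
  gcongr

/-- The whole rectangle with given left and bottom sides. -/
theorem exists_rect [CompactSpace M] {ε₀ C ν θ ε CB : ℝ} (hD : Dec f ε₀ C ν)
    (hD' : Dec f.symm ε₀ C θ) (hε : 0 < ε) (hεε₀ : ε ≤ ε₀) (hB : Br f ε CB)
    {x σ : ℝ → M} (hx : UArc f x 0 1) (hσ : UArc f.symm σ 0 1) (h0 : σ 0 = x 0) {N₀ : ℕ}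
    (hN₀ : ∀ (T : ℝ) (R : ℝ × ℝ → M), 0 ≤ T → T ≤ 1 → Rct f ε R 1 T →
      (∀ s ∈ Icc (0 : ℝ) 1, R (s, 0) = σ s) → (∀ t ∈ Icc (0 : ℝ) T, R (0, t) = x t) →
      ∀ n ≥ N₀, ∀ t ∈ Icc (0 : ℝ) T, ∀ s ∈ Icc (0 : ℝ) 1, ∀ s' ∈ Icc (0 : ℝ) 1,
        dist (f^[n] (R (s, t))) (f^[n] (R (s', t))) ≤ ε) :
    ∃ R : ℝ × ℝ → M, Rct f ε R 1 1 ∧ (∀ s ∈ Icc (0 : ℝ) 1, R (s, 0) = σ s) ∧
      (∀ t ∈ Icc (0 : ℝ) 1, R (0, t) = x t) := by
  obtain ⟨η, hη, hext⟩ := exists_ext_gen hD hD' hε hεε₀ hB (ε₁ := ε / 2) (by positivity)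
    (by linarith) (σ := σ) hx N₀
  have key : ∀ k : ℕ, ∃ R : ℝ × ℝ → M, Rct f ε R 1 (min (k * η) 1) ∧
      (∀ s ∈ Icc (0 : ℝ) 1, R (s, 0) = σ s) ∧
      (∀ t ∈ Icc (0 : ℝ) (min (k * η) 1), R (0, t) = x t) := by
    intro k
    induction k with
    | zero =>
      have e : min (((0 : ℕ) : ℝ) * η) 1 = 0 := by simp
      rw [e]
      refine ⟨fun q => σ q.1, ⟨?_, ?_, ?_⟩, fun s _ => rfl, ?_⟩
      · exact hσ.cont.comp continuous_fst.continuousOn fun q hq => hq.1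
      · refine ⟨0, fun n _ s _ t _ t' _ => ?_⟩
        rw [dist_self]
        exact hε.le
      · obtain ⟨N, hN⟩ := hσ.asymp ε hε
        exact ⟨N, fun n hn t _ s hs s' hs' => hN n hn s hs s' hs'⟩
      · intro t ht
        have : t = 0 := le_antisymm ht.2 ht.1
        rw [this, ← h0]
    | succ k ih =>
      obtain ⟨R, hR, hl, hb⟩ := ih
      have hT0 : 0 ≤ min ((k : ℝ) * η) 1 := by positivity
      have hT1 : min ((k : ℝ) * η) 1 ≤ 1 := min_le_right _ _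
      refine hext (min (k * η) 1) (min (((k + 1 : ℕ) : ℝ) * η) 1) R hT0 ?_ ?_
        (min_le_right _ _) hR (hN₀ _ R hT0 hT1 hR hl hb) hl hb
      · refine min_le_min ?_ le_rfl
        push_cast
        nlinarith
      · push_cast
        rcases le_total ((k : ℝ) * η) 1 with h1 | h1
        · rw [min_eq_left h1]
          exact (min_le_left _ _).trans (by linarith)
        · rw [min_eq_right h1]
          exact (min_le_right _ _).trans (by linarith)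
  obtain ⟨k, hk⟩ := exists_nat_gt (1 / η)
  have hk1 : min ((k : ℝ) * η) 1 = 1 := by
    apply min_eq_right
    rw [div_lt_iff₀ hη] at hk
    exact hk.le
  obtain ⟨R, hR, hl, hb⟩ := key k
  rw [hk1] at hR hb
  exact ⟨R, hR, hl, hb⟩

theorem close_loop' {P Q : ℕ → Prop} {a b c : ℝ} (ha : 0 ≤ a) (hb : 0 ≤ b) (hc : 0 ≤ c)
    (hab : a * b < 1) (hP : ∃ N, P N) {Ns Nu : ℕ} (hNs : (b * (c + 1) + c + 1) / (1 - a * b) ≤ Ns)
    (hNu : Nu = ⌈a * Ns + c⌉₊) (hPQ : ∀ N N' : ℕ, P N → a * N + c ≤ N' → Q N')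
    (hQP : ∀ N' N : ℕ, Nu ≤ N' → Q N' → b * N' + c ≤ N → P N)
    (hmono : ∀ N N', N ≤ N' → P N → P N') : P Ns := by
  classical
  set N := Nat.find hP with hN
  have hPN : P N := Nat.find_spec hP
  rcases le_or_gt N Ns with hle | hgt
  · exact hmono _ _ hle hPN
  exfalso
  set N' : ℕ := ⌈a * N + c⌉₊ with hN'
  have hQ : Q N' := hPQ N N' hPN (Nat.le_ceil _)
  have hNuN' : Nu ≤ N' := by
    rw [hNu, hN']
    refine Nat.ceil_mono ?_
    have : (Ns : ℝ) ≤ N := by exact_mod_cast hgt.le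
    have := mul_le_mul_of_nonneg_left this ha
    linarith
  set N'' : ℕ := ⌈b * N' + c⌉₊ with hN''
  have hP'' : P N'' := hQP N' N'' hNuN' hQ (Nat.le_ceil _)
  have h1 : N ≤ N'' := Nat.find_min' hP hP''
  have h2 : (N' : ℝ) < a * N + c + 1 := Nat.ceil_lt_add_one (by positivity)
  have h3 : (N'' : ℝ) < b * N' + c + 1 := Nat.ceil_lt_add_one (by positivity)
  have h4 : (N : ℝ) ≤ N'' := by exact_mod_cast h1
  have h5 : b * (N' : ℝ) ≤ b * (a * N + c + 1) := mul_le_mul_of_nonneg_left h2.le hb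
  have h6 : (N : ℝ) * (1 - a * b) ≤ b * (c + 1) + c + 1 := by nlinarith
  have h7 : (N : ℝ) ≤ (b * (c + 1) + c + 1) / (1 - a * b) := by
    rw [le_div_iff₀ (by linarith)]
    exact h6
  have h8 : (N : ℝ) ≤ Ns := h7.trans hNs
  have h9 : N ≤ Ns := by exact_mod_cast h8
  omega

/-- The a priori bound for thin rectangles. -/
theorem thin {r C ν e α₁ α₂ β₁ β₂ Λ Λ₁ γ x a b : ℝ} (hD : Dec f r C ν) (hD' : Dec f.symm r C ν)
    (he : 0 < e) (her : 3 * e ≤ r) (hα₁ : 0 < α₁) (hα : α₁ ≤ α₂) (hβ₁ : 0 < β₁) (hβ : β₁ ≤ β₂)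
    (ha : a = α₂ / α₁ - 1) (hb : b = β₂ / β₁ - 1)
    (hab : a * b < 1) (hlow : Low f (3 * e) α₁ Λ) (hlow' : Low f.symm (3 * e) β₁ Λ)
    (hΛ₁ : Λ ≤ Λ₁) (h1Λ₁ : 1 ≤ Λ₁) (hγα : γ ≤ α₁) (hγβ : γ ≤ β₁)
    (hx : 0 ≤ x) {k m i : ℕ} (hk : 1 ≤ k) (hi : i < k)
    (hm : C * ν ^ m * (3 * e) ≤ e / (4 * k))
    (hexp : (k + 1) * Λ₁ ^ 2 < Real.exp (γ * x)) {Ns Nu : ℕ}
    (hNs : (b * (m + x + 1) + (m + x) + 1) / (1 - a * b) ≤ Ns) (hNu : Nu = ⌈a * Ns + (m + x)⌉₊)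
    {g σ : ℝ → M} (hg : Upp f (e / 2) α₂ Λ g)
    (hσ : ∀ n ≥ Nu, ∃ K : ℕ, (K : ℝ) ≤ (i + 1) * Λ₁ * Real.exp (β₂ * n) ∧
      Steps f.symm n e σ 0 1 K)
    {T : ℝ} {R : ℝ × ℝ → M} (hT : 0 ≤ T) (hT1 : T ≤ 1) (hR : Rct f e R 1 T)
    (hl : ∀ s ∈ Icc (0 : ℝ) 1, R (s, 0) = σ s) (hbo : ∀ t ∈ Icc (0 : ℝ) T, R (0, t) = g t) :
    (∀ n ≥ Ns, ∀ t ∈ Icc (0 : ℝ) T, ∀ s ∈ Icc (0 : ℝ) 1, ∀ s' ∈ Icc (0 : ℝ) 1,
        dist (f^[n] (R (s, t))) (f^[n] (R (s', t))) ≤ e) ∧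
      (∀ n ≥ Nu, ∀ s ∈ Icc (0 : ℝ) 1, ∀ t ∈ Icc (0 : ℝ) T, ∀ t' ∈ Icc (0 : ℝ) T,
        dist (f.symm^[n] (R (s, t))) (f.symm^[n] (R (s, t'))) ≤ e / (4 * k)) := by
  have hkR : (1 : ℝ) ≤ k := by exact_mod_cast hk
  have hek : e / (4 * k) ≤ e := div_le_self he.le (by linarith)
  have ha0 : 0 ≤ a := by
    have : 1 ≤ α₂ / α₁ := by rw [one_le_div hα₁]; exact hα
    linarith
  have hb0 : 0 ≤ b := by
    have : 1 ≤ β₂ / β₁ := by rw [one_le_div hβ₁]; exact hβ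
    linarith
  have hea : α₁ * (a + 1) = α₂ := by rw [ha]; field_simp; ring
  have heb : β₁ * (b + 1) = β₂ := by rw [hb]; field_simp; ring
  have hmx : (0 : ℝ) ≤ m + x := by positivity
  set P : ℕ → Prop := fun N => ∀ n ≥ N, ∀ t ∈ Icc (0 : ℝ) T, ∀ s ∈ Icc (0 : ℝ) 1,
    ∀ s' ∈ Icc (0 : ℝ) 1, dist (f^[n] (R (s, t))) (f^[n] (R (s', t))) ≤ e with hP
  set Q : ℕ → Prop := fun N => ∀ n ≥ N, ∀ s ∈ Icc (0 : ℝ) 1, ∀ t ∈ Icc (0 : ℝ) T,
    ∀ t' ∈ Icc (0 : ℝ) T, dist (f.symm^[n] (R (s, t))) (f.symm^[n] (R (s, t'))) ≤ e / (4 * k)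
    with hQ
  -- the exponents
  have num : ∀ (δ₁ δ₂ d : ℝ) (N N' K : ℕ), 0 < δ₁ → γ ≤ δ₁ → δ₁ * (d + 1) = δ₂ → 
      d * N + (m + x) ≤ N' → (m : ℝ) ≤ N' → (K : ℝ) ≤ k * Λ₁ * Real.exp (δ₂ * N) →
      Λ * K < Real.exp (δ₁ * ((N' - m : ℕ) + N)) := by
    intro δ₁ δ₂ d N N' K hδ₁ hγδ hd hN hmN hK
    have hmN' : m ≤ N' := by exact_mod_cast hmN
    rw [Nat.cast_sub hmN']
    have h1 : Λ * K ≤ (k * Λ₁ ^ 2) * Real.exp (δ₂ * N) := by
      calc Λ * K ≤ Λ₁ * (k * Λ₁ * Real.exp (δ₂ * N)) := by gcongr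
        _ = _ := by ring
    have h2 : (k * Λ₁ ^ 2) * Real.exp (δ₂ * N) < Real.exp (γ * x) * Real.exp (δ₂ * N) := by
      refine mul_lt_mul_of_pos_right ?_ (Real.exp_pos _)
      exact lt_of_le_of_lt (mul_le_mul_of_nonneg_right (by linarith) (sq_nonneg _)) hexp
    have h3 : Real.exp (γ * x) * Real.exp (δ₂ * N) ≤ Real.exp (δ₁ * ((N' : ℝ) - m + N)) := by
      rw [← Real.exp_add]
      apply Real.exp_le_exp.2
      have h4 : δ₁ * (d * N + x) ≤ δ₁ * ((N' : ℝ) - m) :=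
        mul_le_mul_of_nonneg_left (by linarith) hδ₁.le
      have h5 : γ * x ≤ δ₁ * x := mul_le_mul_of_nonneg_right hγδ hx
      rw [← hd]
      calc γ * x + δ₁ * (d + 1) * N ≤ δ₁ * x + δ₁ * (d + 1) * N := by linarith
        _ = δ₁ * (d * N + x) + δ₁ * N := by ring
        _ ≤ δ₁ * ((N' : ℝ) - m) + δ₁ * N := by linarith
        _ = δ₁ * ((N' : ℝ) - m + N) := by ring
    exact (h1.trans_lt h2).trans_le h3
  have hPQ : ∀ N N' : ℕ, P N → a * N + (m + x) ≤ N' → Q N' := by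
    intro N N' hPN hNN n hn
    obtain ⟨K, hK, hSt⟩ := hg N
    have hup : Steps f N e (fun t => R (0, t)) 0 T K :=
      ((hSt.sub le_rfl hT hT1).congr fun t ht => hbo t ht).mono_eps (by linarith)
    have haN : 0 ≤ a * N := by positivity
    have hmN : (m : ℝ) ≤ N' := by linarith
    have hmN' : m ≤ N' := by exact_mod_cast hmN
    refine hor_small hα₁.le hD' he her hlow hR zero_le_one hup (hPN N le_rfl)
      (n₁ := N' - m) (m := m) (num α₁ α₂ a N N' K hα₁ hγα hea hNN hmN ?_) hm n ?_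
    · refine hK.trans ?_
      have h1 : Λ ≤ k * Λ₁ := by
        calc Λ ≤ 1 * Λ₁ := by rw [one_mul]; exact hΛ₁
          _ ≤ k * Λ₁ := mul_le_mul_of_nonneg_right hkR (by linarith)
      exact mul_le_mul_of_nonneg_right h1 (Real.exp_pos _).le
    · omega
  have hQP : ∀ N' N : ℕ, Nu ≤ N' → Q N' → b * N' + (m + x) ≤ N → P N := by
    intro N' N hNuN' hQN hNN n hn
    obtain ⟨K, hK, hSt⟩ := hσ N' hNuN'
    have hup : Steps f.symm N' e (fun s => (fun p : ℝ × ℝ => R (p.2, p.1)) (0, s)) 0 1 K :=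
      hSt.congr fun s hs => hl s hs
    have hbN : 0 ≤ b * N' := by positivity
    have hmN : (m : ℝ) ≤ N := by linarith
    have hmN' : m ≤ N := by exact_mod_cast hmN
    have := hor_small (f := f.symm) hβ₁.le hD he her hlow' hR.swap hT hup
      (fun s hs t ht t' ht' => (hQN N' le_rfl s hs t ht t' ht').trans hek)
      (n₁ := N - m) (m := m) (num β₁ β₂ b N' N K hβ₁ hγβ heb hNN hmN ?_) hm n (by omega)
    · intro t ht s hs s' hs'
      exact (this t ht s hs s' hs').trans hek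
    · refine hK.trans ?_
      have h1 : ((i : ℝ) + 1) * Λ₁ ≤ k * Λ₁ := by
        have h2 : ((i : ℝ) + 1) ≤ k := by exact_mod_cast hi
        exact mul_le_mul_of_nonneg_right h2 (by linarith)
      exact mul_le_mul_of_nonneg_right h1 (Real.exp_pos _).le
  have hP0 : P Ns := close_loop' ha0 hb0 hmx hab hR.ver hNs hNu hPQ hQP
    (fun N N' hNN h n hn => h n (hNN.trans hn))
  exact ⟨hP0, hPQ _ _ hP0 (by rw [hNu]; exact Nat.le_ceil _)⟩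

/-- One plaque step. -/
theorem step [CompactSpace M] {E : M → M → Prop} {H : M → M → ℝ} {κ : M → ℝ → M}
    {C ν r r₁ ε ρ e α₁ α₂ β₁ β₂ Λ Λ₁ γ x a b : ℝ} (hh : Hyp f C ν r r₁)
    (hB : Box f E H κ r r₁ ε ρ) (hA : Arcs f E r e α₁ α₂ β₁ β₂ Λ) (he2 : 64 * e ≤ r)
    (ha : a = α₂ / α₁ - 1) (hb : b = β₂ / β₁ - 1) (hab : a * b < 1)
    (hΛ₁ : Λ ≤ Λ₁) (h1Λ₁ : 1 ≤ Λ₁) (hγα : γ ≤ α₁) (hγβ : γ ≤ β₁)
    (hx : 0 ≤ x) {k m i : ℕ} (hk : 1 ≤ k) (hi : i < k)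
    (hm : C * ν ^ m * (3 * e) ≤ e / (4 * k))
    (hexp : (k + 1) * Λ₁ ^ 2 < Real.exp (γ * x)) {Ns Nu : ℕ}
    (hNs : (b * (m + x + 1) + (m + x) + 1) / (1 - a * b) ≤ Ns) (hNu : Nu = ⌈a * Ns + (m + x)⌉₊)
    {σ : ℝ → M} (hσ : UArc f.symm σ 0 1)
    (hst : ∀ n ≥ Nu, ∃ K : ℕ, (K : ℝ) ≤ (i + 1) * Λ₁ * Real.exp (β₂ * n) ∧
      Steps f.symm n (e * (1 / 2 + i / (2 * k))) σ 0 1 K)
    {p' : M} (hd : dist (σ 0) p' ≤ r₁) (hE : E (σ 0) p') :
    ∃ σ' : ℝ → M, UArc f.symm σ' 0 1 ∧ σ' 0 = p' ∧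
      (∀ n ≥ Nu, ∃ K : ℕ, (K : ℝ) ≤ (((i + 1 : ℕ) : ℝ) + 1) * Λ₁ * Real.exp (β₂ * n) ∧
        Steps f.symm n (e * (1 / 2 + ((i + 1 : ℕ) : ℝ) / (2 * k))) σ' 0 1 K) ∧
      (∀ n ≥ Nu, dist (f.symm^[n] (σ 1)) (f.symm^[n] (σ' 1)) ≤ e / (4 * k)) ∧
      (∀ n ≥ Nu, E (f.symm^[n] (σ 1)) (f.symm^[n] (σ' 1))) ∧
      (∀ n ≥ Ns, dist (f^[n] (σ' 1)) (f^[n] p') ≤ e + C * ν ^ n * (r / 16)) := by
  have he := hA.ε_pos
  have hr : 0 < r := by linarith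
  have hr₁ : r₁ ≤ r := by linarith [hh.r₁_le, hh.r₁_pos]
  have hkR : (1 : ℝ) ≤ k := by exact_mod_cast hk
  have hek : e / (4 * k) ≤ e := div_le_self he.le (by linarith)
  obtain ⟨z, hzu, hzs⟩ := hh.step (σ 0) p' hd
  have hzs' : z ∈ Wl f r p' := Wl_mono (by linarith) hzs
  have hzu' : z ∈ Wl f.symm r (σ 0) := Wl_mono (by linarith) hzu
  have hEz : E (σ 0) z := by
    refine E_trans hB (hd.trans hr₁) ?_ hE (hB.stab _ _ hzs')
    rw [dist_comm]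
    exact Wl_dist hzs'
  obtain ⟨g, hgU, hg0, hg1, hgUpp⟩ := hA.leaf (σ 0) z hzu' hEz
  obtain ⟨h, hhU, hh0, hh1, hhUpp⟩ := hA.stb p' z hzs'
  have hik : (i : ℝ) + 1 ≤ k := by exact_mod_cast hi
  have hsz : e * (1 / 2 + i / (2 * k)) ≤ e := by
    have h1 : (i : ℝ) / (2 * k) ≤ 1 / 2 := by
      rw [div_le_div_iff₀ (by positivity) (by norm_num)]
      linarith
    calc e * (1 / 2 + i / (2 * k)) ≤ e * 1 := mul_le_mul_of_nonneg_left (by linarith) he.le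
      _ = e := mul_one e
  have hst' : ∀ n ≥ Nu, ∃ K : ℕ, (K : ℝ) ≤ (i + 1) * Λ₁ * Real.exp (β₂ * n) ∧
      Steps f.symm n e σ 0 1 K := by
    intro n hn
    obtain ⟨K, hK, hS⟩ := hst n hn
    exact ⟨K, hK, hS.mono_eps hsz⟩
  have hthin : ∀ (T : ℝ) (R : ℝ × ℝ → M), 0 ≤ T → T ≤ 1 → Rct f e R 1 T →
      (∀ s ∈ Icc (0 : ℝ) 1, R (s, 0) = σ s) → (∀ t ∈ Icc (0 : ℝ) T, R (0, t) = g t) →
      (∀ n ≥ Ns, ∀ t ∈ Icc (0 : ℝ) T, ∀ s ∈ Icc (0 : ℝ) 1, ∀ s' ∈ Icc (0 : ℝ) 1,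
        dist (f^[n] (R (s, t))) (f^[n] (R (s', t))) ≤ e) ∧
      (∀ n ≥ Nu, ∀ s ∈ Icc (0 : ℝ) 1, ∀ t ∈ Icc (0 : ℝ) T, ∀ t' ∈ Icc (0 : ℝ) T,
        dist (f.symm^[n] (R (s, t))) (f.symm^[n] (R (s, t'))) ≤ e / (4 * k)) := by
    intro T R hT hT1 hR hl hbo
    exact thin hh.fwd hh.bwd he (by linarith) hA.α₁_pos hA.α_le hA.β₁_pos hA.β_le ha hb hab
      hA.low hA.low' hΛ₁ h1Λ₁ hγα hγβ hx hk hi hm hexp hNs hNu hgUpp hst' hT hT1 hR hl hbo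
  have hBr : Br f e C := hh.br.mono he (by linarith) le_rfl
  obtain ⟨R, hR, hl, hbo⟩ := exists_rect hh.fwd hh.bwd he (by linarith) hBr hgU hσ hg0.symm
    (fun T R hT hT1 hR hl hbo => (hthin T R hT hT1 hR hl hbo).1)
  obtain ⟨hver, hhor⟩ := hthin 1 R zero_le_one le_rfl hR hl hbo
  have h01 : (0 : ℝ) ∈ Icc (0 : ℝ) 1 := ⟨le_rfl, zero_le_one⟩
  have h11 : (1 : ℝ) ∈ Icc (0 : ℝ) 1 := ⟨zero_le_one, le_rfl⟩
  have hR01 : R (0, 1) = z := by rw [hbo 1 h11, hg1]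
  have hR10 : R (1, 0) = σ 1 := hl 1 h11
  -- the right side
  have hright : UArc f.symm (fun s => R (s, 1)) 0 1 :=
    Rct.uarc (f := f.symm) hh.fwd (by linarith) hR.swap (s := 1) h11
  set σ' : ℝ → M := fun s => if s ≤ 1 / 2 then h (2 * s + 0) else R (2 * s + (-1), 1) with hσ'
  have hc1 : ∀ s ∈ Icc (0 : ℝ) (1 / 2), σ' s = h (2 * s + 0) := by
    intro s hs
    simp only [hσ', if_pos hs.2]
  have hc2 : ∀ s ∈ Icc (1 / 2 : ℝ) 1, σ' s = (fun s => R (s, 1)) (2 * s + (-1)) := by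
    intro s hs
    rcases eq_or_lt_of_le hs.1 with h1 | h1
    · subst h1
      simp only [hσ', le_refl, if_true]
      rw [show (2 : ℝ) * (1 / 2) + 0 = 1 by norm_num, show (2 : ℝ) * (1 / 2) + (-1) = 0 by norm_num,
        hh1, hR01]
    · simp only [hσ', if_neg (not_le.2 h1)]
  have hσ'1 : σ' 1 = R (1, 1) := by
    rw [hc2 1 ⟨by norm_num, le_rfl⟩, show (2 : ℝ) * 1 + (-1) = 1 by norm_num]
  have hσ'0 : σ' 0 = p' := by
    rw [hc1 0 ⟨le_rfl, by norm_num⟩, show (2 : ℝ) * 0 + 0 = 0 by norm_num, hh0]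
  have hU1 : UArc f.symm σ' 0 (1 / 2) :=
    (hhU.affine (α := 2) (β := 0) (c := 0) (d := 1 / 2) (by norm_num) (by norm_num)
      (by norm_num)).congr hc1
  have hU2 : UArc f.symm σ' (1 / 2) 1 :=
    (hright.affine (α := 2) (β := -1) (c := 1 / 2) (d := 1) (by norm_num) (by norm_num)
      (by norm_num)).congr hc2
  refine ⟨σ', hU1.union (by norm_num) (by norm_num) hU2, hσ'0, ?_, ?_, ?_, ?_⟩
  · intro n hn
    obtain ⟨K, hK, hS⟩ := hst n hn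
    obtain ⟨K', hK', hS'⟩ := hhUpp n
    have hsum : e * (1 / 2 + (i : ℝ) / (2 * k)) + 2 * (e / (4 * k)) =
        e * (1 / 2 + ((i + 1 : ℕ) : ℝ) / (2 * k)) := by
      push_cast
      field_simp
      ring
    refine ⟨K' + K, ?_, ?_⟩
    · push_cast
      have hexp0 := (Real.exp_pos (β₂ * n)).le
      have h1 : Λ * Real.exp (β₂ * n) ≤ Λ₁ * Real.exp (β₂ * n) :=
        mul_le_mul_of_nonneg_right hΛ₁ hexp0
      have h2 : ((i : ℝ) + 1 + 1) * Λ₁ * Real.exp (β₂ * n) =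
          Λ₁ * Real.exp (β₂ * n) + (i + 1) * Λ₁ * Real.exp (β₂ * n) := by ring
      rw [h2]
      exact add_le_add (hK'.trans h1) hK
    · have s1 : Steps f.symm n (e * (1 / 2 + ((i + 1 : ℕ) : ℝ) / (2 * k))) σ' 0 (1 / 2) K' := by
        have h1 : Steps f.symm n (e / 2) h (2 * 0 + 0) (2 * (1 / 2) + 0) K' := by
          rw [show (2 : ℝ) * 0 + 0 = 0 by norm_num, show (2 : ℝ) * (1 / 2) + 0 = 1 by norm_num]
          exact hS'
        refine ((h1.affine (by norm_num)).congr hc1).mono_eps ?_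
        have : 0 ≤ e * (((i + 1 : ℕ) : ℝ) / (2 * k)) := by positivity
        rw [mul_add]
        linarith
      have s2 : Steps f.symm n (e * (1 / 2 + ((i + 1 : ℕ) : ℝ) / (2 * k))) σ' (1 / 2) 1 K := by
        have h1 : Steps f.symm n (e * (1 / 2 + (i : ℝ) / (2 * k)) + 2 * (e / (4 * k)))
            (fun s => R (s, 1)) 0 1 K := by
          refine hS.close fun s hs => ?_
          rw [← hl s hs]
          exact hhor n hn s hs 1 h11 0 h01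
        rw [hsum] at h1
        have h2 : Steps f.symm n (e * (1 / 2 + ((i + 1 : ℕ) : ℝ) / (2 * k)))
            (fun s => R (s, 1)) (2 * (1 / 2) + (-1)) (2 * 1 + (-1)) K := by
          rw [show (2 : ℝ) * (1 / 2) + (-1) = 0 by norm_num, show (2 : ℝ) * 1 + (-1) = 1 by norm_num]
          exact h1
        exact (h2.affine (by norm_num)).congr hc2
      exact s1.append s2
  · intro n hn
    rw [hσ'1, ← hR10]
    exact hhor n hn 1 h11 0 h01 1 h11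
  · intro n hn
    rw [hσ'1]
    refine par hB hr (σ := fun t => f.symm^[n] (σ t)) (σ' := fun t => f.symm^[n] (R (t, 1)))
      (hσ.iter n) (hright.iter n) (fun t ht => ?_) ?_
    · rw [← hl t ht]
      exact (hhor n hn t ht 0 h01 1 h11).trans (by linarith)
    · show E (f.symm^[n] (σ 0)) (f.symm^[n] (R (0, 1)))
      rw [hR01]
      exact E_back hB hzu' hEz n
  · intro n hn
    rw [hσ'1]
    have h1 := hver n hn 1 h11 1 h11 0 h01
    rw [hR01] at h1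
    have h2 := hh.fwd.dec _ _ hzs' n
    have h3 : C * ν ^ n * dist z p' ≤ C * ν ^ n * (r / 16) := by
      have hC := hh.fwd.one_le
      have : 0 ≤ ν ^ n := pow_nonneg hh.fwd.l_pos.le _
      exact mul_le_mul_of_nonneg_left (Wl_dist hzs) (by positivity)
    have h4 := dist_triangle (f^[n] (R (1, 1))) (f^[n] z) (f^[n] p')
    linarith

end Pool.Agent.Lib.MP610fe3.T4.GridM

namespace Pool.Agent.Lib.MP610fe3.T4

open Cf H6 GridM

universe u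

theorem specGrid : SpecGrid.{u} := by
  intro M _ _ f E H κ C ν r r₁ ε ρ e α₁ α₂ β₁ β₂ Λ hh hB hA he1 he2
  have he := hA.ε_pos
  have hr : 0 < r := by linarith
  have hC := hh.fwd.one_le
  have hν := hh.fwd.l_pos
  have hν1 := hh.fwd.l_lt
  set Λ₁ : ℝ := max Λ 1 with hΛ₁d
  have hΛ₁ : Λ ≤ Λ₁ := le_max_left _ _
  have h1Λ₁ : 1 ≤ Λ₁ := le_max_right _ _
  set γ : ℝ := min α₁ β₁ with hγd
  have hγ : 0 < γ := lt_min hA.α₁_pos hA.β₁_pos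
  obtain ⟨c₁, hc₁0, hc₁⟩ := exists_const γ (2 * Λ₁ ^ 2 + 1) hγ (by
    have : 0 ≤ Λ₁ ^ 2 := sq_nonneg _
    linarith)
  obtain ⟨m₁, hm₁⟩ := exists_pow_le (C := 12 * C) (ε := 1) hν hν1 (show (0 : ℝ) < 1 by norm_num)
  obtain ⟨m₂, hm₂⟩ := exists_pow_le (C := 1) (ε := 1) hν hν1 (show (0 : ℝ) < 1 / 2 by norm_num)
  obtain ⟨m₃, hm₃⟩ := exists_pow_le (C := C) (ε := 1) hν hν1 (show (0 : ℝ) < 3 / 4 by norm_num)
  rw [mul_one] at hm₁ hm₂ hm₃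
  rw [one_mul] at hm₂
  set a : ℝ := α₂ / α₁ - 1 with ha
  set b : ℝ := β₂ / β₁ - 1 with hb
  have ha0 : 0 ≤ a := by
    have : 1 ≤ α₂ / α₁ := by rw [one_le_div hA.α₁_pos]; exact hA.α_le
    linarith
  have hb0 : 0 ≤ b := by
    have : 1 ≤ β₂ / β₁ := by rw [one_le_div hA.β₁_pos]; exact hA.β_le
    linarith
  have hab : a * b < 1 := by
    have hα := hA.α₁_pos
    have hβ := hA.β₁_pos
    have e1 : a * b = ((α₂ - α₁) * (β₂ - β₁)) / (α₁ * β₁) := by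
      rw [ha, hb]
      field_simp
    rw [e1, div_lt_one (mul_pos hα hβ)]
    exact hA.rate
  have hab' : 0 < 1 - a * b := by linarith
  set c₀ : ℝ := (m₁ + m₂ : ℕ) + c₁ with hc₀
  have hc₀0 : 0 ≤ c₀ := by positivity
  set x₀ : ℝ := (b * (c₀ + 1) + c₀ + 1) / (1 - a * b) with hx₀
  have hx₀0 : 0 ≤ x₀ := by positivity
  refine ⟨⌈x₀ + 1⌉₊ + ⌈a * (x₀ + 1) + c₀ + 1⌉₊ + m₃, ?_⟩
  rintro k p P ⟨c, hc0, hck, hc⟩ N hN
  rcases Nat.eq_zero_or_pos k with hk0 | hk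
  · subst hk0
    rw [hc0] at hck
    subst hck
    refine ⟨p, fun n _ => ?_, fun n _ => ?_, E_refl hB hr.le _⟩
    · rw [dist_self]; positivity
    · rw [dist_self]; positivity
  have hkR : (1 : ℝ) ≤ k := by exact_mod_cast hk
  set ℓ : ℕ := Nat.log 2 (k + 1) + 1 with hℓ
  have hℓ1 : 1 ≤ ℓ := by omega
  have hℓR : (1 : ℝ) ≤ ℓ := by exact_mod_cast hℓ1
  have hkℓ : k + 1 < 2 ^ ℓ := Nat.lt_pow_succ_log_self (by norm_num) _
  have hkℓR : (k : ℝ) + 1 < 2 ^ ℓ := by exact_mod_cast hkℓ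
  -- the numbers
  obtain ⟨m, hm⟩ : ∃ m : ℕ, m = (m₁ + m₂) * ℓ := ⟨_, rfl⟩
  obtain ⟨x, hx⟩ : ∃ x : ℝ, x = c₁ * ℓ := ⟨_, rfl⟩
  have hx0 : 0 ≤ x := by rw [hx]; positivity
  have hmx : (m : ℝ) + x = c₀ * ℓ := by
    rw [hm, hx, hc₀]; push_cast; ring
  have hmle : C * ν ^ m * (3 * e) ≤ e / (4 * k) := by
    have h1 : ν ^ m ≤ ν ^ m₁ * (1 / 2) ^ ℓ := by
      have h2 : m₁ + m₂ * ℓ ≤ m := by
        rw [hm]
        nlinarith
      calc ν ^ m ≤ ν ^ (m₁ + m₂ * ℓ) := pow_le_pow_of_le_one hν.le hν1.le h2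
        _ = ν ^ m₁ * (ν ^ m₂) ^ ℓ := by rw [pow_add, pow_mul]
        _ ≤ ν ^ m₁ * (1 / 2) ^ ℓ := by gcongr
    have h3 : C * ν ^ m * (3 * e) ≤ C * (ν ^ m₁ * (1 / 2) ^ ℓ) * (3 * e) := by gcongr
    refine h3.trans ?_
    rw [le_div_iff₀ (by positivity)]
    have h4 : C * (ν ^ m₁ * (1 / 2) ^ ℓ) * (3 * e) * (4 * k) =
        (12 * C * ν ^ m₁) * e * (k * (1 / 2) ^ ℓ) := by ring
    rw [h4]
    have h5 : (k : ℝ) * (1 / 2) ^ ℓ ≤ 1 := by
      rw [one_div, inv_pow, ← div_eq_mul_inv, div_le_one (by positivity)]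
      linarith
    calc (12 * C * ν ^ m₁) * e * (k * (1 / 2) ^ ℓ) ≤ 1 * e * 1 := by gcongr
      _ = e := by ring
  have hexp : ((k : ℝ) + 1) * Λ₁ ^ 2 < Real.exp (γ * x) := by
    have h0 : (1 : ℝ) ≤ Λ₁ ^ 2 := one_le_pow₀ h1Λ₁
    have h1 : Λ₁ ^ 2 ≤ (Λ₁ ^ 2) ^ ℓ := le_self_pow₀ h0 (by omega)
    calc ((k : ℝ) + 1) * Λ₁ ^ 2 < 2 ^ ℓ * Λ₁ ^ 2 := by gcongr
      _ ≤ 2 ^ ℓ * (Λ₁ ^ 2) ^ ℓ := by gcongr
      _ = (2 * Λ₁ ^ 2) ^ ℓ := by rw [mul_pow]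
      _ ≤ (2 * Λ₁ ^ 2 + 1) ^ ℓ := by gcongr; linarith
      _ ≤ (Real.exp (γ * c₁)) ^ ℓ := by gcongr
      _ = Real.exp (γ * x) := by
        rw [← Real.exp_nat_mul, hx]
        congr 1
        ring
  obtain ⟨Ns, hNsd⟩ : ∃ Ns : ℕ, Ns = ⌈(b * (m + x + 1) + (m + x) + 1) / (1 - a * b)⌉₊ := ⟨_, rfl⟩
  have hNs : (b * (m + x + 1) + (m + x) + 1) / (1 - a * b) ≤ Ns := by
    rw [hNsd]; exact Nat.le_ceil _
  have hNs' : (Ns : ℝ) ≤ (x₀ + 1) * ℓ := by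
    have h1 : (b * (m + x + 1) + (m + x) + 1) / (1 - a * b) ≤ x₀ * ℓ := by
      rw [hx₀, div_mul_eq_mul_div]
      refine div_le_div_of_nonneg_right ?_ hab'.le
      rw [hmx]
      have h2 : (b + 1) * 1 ≤ (b + 1) * ℓ := mul_le_mul_of_nonneg_left hℓR (by linarith)
      calc b * (c₀ * ℓ + 1) + c₀ * ℓ + 1 = b * (c₀ * ℓ) + c₀ * ℓ + (b + 1) * 1 := by ring
        _ ≤ b * (c₀ * ℓ) + c₀ * ℓ + (b + 1) * ℓ := by linarith
        _ = (b * (c₀ + 1) + c₀ + 1) * ℓ := by ring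
    have h3 : (Ns : ℝ) < (b * (m + x + 1) + (m + x) + 1) / (1 - a * b) + 1 := by
      rw [hNsd]
      refine Nat.ceil_lt_add_one ?_
      positivity
    calc (Ns : ℝ) ≤ x₀ * ℓ + 1 := by linarith
      _ ≤ x₀ * ℓ + ℓ := by linarith
      _ = (x₀ + 1) * ℓ := by ring
  obtain ⟨Nu, hNu⟩ : ∃ Nu : ℕ, Nu = ⌈a * Ns + (m + x)⌉₊ := ⟨_, rfl⟩
  have hNu' : (Nu : ℝ) ≤ (a * (x₀ + 1) + c₀ + 1) * ℓ := by
    have h1 : (Nu : ℝ) < a * Ns + (m + x) + 1 := by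
      rw [hNu]
      refine Nat.ceil_lt_add_one ?_
      positivity
    have h2 := mul_le_mul_of_nonneg_left hNs' ha0
    calc (Nu : ℝ) ≤ a * ((x₀ + 1) * ℓ) + c₀ * ℓ + ℓ := by linarith
      _ = _ := by ring
  have hNR : (N : ℝ) = (⌈x₀ + 1⌉₊ + ⌈a * (x₀ + 1) + c₀ + 1⌉₊ + m₃) * ℓ := by
    rw [hN]; push_cast; ring
  have hc1 : (x₀ + 1) ≤ ⌈x₀ + 1⌉₊ := Nat.le_ceil _
  have hc2 : (a * (x₀ + 1) + c₀ + 1) ≤ ⌈a * (x₀ + 1) + c₀ + 1⌉₊ := Nat.le_ceil _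
  have hm₃0 : (0 : ℝ) ≤ m₃ := Nat.cast_nonneg _
  have hc10 : (0 : ℝ) ≤ ⌈x₀ + 1⌉₊ := Nat.cast_nonneg _
  have hc20 : (0 : ℝ) ≤ ⌈a * (x₀ + 1) + c₀ + 1⌉₊ := Nat.cast_nonneg _
  have hℓ0 : (0 : ℝ) ≤ ℓ := by linarith
  have hNsN : Ns ≤ N := by
    have : (Ns : ℝ) ≤ N := by
      rw [hNR]
      refine hNs'.trans (mul_le_mul_of_nonneg_right ?_ hℓ0)
      linarith
    exact_mod_cast this
  have hNuN : Nu ≤ N := by
    have : (Nu : ℝ) ≤ N := by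
      rw [hNR]
      refine hNu'.trans (mul_le_mul_of_nonneg_right ?_ hℓ0)
      linarith
    exact_mod_cast this
  have hm₃N : m₃ ≤ N := by
    rw [hN]
    calc m₃ = m₃ * 1 := (mul_one _).symm
      _ ≤ (⌈x₀ + 1⌉₊ + ⌈a * (x₀ + 1) + c₀ + 1⌉₊ + m₃) * ℓ := Nat.mul_le_mul (by omega) hℓ1
  -- the induction
  have key : ∀ i ≤ k, ∃ σ : ℝ → M, UArc f.symm σ 0 1 ∧ σ 0 = c i ∧
      (∀ n ≥ Nu, ∃ K : ℕ, (K : ℝ) ≤ ((i : ℝ) + 1) * Λ₁ * Real.exp (β₂ * n) ∧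
        Steps f.symm n (e * (1 / 2 + (i : ℝ) / (2 * k))) σ 0 1 K) ∧
      (∀ n ≥ Nu, dist (f.symm^[n] p) (f.symm^[n] (σ 1)) ≤ i * (e / (4 * k))) ∧
      (∀ n ≥ Nu, E (f.symm^[n] p) (f.symm^[n] (σ 1))) ∧
      (0 < i → ∀ n ≥ Ns, dist (f^[n] (σ 1)) (f^[n] (c i)) ≤ e + C * ν ^ n * (r / 16)) := by
    intro i
    induction i with
    | zero =>
      intro _
      refine ⟨fun _ => c 0, ⟨continuousOn_const, fun ε' hε' => ⟨0, fun n _ t _ t' _ => ?_⟩⟩, rfl,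
        fun n _ => ⟨1, ?_, ?_⟩, fun n _ => ?_, fun n _ => ?_, fun h => absurd h (lt_irrefl _)⟩
      · rw [dist_self]; exact hε'.le
      · have h1 : 1 ≤ Real.exp (β₂ * n) := Real.one_le_exp (by
          have := hA.β₁_pos.le.trans hA.β_le
          positivity)
        push_cast
        rw [zero_add, one_mul]
        calc (1 : ℝ) = 1 * 1 := (one_mul 1).symm
          _ ≤ Λ₁ * Real.exp (β₂ * n) := mul_le_mul h1Λ₁ h1 zero_le_one (by linarith)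
      · refine Steps.one zero_le_one fun t _ t' _ => ?_
        rw [dist_self]; positivity
      · rw [hc0, dist_self]; push_cast; rw [zero_mul]
      · rw [hc0]; exact E_refl hB hr.le _
    | succ i ih =>
      intro hik
      obtain ⟨σ, hσ, hσ0, hst, hdist, hEr, -⟩ := ih (by omega)
      obtain ⟨hd, hEc⟩ := hc i (by omega)
      obtain ⟨σ', hU, h0, hst', hd', hE', hf'⟩ := step hh hB hA he2 ha hb hab hΛ₁ h1Λ₁
        (min_le_left _ _) (min_le_right _ _) hx0 hk (show i < k by omega) hmle hexp hNs hNu hσ hst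
        (p' := c (i + 1)) (by rw [hσ0]; exact hd) (by rw [hσ0]; exact hEc)
      have hd'' : ∀ n ≥ Nu, dist (f.symm^[n] p) (f.symm^[n] (σ' 1)) ≤
          ((i + 1 : ℕ) : ℝ) * (e / (4 * k)) := by
        intro n hn
        have h1 := hdist n hn
        have h2 := hd' n hn
        have h3 := dist_triangle (f.symm^[n] p) (f.symm^[n] (σ 1)) (f.symm^[n] (σ' 1))
        push_cast
        rw [add_mul, one_mul]
        linarith
      refine ⟨σ', hU, h0, hst', hd'', fun n hn => ?_, fun _ => hf'⟩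
      have hek : e / (4 * k) ≤ e / 4 := by
        apply div_le_div_of_nonneg_left he.le (by norm_num)
        linarith
      have hiek : (i : ℝ) * (e / (4 * k)) ≤ e / 4 := by
        have h1 : (i : ℝ) ≤ k := by exact_mod_cast (show i ≤ k by omega)
        calc (i : ℝ) * (e / (4 * k)) ≤ k * (e / (4 * k)) := by gcongr
          _ = e / 4 := by field_simp
      refine E_trans hB (q := f.symm^[n] (σ 1)) ?_ ?_ (hEr n hn) (hE' n hn)
      · have := hdist n hn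
        linarith
      · have := hd' n hn
        linarith
  obtain ⟨σ, -, -, -, hdist, hEr, hf⟩ := key k le_rfl
  refine ⟨σ 1, fun n hn => ?_, fun n hn => ?_, hEr N hNuN⟩
  · refine (hdist n (hNuN.trans hn)).trans ?_
    have : (k : ℝ) * (e / (4 * k)) = e / 4 := by field_simp
    rw [this]
    linarith
  · have h1 := hf hk n (hNsN.trans hn)
    rw [hck, dist_comm] at h1
    have h2 : C * ν ^ n ≤ 3 / 4 := by
      refine le_trans ?_ hm₃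
      have : ν ^ n ≤ ν ^ m₃ := pow_le_pow_of_le_one hν.le hν1.le (hm₃N.trans hn)
      gcongr
    have h3 : C * ν ^ n * (r / 16) ≤ 3 / 4 * (r / 16) := by gcongr
    linarith

end Pool.Agent.Lib.MP610fe3.T4
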