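import Pool.Agent.Lib.MP_610fe3_an.T4.Spec

/-!
# Heights along pulled back transversals (common lemmas of GAP, BETA and START)
-/

open Set Filter Function
open scoped Topology ENNReal

namespace Pool.Agent.Lib.MP610fe3.T4

namespace Hgt

open Cf H6

section Real

/-- A continuous injective function with `g 0 = 0` is positive on exactly one side. -/
theorem sign_lemma {g : ℝ → ℝ} {ρ : ℝ} (hρ : 0 < ρ) (hc : ContinuousOn g (Icc (-ρ) ρ))
    (hi : InjOn g (Icc (-ρ) ρ)) (h0 : g 0 = 0) :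
    ∃ σ : ℝ, (σ = 1 ∨ σ = -1) ∧ (∀ s ∈ Ioc 0 ρ, 0 < g (σ * s)) ∧
      ∀ s ∈ Ioc 0 ρ, g (-(σ * s)) < 0 := by
  have hm : (0 : ℝ) ∈ Icc (-ρ) ρ := ⟨by linarith, hρ.le⟩
  rcases hc.strictMonoOn_of_injOn_Icc' (by linarith) hi with h | h
  · refine ⟨1, Or.inl rfl, fun s hs => ?_, fun s hs => ?_⟩
    · have := h hm (show 1 * s ∈ Icc (-ρ) ρ from ⟨by linarith [hs.1, hs.2], by linarith [hs.2]⟩)
        (by linarith [hs.1])
      rwa [h0] at this
    · have := h (show -(1 * s) ∈ Icc (-ρ) ρ from ⟨by linarith [hs.2], by linarith [hs.1]⟩) hm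
        (by linarith [hs.1])
      rwa [h0] at this
  · refine ⟨-1, Or.inr rfl, fun s hs => ?_, fun s hs => ?_⟩
    · have := h (show -1 * s ∈ Icc (-ρ) ρ from ⟨by linarith [hs.2], by linarith [hs.1]⟩) hm
        (by linarith [hs.1])
      rwa [h0] at this
    · have := h hm (show -(-1 * s) ∈ Icc (-ρ) ρ from ⟨by linarith [hs.1], by linarith [hs.2]⟩)
        (by linarith [hs.1])
      rwa [h0] at this

/-- A continuous injective nonnegative function on `[0, b]` with `g 0 = 0` is increasing. -/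
theorem strictMonoOn_of_nonneg {g : ℝ → ℝ} {b : ℝ} (hb : 0 < b) (hc : ContinuousOn g (Icc 0 b))
    (hi : InjOn g (Icc 0 b)) (h0 : g 0 = 0) {s : ℝ} (hs : s ∈ Icc 0 b) (hs' : 0 < s)
    (hp : 0 ≤ g s) : StrictMonoOn g (Icc 0 b) := by
  rcases hc.strictMonoOn_of_injOn_Icc' hb.le hi with h | h
  · exact h
  · have := h (left_mem_Icc.2 hb.le) hs hs'
    rw [h0] at this
    exact absurd hp (not_le.2 this)

end Real

variable {M : Type*} [MetricSpace M] {f : M ≃ₜ M} {E : M → M → Prop} {H : M → M → ℝ}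
  {κ : M → ℝ → M} {C ν r r₁ ε ρ : ℝ}

theorem r_pos (hh : Hyp f C ν r r₁) : 0 < r := hh.fwd.ε_pos

theorem eps_le (hh : Hyp f C ν r r₁) (hb : Box f E H κ r r₁ ε ρ) : 256 * ε ≤ r := by
  have := hb.ε_le
  have := hh.r₁_le
  linarith

theorem E_self (hh : Hyp f C ν r r₁) (hb : Box f E H κ r r₁ ε ρ) (x : M) : E x x :=
  (hb.E_iff x x x (by rw [dist_self]; exact (r_pos hh).le)
    (by rw [dist_self]; exact (r_pos hh).le)).2 rfl

theorem E_symm (hh : Hyp f C ν r r₁) (hb : Box f E H κ r r₁ ε ρ) {p q : M} (hd : dist p q ≤ r)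
    (h : E p q) : E q p := by
  have h0 : dist p p ≤ r := by rw [dist_self]; exact (r_pos hh).le
  have h1 : dist q p ≤ r := by rwa [dist_comm]
  exact (hb.E_iff p q p h1 h0).2 ((hb.E_iff p p q h0 h1).1 h).symm

/-- propagation backwards -/
theorem E_back (hb : Box f E H κ r r₁ ε ρ) {p q : M} {n : ℕ}
    (hd : ∀ k ≤ n, dist (f.symm^[k] p) (f.symm^[k] q) ≤ r) :
    E p q ↔ E (f.symm^[n] p) (f.symm^[n] q) := by
  induction n with
  | zero => rfl
  | succ n ih =>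
    rw [ih fun k hk => hd k (by omega), iterate_succ_apply', iterate_succ_apply']
    have h1 := hd (n + 1) le_rfl
    rw [iterate_succ_apply', iterate_succ_apply'] at h1
    have h2 := hb.inv (f.symm (f.symm^[n] p)) (f.symm (f.symm^[n] q)) h1
      (by rw [f.apply_symm_apply, f.apply_symm_apply]; exact hd n (by omega))
    rw [f.apply_symm_apply, f.apply_symm_apply] at h2
    exact h2.symm

/-- propagation forwards -/
theorem E_forw (hb : Box f E H κ r r₁ ε ρ) {p q : M} {n : ℕ}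
    (hd : ∀ k ≤ n, dist (f^[k] p) (f^[k] q) ≤ r) :
    E p q ↔ E (f^[n] p) (f^[n] q) := by
  induction n with
  | zero => rfl
  | succ n ih =>
    rw [ih fun k hk => hd k (by omega), iterate_succ_apply', iterate_succ_apply']
    have h1 := hd (n + 1) le_rfl
    rw [iterate_succ_apply', iterate_succ_apply'] at h1
    exact hb.inv _ _ (hd n (by omega)) h1

theorem kap_d (hb : Box f E H κ r r₁ ε ρ) {x : M} {t : ℝ} (ht : t ∈ Icc (-ρ) ρ) :
    dist (κ x t) x ≤ ε := hb.κ_mem x t ht 0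

/-- the pulled back transversal is close to the base point -/
theorem kap_dist (hb : Box f E H κ r r₁ ε ρ) {x y : M} {n : ℕ} (hy : f.symm^[n] y = x) {t : ℝ}
    (ht : t ∈ Icc (-ρ) ρ) : dist (f.symm^[n] (κ y t)) x ≤ ε := by
  rw [← hy]
  exact hb.κ_mem y t ht n

theorem kap_dec (hh : Hyp f C ν r r₁) (hb : Box f E H κ r r₁ ε ρ) {x y : M} {n : ℕ}
    (hy : f.symm^[n] y = x) {t : ℝ} (ht : t ∈ Icc (-ρ) ρ) :
    dist (f.symm^[n] (κ y t)) x ≤ C * ν ^ n * ε := by
  rw [← hy]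
  have h1 : κ y t ∈ Wl f.symm r y :=
    Wl_mono (by linarith [eps_le hh hb, hb.ε_pos]) (hb.κ_mem y t ht)
  refine (hh.bwd.dec y _ h1 n).trans ?_
  have h2 : 0 ≤ C * ν ^ n := mul_nonneg (by linarith [hh.bwd.one_le])
    (pow_nonneg hh.bwd.l_pos.le n)
  exact mul_le_mul_of_nonneg_left (hb.κ_mem y t ht 0) h2

/-- the heights of the pulled back transversals tend to zero, uniformly -/
theorem hgt_small (hh : Hyp f C ν r r₁) (hb : Box f E H κ r r₁ ε ρ) {η : ℝ} (hη : 0 < η) :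
    ∃ n₀ : ℕ, ∀ n ≥ n₀, ∀ x y : M, f.symm^[n] y = x → ∀ t ∈ Icc (-ρ) ρ,
      |H x (f.symm^[n] (κ y t))| ≤ η := by
  obtain ⟨δ, hδ, h⟩ := hb.equi η hη
  have h1 : Tendsto (fun n : ℕ => C * ν ^ n * ε) atTop (𝓝 (C * 0 * ε)) :=
    ((tendsto_pow_atTop_nhds_zero_of_lt_one hh.bwd.l_pos.le hh.bwd.l_lt).const_mul C).mul_const ε
  rw [mul_zero, zero_mul] at h1
  obtain ⟨n₀, hn₀⟩ := (h1.eventually (ge_mem_nhds hδ)).exists_forall_of_atTop
  refine ⟨n₀, fun n hn x y hy t ht => ?_⟩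
  have h2 := (kap_dec hh hb hy ht).trans (hn₀ n hn)
  have h3 := h x (f.symm^[n] (κ y t)) x
    ((kap_dist hb hy ht).trans (by linarith [eps_le hh hb, hb.ε_pos]))
    (by rw [dist_self]; exact (r_pos hh).le) h2
  rwa [hb.H_self, sub_zero] at h3

theorem contOn_H (hb : Box f E H κ r r₁ ε ρ) (x : M) :
    ContinuousOn (H x) (Metric.closedBall x r) := by
  rw [Metric.continuousOn_iff]
  intro p hp η hη
  obtain ⟨δ, hδ, h⟩ := hb.equi (η / 2) (half_pos hη)
  refine ⟨δ, hδ, fun q hq hd => ?_⟩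
  rw [Real.dist_eq]
  exact (h x q p (Metric.mem_closedBall.1 hq) (Metric.mem_closedBall.1 hp) hd.le).trans_lt
    (half_lt_self hη)

theorem contOn_kap (hb : Box f E H κ r r₁ ε ρ) (x : M) : ContinuousOn (κ x) (Icc (-ρ) ρ) := by
  rw [Metric.continuousOn_iff]
  intro t ht η hη
  obtain ⟨δ, hδ, h⟩ := hb.κ_equi (η / 2) (half_pos hη)
  refine ⟨δ, hδ, fun t' ht' hd => ?_⟩
  exact (h x t' ht' t ht (by rw [← Real.dist_eq]; exact hd.le)).trans_lt (half_lt_self hη)

theorem contOn_hgt (hh : Hyp f C ν r r₁) (hb : Box f E H κ r r₁ ε ρ) {x y : M} {n : ℕ}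
    (hy : f.symm^[n] y = x) :
    ContinuousOn (fun t => H x (f.symm^[n] (κ y t))) (Icc (-ρ) ρ) := by
  refine (contOn_H hb x).comp (((f.symm.continuous.iterate n).comp_continuousOn
    (contOn_kap hb y))) fun t ht => ?_
  exact Metric.mem_closedBall.2
    ((kap_dist hb hy ht).trans (by linarith [eps_le hh hb, hb.ε_pos]))

theorem kap_kap (hb : Box f E H κ r r₁ ε ρ) (y : M) {t t' : ℝ} (ht : t ∈ Icc (-ρ) ρ)
    (ht' : t' ∈ Icc (-ρ) ρ) (k : ℕ) : dist (f.symm^[k] (κ y t)) (f.symm^[k] (κ y t')) ≤ 2 * ε := by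
  have h1 := hb.κ_mem y t ht k
  have h2 := hb.κ_mem y t' ht' k
  linarith [dist_triangle_right (f.symm^[k] (κ y t)) (f.symm^[k] (κ y t')) (f.symm^[k] y)]

theorem injOn_hgt (hh : Hyp f C ν r r₁) (hb : Box f E H κ r r₁ ε ρ) {x y : M} {n : ℕ}
    (hy : f.symm^[n] y = x) :
    InjOn (fun t => H x (f.symm^[n] (κ y t))) (Icc (-ρ) ρ) := by
  intro t ht t' ht' h
  have he := eps_le hh hb
  have he0 := hb.ε_pos
  have h1 : E (f.symm^[n] (κ y t)) (f.symm^[n] (κ y t')) :=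
    (hb.E_iff x _ _ ((kap_dist hb hy ht).trans (by linarith))
      ((kap_dist hb hy ht').trans (by linarith))).2 h
  have h2 := (E_back hb (p := κ y t) (q := κ y t') (n := n)
    fun k _ => (kap_kap hb y ht ht' k).trans (by linarith)).2 h1
  have h3 := (hb.E_iff y _ _ ((hb.κ_mem y t ht 0).trans (by linarith))
    ((hb.κ_mem y t' ht' 0).trans (by linarith))).1 h2
  rwa [iterate_zero, id_eq, id_eq, hb.κ_H y t ht, hb.κ_H y t' ht'] at h3

theorem hgt_zero (hb : Box f E H κ r r₁ ε ρ) {x y : M} {n : ℕ} (hy : f.symm^[n] y = x) :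
    H x (f.symm^[n] (κ y 0)) = 0 := by
  rw [hb.κ_zero, hy, hb.H_self]

/-- a point of the pulled back transversal and the point of the transversal with the same
height are in the same plaque, and stay so backwards -/
theorem E_kap (hh : Hyp f C ν r r₁) (hb : Box f E H κ r r₁ ε ρ) {x y : M} {n : ℕ}
    (hy : f.symm^[n] y = x) {t : ℝ} (ht : t ∈ Icc (-ρ) ρ) {s : ℝ} (hs : s ∈ Icc (-ρ) ρ)
    (h : H x (f.symm^[n] (κ y t)) = s) : E (κ x s) (f.symm^[n] (κ y t)) := by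
  have he := eps_le hh hb
  have he0 := hb.ε_pos
  refine (hb.E_iff x _ _ ((kap_d hb hs).trans (by linarith))
    ((kap_dist hb hy ht).trans (by linarith))).2 ?_
  rw [hb.κ_H x s hs, h]

theorem dist_kap (hb : Box f E H κ r r₁ ε ρ) {x y : M} {n : ℕ}
    (hy : f.symm^[n] y = x) {t : ℝ} (ht : t ∈ Icc (-ρ) ρ) {s : ℝ} (hs : s ∈ Icc (-ρ) ρ)
    (k : ℕ) : dist (f.symm^[k] (κ x s)) (f.symm^[k] (f.symm^[n] (κ y t))) ≤ 2 * ε := by
  have h1 := hb.κ_mem x s hs k
  have h2 := hb.κ_mem y t ht (k + n)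
  rw [iterate_add_apply, iterate_add_apply, hy] at h2
  linarith [dist_triangle_right (f.symm^[k] (κ x s)) (f.symm^[k] (f.symm^[n] (κ y t)))
    (f.symm^[k] x)]

/-- comparison of heights under a further pull back -/
theorem hgt_back (hh : Hyp f C ν r r₁) (hb : Box f E H κ r r₁ ε ρ) {x y w : M} {n m : ℕ}
    (hy : f.symm^[n] y = x) (hw : f.symm^[m] x = w) {t : ℝ} (ht : t ∈ Icc (-ρ) ρ) {s : ℝ}
    (hs : s ∈ Icc (-ρ) ρ) (h : H x (f.symm^[n] (κ y t)) = s) :
    H w (f.symm^[m] (κ x s)) = H w (f.symm^[m + n] (κ y t)) := by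
  have he := eps_le hh hb
  have he0 := hb.ε_pos
  have h1 := (E_back hb (n := m) fun k _ =>
    (dist_kap hb hy ht hs k).trans (by linarith)).1 (E_kap hh hb hy ht hs h)
  rw [← iterate_add_apply] at h1
  exact (hb.E_iff w _ _ ((kap_dist hb hw hs).trans (by linarith))
    ((kap_dist hb (n := m + n) (by rw [iterate_add_apply, hy, hw]) ht).trans
      (by linarith))).1 h1

end Hgt

end Pool.Agent.Lib.MP610fe3.T4
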