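import Pool.Agent.Lib.MP_610fe3_an.T4.Spec2
import Pool.Agent.Lib.MP_610fe3_an.H6.Ext

/-!
# Module KAPPA: transversals in the unstable sets, by brackets
-/

open Set Filter Function
open scoped Topology

namespace Pool.Agent.Lib.MP610fe3.T4

open Cf H6

universe v

theorem specKappa : SpecKappa.{v} := by
  classical
  intro M _ _ f E H Q C ν r r₁ r₀ ρ₀ hh hl hr ε hε hεr
  have hr₁ : 0 < r₁ := hh.r₁_pos
  have hr₁r : 16 * r₁ ≤ r := hh.r₁_le
  have hrpos : 0 < r := by linarith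
  have hεr' : ε ≤ r := by linarith
  have hε2 : (0 : ℝ) < ε / 2 := by positivity
  obtain ⟨δ, hδ, hex⟩ := hh.br.exist (ε / 2) hε2
  have hex' : ∀ p : M × M, ∃ z, dist p.1 p.2 < δ →
      z ∈ Wl f (ε / 2) p.1 ∧ z ∈ Wl f.symm (ε / 2) p.2 := by
    intro p
    by_cases hp : dist p.1 p.2 < δ
    · obtain ⟨z, hz⟩ := hex p.1 p.2 hp
      exact ⟨z, fun _ => hz⟩
    · exact ⟨p.1, fun h => absurd h hp⟩
  choose g hg using hex'
  have hδ2 : (0 : ℝ) < min (δ / 2) r₀ := lt_min (by positivity) hl.r₀_pos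
  obtain ⟨δ₁, hδ₁, hQ⟩ := hl.Q_equi _ hδ2
  obtain ⟨ρ, hρdef⟩ : ∃ ρ : ℝ, ρ = min ρ₀ δ₁ := ⟨_, rfl⟩
  have hρ : 0 < ρ := by rw [hρdef]; exact lt_min hl.ρ₀_pos hδ₁
  have hρ₀ : ρ ≤ ρ₀ := by rw [hρdef]; exact min_le_left _ _
  have hρ₁ : ρ ≤ δ₁ := by rw [hρdef]; exact min_le_right _ _
  have hmem : ∀ t ∈ Icc (-ρ) ρ, t ∈ Icc (-ρ₀) ρ₀ := fun t ht =>
    ⟨by linarith [ht.1], by linarith [ht.2]⟩
  have hmem0 : (0 : ℝ) ∈ Icc (-ρ₀) ρ₀ := ⟨by linarith [hl.ρ₀_pos], hl.ρ₀_pos.le⟩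
  have hdQ : ∀ x, ∀ t ∈ Icc (-ρ) ρ, dist (Q x t) x ≤ min (δ / 2) r₀ := by
    intro x t ht
    have h := hQ x t (hmem t ht) 0 hmem0 (by
      rw [sub_zero]
      exact (abs_le.2 ht).trans hρ₁)
    rwa [hl.Q_zero] at h
  have hdQ1 : ∀ x, ∀ t ∈ Icc (-ρ) ρ, dist (Q x t) x ≤ δ / 2 := fun x t ht =>
    (hdQ x t ht).trans (min_le_left _ _)
  have hdQ2 : ∀ x, ∀ t ∈ Icc (-ρ) ρ, dist (Q x t) x ≤ r₀ := fun x t ht =>
    (hdQ x t ht).trans (min_le_right _ _)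
  have hgQ : ∀ x, ∀ t ∈ Icc (-ρ) ρ, g (Q x t, x) ∈ Wl f (ε / 2) (Q x t) ∧
      g (Q x t, x) ∈ Wl f.symm (ε / 2) x := fun x t ht =>
    hg (Q x t, x) (lt_of_le_of_lt (hdQ1 x t ht) (by linarith))
  have hz0 : (0 : ℝ) ∈ Icc (-ρ) ρ := ⟨by linarith, hρ.le⟩
  -- uniform continuity of the bracket
  have hK : IsCompact {p : M × M | dist p.1 p.2 ≤ δ / 2} :=
    (isClosed_le (continuous_fst.dist continuous_snd) continuous_const).isCompact
  have hgc : ContinuousOn g {p : M × M | dist p.1 p.2 ≤ δ / 2} := by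
    refine br_continuousOn hh.br fun p hp => ?_
    have h1 := hg p (lt_of_le_of_lt hp (by linarith))
    exact ⟨Wl_mono (by linarith) h1.1, Wl_mono (by linarith) h1.2⟩
  have hgu := hK.uniformContinuousOn_of_continuous hgc
  rw [Metric.uniformContinuousOn_iff] at hgu
  refine ⟨ρ, fun x t => g (Q x t, x), ?_⟩
  refine
    { ε_pos := hε
      ε_le := hεr
      ρ_pos := hρ
      H_self := hl.H_self
      E_iff := fun x p q hp hq => hl.E_iff x p q (hp.trans hr) (hq.trans hr)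
      equi := ?_
      inv := fun p q hp hq => hl.inv p q (hp.trans hr) (hq.trans hr)
      stab := fun x y hy => hl.stab x y (Wl_mono hr hy)
      conn := ?_
      κ_zero := ?_
      κ_mem := fun x t ht => Wl_mono (by linarith) (hgQ x t ht).2
      κ_H := ?_
      κ_equi := ?_ }
  · intro η hη
    obtain ⟨d, hd, h⟩ := hl.equi η hη
    exact ⟨d, hd, fun x p q hp hq hpq => h x p q (hp.trans hr) (hq.trans hr) hpq⟩
  · intro η hη
    obtain ⟨D, hD⟩ := hl.conn η hη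
    exact ⟨D, fun p q hpq hE => hD p q (hpq.trans (by linarith)) hE⟩
  · intro x
    have h1 := hgQ x 0 hz0
    simp only [hl.Q_zero] at h1 ⊢
    exact hh.br.unique x x _ _ (Wl_mono (by linarith) h1.1) (Wl_mono (by linarith) h1.2)
      (mem_Wl_self hrpos.le) (mem_Wl_self hrpos.le)
  · intro x t ht
    have h1 := hgQ x t ht
    have h2 : E (Q x t) (g (Q x t, x)) := hl.stab _ _ (Wl_mono (by linarith) h1.1)
    have h3 := (hl.E_iff x _ _ (hdQ2 x t ht) ((Wl_dist h1.2).trans (by linarith))).1 h2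
    rw [← h3]
    exact hl.Q_H x t (hmem t ht)
  · intro η hη
    obtain ⟨d, hd, h⟩ := hgu η hη
    obtain ⟨d', hd', h'⟩ := hl.Q_equi (d / 2) (by positivity)
    refine ⟨d', hd', fun x t ht t' ht' htt' => ?_⟩
    have h1 := h' x t (hmem t ht) t' (hmem t' ht') htt'
    refine (h (Q x t, x) (hdQ1 x t ht) (Q x t', x) (hdQ1 x t' ht') ?_).le
    rw [Prod.dist_eq]
    simp only [dist_self]
    exact max_lt (by linarith) hd

end Pool.Agent.Lib.MP610fe3.T4
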