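import Pool.Agent.Lib.MP_610fe3_an.T4.Spec2
import Pool.Agent.Lib.MP_610fe3_an.Cf.Dec
import Pool.Agent.Lib.MP_610fe3_an.Cf.Len2

/-!
# Module LGROW: growth of Lipschitz paths in the leaves
-/

open Set Filter Function
open scoped Topology

namespace Pool.Agent.Lib.MP610fe3.T4

open Cf Cf.Len2

universe u v

namespace LgrowM

/-- A map with pointwise Lipschitz constants at most `A` is Lipschitz. -/
theorem lip_of_local {M : Type*} [MetricSpace M] {g : ℝ → M} {A : ℝ}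
    (h : ∀ t₀ ∈ Icc (0 : ℝ) 1, ∀ η : ℝ, 0 < η → ∃ δ : ℝ, 0 < δ ∧ ∀ t ∈ Icc (0 : ℝ) 1,
      |t - t₀| < δ → dist (g t) (g t₀) ≤ (A + η) * |t - t₀|)
    {a b : ℝ} (ha : 0 ≤ a) (hab : a ≤ b) (hb : b ≤ 1) :
    dist (g a) (g b) ≤ A * (b - a) := by
  have hcont : ContinuousOn g (Icc a b) := by
    intro t₀ ht₀
    have ht₀' : t₀ ∈ Icc (0 : ℝ) 1 := ⟨ha.trans ht₀.1, ht₀.2.trans hb⟩
    rw [Metric.continuousWithinAt_iff]
    intro e he
    obtain ⟨δ, hδ, h1⟩ := h t₀ ht₀' 1 one_pos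
    refine ⟨min δ (e / (|A| + 2)), by positivity, fun t ht htd => ?_⟩
    have ht' : t ∈ Icc (0 : ℝ) 1 := ⟨ha.trans ht.1, ht.2.trans hb⟩
    rw [Real.dist_eq] at htd
    have h2 := h1 t ht' (htd.trans_le (min_le_left _ _))
    have h3 : |t - t₀| < e / (|A| + 2) := htd.trans_le (min_le_right _ _)
    rw [lt_div_iff₀ (by positivity)] at h3
    have h4 : A ≤ |A| := le_abs_self A
    have h5 : 0 ≤ |t - t₀| := abs_nonneg _
    nlinarith
  have key : ∀ η : ℝ, 0 < η → dist (g a) (g b) ≤ (A + η) * (b - a) := by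
    intro η hη
    set s : Set ℝ := {t | dist (g a) (g t) ≤ (A + η) * (t - a)} with hs
    have hclosed : IsClosed (s ∩ Icc a b) := by
      have h1 : ContinuousOn (fun t => dist (g a) (g t)) (Icc a b) :=
        fun t ht => tendsto_const_nhds.dist (hcont t ht)
      have h2 : ContinuousOn (fun t => (A + η) * (t - a)) (Icc a b) := by fun_prop
      have h3 := isClosed_Icc.isClosed_le h1 h2
      have h4 : s ∩ Icc a b = {t ∈ Icc a b | dist (g a) (g t) ≤ (A + η) * (t - a)} := by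
        ext t
        exact and_comm
      rw [h4]
      exact h3
    have hmem : b ∈ s := by
      refine hclosed.mem_of_ge_of_forall_exists_gt ?_ hab ?_
      · simp [hs]
      · rintro x ⟨hx, hxab⟩
        have hx' : x ∈ Icc (0 : ℝ) 1 := ⟨ha.trans hxab.1, (hxab.2.le).trans hb⟩
        obtain ⟨δ, hδ, h1⟩ := h x hx' η hη
        set y : ℝ := min b (x + δ / 2) with hy
        have hxy : x < y := lt_min hxab.2 (by linarith)
        have hyb : y ≤ b := min_le_left _ _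
        have hyd : y ≤ x + δ / 2 := min_le_right _ _
        refine ⟨y, ?_, hxy, hyb⟩
        have h2 := h1 y ⟨by linarith [hx'.1], hyb.trans hb⟩ (by
          rw [abs_of_pos (by linarith)]
          linarith)
        rw [abs_of_pos (by linarith)] at h2
        have h3 := dist_triangle (g a) (g x) (g y)
        rw [dist_comm (g x) (g y)] at h3
        have hx2 : dist (g a) (g x) ≤ (A + η) * (x - a) := hx
        show dist (g a) (g y) ≤ (A + η) * (y - a)
        nlinarith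
    exact hmem
  refine le_of_forall_pos_le_add fun e he => ?_
  have h1 := key (e / (b - a + 1)) (by
    have : 0 ≤ b - a := by linarith
    positivity)
  have h2 : e / (b - a + 1) * (b - a) ≤ e := by
    have h3 : 0 ≤ b - a := by linarith
    rw [div_mul_eq_mul_div, div_le_iff₀ (by positivity)]
    nlinarith
  nlinarith

section

variable {M : Type*} [MetricSpace M] [CompactSpace M] {W : Type*} [NormedAddCommGroup W]
  [NormedSpace ℝ W] {J : Emb M W} {f : M ≃ₜ M}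

/-- Growth at a point. -/
theorem grow_at (s : Split J f) {E : M → M → Prop} {F : M → Submodule ℝ W} {C₀ b K : ℝ}
    (hs : s.Hyperbolic) (hT : Tangent s E F) (hFU : ∀ x, ∀ w ∈ F x, s.U x w = w)
    (hC₀ : 0 ≤ C₀) (hb : 0 ≤ b)
    (hgr : ∀ (k : ℕ) (x : M), ∀ w ∈ F x, ‖iterD s.D f k x w‖ ≤ C₀ * b ^ k * ‖w‖)
    (hK1 : 1 ≤ K) (hK : ∀ x, ‖s.U x‖ ≤ K) (n : ℕ) (x : M) {η : ℝ} (hη : 0 < η) :
    ∃ ε δ : ℝ, 0 < ε ∧ 0 < δ ∧ ∀ z ∈ Wl f.symm ε x, dist z x < δ → E z x →
      dist (f^[n] z) (f^[n] x) ≤ (C₀ * K * b ^ n + η) * dist z x := by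
  have hK0 : 0 < K := by linarith
  set B : ℝ := ‖iterD s.D f n x‖ with hB
  have hB0 : 0 ≤ B := norm_nonneg _
  set A : ℝ := C₀ * b ^ n with hA
  have hA0 : 0 ≤ A := by positivity
  set T : ℝ := A * K + B * (1 + K) + 1 with hTdef
  have hT0 : 0 < T := by positivity
  set η₁ : ℝ := η / T with hη₁
  have hη₁0 : 0 < η₁ := by positivity
  have hη₁T : η₁ * T = η := by rw [hη₁]; field_simp
  obtain ⟨r, hr, happ⟩ := hasD_iter_approx s n η₁ hη₁0
  obtain ⟨ε, hε, hcone⟩ := exists_cone s.swap hs.swap (η := η₁) hη₁0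
  have h1 := hT x η₁ hη₁0
  obtain ⟨r', hr', h2⟩ := Metric.eventually_nhds_iff.1 h1
  refine ⟨ε, min r r', hε, lt_min hr hr', fun z hz hzd hE => ?_⟩
  have hd0 : 0 ≤ dist z x := dist_nonneg
  have a1 := happ x z (hzd.trans_le (min_le_left _ _))
  have a2 := hcone x z hz
  simp only [Split.swap_S] at a2
  obtain ⟨v₁, w₁, hv₁, hw₁, a3⟩ := h2 (y := (z, x)) (by
    rw [Prod.dist_eq]
    simp only [dist_self]
    exact max_lt (hzd.trans_le (min_le_right _ _)) hr') hE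
  simp only at a3
  set v : W := J.e z - J.e x with hv
  have hvd : ‖v‖ = dist z x := (J.dist_eq z x).symm
  set q : W := v - (v₁ + w₁) with hq
  have hUv₁ : s.U x v₁ = 0 := by rw [← hv₁, s.US_apply]
  have hUv : s.U x v = w₁ + s.U x q := by
    have h3 : v = v₁ + w₁ + q := by rw [hq]; abel
    conv_lhs => rw [h3]
    rw [map_add, map_add, hUv₁, hFU x w₁ hw₁, zero_add]
  have hUq : ‖s.U x q‖ ≤ K * (η₁ * dist z x) :=
    ((s.U x).le_of_opNorm_le (hK x) _).trans (mul_le_mul_of_nonneg_left a3 hK0.le)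
  have hUvn : ‖s.U x v‖ ≤ K * dist z x := by
    rw [← hvd]
    exact (s.U x).le_of_opNorm_le (hK x) _
  have hw₁n : ‖w₁‖ ≤ K * dist z x + K * (η₁ * dist z x) := by
    have h3 : w₁ = s.U x v - s.U x q := by rw [hUv]; abel
    rw [h3]
    exact (norm_sub_le _ _).trans (add_le_add hUvn hUq)
  have b1 : ‖iterD s.D f n x w₁‖ ≤ A * (K * dist z x + K * (η₁ * dist z x)) :=
    (hgr n x w₁ hw₁).trans (mul_le_mul_of_nonneg_left hw₁n hA0)
  have b2 : ‖iterD s.D f n x (v - s.U x v)‖ ≤ B * (η₁ * dist z x) :=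
    ((iterD s.D f n x).le_opNorm _).trans (mul_le_mul_of_nonneg_left a2 hB0)
  have b3 : ‖iterD s.D f n x (s.U x q)‖ ≤ B * (K * (η₁ * dist z x)) :=
    ((iterD s.D f n x).le_opNorm _).trans (mul_le_mul_of_nonneg_left hUq hB0)
  have hid : J.e (f^[n] z) - J.e (f^[n] x) =
      (J.e (f^[n] z) - J.e (f^[n] x) - iterD s.D f n x v) +
      (iterD s.D f n x w₁ + iterD s.D f n x (v - s.U x v) + iterD s.D f n x (s.U x q)) := by
    rw [← map_add, ← map_add]
    have h3 : w₁ + (v - s.U x v) + s.U x q = v := by rw [hUv]; abel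
    rw [h3]
    abel
  rw [J.dist_eq (f^[n] z) (f^[n] x), hid]
  calc _ ≤ η₁ * dist z x + (A * (K * dist z x + K * (η₁ * dist z x)) + B * (η₁ * dist z x) +
        B * (K * (η₁ * dist z x))) := by
        refine (norm_add_le _ _).trans (add_le_add a1 ?_)
        refine (norm_add_le _ _).trans (add_le_add ?_ b3)
        exact (norm_add_le _ _).trans (add_le_add b1 b2)
    _ = (A * K + η₁ * T) * dist z x := by rw [hTdef]; ring
    _ = (C₀ * K * b ^ n + η) * dist z x := by rw [hη₁T, hA]; ring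

end

end LgrowM

open LgrowM in
/-- Module LGROW. -/
theorem specLgrow : SpecLgrow.{u, v} := by
  intro M _ _ W _ _ _ J f s E F C₀ b hs hT hFU hC₀ hb hgr
  obtain ⟨K, hK1, hK⟩ := s.exists_bdd
  have hK0 : 0 < K := by linarith
  obtain ⟨ε₂, Cd, l, hdec⟩ := exists_dec s.swap hs.swap
  have hCd := hdec.one_le
  refine ⟨ε₂, C₀ * K, hdec.ε_pos, by positivity, fun γ Λ hΛ hγ n t ht t' ht' => ?_⟩
  have hloc : ∀ t₀ ∈ Icc (0 : ℝ) 1, ∀ η : ℝ, 0 < η → ∃ δ : ℝ, 0 < δ ∧ ∀ t ∈ Icc (0 : ℝ) 1,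
      |t - t₀| < δ → dist (f^[n] (γ t)) (f^[n] (γ t₀)) ≤
        (C₀ * K * Λ * b ^ n + η) * |t - t₀| := by
    intro t₀ ht₀ η hη
    obtain ⟨ε, δ, hε, hδ, h⟩ := grow_at s hs hT hFU hC₀ hb hgr hK1 (fun x => (hK x).2) n (γ t₀)
      (η := η / (Λ + 1)) (by positivity)
    refine ⟨min δ ε / (Cd * (Λ + 1)), by positivity, fun t ht htd => ?_⟩
    rw [lt_div_iff₀ (by positivity)] at htd
    obtain ⟨h1, h2, h3⟩ := hγ t ht t₀ ht₀
    have h0 : 0 ≤ |t - t₀| := abs_nonneg _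
    have hd : Cd * dist (γ t) (γ t₀) < min δ ε := by
      calc Cd * dist (γ t) (γ t₀) ≤ Cd * (Λ * |t - t₀|) := by gcongr
        _ ≤ |t - t₀| * (Cd * (Λ + 1)) := by nlinarith [mul_nonneg (by linarith : 0 ≤ Cd) h0]
        _ < min δ ε := htd
    have hd0 : 0 ≤ dist (γ t) (γ t₀) := dist_nonneg
    have hdle : dist (γ t) (γ t₀) ≤ Cd * dist (γ t) (γ t₀) := by nlinarith
    have hW : γ t ∈ Wl f.symm ε (γ t₀) := by
      intro k
      have h4 := hdec.dec (γ t₀) (γ t) h1 k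
      have h5 : l ^ k ≤ 1 := pow_le_one₀ hdec.l_pos.le hdec.l_lt.le
      calc dist (f.symm^[k] (γ t)) (f.symm^[k] (γ t₀)) ≤ Cd * l ^ k * dist (γ t) (γ t₀) := h4
        _ ≤ Cd * 1 * dist (γ t) (γ t₀) := by gcongr
        _ = Cd * dist (γ t) (γ t₀) := by ring
        _ ≤ min δ ε := hd.le
        _ ≤ ε := min_le_right _ _
    have h6 := h (γ t) hW (hdle.trans_lt (hd.trans_le (min_le_left _ _))) h2
    have hA0 : 0 ≤ C₀ * K * b ^ n := by positivity
    have hη' : 0 < η / (Λ + 1) := by positivity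
    calc dist (f^[n] (γ t)) (f^[n] (γ t₀))
        ≤ (C₀ * K * b ^ n + η / (Λ + 1)) * dist (γ t) (γ t₀) := h6
      _ ≤ (C₀ * K * b ^ n + η / (Λ + 1)) * (Λ * |t - t₀|) := by gcongr
      _ = (C₀ * K * Λ * b ^ n + η / (Λ + 1) * Λ) * |t - t₀| := by ring
      _ ≤ (C₀ * K * Λ * b ^ n + η) * |t - t₀| := by
          have h7 : η / (Λ + 1) * Λ ≤ η := by
            rw [div_mul_eq_mul_div, div_le_iff₀ (by positivity)]
            nlinarith
          gcongr
  rcases le_total t t' with h | h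
  · have h1 := lip_of_local hloc ht.1 h ht'.2
    rw [abs_sub_comm, abs_of_nonneg (by linarith)]
    exact h1
  · have h1 := lip_of_local hloc ht'.1 h ht.2
    rw [dist_comm, abs_of_nonneg (by linarith)]
    exact h1

end Pool.Agent.Lib.MP610fe3.T4
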