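import Pool.Agent.Lib.MP_610fe3_an.T4.Spec2

/-!
# Module LOC: from the foliation charts to uniform local data
-/

open Set Filter Function Metric
open scoped Topology

namespace Pool.Agent.Lib.MP610fe3.T4

open Cf H6

universe u v w

namespace LocM

theorem fin_min {ι : Type*} [Finite ι] {P : ι → ℝ → Prop}
    (hm : ∀ i a b, 0 < a → a ≤ b → P i b → P i a) (h : ∀ i, ∃ δ : ℝ, 0 < δ ∧ P i δ) :
    ∃ δ : ℝ, 0 < δ ∧ ∀ i, P i δ := by
  choose d hd hP using h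
  have h1 : ∀ i, ∀ᶠ δ in 𝓝[>] (0 : ℝ), P i δ := fun i => by
    filter_upwards [Ioc_mem_nhdsGT (hd i)] with δ hδ
    exact hm i _ _ hδ.1 hδ.2 (hP i)
  obtain ⟨δ, h1, h2⟩ := ((eventually_all.2 h1).and self_mem_nhdsWithin).exists
  exact ⟨δ, h2, h1⟩

/-- Local properties of pairs are uniform on compact sets. -/
theorem unif {X : Type*} [MetricSpace X] {K : Set X} (hK : IsCompact K) {P : X × X → Prop}
    (h : ∀ x ∈ K, ∀ᶠ p in 𝓝 (x, x), P p) :
    ∃ δ : ℝ, 0 < δ ∧ ∀ p q, p ∈ K → dist p q ≤ δ → P (p, q) := by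
  have hD : IsCompact ((fun x : X => (x, x)) '' K) :=
    hK.image (continuous_id.prodMk continuous_id)
  have hU : (fun x : X => (x, x)) '' K ⊆ interior {p | P p} := by
    rintro _ ⟨x, hx, rfl⟩
    exact mem_interior_iff_mem_nhds.2 (h x hx)
  obtain ⟨δ, hδ, hs⟩ := hD.exists_thickening_subset_open isOpen_interior hU
  refine ⟨δ / 2, by positivity, fun p q hp hq => ?_⟩
  have h1 : (p, q) ∈ thickening δ ((fun x : X => (x, x)) '' K) := by
    refine mem_thickening_iff.2 ⟨(p, p), ⟨p, hp, rfl⟩, ?_⟩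
    rw [Prod.dist_eq]
    simp only [dist_self]
    rw [max_eq_right dist_nonneg, dist_comm]
    linarith
  exact interior_subset (hs h1)

variable {M V₀ : Type*} [MetricSpace M] [NormedAddCommGroup V₀]

/-- Finitely many foliation charts, with uniform sizes. -/
structure At (𝓕 : Set (OpenPartialHomeomorph M (V₀ × ℝ))) {ι : Type*}
    (φ : ι → OpenPartialHomeomorph M (V₀ × ℝ)) (c : ι → V₀ × ℝ) (s : ι → ℝ) (j : M → ι)
    (R : ℝ) : Prop where
  mem : ∀ i, φ i ∈ 𝓕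
  s_pos : ∀ i, 0 < s i
  R_pos : 0 < R
  cpt : ∀ i, IsCompact (closedBall (c i) (2 * s i))
  tgt : ∀ i, closedBall (c i) (2 * s i) ⊆ (φ i).target
  src : ∀ x p, dist p x < R → p ∈ (φ (j x)).source
  nbh : ∀ x p, dist p x < R → φ (j x) p ∈ closedBall (c (j x)) (s (j x))

theorem exists_at [CompactSpace M] {𝓕 : Set (OpenPartialHomeomorph M (V₀ × ℝ))}
    (hF : IsFoliation 𝓕) : ∃ (t : Finset M) (φ : t → OpenPartialHomeomorph M (V₀ × ℝ))
      (c : t → V₀ × ℝ) (s : t → ℝ) (j : M → t) (R : ℝ), At 𝓕 φ c s j R := by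
  have h1 : ∀ x : M, ∃ φ ∈ 𝓕, x ∈ φ.source ∧ ∃ s : ℝ, 0 < s ∧
      closedBall (φ x) (2 * s) ⊆ φ.target ∧ IsCompact (closedBall (φ x) (2 * s)) := by
    intro x
    obtain ⟨φ, hφ, hx⟩ := hF.cover x
    refine ⟨φ, hφ, hx, ?_⟩
    obtain ⟨K, hK, hKx, hKs⟩ := exists_compact_subset φ.open_source hx
    have h2 : φ '' K ∈ 𝓝 (φ x) := φ.image_mem_nhds hx (mem_interior_iff_mem_nhds.1 hKx)
    obtain ⟨s, hs, hb⟩ := Metric.nhds_basis_closedBall.mem_iff.1 h2
    have h3 : IsCompact (φ '' K) := hK.image_of_continuousOn (φ.continuousOn.mono hKs)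
    have h4 : closedBall (φ x) (2 * (s / 2)) ⊆ φ '' K := by
      rw [mul_div_cancel₀ s two_ne_zero]
      exact hb
    refine ⟨s / 2, by positivity, fun y hy => ?_, h3.of_isClosed_subset isClosed_closedBall h4⟩
    obtain ⟨z, hz, rfl⟩ := h4 hy
    exact φ.map_source (hKs hz)
  choose φ hφ hx s hs ht hc using h1
  have hopen : ∀ x, IsOpen ((φ x).source ∩ (φ x) ⁻¹' ball (φ x x) (s x)) := fun x =>
    (φ x).isOpen_inter_preimage isOpen_ball
  obtain ⟨t, ht'⟩ := isCompact_univ.elim_finite_subcover _ hopen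
    (fun x _ => mem_iUnion.2 ⟨x, hx x, mem_ball_self (hs x)⟩)
  have hcov : (univ : Set M) ⊆ ⋃ i : t, ((φ i).source ∩ (φ i) ⁻¹' ball (φ i i) (s i)) := by
    intro x hx'
    obtain ⟨i, hi⟩ := mem_iUnion.1 (ht' hx')
    obtain ⟨hi1, hi2⟩ := mem_iUnion.1 hi
    exact mem_iUnion.2 ⟨⟨i, hi1⟩, hi2⟩
  obtain ⟨R, hR, hL⟩ := lebesgue_number_lemma_of_metric isCompact_univ
    (fun i : t => hopen i) hcov
  choose j hj using fun x => hL x (mem_univ x)
  exact ⟨t, fun i => φ i, fun i => φ i i, fun i => s i, j, R, fun i => hφ i, fun i => hs i, hR,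
    fun i => hc i, fun i => ht i, fun x p hp => (hj x hp).1,
    fun x p hp => ball_subset_closedBall (hj x hp).2⟩

section

variable {𝓕 : Set (OpenPartialHomeomorph M (V₀ × ℝ))} {ι : Type*} 
  {φ : ι → OpenPartialHomeomorph M (V₀ × ℝ)} {c : ι → V₀ × ℝ} {s : ι → ℝ} {j : M → ι}
  {R : ℝ}

/-- The compact part of the chart domain. -/
def Lc (φ : ι → OpenPartialHomeomorph M (V₀ × ℝ)) (c : ι → V₀ × ℝ) (s : ι → ℝ) (i : ι) :
    Set M := (φ i).symm '' closedBall (c i) (2 * s i)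

namespace At

variable (A : At 𝓕 φ c s j R)

include A

theorem isCompact_Lc (i : ι) : IsCompact (Lc φ c s i) :=
  (A.cpt i).image_of_continuousOn ((φ i).continuousOn_symm.mono (A.tgt i))

theorem Lc_source (i : ι) : Lc φ c s i ⊆ (φ i).source := by
  rintro _ ⟨z, hz, rfl⟩
  exact (φ i).map_target (A.tgt i hz)

theorem ball_sub (i : ι) : closedBall (c i) (s i) ⊆ closedBall (c i) (2 * s i) :=
  closedBall_subset_closedBall (by linarith [A.s_pos i])

theorem mem_Lc {x p : M} (h : dist p x < R) : p ∈ Lc φ c s (j x) :=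
  ⟨φ (j x) p, A.ball_sub _ (A.nbh x p h), (φ (j x)).left_inv (A.src x p h)⟩

theorem self_mem_Lc (x : M) : x ∈ Lc φ c s (j x) := A.mem_Lc (by rw [dist_self]; exact A.R_pos)

omit A in
theorem symm_mem_Lc {i : ι} {z : V₀ × ℝ} (h : z ∈ closedBall (c i) (2 * s i)) :
    (φ i).symm z ∈ Lc φ c s i := ⟨z, h, rfl⟩

theorem compat [Finite ι] (hF : IsFoliation 𝓕) : ∃ δ : ℝ, 0 < δ ∧ ∀ i k p q,
    p ∈ Lc φ c s i → p ∈ Lc φ c s k → dist p q ≤ δ →
    ((φ i p).2 = (φ i q).2 ↔ (φ k p).2 = (φ k q).2) := by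
  obtain ⟨δ, hδ, h⟩ := fin_min (ι := ι × ι) (P := fun ik δ => ∀ p q,
    p ∈ Lc φ c s ik.1 → p ∈ Lc φ c s ik.2 → dist p q ≤ δ →
    ((φ ik.1 p).2 = (φ ik.1 q).2 ↔ (φ ik.2 p).2 = (φ ik.2 q).2))
    (fun ik a b _ hab h p q h1 h2 h3 => h p q h1 h2 (h3.trans hab)) (fun ik => by
      obtain ⟨δ, hδ, h⟩ := unif ((A.isCompact_Lc ik.1).inter (A.isCompact_Lc ik.2))
        (fun x hx => hF.compat _ (A.mem ik.1) _ (A.mem ik.2) x (A.Lc_source _ hx.1)
          (A.Lc_source _ hx.2))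
      exact ⟨δ, hδ, fun p q h1 h2 h3 => h p q ⟨h1, h2⟩ h3⟩)
  exact ⟨δ, hδ, fun i k p q h1 h2 h3 => h (i, k) p q h1 h2 h3⟩

theorem invar [Finite ι] {f : M ≃ₜ M} (hF : IsInvariant f 𝓕) : ∃ δ : ℝ, 0 < δ ∧ ∀ i k p q,
    p ∈ Lc φ c s i → f p ∈ Lc φ c s k → dist p q ≤ δ →
    ((φ i p).2 = (φ i q).2 ↔ (φ k (f p)).2 = (φ k (f q)).2) := by
  obtain ⟨δ, hδ, h⟩ := fin_min (ι := ι × ι) (P := fun ik δ => ∀ p q,
    p ∈ Lc φ c s ik.1 → f p ∈ Lc φ c s ik.2 → dist p q ≤ δ →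
    ((φ ik.1 p).2 = (φ ik.1 q).2 ↔ (φ ik.2 (f p)).2 = (φ ik.2 (f q)).2))
    (fun ik a b _ hab h p q h1 h2 h3 => h p q h1 h2 (h3.trans hab)) (fun ik => by
      have hc : IsCompact (Lc φ c s ik.1 ∩ f ⁻¹' Lc φ c s ik.2) :=
        (A.isCompact_Lc ik.1).inter_right ((A.isCompact_Lc ik.2).isClosed.preimage f.continuous)
      obtain ⟨δ, hδ, h⟩ := unif hc
        (fun x hx => hF _ (A.mem ik.1) _ (A.mem ik.2) x (A.Lc_source _ hx.1)
          (A.Lc_source _ hx.2))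
      exact ⟨δ, hδ, fun p q h1 h2 h3 => h p q ⟨h1, h2⟩ h3⟩)
  exact ⟨δ, hδ, fun i k p q h1 h2 h3 => h (i, k) p q h1 h2 h3⟩

theorem unif_symm [Finite ι] {η : ℝ} (hη : 0 < η) : ∃ δ : ℝ, 0 < δ ∧ ∀ i,
    ∀ a ∈ closedBall (c i) (2 * s i), ∀ b ∈ closedBall (c i) (2 * s i), dist a b ≤ δ →
    dist ((φ i).symm a) ((φ i).symm b) ≤ η := by
  refine fin_min (fun i a b _ hab h x hx y hy hxy => h x hx y hy (hxy.trans hab)) fun i => ?_
  have h := (A.cpt i).uniformContinuousOn_of_continuous ((φ i).continuousOn_symm.mono (A.tgt i))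
  obtain ⟨δ, hδ, h⟩ := Metric.uniformContinuousOn_iff_le.1 h η hη
  exact ⟨δ, hδ, h⟩

theorem unif_chart [Finite ι] {η : ℝ} (hη : 0 < η) : ∃ δ : ℝ, 0 < δ ∧ ∀ i,
    ∀ a ∈ Lc φ c s i, ∀ b ∈ Lc φ c s i, dist a b ≤ δ → |(φ i a).2 - (φ i b).2| ≤ η := by
  refine fin_min (fun i a b _ hab h x hx y hy hxy => h x hx y hy (hxy.trans hab)) fun i => ?_
  have h := (A.isCompact_Lc i).uniformContinuousOn_of_continuous
    (((φ i).continuousOn.mono (A.Lc_source i)).snd)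
  obtain ⟨δ, hδ, h⟩ := Metric.uniformContinuousOn_iff_le.1 h η hη
  exact ⟨δ, hδ, fun a ha b hb hab => by simpa [Real.dist_eq] using h a ha b hb hab⟩

end At

/-- the relation -/
def Er (φ : ι → OpenPartialHomeomorph M (V₀ × ℝ)) (j : M → ι) (p q : M) : Prop :=
  (φ (j p) p).2 = (φ (j p) q).2

/-- the height function -/
def Hr (φ : ι → OpenPartialHomeomorph M (V₀ × ℝ)) (j : M → ι) (x p : M) : ℝ :=
  (φ (j x) p).2 - (φ (j x) x).2

/-- the transversal -/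
def Qr (φ : ι → OpenPartialHomeomorph M (V₀ × ℝ)) (j : M → ι) (x : M) (t : ℝ) : M :=
  (φ (j x)).symm ((φ (j x) x).1, (φ (j x) x).2 + t)

namespace At

variable (A : At 𝓕 φ c s j R)

include A

/-- The points `(v, h + t)` used for the transversals. -/
theorem shift_mem {x : M} {t : ℝ} (h : |t| ≤ s (j x)) :
    ((φ (j x) x).1, (φ (j x) x).2 + t) ∈ closedBall (c (j x)) (2 * s (j x)) := by
  have h1 := A.nbh x x (by rw [dist_self]; exact A.R_pos)
  rw [mem_closedBall] at h1 ⊢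
  have h2 : dist ((φ (j x) x).1, (φ (j x) x).2 + t) (φ (j x) x) ≤ s (j x) := by
    rw [Prod.dist_eq]
    refine max_le ?_ ?_
    · simp only [dist_self]
      exact (A.s_pos _).le
    · simp only [Real.dist_eq, add_sub_cancel_left]
      exact h
  linarith [dist_triangle ((φ (j x) x).1, (φ (j x) x).2 + t) (φ (j x) x) (c (j x))]

theorem Hr_Qr {x : M} {t : ℝ} (h : |t| ≤ s (j x)) : Hr φ j x (Qr φ j x t) = t := by
  unfold Hr Qr
  rw [(φ (j x)).right_inv (A.tgt _ (A.shift_mem h))]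
  simp

theorem Qr_zero (x : M) : Qr φ j x 0 = x := by
  unfold Qr
  rw [add_zero]
  exact (φ (j x)).left_inv (A.src x x (by rw [dist_self]; exact A.R_pos))

omit A in
/-- A locally constant function on `[0, 1]`. -/
theorem const_path {g : ℝ → ℝ} (h : ∀ t ∈ Icc (0 : ℝ) 1, ∀ᶠ t' in 𝓝[Icc 0 1] t, g t' = g t) :
    g 1 = g 0 := by
  refine constant_of_has_deriv_right_zero (a := 0) (b := 1) (f := g) ?_ ?_ 1
    ⟨zero_le_one, le_rfl⟩
  · intro t ht
    exact (continuousWithinAt_const (b := g t)).congr_of_eventuallyEq (h t ht) rfl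
  · intro t ht
    have h1 : 𝓝[Ici t] t ≤ 𝓝[Icc 0 1] t := by
      have h2 : Icc t 1 ∈ 𝓝[Ici t] t := Icc_mem_nhdsGE ht.2
      rw [← nhdsWithin_inter_of_mem h2]
      exact nhdsWithin_mono _ fun u hu => ⟨ht.1.trans hu.1.1, hu.1.2⟩
    exact (hasDerivWithinAt_const t (Ici t) (g t)).congr_of_eventuallyEq
      ((h t ⟨ht.1, ht.2.le⟩).filter_mono h1) rfl

theorem stab [CompactSpace M] {f : M ≃ₜ M} {ε₀ C l ε₁ : ℝ} (hS : ContainsStable f 𝓕)
    (hD : Dec f ε₀ C l) (hε₀ : ε₁ ≤ ε₀) (hε : ε₁ < R) {x y : M} {σ : ℝ → M}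
    (hσ : ContinuousOn σ (Icc 0 1)) (h0 : σ 0 = x) (h1 : σ 1 = y)
    (hW : ∀ t ∈ Icc (0 : ℝ) 1, ∀ t' ∈ Icc (0 : ℝ) 1, σ t ∈ Wl f ε₁ (σ t')) : Er φ j x y := by
  have hd : ∀ t ∈ Icc (0 : ℝ) 1, dist (σ t) x < R := fun t ht => by
    have h2 := hW t ht 0 ⟨le_rfl, zero_le_one⟩ 0
    simp only [iterate_zero, id] at h2
    rw [h0] at h2
    linarith
  have key := const_path (g := fun t => (φ (j x) (σ t)).2) (fun t ht => by
    obtain ⟨O, hO, hOd, hOs⟩ := hS (φ (j x)) (A.mem _) (σ t) (A.src x _ (hd t ht))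
    obtain ⟨δ, hδ, hu⟩ := unif (X := M) isCompact_univ (P := fun p => p ∈ O)
      (fun z _ => hO.mem_nhds (hOd z))
    have hC := hD.one_le
    have h3 : ∀ᶠ t' in 𝓝[Icc 0 1] t, dist (σ t') (σ t) < δ / C :=
      (hσ t ht) (ball_mem_nhds _ (by positivity))
    filter_upwards [h3, self_mem_nhdsWithin] with t' h4 h5
    refine hOs (σ t') fun n => hu _ _ (mem_univ _) ?_
    have h6 : σ t' ∈ Wl f ε₀ (σ t) := fun k => (hW t' h5 t ht k).trans hε₀
    have h7 := hD.dec _ _ h6 n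
    have h8 : l ^ n ≤ 1 := pow_le_one₀ hD.l_pos.le hD.l_lt.le
    rw [dist_comm]
    calc dist (f^[n] (σ t')) (f^[n] (σ t)) ≤ C * l ^ n * dist (σ t') (σ t) := h7
      _ ≤ C * 1 * dist (σ t') (σ t) := by
        gcongr
      _ ≤ C * 1 * (δ / C) := by
        gcongr
      _ = δ := by
        field_simp)
  simp only [h0, h1] at key
  exact key.symm

theorem conn [Finite ι] [NormedSpace ℝ V₀] (hF : IsFoliation 𝓕) {η : ℝ} (hη : 0 < η) :
    ∃ D : ℕ, ∀ p q, dist p q < R → Er φ j p q → ∃ c : ℕ → M, c 0 = p ∧ c D = q ∧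
      ∀ i < D, dist (c i) (c (i + 1)) ≤ η ∧ Er φ j (c i) (c (i + 1)) := by
  obtain ⟨δ₁, hδ₁, hc⟩ := A.compat hF
  obtain ⟨δ₂, hδ₂, hu⟩ := A.unif_symm (lt_min hη hδ₁)
  have hD : ∃ D : ℕ, 0 < D ∧ ∀ i, 2 * s i / D ≤ δ₂ := by
    obtain ⟨B, hB⟩ : ∃ B : ℝ, ∀ i, s i ≤ B := by
      obtain ⟨B, hB⟩ := (Set.finite_range s).bddAbove
      exact ⟨B, fun i => hB (mem_range_self i)⟩
    obtain ⟨D, hD⟩ := exists_nat_gt (2 * B / δ₂)
    refine ⟨D + 1, Nat.succ_pos _, fun i => ?_⟩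
    have h1 : 2 * s i ≤ 2 * B := by linarith [hB i]
    rw [div_lt_iff₀ hδ₂] at hD
    rw [div_le_iff₀ (by positivity)]
    push_cast
    nlinarith
  obtain ⟨D, hD0, hDs⟩ := hD
  refine ⟨D, fun p q hpq hE => ?_⟩
  set i := j p with hi
  have hq0 : dist q p < R := by rw [dist_comm]; exact hpq
  have hpb := A.nbh p p (by rw [dist_self]; exact A.R_pos)
  have hqb := A.nbh p q hq0
  have hDr : (0 : ℝ) < D := by exact_mod_cast hD0
  have hseg : ∀ k : ℕ, k ≤ D → φ i p + ((k : ℝ) / D) • (φ i q - φ i p) ∈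
      closedBall (c i) (s i) := by
    intro k hk
    have h1 : (k : ℝ) / D ≤ 1 := by
      rw [div_le_one hDr]
      exact_mod_cast hk
    have h2 := (convex_closedBall (c i) (s i)).add_smul_sub_mem hpb hqb
      ⟨by positivity, h1⟩
    exact h2
  have hLk : ∀ k : ℕ, k ≤ D → (φ i).symm (φ i p + ((k : ℝ) / D) • (φ i q - φ i p)) ∈
      Lc φ c s i := fun k hk => symm_mem_Lc (A.ball_sub _ (hseg k hk))
  have hval : ∀ k : ℕ, k ≤ D → (φ i ((φ i).symm (φ i p + ((k : ℝ) / D) • (φ i q - φ i p)))).2 =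
      (φ i p).2 := by
    intro k hk
    rw [(φ i).right_inv (A.tgt _ (A.ball_sub _ (hseg k hk)))]
    have h3 : (φ i p).2 = (φ i q).2 := hE
    simp only [Prod.snd_add, Prod.smul_snd, Prod.snd_sub, h3, sub_self, smul_zero, add_zero]
  refine ⟨fun k => (φ i).symm (φ i p + ((k : ℝ) / D) • (φ i q - φ i p)), ?_, ?_, ?_⟩
  · simp only [Nat.cast_zero, zero_div, zero_smul, add_zero]
    exact (φ i).left_inv (A.src p p (by rw [dist_self]; exact A.R_pos))
  · simp only [div_self hDr.ne', one_smul, add_sub_cancel]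
    exact (φ i).left_inv (A.src p q hq0)
  · intro k hk
    have h4 : dist ((φ i).symm (φ i p + ((k : ℝ) / D) • (φ i q - φ i p)))
        ((φ i).symm (φ i p + (((k + 1 : ℕ) : ℝ) / D) • (φ i q - φ i p))) ≤ min η δ₁ := by
      refine hu i _ (A.ball_sub _ (hseg k hk.le)) _ (A.ball_sub _ (hseg (k + 1) hk)) ?_
      have h5 : φ i p + ((k : ℝ) / D) • (φ i q - φ i p) -
          (φ i p + (((k + 1 : ℕ) : ℝ) / D) • (φ i q - φ i p)) =
          (-(1 / (D : ℝ))) • (φ i q - φ i p) := by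
        rw [add_sub_add_left_eq_sub, ← sub_smul]
        congr 1
        push_cast
        ring
      rw [dist_eq_norm, h5, norm_smul, norm_neg, Real.norm_eq_abs, abs_of_nonneg (by positivity)]
      have h6 : ‖φ i q - φ i p‖ ≤ 2 * s i := by
        rw [← dist_eq_norm]
        have h7 := dist_triangle_right (φ i q) (φ i p) (c i)
        rw [mem_closedBall] at hpb hqb
        linarith
      calc 1 / (D : ℝ) * ‖φ i q - φ i p‖ ≤ 1 / (D : ℝ) * (2 * s i) := by gcongr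
        _ = 2 * s i / D := by ring
        _ ≤ δ₂ := hDs i
    refine ⟨h4.trans (min_le_left _ _), ?_⟩
    have h8 := hc i (j ((φ i).symm (φ i p + ((k : ℝ) / D) • (φ i q - φ i p)))) _ _
      (hLk k hk.le) (A.self_mem_Lc _) (h4.trans (min_le_right _ _))
    exact h8.1 ((hval k hk.le).trans (hval (k + 1) hk).symm)

end At

end

end LocM

open LocM in
theorem specLoc : SpecLoc.{v, w} := by
  intro M _ _ V₀ _ _ f 𝓕 ε₀ C l hF hI hS hD hP
  obtain ⟨t, φ, c, s, j, R, A⟩ := exists_at hF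
  obtain ⟨δ₁, hδ₁, hcompat⟩ := A.compat hF
  obtain ⟨δ₂, hδ₂, hinv⟩ := A.invar hI
  obtain ⟨s₀, hs₀, hs⟩ := fin_min (ι := t) (P := fun i δ => δ ≤ s i)
    (fun i a b _ hab h => hab.trans h) (fun i => ⟨s i, A.s_pos i, le_rfl⟩)
  obtain ⟨ρ₁, hρ₁, hpath⟩ := hP (min (R / 2) ε₀) (lt_min (by linarith [A.R_pos]) hD.ε_pos)
  have hR := A.R_pos
  set r₀ : ℝ := min (min (R / 2) (δ₁ / 2)) (min δ₂ ρ₁) with hr₀
  have hr₀R : r₀ ≤ R / 2 := (min_le_left _ _).trans (min_le_left _ _)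
  have hr₀1 : r₀ ≤ δ₁ / 2 := (min_le_left _ _).trans (min_le_right _ _)
  have hr₀2 : r₀ ≤ δ₂ := (min_le_right _ _).trans (min_le_left _ _)
  have hr₀3 : r₀ ≤ ρ₁ := (min_le_right _ _).trans (min_le_right _ _)
  have hr₀0 : 0 < r₀ := lt_min (lt_min (by linarith) (by linarith)) (lt_min hδ₂ hρ₁)
  refine ⟨Er φ j, Hr φ j, Qr φ j, r₀, s₀, ⟨hr₀0, hs₀, fun x => sub_self _, ?_, ?_, ?_, ?_, ?_,
    A.Qr_zero, ?_, ?_⟩, ?_⟩
  · intro x p q hp hq
    have h1 := hcompat (j p) (j x) p q (A.self_mem_Lc p) (A.mem_Lc (by linarith))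
      (by linarith [dist_triangle_right p q x])
    unfold Er Hr
    rw [h1]
    constructor
    · intro h
      rw [h]
    · intro h
      linarith
  · intro η hη
    obtain ⟨δ, hδ, h⟩ := A.unif_chart hη
    refine ⟨δ, hδ, fun x p q hp hq hpq => ?_⟩
    have h1 := h (j x) p (A.mem_Lc (by linarith)) q (A.mem_Lc (by linarith)) hpq
    unfold Hr
    rwa [sub_sub_sub_cancel_right]
  · intro p q hpq _
    exact hinv (j p) (j (f p)) p q (A.self_mem_Lc p) (A.self_mem_Lc _) (by linarith)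
  · intro x y hy
    obtain ⟨σ, hσ, h0, h1, hW⟩ := hpath x y (fun k => (hy k).trans hr₀3)
    exact A.stab hS hD (min_le_right _ _) (lt_of_le_of_lt (min_le_left _ _) (by linarith)) hσ h0
      h1 hW
  · intro η hη
    obtain ⟨D, hD⟩ := A.conn hF hη
    exact ⟨D, fun p q hpq hE => hD p q (by linarith) hE⟩
  · intro x u hu
    exact A.Hr_Qr ((abs_le.2 ⟨hu.1, hu.2⟩).trans (hs _))
  · intro η hη
    obtain ⟨δ, hδ, h⟩ := A.unif_symm hη
    refine ⟨δ, hδ, fun x u hu u' hu' huu => ?_⟩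
    refine h (j x) _ (A.shift_mem ((abs_le.2 ⟨hu.1, hu.2⟩).trans (hs _))) _
      (A.shift_mem ((abs_le.2 ⟨hu'.1, hu'.2⟩).trans (hs _))) ?_
    rw [Prod.dist_eq]
    refine max_le ?_ ?_
    · simp only [dist_self]
      exact hδ.le
    · simp only [Real.dist_eq, add_sub_add_left_eq_sub]
      exact huu
  · intro x
    refine ⟨φ (j x), A.mem _, A.src x x (by rw [dist_self]; exact hR), ?_⟩
    have h1 : ∀ᶠ p : M × M in 𝓝 (x, x), dist p (x, x) < min R (δ₁ / 2) :=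
      ball_mem_nhds _ (lt_min hR (by linarith))
    filter_upwards [h1] with p hp
    have h2 : dist p.1 x < min R (δ₁ / 2) := lt_of_le_of_lt (le_max_left _ _) hp
    have h3 : dist p.2 x < min R (δ₁ / 2) := lt_of_le_of_lt (le_max_right _ _) hp
    refine hcompat (j p.1) (j x) p.1 p.2 (A.self_mem_Lc _)
      (A.mem_Lc (h2.trans_le (min_le_left _ _))) ?_
    linarith [dist_triangle_right p.1 p.2 x, h2.trans_le (min_le_right _ _),
      h3.trans_le (min_le_right _ _)]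

end Pool.Agent.Lib.MP610fe3.T4
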