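import Pool.Agent.Lib.MP_610fe3_an.Defs
import Pool.Agent.Lib.MP_610fe3_an.Gen.Public

/-!
# The codimension one foliation theorem: definitions used in the statement
-/

open Set Filter Function Bundle
open scoped Manifold ContDiff Topology

namespace Pool.Agent.Lib.MP610fe3.T4

section Topological

variable {M V₀ : Type*} [TopologicalSpace M] [NormedAddCommGroup V₀]

/-- A topological foliation of codimension one, given by a set `𝓕` of charts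
`φ : M → V₀ × ℝ` (open partial homeomorphisms): the second coordinate `(φ x).2` is constant along
the leaves. Two charts define the same plaques near every common point. -/
structure IsFoliation (𝓕 : Set (OpenPartialHomeomorph M (V₀ × ℝ))) : Prop where
  cover : ∀ x, ∃ φ ∈ 𝓕, x ∈ φ.source
  compat : ∀ φ ∈ 𝓕, ∀ ψ ∈ 𝓕, ∀ x, x ∈ φ.source → x ∈ ψ.source →
    ∀ᶠ p : M × M in 𝓝 (x, x), ((φ p.1).2 = (φ p.2).2 ↔ (ψ p.1).2 = (ψ p.2).2)

/-- The foliation is invariant under `f`. -/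
def IsInvariant (f : M → M) (𝓕 : Set (OpenPartialHomeomorph M (V₀ × ℝ))) : Prop :=
  ∀ φ ∈ 𝓕, ∀ ψ ∈ 𝓕, ∀ x, x ∈ φ.source → f x ∈ ψ.source →
    ∀ᶠ p : M × M in 𝓝 (x, x), ((φ p.1).2 = (φ p.2).2 ↔ (ψ (f p.1)).2 = (ψ (f p.2)).2)

/-- The leaves of the foliation contain the local stable sets of `f`: for `x` in the domain of a
chart there is a neighbourhood `O` of the diagonal such that all points whose forward orbits stay
`O`-close to that of `x` have the height of `x`. -/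
def ContainsStable (f : M → M) (𝓕 : Set (OpenPartialHomeomorph M (V₀ × ℝ))) : Prop :=
  ∀ φ ∈ 𝓕, ∀ x ∈ φ.source, ∃ O : Set (M × M), IsOpen O ∧ (∀ z, (z, z) ∈ O) ∧
    ∀ y, (∀ n : ℕ, (f^[n] x, f^[n] y) ∈ O) → (φ y).2 = (φ x).2

end Topological

section Smooth

variable {V V₀ : Type*} [NormedAddCommGroup V] [NormedSpace ℝ V] [NormedAddCommGroup V₀]
  {M : Type*} [TopologicalSpace M] [ChartedSpace V M]

/-- The leaves of the foliation are tangent to the bundle `F`: the difference of two points of one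
plaque which are close to `x` is as close as one wants, relative to its length, to the subspace
`F x` (in the preferred chart at `x`, in which `TangentSpace 𝓘(ℝ, V) x = V`). -/
def IsTangent (F : ∀ x : M, Submodule ℝ (TangentSpace 𝓘(ℝ, V) x))
    (𝓕 : Set (OpenPartialHomeomorph M (V₀ × ℝ))) : Prop :=
  ∀ φ ∈ 𝓕, ∀ x ∈ φ.source, ∀ η : ℝ, 0 < η → ∀ᶠ p : M × M in 𝓝 (x, x),
    (φ p.1).2 = (φ p.2).2 → ∃ v : V, v ∈ F x ∧
      ‖extChartAt 𝓘(ℝ, V) x p.1 - extChartAt 𝓘(ℝ, V) x p.2 - v‖ ≤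
        η * ‖extChartAt 𝓘(ℝ, V) x p.1 - extChartAt 𝓘(ℝ, V) x p.2‖

end Smooth

/-- `W` is a hyperplane of `U`. -/
def IsHyperplane {V : Type*} [AddCommGroup V] [Module ℝ V] (W U : Submodule ℝ V) : Prop :=
  ∃ e : V, e ∈ U ∧ e ∉ W ∧ U = W ⊔ Submodule.span ℝ {e}

section Main

variable {V V₀ : Type*} [NormedAddCommGroup V] [NormedSpace ℝ V] [NormedAddCommGroup V₀]
  {M : Type*} [TopologicalSpace M] [ChartedSpace V M]
  [RiemannianBundle (fun x : M => TangentSpace 𝓘(ℝ, V) x)]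

/-- The rates of an Anosov diffeomorphism: those of the stable bundle lie in `[l₁, l₂]`, those of
the unstable bundle are at least `m`, those of the bundle `Ew` are at most `b`. -/
structure Rates (f : M ≃ₘ^1⟮𝓘(ℝ, V), 𝓘(ℝ, V)⟯ M)
    (Es Eu Ew : ∀ x : M, Submodule ℝ (TangentSpace 𝓘(ℝ, V) x)) (C l₁ l₂ m b : ℝ) : Prop where
  s_fwd : ∀ (k : ℕ) (x : M), ∀ v ∈ Es x,
    ‖mfderiv 𝓘(ℝ, V) 𝓘(ℝ, V) ((⇑f)^[k]) x v‖ ≤ C * l₂ ^ k * ‖v‖
  s_bwd : ∀ (k : ℕ) (x : M), ∀ v ∈ Es x,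
    ‖mfderiv 𝓘(ℝ, V) 𝓘(ℝ, V) ((⇑f.symm)^[k]) x v‖ ≤ C * l₁⁻¹ ^ k * ‖v‖
  u_bwd : ∀ (k : ℕ) (x : M), ∀ v ∈ Eu x,
    ‖mfderiv 𝓘(ℝ, V) 𝓘(ℝ, V) ((⇑f.symm)^[k]) x v‖ ≤ C * m⁻¹ ^ k * ‖v‖
  w_fwd : ∀ (k : ℕ) (x : M), ∀ v ∈ Ew x,
    ‖mfderiv 𝓘(ℝ, V) 𝓘(ℝ, V) ((⇑f)^[k]) x v‖ ≤ C * b ^ k * ‖v‖

end Main

universe u v w

/-- The main theorem. -/
def SpecMain : Prop :=
  ∀ {V : Type u} [NormedAddCommGroup V] [NormedSpace ℝ V] [FiniteDimensional ℝ V]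
    {V₀ : Type w} [NormedAddCommGroup V₀] [NormedSpace ℝ V₀]
    {M : Type v} [TopologicalSpace M] [CompactSpace M] [T2Space M] [ConnectedSpace M]
    [ChartedSpace V M] [IsManifold 𝓘(ℝ, V) ∞ M]
    [RiemannianBundle (fun x : M => TangentSpace 𝓘(ℝ, V) x)]
    [IsContinuousRiemannianBundle V (fun x : M => TangentSpace 𝓘(ℝ, V) x)]
    (f : M ≃ₘ^1⟮𝓘(ℝ, V), 𝓘(ℝ, V)⟯ M)
    (Es Eu Ew : ∀ x : M, Submodule ℝ (TangentSpace 𝓘(ℝ, V) x)),
    Gen.IsAnosovSplitting f Es Eu → (∀ x, IsHyperplane (Ew x) (Eu x)) →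
    ∀ 𝓕 : Set (OpenPartialHomeomorph M (V₀ × ℝ)), IsFoliation 𝓕 → IsInvariant f 𝓕 →
    ContainsStable f 𝓕 → IsTangent (fun x => Es x ⊔ Ew x) 𝓕 →
    ∀ C l₁ l₂ m b : ℝ, 0 < l₁ → l₁ ≤ l₂ → l₂ < 1 → 1 < m → m ≤ b →
    Rates f Es Eu Ew C l₁ l₂ m b →
    (Real.log l₁ / Real.log l₂ - 1) * (Real.log b / Real.log m - 1) < 1 → TopTransitive f

end Pool.Agent.Lib.MP610fe3.T4
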