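import Pool.Agent.Lib.MP_610fe3_an.T4.Spec
import Pool.Agent.Lib.MP_610fe3_an.T4.Statement
import Pool.Agent.Lib.MP_610fe3_an.H6.Sharp

/-!
# Modules of the smooth part of the codimension one foliation theorem
-/

open Set Filter Function Bundle
open scoped Topology ENNReal Manifold ContDiff

namespace Pool.Agent.Lib.MP610fe3.T4

open Cf H6

universe u v w

/-- Local data of a foliation, without the transversals in the unstable sets. `Q x t` is a point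
close to `x` whose height is `t`. -/
structure Loc {M : Type*} [MetricSpace M] (f : M ≃ₜ M) (E : M → M → Prop) (H : M → M → ℝ)
    (Q : M → ℝ → M) (r₀ ρ₀ : ℝ) : Prop where
  r₀_pos : 0 < r₀
  ρ₀_pos : 0 < ρ₀
  H_self : ∀ x, H x x = 0
  E_iff : ∀ x p q, dist p x ≤ r₀ → dist q x ≤ r₀ → (E p q ↔ H x p = H x q)
  equi : ∀ η : ℝ, 0 < η → ∃ δ : ℝ, 0 < δ ∧ ∀ x p q, dist p x ≤ r₀ → dist q x ≤ r₀ →
    dist p q ≤ δ → |H x p - H x q| ≤ η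
  inv : ∀ p q, dist p q ≤ r₀ → dist (f p) (f q) ≤ r₀ → (E p q ↔ E (f p) (f q))
  stab : ∀ x, ∀ y ∈ Wl f r₀ x, E x y
  conn : ∀ η : ℝ, 0 < η → ∃ D : ℕ, ∀ p q, dist p q ≤ r₀ → E p q → ∃ c : ℕ → M, c 0 = p ∧
    c D = q ∧ ∀ i < D, dist (c i) (c (i + 1)) ≤ η ∧ E (c i) (c (i + 1))
  Q_zero : ∀ x, Q x 0 = x
  Q_H : ∀ x, ∀ t ∈ Icc (-ρ₀) ρ₀, H x (Q x t) = t
  Q_equi : ∀ η : ℝ, 0 < η → ∃ δ : ℝ, 0 < δ ∧ ∀ x, ∀ t ∈ Icc (-ρ₀) ρ₀, ∀ t' ∈ Icc (-ρ₀) ρ₀,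
    |t - t'| ≤ δ → dist (Q x t) (Q x t') ≤ η

/-- Points of small local stable sets are joined by paths in them. -/
def StPath {M : Type*} [MetricSpace M] (f : M ≃ₜ M) : Prop :=
  ∀ ε₁ : ℝ, 0 < ε₁ → ∃ ρ : ℝ, 0 < ρ ∧ ∀ x, ∀ y ∈ Wl f ρ x, ∃ σ : ℝ → M,
    ContinuousOn σ (Icc 0 1) ∧ σ 0 = x ∧ σ 1 = y ∧
    ∀ t ∈ Icc (0 : ℝ) 1, ∀ t' ∈ Icc (0 : ℝ) 1, σ t ∈ Wl f ε₁ (σ t')

/-- Module LOC: from the foliation charts to uniform local data. -/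
def SpecLoc : Prop :=
  ∀ {M : Type v} [MetricSpace M] [CompactSpace M] {V₀ : Type w} [NormedAddCommGroup V₀]
    [NormedSpace ℝ V₀] (f : M ≃ₜ M) (𝓕 : Set (OpenPartialHomeomorph M (V₀ × ℝ)))
    (ε₀ C l : ℝ), IsFoliation 𝓕 → IsInvariant f 𝓕 → ContainsStable f 𝓕 → Dec f ε₀ C l →
    StPath f → ∃ (E : M → M → Prop) (H : M → M → ℝ) (Q : M → ℝ → M) (r₀ ρ₀ : ℝ),
      Loc f E H Q r₀ ρ₀ ∧ ∀ x, ∃ φ ∈ 𝓕, x ∈ φ.source ∧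
        ∀ᶠ p : M × M in 𝓝 (x, x), (E p.1 p.2 ↔ (φ p.1).2 = (φ p.2).2)

/-- Module KAPPA: transversals in the unstable sets, by brackets. -/
def SpecKappa : Prop :=
  ∀ {M : Type v} [MetricSpace M] [CompactSpace M] (f : M ≃ₜ M) (E : M → M → Prop)
    (H : M → M → ℝ) (Q : M → ℝ → M) (C ν r r₁ r₀ ρ₀ : ℝ), Hyp f C ν r r₁ →
    Loc f E H Q r₀ ρ₀ → r ≤ r₀ → ∀ ε, 0 < ε → 16 * ε ≤ r₁ →
    ∃ (ρ : ℝ) (κ : M → ℝ → M), Box f E H κ r r₁ ε ρ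

/-- Tangency of the plaques, in the ambient space. -/
def Tangent {M : Type*} {W : Type*} [MetricSpace M] [NormedAddCommGroup W] [NormedSpace ℝ W]
    {J : Emb M W} {f : M ≃ₜ M} (s : Split J f) (E : M → M → Prop)
    (F : M → Submodule ℝ W) : Prop :=
  ∀ x, ∀ η : ℝ, 0 < η → ∀ᶠ p : M × M in 𝓝 (x, x), E p.1 p.2 → ∃ v w : W, s.S x v = v ∧
    w ∈ F x ∧ ‖J.e p.1 - J.e p.2 - (v + w)‖ ≤ η * dist p.1 p.2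

/-- Module LPATH: points of one plaque in a small unstable set are joined by Lipschitz paths
inside this plaque and this unstable set. -/
def SpecLpath : Prop :=
  ∀ {M : Type v} [MetricSpace M] [CompactSpace M] {W : Type u} [NormedAddCommGroup W]
    [NormedSpace ℝ W] [FiniteDimensional ℝ W] {J : Emb M W} {f : M ≃ₜ M} (s : Split J f)
    (E : M → M → Prop) (H : M → M → ℝ) (Q : M → ℝ → M) (r₀ ρ₀ : ℝ)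
    (F : M → Submodule ℝ W), s.Hyperbolic → Loc f E H Q r₀ ρ₀ → Tangent s E F →
    (∀ x, ∀ w ∈ F x, s.U x w = w) →
    (∀ x, ∃ e : W, s.U x e = e ∧ e ∉ F x ∧ ∀ u, s.U x u = u → ∃ c : ℝ, u - c • e ∈ F x) →
    ∀ ε₁ : ℝ, 0 < ε₁ → ∃ ρ Λ : ℝ, 0 < ρ ∧ 0 ≤ Λ ∧ ∀ x, ∀ y ∈ Wl f.symm ρ x, E x y →
      ∃ γ : ℝ → M, γ 0 = x ∧ γ 1 = y ∧ ∀ t ∈ Icc (0 : ℝ) 1, ∀ t' ∈ Icc (0 : ℝ) 1,
        γ t ∈ Wl f.symm ε₁ (γ t') ∧ E (γ t) (γ t') ∧ dist (γ t) (γ t') ≤ Λ * |t - t'|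

/-- Module LGROW: growth of Lipschitz paths in the leaves. -/
def SpecLgrow : Prop :=
  ∀ {M : Type v} [MetricSpace M] [CompactSpace M] {W : Type u} [NormedAddCommGroup W]
    [NormedSpace ℝ W] [FiniteDimensional ℝ W] {J : Emb M W} {f : M ≃ₜ M} (s : Split J f)
    (E : M → M → Prop) (F : M → Submodule ℝ W) (C₀ b : ℝ), s.Hyperbolic → Tangent s E F →
    (∀ x, ∀ w ∈ F x, s.U x w = w) → 0 ≤ C₀ → 0 ≤ b →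
    (∀ (k : ℕ) (x : M), ∀ w ∈ F x, ‖iterD s.D f k x w‖ ≤ C₀ * b ^ k * ‖w‖) →
    ∃ ε₂ C₁ : ℝ, 0 < ε₂ ∧ 0 ≤ C₁ ∧ ∀ (γ : ℝ → M) (Λ : ℝ), 0 ≤ Λ →
      (∀ t ∈ Icc (0 : ℝ) 1, ∀ t' ∈ Icc (0 : ℝ) 1,
        γ t ∈ Wl f.symm ε₂ (γ t') ∧ E (γ t) (γ t') ∧ dist (γ t) (γ t') ≤ Λ * |t - t'|) →
      ∀ n : ℕ, ∀ t ∈ Icc (0 : ℝ) 1, ∀ t' ∈ Icc (0 : ℝ) 1,
        dist (f^[n] (γ t)) (f^[n] (γ t')) ≤ C₁ * Λ * b ^ n * |t - t'|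

/-- Module POW: powers of an Anosov diffeomorphism. -/
def SpecPow : Prop :=
  ∀ {V : Type u} [NormedAddCommGroup V] [NormedSpace ℝ V] [FiniteDimensional ℝ V]
    {V₀ : Type w} [NormedAddCommGroup V₀] [NormedSpace ℝ V₀]
    {M : Type v} [TopologicalSpace M] [CompactSpace M] [T2Space M]
    [ChartedSpace V M] [IsManifold 𝓘(ℝ, V) ∞ M]
    [RiemannianBundle (fun x : M => TangentSpace 𝓘(ℝ, V) x)]
    (f : M ≃ₘ^1⟮𝓘(ℝ, V), 𝓘(ℝ, V)⟯ M)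
    (Es Eu Ew : ∀ x : M, Submodule ℝ (TangentSpace 𝓘(ℝ, V) x))
    (𝓕 : Set (OpenPartialHomeomorph M (V₀ × ℝ))) (C l₁ l₂ m b : ℝ) (n : ℕ), 0 < n →
    Gen.IsAnosovSplitting f Es Eu → IsFoliation 𝓕 → IsInvariant f 𝓕 → ContainsStable f 𝓕 →
    Rates f Es Eu Ew C l₁ l₂ m b →
    ∃ g : M ≃ₘ^1⟮𝓘(ℝ, V), 𝓘(ℝ, V)⟯ M, (⇑g = (⇑f)^[n]) ∧ (⇑g.symm = (⇑f.symm)^[n]) ∧
      Gen.IsAnosovSplitting g Es Eu ∧ IsInvariant g 𝓕 ∧ ContainsStable g 𝓕 ∧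
      Rates g Es Eu Ew C (l₁ ^ n) (l₂ ^ n) (m ^ n) (b ^ n)

/-- Module MTAN: tangency in the preferred charts gives tangency in the ambient space. -/
def SpecMtan : Prop :=
  ∀ {V : Type u} [NormedAddCommGroup V] [NormedSpace ℝ V] [FiniteDimensional ℝ V]
    {V₀ : Type w} [NormedAddCommGroup V₀] [NormedSpace ℝ V₀] {N : ℕ}
    {M : Type v} [MetricSpace M] [CompactSpace M] [ChartedSpace V M] [IsManifold 𝓘(ℝ, V) ∞ M]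
    [RiemannianBundle (fun x : M => TangentSpace 𝓘(ℝ, V) x)]
    [IsContinuousRiemannianBundle V (fun x : M => TangentSpace 𝓘(ℝ, V) x)]
    (J : Emb M (EuclideanSpace ℝ (Fin N))), ContMDiff 𝓘(ℝ, V) (𝓡 N) ∞ J.e →
    (∀ x, Injective (mfderiv 𝓘(ℝ, V) (𝓡 N) J.e x)) →
    ∀ (f : M ≃ₘ^1⟮𝓘(ℝ, V), 𝓘(ℝ, V)⟯ M)
    (Es Ew : ∀ x : M, Submodule ℝ (TangentSpace 𝓘(ℝ, V) x)) (s : Split J f.toHomeomorph),
    (∀ x, (s.S x).range = (Es x).map (mfderiv 𝓘(ℝ, V) (𝓡 N) J.e x).toLinearMap) →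
    ∀ (𝓕 : Set (OpenPartialHomeomorph M (V₀ × ℝ))) (E : M → M → Prop),
    IsTangent (fun x => Es x ⊔ Ew x) 𝓕 →
    (∀ x, ∃ φ ∈ 𝓕, x ∈ φ.source ∧
      ∀ᶠ p : M × M in 𝓝 (x, x), (E p.1 p.2 ↔ (φ p.1).2 = (φ p.2).2)) →
    Tangent s E (fun x => (Ew x).map (mfderiv 𝓘(ℝ, V) (𝓡 N) J.e x).toLinearMap)

end Pool.Agent.Lib.MP610fe3.T4
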