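import Pool.Agent.Lib.MP_610fe3_an.T4.Spec
import Pool.Agent.Lib.MP_610fe3_an.T4.Spec2
import Pool.Agent.Lib.MP_610fe3_an.TM.Edge
import Pool.Agent.Lib.MP_610fe3_an.H6.Main

/-!
# The codimension one foliation theorem: the attractor, rates of arcs
-/

open Set Filter Function
open scoped Topology ENNReal

namespace Pool.Agent.Lib.MP610fe3.T4

open Cf H6

namespace MainA

section Edge

variable {M : Type*} [MetricSpace M] [CompactSpace M]

/-- The attractor of an edge, for the power `g` of `f`. -/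
theorem exists_attr {f g : M ≃ₜ M} {c : ℝ} (H : TM.Hyp f c) {m : ℕ} (hm : 0 < m)
    (hg : ⇑g = (⇑f)^[m]) (hg' : ⇑g.symm = (⇑f.symm)^[m]) {A R : Set M} (hE : TM.Edge f m A R) :
    ∃ r₀ : ℝ, 0 < r₀ ∧ ∀ r, r ≤ r₀ → Attr g A r ∧ basin g A r ≠ univ := by
  obtain ⟨η, hη, hu⟩ := TM.unif_cont f m H.c0
  have hinvA : ∀ x, g x ∈ A ↔ x ∈ A := by
    intro x
    have h0 : g x = TM.ev f m x := by rw [hg, TM.ev_nat]
    constructor
    · intro h
      have := hE.hA.inv _ h (-1)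
      rw [h0, show (-1 : ℤ) * (m : ℤ) = -m by ring, TM.ev_neg_ev] at this
      exact this
    · intro h
      have := hE.hA.inv _ h 1
      rwa [one_mul, ← h0] at this
  have hinvR : ∀ x ∈ R, g x ∈ R := by
    intro x h
    have h0 : g x = TM.ev f m x := by rw [hg, TM.ev_nat]
    have := hE.hR.inv _ h 1
    rwa [one_mul, ← h0] at this
  -- local sets of `g` and of `f`
  have hloc : ∀ x y, y ∈ Wl g (η / 2) x → y ∈ TM.Sp f c x := by
    intro x y hy k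
    have h1 := hy (k / m)
    rw [hg, ← iterate_mul] at h1
    have h2 := hu _ _ (h1.trans_lt (by linarith)) (k % m : ℕ) (by omega)
      (by exact_mod_cast (Nat.mod_lt _ hm).le)
    rw [← TM.ev_nat, ← TM.ev_nat, ← TM.ev_add, ← TM.ev_add] at h2
    have h3 : ((k % m : ℕ) : ℤ) + ((m * (k / m) : ℕ) : ℤ) = k := by
      rw [← Nat.cast_add, Nat.mod_add_div]
    rw [h3] at h2
    exact h2.le
  have hloc' : ∀ x y, y ∈ Wl g.symm (η / 2) x → y ∈ TM.Sp f.symm c x := by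
    intro x y hy
    rw [TM.mem_Sp_symm]
    intro k
    have h1 := hy (k / m)
    rw [hg', ← iterate_mul] at h1
    have h2 := hu _ _ (h1.trans_lt (by linarith)) (-(k % m : ℕ))
      (by have := (Nat.mod_lt k hm).le; omega) (by omega)
    rw [← TM.ev_neg_nat, ← TM.ev_neg_nat, ← TM.ev_add, ← TM.ev_add] at h2
    have h3 : -((k % m : ℕ) : ℤ) + -((m * (k / m) : ℕ) : ℤ) = -k := by
      rw [← neg_add, ← Nat.cast_add, Nat.mod_add_div]
    rw [h3] at h2
    exact h2.le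
  refine ⟨η / 2, by positivity, fun r hr => ⟨⟨hE.hA.ne, hE.hA.closed, hinvA, ?_, ?_⟩, ?_⟩⟩
  · intro a ha y hy
    exact hE.satA a ha y (TM.Sp_fwd H.exp.symm le_rfl (hloc' a y (Wl_mono hr hy)))
  · intro δ hδ
    obtain ⟨N₀, hN₀⟩ := hE.hA.mix δ hδ
    refine ⟨N₀, fun N hN a ha a' ha' => ?_⟩
    obtain ⟨z, hz1, hz2⟩ := hN₀ N hN a ha a' ha'
    refine ⟨z, fun k => ?_, fun k => ?_⟩
    · rw [TM.mem_Sp_symm] at hz1
      have := hz1 (m * k)
      rw [TM.ev_neg_nat, TM.ev_neg_nat, iterate_mul, ← hg'] at this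
      exact this
    · have := hz2 (m * k)
      rw [TM.ev_nat, TM.ev_nat, TM.ev_nat, iterate_mul, iterate_mul, ← hg] at this
      exact this
  · intro hB
    obtain ⟨x, hx⟩ := hE.hR.ne
    have hxB : x ∈ basin g A r := by rw [hB]; exact mem_univ x
    obtain ⟨n, a, ha, hxa⟩ := hxB
    have hxn : ∀ n : ℕ, g^[n] x ∈ R := by
      intro n
      induction n with
      | zero => exact hx
      | succ n ih => rw [iterate_succ_apply']; exact hinvR _ ih
    have h1 := TM.Sp_fwd H.exp le_rfl (hloc a _ (Wl_mono hr hxa))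
    have h2 := hE.satR _ (hxn n) a (TM.FwdAsymp_symm h1)
    exact Set.disjoint_left.1 hE.disj ha h2

end Edge

section Arcs

variable {M : Type*} [MetricSpace M] {f : M ≃ₜ M}

/-- Lower bound for the growth of unstable arcs. -/
theorem low_of_dec {ε ε₀ C θ : ℝ} (hD : Dec f.symm ε₀ C θ) (hε : 0 < ε) (hε₀ : 3 * C * ε < ε₀) :
    Low f (3 * ε) (-Real.log θ) C := by
  intro γ hγ hd n K hS
  have h1 := hγ.dist_le hD hε hε₀ hS 0 (t := 0) (t' := 1) ⟨le_rfl, zero_le_one⟩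
    ⟨zero_le_one, le_rfl⟩
  simp only [iterate_zero, id_eq, add_zero] at h1
  have hθ := hD.l_pos
  have h2 : (1 : ℝ) ≤ K * (C * θ ^ n) := by
    have h3 : 3 * ε * 1 ≤ 3 * ε * (K * (C * θ ^ n)) := by
      calc 3 * ε * 1 ≤ K * (3 * ε * C * θ ^ n) := by linarith
        _ = _ := by ring
    exact le_of_mul_le_mul_left h3 (by positivity)
  have h4 : Real.exp (-Real.log θ * n) = (θ ^ n)⁻¹ := by
    rw [neg_mul, Real.exp_neg, mul_comm, Real.exp_nat_mul, Real.exp_log hθ]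
  rw [h4, inv_le_iff_one_le_mul₀ (by positivity)]
  linarith

/-- Upper bound for the number of steps of Lipschitz arcs. -/
theorem upp_of_lip {ε κ Λ : ℝ} (hε : 0 < ε) (hκ : 1 ≤ κ) (hΛ : 0 ≤ Λ) {γ : ℝ → M}
    (h : ∀ n : ℕ, ∀ t ∈ Icc (0 : ℝ) 1, ∀ t' ∈ Icc (0 : ℝ) 1,
      dist (f^[n] (γ t)) (f^[n] (γ t')) ≤ Λ * κ ^ n * |t - t'|) :
    Upp f ε (Real.log κ) (Λ / ε + 2) γ := by
  intro n
  have hκn : 1 ≤ κ ^ n := one_le_pow₀ hκ
  have hκ0 : 0 < κ := by linarith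
  set K : ℕ := ⌈Λ * κ ^ n / ε⌉₊ + 1 with hK
  have hKpos : (0 : ℝ) < K := by positivity
  have hK1 : Λ * κ ^ n / ε ≤ K := by
    rw [hK]
    push_cast
    have := Nat.le_ceil (Λ * κ ^ n / ε)
    linarith
  have hK2 : (K : ℝ) ≤ (Λ / ε + 2) * Real.exp (Real.log κ * n) := by
    have h1 : Real.exp (Real.log κ * n) = κ ^ n := by
      rw [mul_comm, Real.exp_nat_mul, Real.exp_log hκ0]
    rw [h1, hK]
    push_cast
    have h2 : (⌈Λ * κ ^ n / ε⌉₊ : ℝ) < Λ * κ ^ n / ε + 1 :=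
      Nat.ceil_lt_add_one (by positivity)
    have h3 : Λ * κ ^ n / ε = Λ / ε * κ ^ n := by ring
    rw [h3] at h2
    rw [h3]
    nlinarith
  refine ⟨K, hK2, fun i => min (i / K) 1, fun i j hij => ?_, by simp, ?_, fun i hi t ht t' ht' => ?_⟩
  · have : (i : ℝ) ≤ j := by exact_mod_cast hij
    exact min_le_min (div_le_div_of_nonneg_right this hKpos.le) le_rfl
  · show min ((K : ℝ) / K) 1 = 1
    rw [div_self hKpos.ne', min_self]
  · have hi1 : ((i + 1 : ℕ) : ℝ) / K ≤ 1 := by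
      rw [div_le_one hKpos]
      exact_mod_cast hi
    have hi0 : (i : ℝ) / K ≤ 1 := by
      rw [div_le_one hKpos]
      exact_mod_cast hi.le
    simp only [min_eq_left hi1, min_eq_left hi0] at ht ht'
    have hi' : 0 ≤ (i : ℝ) / K := by positivity
    have h1 := h n t ⟨hi'.trans ht.1, ht.2.trans hi1⟩ t' ⟨hi'.trans ht'.1, ht'.2.trans hi1⟩
    have h2 : |t - t'| ≤ 1 / K := by
      have h3 : ((i + 1 : ℕ) : ℝ) / K - i / K = 1 / K := by
        push_cast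
        ring
      rw [abs_le]
      constructor
      · linarith [ht.1, ht'.2]
      · linarith [ht.2, ht'.1]
    refine h1.trans ?_
    calc Λ * κ ^ n * |t - t'| ≤ Λ * κ ^ n * (1 / K) := by gcongr
      _ = Λ * κ ^ n / ε / K * ε := by field_simp
      _ ≤ 1 * ε := by
          gcongr
          rw [div_le_one hKpos]
          exact hK1
      _ = ε := one_mul ε

theorem Upp_mono {ε α Λ ε' α' Λ' : ℝ} {γ : ℝ → M} (h : Upp f ε α Λ γ) (hε : ε ≤ ε')
    (hα : α ≤ α') (hΛ : Λ ≤ Λ') (hΛ' : 0 ≤ Λ') : Upp f ε' α' Λ' γ := by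
  intro n
  obtain ⟨K, hK, hS⟩ := h n
  refine ⟨K, hK.trans ?_, hS.mono_eps hε⟩
  have h1 : Real.exp (α * n) ≤ Real.exp (α' * n) := Real.exp_le_exp.2 (by gcongr)
  gcongr

/-- Paths in local unstable sets are unstable arcs. -/
theorem uarc_of_mem {ε C θ : ℝ} (hD : Dec f.symm ε C θ) {γ : ℝ → M}
    (hc : ContinuousOn γ (Icc 0 1))
    (h : ∀ t ∈ Icc (0 : ℝ) 1, ∀ t' ∈ Icc (0 : ℝ) 1, γ t ∈ Wl f.symm ε (γ t')) :
    UArc f γ 0 1 := by
  refine ⟨hc, fun η hη => ?_⟩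
  have hC := hD.one_le
  obtain ⟨m, hm⟩ := exists_pow_le (C := C) (ε := ε) hD.l_pos hD.l_lt hη
  refine ⟨m, fun n hn t ht t' ht' => ?_⟩
  refine (hD.dec _ _ (h t ht t' ht') n).trans (le_trans ?_ hm)
  have h3 : θ ^ n ≤ θ ^ m := pow_le_pow_of_le_one hD.l_pos.le hD.l_lt.le hn
  have h4 : 0 ≤ θ ^ m := pow_nonneg hD.l_pos.le _
  have h5 := Wl_dist (h t ht t' ht')
  have h6 : 0 ≤ θ ^ n := pow_nonneg hD.l_pos.le _
  gcongr

theorem contOn_of_lip {Λ : ℝ} (hΛ : 0 ≤ Λ) {γ : ℝ → M}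
    (h : ∀ t ∈ Icc (0 : ℝ) 1, ∀ t' ∈ Icc (0 : ℝ) 1, dist (γ t) (γ t') ≤ Λ * |t - t'|) :
    ContinuousOn γ (Icc 0 1) := by
  refine (LipschitzOnWith.of_dist_le_mul (K := ⟨Λ, hΛ⟩) fun t ht t' ht' => ?_).continuousOn
  rw [Real.dist_eq]
  exact h t ht t' ht'

end Arcs

end MainA

end Pool.Agent.Lib.MP610fe3.T4
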