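import Pool.Agent.Lib.MP_610fe3_an.T4.MainA

/-!
# The codimension one foliation theorem: choice of the scales
-/

open Set Filter Function
open scoped Topology ENNReal

namespace Pool.Agent.Lib.MP610fe3.T4

open Cf H6

universe u v

namespace MainB

open MainA

theorem stPath_of_split {M W : Type*} [MetricSpace M] [CompactSpace M] [NormedAddCommGroup W]
    [NormedSpace ℝ W] [FiniteDimensional ℝ W] {J : Emb M W} {f : M ≃ₜ M} (s : Split J f)
    (hs : s.Hyperbolic) {C₀ κ : ℝ} (hC₀ : 0 ≤ C₀) (hκ : 0 ≤ κ)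
    (H : ∀ (k : ℕ) (x : M) (w : W), ‖iterD s.Di f.symm k x (s.S x w)‖ ≤ C₀ * κ ^ k * ‖w‖) :
    StPath f := by
  intro ε₁ hε₁
  obtain ⟨ρ, Λ, hρ, -, hS⟩ := exists_slow s hs hC₀ hκ H hε₁
  refine ⟨ρ, hρ, fun x y hy => ?_⟩
  obtain ⟨γ, h1, h2, h3, h4, -⟩ := hS x y hy
  exact ⟨γ, h1, h2, h3, h4⟩

/-- The basin is everything, in the abstract setting. -/
theorem basin_univ (specKappa : SpecKappa.{v}) (specLpath : SpecLpath.{u, v})
    (specLgrow : SpecLgrow.{u, v}) (specCore : SpecCore.{v})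
    {M : Type v} [MetricSpace M] [CompactSpace M] [ConnectedSpace M]
    {W : Type u} [NormedAddCommGroup W] [NormedSpace ℝ W] [FiniteDimensional ℝ W]
    {J : Emb M W} {f : M ≃ₜ M} (s : Split J f) (hs : s.Hyperbolic)
    (E : M → M → Prop) (H : M → M → ℝ) (Q : M → ℝ → M) (r₀ ρ₀ : ℝ) (F : M → Submodule ℝ W)
    (hloc : Loc f E H Q r₀ ρ₀) (htan : Tangent s E F) (hFU : ∀ x, ∀ w ∈ F x, s.U x w = w)
    (hhyp : ∀ x, ∃ e : W, s.U x e = e ∧ e ∉ F x ∧ ∀ u, s.U x u = u → ∃ c : ℝ, u - c • e ∈ F x)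
    {C₀ l₁ l₂ m b : ℝ} (hC₀ : 0 ≤ C₀) (hl₁ : 0 < l₁) (hl : l₁ ≤ l₂) (hl₂ : l₂ < 1)
    (hm : 1 < m) (hmb : m ≤ b)
    (h1 : ∀ (k : ℕ) (x : M) (w : W), ‖iterD s.D f k x (s.S x w)‖ ≤ C₀ * l₂ ^ k * ‖w‖)
    (h2 : ∀ (k : ℕ) (x : M) (w : W), ‖iterD s.Di f.symm k x (s.S x w)‖ ≤ C₀ * l₁⁻¹ ^ k * ‖w‖)
    (h3 : ∀ (k : ℕ) (x : M) (w : W), ‖iterD s.Di f.symm k x (s.U x w)‖ ≤ C₀ * m⁻¹ ^ k * ‖w‖)
    (h4 : ∀ (k : ℕ) (x : M), ∀ w ∈ F x, ‖iterD s.D f k x w‖ ≤ C₀ * b ^ k * ‖w‖)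
    (hpinch : (Real.log l₁ / Real.log l₂ - 1) * (Real.log b / Real.log m - 1) < 1)
    (A : Set M) (rA : ℝ) (hrA : 0 < rA) (hattr : ∀ r, r ≤ rA → Attr f A r) :
    ∃ r, r ≤ rA ∧ basin f A r = univ := by
  have hl₂0 : 0 < l₂ := hl₁.trans_le hl
  have hL2 : Real.log l₂ < 0 := Real.log_neg hl₂0 hl₂
  have hL1 : Real.log l₁ ≤ Real.log l₂ := Real.log_le_log hl₁ hl
  have hM1 : 0 < Real.log m := Real.log_pos hm
  have hM2 : Real.log m ≤ Real.log b := Real.log_le_log (by linarith) hmb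
  set p : ℝ := Real.log l₁ / Real.log l₂ with hp
  set q : ℝ := Real.log b / Real.log m with hq
  have hp1 : 1 ≤ p := by
    rw [hp, one_le_div_of_neg hL2]
    exact hL1
  have hq1 : 1 ≤ q := by
    rw [hq, one_le_div hM1]
    exact hM2
  obtain ⟨τ, hτ0, hτ1, hb, ha, hab⟩ := exists_tau hp1 hq1 hpinch
  -- `β₁`, `α₁`
  set β₁ : ℝ := -(τ * Real.log l₂) with hβ₁
  set α₁ : ℝ := τ * Real.log m with hα₁
  have hβ₁0 : 0 < β₁ := by rw [hβ₁]; nlinarith
  have hα₁0 : 0 < α₁ := by positivity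
  have hne2 : Real.log l₂ ≠ 0 := hL2.ne
  have eβ : (p / τ - 1) * β₁ = Real.log l₁⁻¹ - β₁ := by
    rw [Real.log_inv, hβ₁, hp]
    field_simp
    ring
  have eα : (q / τ - 1) * α₁ = Real.log b - α₁ := by
    rw [hα₁, hq]
    field_simp
  have hrate : (Real.log b - α₁) * (Real.log l₁⁻¹ - β₁) < α₁ * β₁ := by
    rw [← eβ, ← eα]
    calc (q / τ - 1) * α₁ * ((p / τ - 1) * β₁)
        = (q / τ - 1) * (p / τ - 1) * (α₁ * β₁) := by ring
      _ < 1 * (α₁ * β₁) := by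
          have : 0 < α₁ * β₁ := by positivity
          gcongr
      _ = α₁ * β₁ := one_mul _
  have hαle : α₁ ≤ Real.log b := by nlinarith
  have hβle : β₁ ≤ Real.log l₁⁻¹ := by
    have : 0 ≤ (p / τ - 1) * β₁ := mul_nonneg hb hβ₁0.le
    linarith
  -- decay
  have hexpA : Real.exp (-β₁) < 1 := by
    rw [Real.exp_lt_one_iff]
    linarith
  have hexpB : Real.exp (-α₁) < 1 := by
    rw [Real.exp_lt_one_iff]
    linarith
  have hl₂A : l₂ < Real.exp (-β₁) := by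
    rw [← Real.log_lt_iff_lt_exp hl₂0, hβ₁, neg_neg]
    nlinarith
  have hm₁B : m⁻¹ < Real.exp (-α₁) := by
    rw [← Real.log_lt_iff_lt_exp (by positivity), hα₁, Real.log_inv]
    nlinarith
  obtain ⟨ε₁, C₁, hD₁⟩ := exists_dec_rate s hs hl₂0 hl₂A hexpA h1
  obtain ⟨ε₂, C₂, hD₂⟩ := exists_dec_rate s.swap hs.swap (m := m⁻¹) (by positivity) hm₁B hexpB h3
  set ε₀ : ℝ := min ε₁ ε₂ with hε₀
  have hε₀0 : 0 < ε₀ := lt_min hD₁.ε_pos hD₂.ε_pos
  -- local product structure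
  obtain ⟨εB, CB, hBr⟩ := br M W J f s hs
  have hεB0 := hBr.ε_pos
  set C : ℝ := max (max C₁ C₂) CB with hC
  have hC1 : 1 ≤ C := hBr.one_le.trans (le_max_right _ _)
  have hCC₁ : C₁ ≤ C := (le_max_left _ _).trans (le_max_left _ _)
  have hCC₂ : C₂ ≤ C := (le_max_right _ _).trans (le_max_left _ _)
  -- stable arcs
  obtain ⟨ρs, Λs, hρs, hΛs, hSs⟩ := exists_slow s hs (κ := l₁⁻¹) hC₀ (by positivity) h2
    (ε₁ := ε₀) hε₀0
  -- arcs in the leaves
  obtain ⟨εg, Cg, hεg, hCg, hgrow⟩ := specLgrow s E F C₀ b hs htan hFU hC₀ (by linarith) h4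
  obtain ⟨ρl, Λl, hρl, hΛl, hpath⟩ := specLpath s E H Q r₀ ρ₀ F hs hloc htan hFU hhyp
    (min εg ε₀) (lt_min hεg hε₀0)
  -- the scale
  set r : ℝ := min (min (min r₀ ε₀) (min εB ρs)) (min ρl rA) with hr
  have hr0 : 0 < r := by
    have := hloc.r₀_pos
    positivity
  have hrr₀ : r ≤ r₀ := (min_le_left _ _).trans ((min_le_left _ _).trans (min_le_left _ _))
  have hrε₀ : r ≤ ε₀ := (min_le_left _ _).trans ((min_le_left _ _).trans (min_le_right _ _))
  have hrεB : r ≤ εB := (min_le_left _ _).trans ((min_le_right _ _).trans (min_le_left _ _))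
  have hrρs : r ≤ ρs := (min_le_left _ _).trans ((min_le_right _ _).trans (min_le_right _ _))
  have hrρl : r ≤ ρl := (min_le_right _ _).trans (min_le_left _ _)
  have hrrA : r ≤ rA := (min_le_right _ _).trans (min_le_right _ _)
  have hDA : Dec f r C (Real.exp (-β₁)) :=
    hD₁.mono hr0 (hrε₀.trans (min_le_left _ _)) hCC₁ le_rfl hexpA
  have hDB : Dec f.symm r C (Real.exp (-α₁)) :=
    hD₂.mono hr0 (hrε₀.trans (min_le_right _ _)) hCC₂ le_rfl hexpB
  have hDB₀ : Dec f.symm ε₀ C (Real.exp (-α₁)) :=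
    hD₂.mono hε₀0 (min_le_right _ _) hCC₂ le_rfl hexpB
  have hDA₀ : Dec f ε₀ C (Real.exp (-β₁)) :=
    hD₁.mono hε₀0 (min_le_left _ _) hCC₁ le_rfl hexpA
  set ν : ℝ := max (Real.exp (-β₁)) (Real.exp (-α₁)) with hν
  have hν1 : ν < 1 := max_lt hexpA hexpB
  obtain ⟨δ, hδ, hδbr⟩ := hBr.exist (r / 16) (by positivity)
  set r₁ : ℝ := min (δ / 2) (r / 16) with hr₁
  have hr₁0 : 0 < r₁ := by positivity
  have hH : Hyp f C ν r r₁ :=
    { fwd := hDA.mono hr0 le_rfl le_rfl (le_max_left _ _) hν1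
      bwd := hDB.mono hr0 le_rfl le_rfl (le_max_right _ _) hν1
      br := hBr.mono hr0 hrεB (le_max_right _ _)
      r₁_pos := hr₁0
      r₁_le := by
        have : r₁ ≤ r / 16 := min_le_right _ _
        linarith
      step := fun p q hpq => by
        have h5 : dist q p < δ := by
          rw [dist_comm]
          refine hpq.trans_lt ((min_le_left _ _).trans_lt (by linarith))
        obtain ⟨z, hz1, hz2⟩ := hδbr q p h5
        exact ⟨z, hz2, hz1⟩ }
  obtain ⟨ρ, κ, hbox⟩ := specKappa f E H Q C ν r r₁ r₀ ρ₀ hH hloc hrr₀ (r₁ / 16) (by positivity)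
    (by linarith)
  -- the size of the steps
  set e : ℝ := r / (64 * C) with he
  have he0 : 0 < e := by positivity
  have he1 : 3 * C * e < r := by
    have : 3 * C * e = 3 * r / 64 := by
      rw [he]
      field_simp
    rw [this]
    linarith
  have he2 : 64 * e ≤ r := by
    have : 64 * e = r / C := by
      rw [he]
      field_simp
    rw [this]
    exact div_le_self hr0.le hC1
  set Λ : ℝ := max C (max (Λs / (e / 2) + 2) (Cg * Λl / (e / 2) + 2)) with hΛ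
  have hΛ0 : 0 ≤ Λ := (by linarith : (0 : ℝ) ≤ C).trans (le_max_left _ _)
  have hArcs : Arcs f E r e α₁ (Real.log b) β₁ (Real.log l₁⁻¹) Λ :=
    { ε_pos := he0
      α₁_pos := hα₁0
      α_le := hαle
      β₁_pos := hβ₁0
      β_le := hβle
      rate := hrate
      Λ_nonneg := hΛ0
      low := by
        have h5 := low_of_dec hDB he0 he1
        rw [Real.log_exp, neg_neg] at h5
        intro γ hγ hd n K hS
        refine (h5 γ hγ hd n K hS).trans ?_
        gcongr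
        exact le_max_left _ _
      low' := by
        have h5 := low_of_dec (f := f.symm) hDA he0 he1
        rw [Real.log_exp, neg_neg] at h5
        intro γ hγ hd n K hS
        refine (h5 γ hγ hd n K hS).trans ?_
        gcongr
        exact le_max_left _ _
      stb := by
        intro x y hy
        obtain ⟨γ, g1, g2, g3, g4, g5⟩ := hSs x y (Wl_mono hrρs hy)
        refine ⟨γ, uarc_of_mem (f := f.symm) hDA₀ g1 g4, g2, g3, ?_⟩
        refine Upp_mono (upp_of_lip (f := f.symm) (ε := e / 2) (by positivity)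
          ((one_le_inv₀ hl₁).2 (hl.trans hl₂.le)) hΛs g5) le_rfl le_rfl
          ((le_max_left _ _).trans (le_max_right _ _)) hΛ0
      leaf := by
        intro x y hy hE
        obtain ⟨γ, g2, g3, g4⟩ := hpath x y (Wl_mono hrρl hy) hE
        have g5 : ∀ t ∈ Icc (0 : ℝ) 1, ∀ t' ∈ Icc (0 : ℝ) 1, dist (γ t) (γ t') ≤ Λl * |t - t'| :=
          fun t ht t' ht' => (g4 t ht t' ht').2.2
        have g6 := hgrow γ Λl hΛl (fun t ht t' ht' =>
          ⟨Wl_mono (min_le_left _ _) (g4 t ht t' ht').1, (g4 t ht t' ht').2⟩)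
        refine ⟨γ, uarc_of_mem hDB₀ (contOn_of_lip hΛl g5)
          (fun t ht t' ht' => Wl_mono (min_le_right _ _) (g4 t ht t' ht').1), g2, g3, ?_⟩
        refine Upp_mono (upp_of_lip (ε := e / 2) (Λ := Cg * Λl) (κ := b) (by positivity)
          (by linarith) (by positivity) (fun n t ht t' ht' => ?_)) le_rfl le_rfl
          ((le_max_right _ _).trans (le_max_right _ _)) hΛ0
        exact g6 n t ht t' ht' }
  exact ⟨r, hrrA, specCore f E H κ A C ν r r₁ (r₁ / 16) ρ e α₁ (Real.log b) β₁ (Real.log l₁⁻¹) Λ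
    hH hbox hArcs he1 he2 (hattr r hrrA)⟩

end MainB

end Pool.Agent.Lib.MP610fe3.T4
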