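import Pool.Agent.Lib.MP_610fe3_an.T4.Basics

/-!
# Module MOVE: the property `PP` moves along the stable sets (helper61)
-/

open Set Filter Function
open scoped Topology ENNReal

namespace Pool.Agent.Lib.MP610fe3.T4

open Cf H6

universe u

namespace MoveM

/-- the intermediate value theorem between `0` and `t` -/
theorem ivt {ψ : ℝ → ℝ} {t : ℝ} (hψ : ContinuousOn ψ (uIcc 0 t)) (h0 : ψ 0 = 0) {u : ℝ}
    (hu : u ∈ uIcc 0 (ψ t)) : ∃ t' ∈ uIcc 0 t, ψ t' = u := by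
  have h := intermediate_value_uIcc hψ
  rw [h0] at h
  exact h hu

theorem mem_uIcc_mul {t t' : ℝ} (h : t' ∈ uIcc 0 t) (hne : t' ≠ t) :
    ∃ s ∈ Ico (0 : ℝ) 1, t' = s * t := by
  rcases lt_trichotomy t 0 with ht | ht | ht
  · rw [uIcc_of_ge ht.le] at h
    refine ⟨t' / t, ⟨div_nonneg_of_nonpos h.2 ht.le, ?_⟩, (div_mul_cancel₀ _ ht.ne).symm⟩
    rw [div_lt_one_of_neg ht]
    exact lt_of_le_of_ne h.1 (Ne.symm hne)
  · subst ht
    rw [uIcc_self] at h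
    exact absurd h hne
  · rw [uIcc_of_le ht.le] at h
    refine ⟨t' / t, ⟨div_nonneg h.1 ht.le, ?_⟩, (div_mul_cancel₀ _ ht.ne').symm⟩
    rw [div_lt_one ht]
    exact lt_of_le_of_ne h.2 hne

theorem mul_mem_uIcc {s t : ℝ} (h0 : 0 ≤ s) (h1 : s ≤ 1) : s * t ∈ uIcc 0 t := by
  rcases le_total 0 t with ht | ht
  · rw [uIcc_of_le ht]
    exact ⟨by positivity, by nlinarith⟩
  · rw [uIcc_of_ge ht]
    exact ⟨by nlinarith, by nlinarith⟩

end MoveM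

theorem specMove : SpecMove.{u} := by
  intro M _ _ f E H κ A B C ν r r₁ ε ρ η q₀ m a q lam hall
  have hh := hall.hyp
  have hb := hall.box
  have hr := hh.r_pos
  have hr₁ := hh.r₁_pos
  have hr₁r := hh.r₁_le
  have hε := hb.ε_pos
  have hεr₁ := hb.ε_le
  have hρ := hb.ρ_pos
  -- the windows
  obtain ⟨δ₀, hδ₀, hδ₀r, hsmall⟩ := hb.exists_small hr hρ
  set d : ℝ := min δ₀ (r₁ / 2) with hd
  have hd0 : 0 < d := by positivity
  have hd1 : d ≤ δ₀ := min_le_left _ _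
  have hd2 : d ≤ r₁ / 2 := min_le_right _ _
  obtain ⟨δκ, hδκ, hκ⟩ := hb.κ_equi (d / 2) (by positivity)
  set ρ₁ : ℝ := min δκ ρ with hρ₁
  have hρ₁0 : 0 < ρ₁ := by positivity
  have hρ₁1 : ρ₁ ≤ δκ := min_le_left _ _
  have hρ₁2 : ρ₁ ≤ ρ := min_le_right _ _
  refine ⟨ρ₁, hρ₁0, hρ₁2, d / 2, by positivity, fun c n w w' τ hτ hPP hw => ?_⟩
  have hw0 : dist w' w ≤ d / 2 := hw 0
  have hτρ : τ ∈ Icc (-ρ) ρ := abs_le.1 (hτ.trans hρ₁2)
  have habs : ∀ t ∈ uIcc 0 τ, |t| ≤ ρ₁ := by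
    intro t ht
    have h1 := Set.abs_sub_left_of_mem_uIcc ht
    rw [sub_zero, sub_zero] at h1
    exact h1.trans hτ
  have hsub : uIcc 0 τ ⊆ Icc (-ρ) ρ := fun t ht => abs_le.1 ((habs t ht).trans hρ₁2)
  have hdist : ∀ t ∈ uIcc 0 τ, dist (κ w t) w' ≤ d := by
    intro t ht
    have h1 := hκ w t (hsub ht) 0 hb.zero_mem (by rw [sub_zero]; exact (habs t ht).trans hρ₁1)
    rw [hb.κ_zero] at h1
    have h2 := dist_triangle (κ w t) w w'
    rw [dist_comm w w'] at h2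
    linarith
  set ψ : ℝ → ℝ := fun t => H w' (κ w t) with hψ
  have hψρ : ∀ t ∈ uIcc 0 τ, |ψ t| ≤ ρ := fun t ht => hsmall w' _ ((hdist t ht).trans hd1)
  have hψ0 : ψ 0 = 0 := by
    simp only [hψ]
    rw [hb.κ_zero, ← hb.E_iff_self (by rw [dist_comm]; linarith)]
    exact hb.stab w w' (Wl_mono (by linarith) hw)
  have hψc : ContinuousOn ψ (uIcc 0 τ) := by
    refine (hb.H_continuousOn w').comp ((hb.κ_continuousOn w).mono hsub) fun t ht => ?_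
    simp only [mem_ofPred_eq]
    linarith [hdist t ht]
  have hψi : ∀ t ∈ uIcc 0 τ, ∀ t' ∈ uIcc 0 τ, ψ t = ψ t' → t = t' := by
    intro t ht t' ht' heq
    exact hb.κ_inj (by linarith) (hsub ht) (hsub ht')
      ((hb.E_iff w' _ _ (by linarith [hdist t ht]) (by linarith [hdist t' ht'])).2 heq)
  have h0τ : (0 : ℝ) ∈ uIcc 0 τ := left_mem_uIcc
  have hττ : τ ∈ uIcc 0 τ := right_mem_uIcc
  -- corresponding points
  have hcorr : ∀ t ∈ uIcc 0 τ, E (κ w' (ψ t)) (κ w t) ∧ dist (κ w' (ψ t)) (κ w t) ≤ r₁ := by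
    intro t ht
    refine ⟨hb.hit (by linarith) (by linarith [hdist t ht]) (hψρ t ht), ?_⟩
    have h1 := hb.dist_κ w' (abs_le.1 (hψρ t ht))
    have h2 := hdist t ht
    have h3 := dist_triangle_right (κ w' (ψ t)) (κ w t) w'
    linarith
  have hB : ∀ t ∈ uIcc 0 τ, (κ w' (ψ t) ∈ B ↔ κ w t ∈ B) := fun t ht =>
    hall.bas.sat _ _ (hcorr t ht).2 (hcorr t ht).1
  have hτne : τ ≠ 0 := by
    intro h0
    have h1 := hPP.1
    have h2 := (hPP.2 0 ⟨le_rfl, one_pos⟩).1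
    rw [zero_mul] at h2
    rw [h0] at h1
    exact h1 h2
  refine ⟨ψ τ, hψρ τ hττ, fun h => hPP.1 ((hB τ hττ).1 h), fun s hs => ?_⟩
  -- the preimage of `s ψ(τ)`
  have hψτ : ψ τ ≠ 0 := by
    intro h0
    exact hτne (hψi τ hττ 0 h0τ (h0.trans hψ0.symm))
  obtain ⟨t, ht, hts⟩ := MoveM.ivt hψc hψ0 (MoveM.mul_mem_uIcc (t := ψ τ) hs.1 hs.2.le)
  have htne : t ≠ τ := by
    intro h0
    rw [h0] at hts
    have h1 : (1 - s) * ψ τ = 0 := by linarith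
    rcases mul_eq_zero.1 h1 with h2 | h2
    · linarith [hs.2]
    · exact hψτ h2
  obtain ⟨s', hs', rfl⟩ := MoveM.mem_uIcc_mul ht htne
  have hP := hPP.2 s' hs'
  rw [← hts]
  refine ⟨(hB _ ht).2 hP.1, ?_⟩
  -- the arcs
  have hsub' : uIcc 0 (s' * τ) ⊆ uIcc 0 τ := uIcc_subset_uIcc h0τ ht
  have hK : κ w '' uIcc 0 (s' * τ) ⊆ B := by
    rintro _ ⟨t, ht', rfl⟩
    have hne : t ≠ τ := by
      intro h0
      rw [h0] at ht'
      rcases lt_or_gt_of_ne hτne with h | h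
      · rw [uIcc_of_ge (by nlinarith [hs'.1])] at ht'
        nlinarith [ht'.1, hs'.2]
      · rw [uIcc_of_le (by nlinarith [hs'.1])] at ht'
        nlinarith [ht'.2, hs'.2]
    obtain ⟨s'', hs'', rfl⟩ := MoveM.mem_uIcc_mul (hsub' ht') hne
    exact (hPP.2 s'' hs'').1
  have hbase : Ebd E r₁ 1 (κ w' '' uIcc 0 (ψ (s' * τ))) (κ w '' uIcc 0 (s' * τ)) := by
    refine Ebd.of_E hb hh ?_ ?_
    · rintro _ ⟨u, hu, rfl⟩
      obtain ⟨t, ht', rfl⟩ := MoveM.ivt (hψc.mono hsub') hψ0 hu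
      obtain ⟨h1, h2⟩ := hcorr t (hsub' ht')
      exact ⟨_, ⟨t, ht', rfl⟩, h2, h1⟩
    · rintro _ ⟨u, hu, rfl⟩ _ ⟨u', hu', rfl⟩ - hE
      obtain ⟨t, ht1, rfl⟩ := MoveM.ivt (hψc.mono hsub') hψ0 hu
      obtain ⟨t', ht2, rfl⟩ := MoveM.ivt (hψc.mono hsub') hψ0 hu'
      rw [hb.κ_inj (by linarith) (abs_le.1 (hψρ t (hsub' ht1)))
        (abs_le.1 (hψρ t' (hsub' ht2))) hE]
  obtain ⟨D, hD⟩ := Ebd.iterate hb hh
  refine hP.2.ebd hb hh hall.cont (hD n 1 _ _ hbase) ?_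
  -- the images of the arc are covered
  have hnr : ∀ᶠ j in atTop, ∃ k, Nr E A η k (f^[j] '' (κ w '' uIcc 0 (s' * τ))) := by
    rw [uIcc]
    refine nr_eventually hall.η_pos hb hall.bas hall.nrp ?_ ?_ hK
    · exact le_inf (by linarith) (hsub ht).1
    · exact sup_le hρ.le (hsub ht).2
  have h1 := (tendsto_add_atTop_nat n).eventually hnr
  filter_upwards [h1] with j hj
  rwa [iterate_add, image_comp] at hj

end Pool.Agent.Lib.MP610fe3.T4
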