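import Pool.Agent.Lib.MP_610fe3_an.T4.Spec2
import Pool.Agent.Lib.MP_610fe3_an.Gen.Chart

/-!
# Module MTAN: tangency in the preferred charts gives tangency in the ambient space
-/

open Set Filter Function Bundle
open scoped Topology Manifold ContDiff

namespace Pool.Agent.Lib.MP610fe3.T4

universe u v w

namespace MtanM

variable {V : Type*} [NormedAddCommGroup V] [NormedSpace ℝ V] [FiniteDimensional ℝ V] {N : ℕ}
  {M : Type*} [MetricSpace M] [ChartedSpace V M] [IsManifold 𝓘(ℝ, V) ∞ M]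

omit [FiniteDimensional ℝ V] [IsManifold 𝓘(ℝ, V) ∞ M] in
theorem dF_self {e : M → EuclideanSpace ℝ (Fin N)} (he : ContMDiff 𝓘(ℝ, V) (𝓡 N) 1 e) (x : M) :
    Gen.dF V e x = fderiv ℝ (Gen.loc (V := V) e x) (extChartAt 𝓘(ℝ, V) x x) := by
  have h := (he.mdifferentiable one_ne_zero x).mfderiv
  unfold Gen.dF
  rw [h]
  rw [show range 𝓘(ℝ, V) = univ from ModelWithCorners.Boundaryless.range_eq_univ,
    fderivWithin_univ]
  rfl

theorem strict {e : M → EuclideanSpace ℝ (Fin N)} (he : ContMDiff 𝓘(ℝ, V) (𝓡 N) 1 e) (x : M)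
    {η : ℝ} (hη : 0 < η) : ∀ᶠ p : M × M in 𝓝 (x, x),
      ‖e p.1 - e p.2 - Gen.dF V e x (extChartAt 𝓘(ℝ, V) x p.1 - extChartAt 𝓘(ℝ, V) x p.2)‖ ≤
        η * ‖extChartAt 𝓘(ℝ, V) x p.1 - extChartAt 𝓘(ℝ, V) x p.2‖ := by
  have h0 : x ∈ (extChartAt 𝓘(ℝ, V) x).source := mem_extChartAt_source x
  have h1 := (Gen.contDiffAt_loc he x x h0).hasStrictFDerivAt one_ne_zero
  rw [← dF_self he x] at h1
  have h2 := h1.isLittleO.def hη
  have h3 : ContinuousAt (extChartAt 𝓘(ℝ, V) x) x := continuousAt_extChartAt x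
  have h4 : Tendsto (fun p : M × M => (extChartAt 𝓘(ℝ, V) x p.1, extChartAt 𝓘(ℝ, V) x p.2))
      (𝓝 (x, x)) (𝓝 (extChartAt 𝓘(ℝ, V) x x, extChartAt 𝓘(ℝ, V) x x)) :=
    (h3.tendsto.comp (continuous_fst.tendsto (x, x))).prodMk_nhds
      (h3.tendsto.comp (continuous_snd.tendsto (x, x)))
  have h5 : ∀ᶠ p in 𝓝 x, p ∈ (extChartAt 𝓘(ℝ, V) x).source := extChartAt_source_mem_nhds x
  have h6 : ∀ᶠ p : M × M in 𝓝 (x, x), p.1 ∈ (extChartAt 𝓘(ℝ, V) x).source :=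
    (continuous_fst.tendsto (x, x)).eventually h5
  have h7 : ∀ᶠ p : M × M in 𝓝 (x, x), p.2 ∈ (extChartAt 𝓘(ℝ, V) x).source :=
    (continuous_snd.tendsto (x, x)).eventually h5
  filter_upwards [h4.eventually h2, h6, h7] with p hp hp1 hp2
  simp only [Gen.loc, comp_apply, (extChartAt 𝓘(ℝ, V) x).left_inv hp1,
    (extChartAt 𝓘(ℝ, V) x).left_inv hp2] at hp
  exact hp

theorem exists_eta₁ {K η : ℝ} (hK : 0 < K) (hη : 0 < η) :
    ∃ η₁ : ℝ, 0 < η₁ ∧ K * η₁ ≤ 1 / 2 ∧ 2 * K * η₁ ≤ η / 2 := by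
  refine ⟨min (1 / (2 * K)) (η / (4 * K)), by positivity, ?_, ?_⟩
  · calc K * min (1 / (2 * K)) (η / (4 * K)) ≤ K * (1 / (2 * K)) := by
          gcongr
          exact min_le_left _ _
      _ = 1 / 2 := by field_simp
  · calc 2 * K * min (1 / (2 * K)) (η / (4 * K)) ≤ 2 * K * (η / (4 * K)) := by
          gcongr
          exact min_le_right _ _
      _ = η / 2 := by field_simp; ring

theorem exists_eta₂ {K η L : ℝ} (hK : 0 < K) (hη : 0 < η) (hL : 0 ≤ L) :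
    ∃ η₂ : ℝ, 0 < η₂ ∧ L * η₂ * (2 * K) ≤ η / 2 := by
  refine ⟨η / (4 * K * (L + 1)), by positivity, ?_⟩
  have h3 : L * (η / (4 * K * (L + 1))) * (2 * K) = (L / (L + 1)) * (η / 2) := by
    field_simp
    ring
  rw [h3]
  have h4 : L / (L + 1) ≤ 1 := by
    rw [div_le_one (by positivity)]
    linarith
  nlinarith

/-- The estimate, in the model space. -/
theorem est {V W : Type*} [NormedAddCommGroup V] [NormedSpace ℝ V] [NormedAddCommGroup W]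
    [NormedSpace ℝ W] (L : V →L[ℝ] W) {K η η₁ η₂ d : ℝ} (hK : 0 < K)
    (hlow : ∀ v, ‖v‖ ≤ K * ‖L v‖) (hη₁ : 0 < η₁) (hη₂ : 0 < η₂) (h1a : K * η₁ ≤ 1 / 2)
    (h1b : 2 * K * η₁ ≤ η / 2) (h2 : ‖L‖ * η₂ * (2 * K) ≤ η / 2) {w : W} {a : V}
    (hd : ‖w‖ = d) (hp : ‖w - L a‖ ≤ η₁ * ‖a‖) (p q : Submodule ℝ V) (v : V) (hv : v ∈ p ⊔ q)
    (hva : ‖a - v‖ ≤ η₂ * ‖a‖) :
    ∃ v1 ∈ p, ∃ v2 ∈ q, ‖w - (L v1 + L v2)‖ ≤ η * d := by
  have hd0 : 0 ≤ d := hd ▸ norm_nonneg w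
  obtain ⟨v1, hv1, v2, hv2', rfl⟩ := Submodule.mem_sup.1 hv
  have ha2 : ‖a‖ ≤ 2 * K * d := by
    have h5 : ‖L a‖ ≤ d + η₁ * ‖a‖ := by
      have h6 : L a = w - (w - L a) := by abel
      calc ‖L a‖ = ‖w - (w - L a)‖ := by rw [← h6]
        _ ≤ ‖w‖ + ‖w - L a‖ := norm_sub_le _ _
        _ ≤ d + η₁ * ‖a‖ := by rw [hd]; gcongr
    have h6 := hlow a
    have h7 : K * ‖L a‖ ≤ K * (d + η₁ * ‖a‖) := by gcongr
    have h8 : K * η₁ * ‖a‖ ≤ 1 / 2 * ‖a‖ := by gcongr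
    nlinarith
  refine ⟨v1, hv1, v2, hv2', ?_⟩
  have h5 : w - (L v1 + L v2) = (w - L a) + L (a - (v1 + v2)) := by
    rw [map_sub, map_add]
    abel
  rw [h5]
  calc ‖(w - L a) + L (a - (v1 + v2))‖
      ≤ ‖w - L a‖ + ‖L (a - (v1 + v2))‖ := norm_add_le _ _
    _ ≤ η₁ * ‖a‖ + ‖L‖ * (η₂ * ‖a‖) := by
        gcongr
        exact (L.le_opNorm _).trans (by gcongr)
    _ ≤ η₁ * (2 * K * d) + ‖L‖ * (η₂ * (2 * K * d)) := by gcongr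
    _ = (2 * K * η₁) * d + (‖L‖ * η₂ * (2 * K)) * d := by ring
    _ ≤ η / 2 * d + η / 2 * d := by gcongr
    _ = η * d := by ring

end MtanM

open MtanM in
theorem specMtan : SpecMtan.{u, v, w} := by
  intro V _ _ _ V₀ _ _ N M _ _ _ _ _ _ J hJ hinj f Es Ew s hS 𝓕 E htan hE x η hη
  have hJ1 : ContMDiff 𝓘(ℝ, V) (𝓡 N) 1 J.e := hJ.of_le (by exact_mod_cast le_top)
  obtain ⟨L, hL⟩ : ∃ L : V →L[ℝ] EuclideanSpace ℝ (Fin N), L = Gen.dF V J.e x := ⟨_, rfl⟩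
  have hLinj : Injective L := by rw [hL]; exact hinj x
  obtain ⟨K, hK, hLK⟩ := LinearMap.exists_antilipschitzWith
    (L : V →ₗ[ℝ] EuclideanSpace ℝ (Fin N)) (LinearMap.ker_eq_bot.2 hLinj)
  have hK' : (0 : ℝ) < K := hK
  have hlow : ∀ v : V, ‖v‖ ≤ K * ‖L v‖ := fun v => by
    have := hLK.le_mul_dist v 0
    simpa [dist_eq_norm] using this
  -- constants
  obtain ⟨η₁, hη₁, h1a, h1b⟩ := exists_eta₁ hK' hη
  obtain ⟨η₂, hη₂, h2⟩ := exists_eta₂ hK' hη (norm_nonneg L)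
  obtain ⟨φ, hφ, hxφ, hφE⟩ := hE x
  filter_upwards [strict hJ1 x hη₁, hφE, htan φ hφ x hxφ η₂ hη₂] with p hp1 hp2 hp3 hpE
  obtain ⟨v, hv, hv2⟩ := hp3 (hp2.1 hpE)
  rw [← hL] at hp1
  have hd : ‖J.e p.1 - J.e p.2‖ = dist p.1 p.2 := by
    rw [← dist_eq_norm, J.isom.dist_eq]
  obtain ⟨v1, hv1, v2, hv2', hfin⟩ := est L hK' hlow hη₁ hη₂ h1a h1b h2 hd hp1 (Es x) (Ew x) v hv
    hv2
  refine ⟨L v1, L v2, ?_, ?_, hfin⟩
  · have h5 : L v1 ∈ (s.S x).range := by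
      rw [hS x, hL]
      exact ⟨v1, hv1, rfl⟩
    obtain ⟨y, hy⟩ := h5
    rw [← hy]
    exact s.SS_apply x y
  · rw [hL]
    exact ⟨v2, hv2', rfl⟩

end Pool.Agent.Lib.MP610fe3.T4
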