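import Pool.Agent.Lib.MP_610fe3_an.T4.Spec

/-!
# Module NR: covers by small sets
-/

open Set Filter Function
open scoped Topology ENNReal

namespace Pool.Agent.Lib.MP610fe3.T4

open Cf H6

universe u

namespace NrM

variable {M : Type u} [MetricSpace M] {f : M ≃ₜ M} {E : M → M → Prop} {H : M → M → ℝ}
  {κ : M → ℝ → M} {A : Set M} {C ν r r₁ ε ρ : ℝ}

theorem E_trans (hb : Box f E H κ r r₁ ε ρ) (hr : 0 ≤ r) {p q s : M} (h1 : E p q)
    (h2 : E q s) (hpq : dist p q ≤ r) (hqs : dist q s ≤ r) : E p s := by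
  have hqq : dist q q ≤ r := by rw [dist_self]; exact hr
  have hsq : dist s q ≤ r := by rwa [dist_comm]
  have a1 := (hb.E_iff q p q hpq hqq).1 h1
  have a2 := (hb.E_iff q q s hqq hsq).1 h2
  exact (hb.E_iff q p s hpq hsq).2 (a1.trans a2)

theorem E_symm (hb : Box f E H κ r r₁ ε ρ) (hr : 0 ≤ r) {p q : M} (h : E p q)
    (hpq : dist p q ≤ r) : E q p := by
  have hqq : dist q q ≤ r := by rw [dist_self]; exact hr
  exact (hb.E_iff q q p hqq hpq).2 ((hb.E_iff q p q hpq hqq).1 h).symm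

theorem E_iter (hb : Box f E H κ r r₁ ε ρ) {p q : M} {n : ℕ}
    (h : ∀ k ≤ n, dist (f^[k] p) (f^[k] q) ≤ r) : E p q ↔ E (f^[n] p) (f^[n] q) := by
  induction n with
  | zero => rfl
  | succ n ih =>
    rw [ih (fun k hk => h k (by omega)), iterate_succ_apply', iterate_succ_apply']
    refine hb.inv _ _ (h n (by omega)) ?_
    have := h (n + 1) le_rfl
    rwa [iterate_succ_apply', iterate_succ_apply'] at this

theorem exists_net [CompactSpace M] (x₀ : M) {η : ℝ} (hη : 0 < η) :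
    ∃ (n : ℕ) (c : ℕ → M), ∀ x, ∃ i < n, dist x (c i) < η := by
  obtain ⟨t, -, ht, hc⟩ := finite_cover_balls_of_compact (isCompact_univ : IsCompact (univ : Set M)) hη
  obtain ⟨e⟩ : Nonempty (ht.toFinset ≃ Fin ht.toFinset.card) := ⟨ht.toFinset.equivFin⟩
  refine ⟨ht.toFinset.card, fun i => if h : i < ht.toFinset.card then (e.symm ⟨i, h⟩).1 else x₀,
    fun x => ?_⟩
  obtain ⟨y, hy, hxy⟩ := mem_iUnion₂.1 (hc (mem_univ x))
  have hy' : y ∈ ht.toFinset := by simpa using hy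
  refine ⟨(e ⟨y, hy'⟩).1, (e ⟨y, hy'⟩).2, ?_⟩
  simpa using hxy

theorem exists_cover [CompactSpace M] (E : M → M → Prop) (hA : A.Nonempty) {η : ℝ}
    (hη : 0 < η) :
    ∃ n : ℕ, ∀ S ⊆ A, (∀ p ∈ S, ∀ q ∈ S, dist p q ≤ η → E p q → p = q) →
      ∃ T' : ℕ → Set M, (∀ i, T' i ⊆ A ∧ Tn E A η (T' i)) ∧ S ⊆ ⋃ i < n, T' i := by
  obtain ⟨a₀, ha₀⟩ := hA
  obtain ⟨n, c, hc⟩ := exists_net a₀ (half_pos hη)
  refine ⟨n, fun S hS hinj => ⟨fun i => S ∩ {x | dist x (c i) < η / 2}, fun i => ?_, fun x hx => ?_⟩⟩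
  · have hd : ∀ p ∈ S ∩ {x | dist x (c i) < η / 2}, ∀ q ∈ S ∩ {x | dist x (c i) < η / 2},
        dist p q ≤ η := by
      intro p hp q hq
      have h1 : dist p (c i) < η / 2 := hp.2
      have h2 : dist q (c i) < η / 2 := hq.2
      have h3 := dist_triangle_right p q (c i)
      linarith
    refine ⟨fun x hx => hS hx.1, ?_, fun p hp q hq h => hinj p hp.1 q hq.1 (hd p hp q hq) h⟩
    rcases (S ∩ {x | dist x (c i) < η / 2}).eq_empty_or_nonempty with h0 | ⟨a, ha⟩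
    · refine ⟨a₀, ha₀, fun v hv => ?_⟩
      have hv' : v ∈ S ∩ {x | dist x (c i) < η / 2} := hv
      rw [h0] at hv'
      exact absurd hv' (notMem_empty _)
    · exact ⟨a, hS ha.1, fun v hv => hd v hv a ha⟩
  · obtain ⟨i, hi, hxi⟩ := hc x
    exact mem_iUnion₂.2 ⟨i, hi, hx, hxi⟩

/-- uniform continuity of the first iterates -/
theorem exists_unif [CompactSpace M] (f : M ≃ₜ M) {δ : ℝ} (hδ : 0 < δ) (N : ℕ) :
    ∃ η : ℝ, 0 < η ∧ ∀ k ≤ N, ∀ x y : M, dist x y ≤ η → dist (f^[k] x) (f^[k] y) ≤ δ := by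
  have h1 : ∀ k, ∃ η : ℝ, 0 < η ∧ ∀ x y : M, dist x y ≤ η → dist (f^[k] x) (f^[k] y) ≤ δ := by
    intro k
    have h2 : UniformContinuous (f^[k]) :=
      CompactSpace.uniformContinuous_of_continuous (f.continuous.iterate k)
    obtain ⟨η, hη, h3⟩ := Metric.uniformContinuous_iff_le.1 h2 δ hδ
    exact ⟨η, hη, fun x y h => h3 h⟩
  induction N with
  | zero =>
    obtain ⟨η, hη, h⟩ := h1 0
    refine ⟨η, hη, fun k hk => ?_⟩
    obtain rfl : k = 0 := by omega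
    exact h
  | succ N ih =>
    obtain ⟨η, hη, h⟩ := ih
    obtain ⟨η', hη', h'⟩ := h1 (N + 1)
    refine ⟨min η η', lt_min hη hη', fun k hk x y hxy => ?_⟩
    rcases Nat.lt_or_ge k (N + 1) with hk' | hk'
    · exact h k (by omega) x y (hxy.trans (min_le_left _ _))
    · obtain rfl : k = N + 1 := by omega
      exact h' x y (hxy.trans (min_le_right _ _))

omit [MetricSpace M] in
theorem iUnion_mono {T : ℕ → Set M} {m n : ℕ} (h : m ≤ n) : (⋃ i < m, T i) ⊆ ⋃ i < n, T i := by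
  intro x hx
  obtain ⟨i, hi, hx⟩ := mem_iUnion₂.1 hx
  exact mem_iUnion₂.2 ⟨i, by omega, hx⟩

theorem arcs [CompactSpace M] (hh : Hyp f C ν r r₁) (hb : Box f E H κ r r₁ ε ρ)
    (hA : A.Nonempty) {η : ℝ} (hη : 0 < η) (hηr : η ≤ r) (j : ℕ) :
    ∃ q' : ℕ, ∀ (w : M) (s t : ℝ), -ρ ≤ s → t ≤ ρ →
    (∀ t' ∈ Icc s t, ∃ a ∈ A, dist (f^[j] (κ w t')) a ≤ η / 2) →
    Nr E A η q' (f^[j] '' (κ w '' Icc s t)) := by
  obtain ⟨a₀, ha₀⟩ := hA
  obtain ⟨η', hη', h1⟩ := exists_unif f (half_pos hη) j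
  obtain ⟨δ, hδ, h2⟩ := hb.κ_equi η' hη'
  have hεr : ε ≤ r := by linarith [hb.ε_le, hb.ε_pos, hh.r₁_le, hh.r₁_pos]
  refine ⟨⌊2 * ρ / δ⌋₊ + 1, fun w s t hs ht hcl => ?_⟩
  refine ⟨fun k => f^[j] '' (κ w '' (Icc s t ∩ {t' | ⌊(t' + ρ) / δ⌋₊ = k})), fun k => ?_, ?_⟩
  · have hI : ∀ t' ∈ Icc s t, t' ∈ Icc (-ρ) ρ := fun t' h => ⟨hs.trans h.1, h.2.trans ht⟩
    have hclose : ∀ t₁ ∈ Icc s t ∩ {t' | ⌊(t' + ρ) / δ⌋₊ = k},
        ∀ t₂ ∈ Icc s t ∩ {t' | ⌊(t' + ρ) / δ⌋₊ = k}, ∀ i ≤ j,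
        dist (f^[i] (κ w t₁)) (f^[i] (κ w t₂)) ≤ η / 2 := by
      intro t₁ ht₁ t₂ ht₂ i hi
      refine h1 i hi _ _ (h2 w _ (hI _ ht₁.1) _ (hI _ ht₂.1) ?_)
      have e1 : ⌊(t₁ + ρ) / δ⌋₊ = k := ht₁.2
      have e2 : ⌊(t₂ + ρ) / δ⌋₊ = k := ht₂.2
      have p1 : 0 ≤ (t₁ + ρ) / δ := div_nonneg (by linarith [(hI _ ht₁.1).1]) hδ.le
      have p2 : 0 ≤ (t₂ + ρ) / δ := div_nonneg (by linarith [(hI _ ht₂.1).1]) hδ.le
      have b1 := Nat.floor_le p1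
      have b2 := Nat.floor_le p2
      have b3 := Nat.lt_floor_add_one ((t₁ + ρ) / δ)
      have b4 := Nat.lt_floor_add_one ((t₂ + ρ) / δ)
      rw [e1] at b1 b3
      rw [e2] at b2 b4
      rw [le_div_iff₀ hδ] at b1 b2
      rw [div_lt_iff₀ hδ] at b3 b4
      rw [abs_le]
      constructor <;> nlinarith
    refine ⟨?_, ?_⟩
    · rcases (Icc s t ∩ {t' | ⌊(t' + ρ) / δ⌋₊ = k}).eq_empty_or_nonempty with h0 | ⟨t₀, ht₀⟩
      · refine ⟨a₀, ha₀, ?_⟩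
        rintro _ ⟨_, ⟨t', ht', rfl⟩, rfl⟩
        have ht'' : t' ∈ Icc s t ∩ {t' | ⌊(t' + ρ) / δ⌋₊ = k} := ht'
        rw [h0] at ht''
        exact absurd ht'' (notMem_empty _)
      · obtain ⟨a, ha, hd⟩ := hcl t₀ ht₀.1
        refine ⟨a, ha, ?_⟩
        rintro _ ⟨_, ⟨t', ht', rfl⟩, rfl⟩
        have := hclose t' ht' t₀ ht₀ j le_rfl
        linarith [dist_triangle (f^[j] (κ w t')) (f^[j] (κ w t₀)) a]
    · rintro _ ⟨_, ⟨t₁, ht₁, rfl⟩, rfl⟩ _ ⟨_, ⟨t₂, ht₂, rfl⟩, rfl⟩ hE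
      have h3 : E (κ w t₁) (κ w t₂) :=
        (E_iter hb (n := j) fun i hi => (hclose t₁ ht₁ t₂ ht₂ i hi).trans (by linarith)).2 hE
      have h4 := (hb.E_iff w (κ w t₁) (κ w t₂) (((hb.κ_mem w t₁ (hI _ ht₁.1)) 0).trans hεr)
        (((hb.κ_mem w t₂ (hI _ ht₂.1)) 0).trans hεr)).1 h3
      rw [hb.κ_H w t₁ (hI _ ht₁.1), hb.κ_H w t₂ (hI _ ht₂.1)] at h4
      rw [h4]
  · rintro _ ⟨_, ⟨t', ht', rfl⟩, rfl⟩
    refine mem_iUnion₂.2 ⟨⌊(t' + ρ) / δ⌋₊, ?_, κ w t', ⟨t', ⟨ht', rfl⟩, rfl⟩, rfl⟩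
    rw [Nat.lt_succ_iff]
    refine Nat.floor_le_floor ?_
    gcongr
    linarith [ht'.2]

end NrM

/-- Module NR. -/
theorem specNr : SpecNr.{u} := by
  intro M _ _ f E H κ A C ν r r₁ ε ρ hh hb hA
  have hr₁ := hh.r₁_pos
  have hr1r := hh.r₁_le
  have hr : 0 < r := by linarith
  have hεr : ε ≤ r := by linarith [hb.ε_le, hb.ε_pos]
  have hs : 0 < r₁ / 2 := by positivity
  obtain ⟨δ, hδ, hbr⟩ := hh.br.exist (r₁ / 2) hs
  refine ⟨min (δ / 2) (r₁ / 2), by positivity, fun η hη hη₀ => ?_⟩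
  have hηδ : η < δ := by linarith [min_le_left (δ / 2) (r₁ / 2)]
  have hηr : η ≤ r₁ / 2 := hη₀.trans (min_le_right _ _)
  obtain ⟨n, hn⟩ := NrM.exists_cover E hA.ne hη
  refine ⟨n + 1, Nat.succ_pos _, ?_, ?_, ?_, fun j => NrM.arcs hh hb hA.ne hη (by linarith) j⟩
  · -- images
    intro T hT hTn
    obtain ⟨T', h1, h2⟩ := hn (f '' T) (by
      rintro _ ⟨x, hx, rfl⟩
      exact (hA.inv x).2 (hT hx)) (by
      rintro _ ⟨p, hp, rfl⟩ _ ⟨q, hq, rfl⟩ hd hE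
      obtain ⟨a, -, ha⟩ := hTn.1
      have h3 : dist p q ≤ r := by
        have := dist_triangle_right p q a
        linarith [ha p hp, ha q hq]
      rw [hTn.2 p hp q hq ((hb.inv p q h3 (by linarith)).2 hE)])
    exact ⟨T', h1, h2.trans (NrM.iUnion_mono (by omega))⟩
  · -- transversals in `A`
    intro y hy
    obtain ⟨T', h1, h2⟩ := hn (κ y '' Icc (-ρ) ρ) (by
      rintro _ ⟨t, ht, rfl⟩
      exact hA.sat y hy _ (Wl_mono hεr (hb.κ_mem y t ht))) (by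
      rintro _ ⟨t, ht, rfl⟩ _ ⟨t', ht', rfl⟩ _ hE
      have h4 := (hb.E_iff y (κ y t) (κ y t') (((hb.κ_mem y t ht) 0).trans hεr)
        (((hb.κ_mem y t' ht') 0).trans hεr)).1 hE
      rw [hb.κ_H y t ht, hb.κ_H y t' ht'] at h4
      rw [h4])
    exact ⟨T', h1, h2.trans (NrM.iUnion_mono (by omega))⟩
  · -- moves
    intro T hTn
    obtain ⟨⟨a, haA, ha⟩, hinj⟩ := hTn
    have hex : ∀ v : M, ∃ v', v ∈ T → v' ∈ Wl f (r₁ / 2) v ∧ v' ∈ Wl f.symm (r₁ / 2) a := by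
      intro v
      by_cases hv : v ∈ T
      · obtain ⟨z, hz1, hz2⟩ := hbr v a (lt_of_le_of_lt (ha v hv) hηδ)
        exact ⟨z, fun _ => ⟨hz1, hz2⟩⟩
      · exact ⟨v, fun h => absurd h hv⟩
    choose g hg using hex
    have hst : ∀ v ∈ T, E v (g v) := fun v hv =>
      hb.stab v _ (Wl_mono (by linarith) (hg v hv).1)
    have hdv : ∀ v ∈ T, dist v (g v) ≤ r₁ / 2 := fun v hv => by
      rw [dist_comm]; exact (hg v hv).1 0
    have hvw : ∀ v ∈ T, ∀ w ∈ T, dist v w ≤ r₁ := fun v hv w hw => by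
      have := dist_triangle_right v w a
      linarith [ha v hv, ha w hw]
    -- `E (g v) (g w)` implies `v = w`
    have hgE : ∀ v ∈ T, ∀ w ∈ T, dist (g v) (g w) ≤ r → E (g v) (g w) → v = w := by
      intro v hv w hw hd hE
      refine hinj v hv w hw ?_
      have e1 : E v (g w) := NrM.E_trans hb hr.le (hst v hv) hE (by linarith [hdv v hv]) hd
      have e2 : E (g w) w := NrM.E_symm hb hr.le (hst w hw) (by linarith [hdv w hw])
      refine NrM.E_trans hb hr.le e1 e2 ?_ (by rw [dist_comm]; linarith [hdv w hw])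
      have := dist_triangle v w (g w)
      linarith [hvw v hv w hw, hdv w hw]
    obtain ⟨T', h1, h2⟩ := hn (g '' T) (by
      rintro _ ⟨v, hv, rfl⟩
      exact hA.sat a haA _ (Wl_mono (by linarith) (hg v hv).2)) (by
      rintro _ ⟨v, hv, rfl⟩ _ ⟨w, hw, rfl⟩ hd hE
      rw [hgE v hv w hw (by linarith) hE])
    refine ⟨g '' T, T', h1, h2.trans (NrM.iUnion_mono (by omega)), fun k => ?_⟩
    have hk : ∀ v, f.symm^[k] (f^[k] v) = v := fun v => Function.LeftInverse.iterate f.symm_apply_apply k v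
    refine ⟨fun x => f^[k] (g (f.symm^[k] x)), ?_, ?_, ?_⟩
    · rintro _ ⟨v, hv, rfl⟩ _ ⟨w, hw, rfl⟩ he
      simp only [hk] at he
      have he' : g v = g w := (f.injective.iterate k) he
      have := hgE v hv w hw (by rw [he', dist_self]; exact hr.le) (by
        rw [he']
        exact (hb.E_iff (g w) _ _ (by rw [dist_self]; exact hr.le)
          (by rw [dist_self]; exact hr.le)).2 rfl)
      rw [this]
    · rintro _ ⟨v, hv, rfl⟩
      simp only [hk]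
      exact ⟨g v, ⟨v, hv, rfl⟩, rfl⟩
    · rintro _ ⟨v, hv, rfl⟩
      simp only [hk]
      refine ⟨fun i => if i = 0 then f^[k] v else f^[k] (g v), by simp, by simp, fun i hi => ?_⟩
      obtain rfl : i = 0 := by omega
      have h3 : f^[k] (g v) ∈ Wl f (r₁ / 2) (f^[k] v) := Wl_iter (hg v hv).1 k
      simp only [if_true, zero_add, one_ne_zero, if_false]
      refine ⟨?_, hb.stab _ _ (Wl_mono (by linarith) h3)⟩
      rw [dist_comm]
      exact (h3 0).trans (by linarith)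

end Pool.Agent.Lib.MP610fe3.T4
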