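import Pool.Agent.Lib.MP_610fe3_an.T4.Basics
import Pool.Agent.Lib.MP_610fe3_an.T4.Hgt

/-!
# Module START: a short transversal from the basin to its complement with small content
(helper80)
-/

open Set Filter Function
open scoped Topology ENNReal

namespace Pool.Agent.Lib.MP610fe3.T4.StartM

open Cf H6

universe u

section Sign

theorem sgn_mul {e : ℝ} (he : e = 1 ∨ e = -1) (x : ℝ) : e * (e * x) = x := by
  rcases he with h | h <;> subst h <;> ring

theorem sgn_abs {e : ℝ} (he : e = 1 ∨ e = -1) (x : ℝ) : |e * x| = |x| := by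
  rcases he with h | h <;> subst h <;> simp

theorem sgn_Icc {e : ℝ} (he : e = 1 ∨ e = -1) {a b : ℝ} (ha : 0 ≤ a) (hab : a ≤ b) :
    ∃ a' b', (fun s => e * s) '' Icc a b = Icc a' b' ∧ -b ≤ a' ∧ b' ≤ b := by
  rcases he with h | h
  · subst h
    refine ⟨a, b, by simp, by linarith, le_rfl⟩
  · subst h
    refine ⟨-b, -a, ?_, le_rfl, by linarith⟩
    have : (fun s : ℝ => -1 * s) = Neg.neg := by
      ext s
      ring
    rw [this, image_neg_eq_neg, neg_Icc]

end Sign

variable {M : Type u} [MetricSpace M] {f : M ≃ₜ M} {E : M → M → Prop} {A B : Set M}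
  {H : M → M → ℝ} {κ : M → ℝ → M} {C ν r r₁ ε ρ η : ℝ} {m : Set M → ℝ≥0∞}

/-- The positive side is mapped to the positive side, one step. -/
theorem step_sign (hh : Hyp f C ν r r₁) (hb : Box f E H κ r r₁ ε ρ) {x y v : M} {n : ℕ}
    (hy : f.symm^[n] y = x) {e₀ e₁ : ℝ} (he₀ : e₀ = 1 ∨ e₀ = -1) (he₁ : e₁ = 1 ∨ e₁ = -1)
    (hside : ∀ s ∈ Icc 0 (ρ / 2), 0 ≤ e₀ * H x (f.symm^[n] (κ y (e₁ * s))))
    (hv : ∀ k ≤ n, dist (f.symm^[k] v) (f.symm^[k] y) ≤ r / 2) (hHv : |H y v| ≤ ρ / 2)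
    (hpos : 0 < e₀ * H x (f.symm^[n] v)) : 0 < e₁ * H y v := by
  have hr := hh.r_pos
  have he := Hgt.eps_le hh hb
  have hε0 := hb.ε_pos
  have hρ := hb.ρ_pos
  have hm : H y v ∈ Icc (-ρ) ρ := abs_le.1 (by linarith)
  have hvy : dist v y ≤ r / 2 := hv 0 (Nat.zero_le _)
  have hE : E (κ y (H y v)) v := hb.hit (by linarith) (by linarith) (by linarith)
  have hE' := (hb.prop_symm (p := κ y (H y v)) (q := v) n fun k hk => by
    have h1 := hb.κ_mem y (H y v) hm k
    have h2 := hv k hk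
    have h3 := dist_triangle_right (f.symm^[k] (κ y (H y v))) (f.symm^[k] v) (f.symm^[k] y)
    linarith).1 hE
  have hval : H x (f.symm^[n] (κ y (H y v))) = H x (f.symm^[n] v) := by
    refine (hb.E_iff x _ _ ?_ ?_).1 hE'
    · exact (Hgt.kap_dist hb hy hm).trans (by linarith)
    · have := hv n le_rfl
      rw [hy] at this
      linarith
  set g : ℝ → ℝ := fun s => e₀ * H x (f.symm^[n] (κ y (e₁ * s))) with hg
  have hmaps : MapsTo (fun s => e₁ * s) (Icc (-ρ) ρ) (Icc (-ρ) ρ) := by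
    intro s hs
    have h1 : |e₁ * s| ≤ ρ := by
      rw [sgn_abs he₁]
      exact abs_le.2 hs
    exact abs_le.1 h1
  have hgc : ContinuousOn g (Icc (-ρ) ρ) :=
    continuousOn_const.mul ((Hgt.contOn_hgt hh hb hy).comp (by fun_prop) hmaps)
  have hgi : InjOn g (Icc (-ρ) ρ) := by
    intro s hs t ht hst
    have h1 := congrArg (fun z => e₀ * z) hst
    simp only [hg, sgn_mul he₀] at h1
    have h2 := Hgt.injOn_hgt hh hb hy (hmaps hs) (hmaps ht) h1
    have h3 := congrArg (fun z => e₁ * z) h2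
    simpa only [sgn_mul he₁] using h3
  have hg0 : g 0 = 0 := by
    simp only [hg, mul_zero]
    rw [Hgt.hgt_zero hb hy, mul_zero]
  obtain ⟨σ, hσ, hσ1, hσ2⟩ := Hgt.sign_lemma hρ hgc hgi hg0
  have hσ' : σ = 1 := by
    rcases hσ with h | h
    · exact h
    · exfalso
      have h1 := hσ2 (ρ / 2) ⟨by linarith, by linarith⟩
      rw [h] at h1
      have h2 := hside (ρ / 2) ⟨by linarith, le_rfl⟩
      simp only [hg] at h1
      rw [show -(-1 * (ρ / 2)) = ρ / 2 by ring] at h1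
      linarith
  have hgv : 0 < g (e₁ * H y v) := by
    simp only [hg, sgn_mul he₁]
    rw [hval]
    exact hpos
  by_contra hcon
  push Not at hcon
  rcases eq_or_lt_of_le hcon with h | h
  · rw [h, hg0] at hgv
    exact lt_irrefl _ hgv
  · have h1 := hσ2 (-(e₁ * H y v)) ⟨by linarith, by
      have := sgn_abs he₁ (H y v)
      rw [abs_of_neg h] at this
      linarith⟩
    rw [hσ', one_mul, neg_neg] at h1
    linarith

/-- The points of the sequence are iterates of the first one. -/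
theorem gap_iter {n : ℕ} {z : ℕ → M} {e : ℕ → ℝ} (hG : Gap f H κ B ρ n z e) (i : ℕ) :
    z i = f^[n * i] (z 0) := by
  induction i with
  | zero => simp
  | succ i ih => rw [hG.succ, ih, ← iterate_add_apply, Nat.mul_succ, add_comm]

/-- The positive side is mapped to the positive side. -/
theorem iter_sign (hh : Hyp f C ν r r₁) (hb : Box f E H κ r r₁ ε ρ) {n : ℕ} {z : ℕ → M}
    {e : ℕ → ℝ} (hG : Gap f H κ B ρ n z e) {v : M} {k : ℕ} {δ : ℝ} (hδ : δ ≤ r / 2)
    (hδ' : ∀ x p, dist p x ≤ δ → |H x p| ≤ ρ / 2)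
    (hv : ∀ j ≤ n * k, dist (f^[j] v) (f^[j] (z 0)) ≤ δ) (hpos : 0 < e 0 * H (z 0) v) :
    0 < e k * H (z k) (f^[n * k] v) := by
  induction k with
  | zero => simpa using hpos
  | succ k ih =>
    have hle : n * k ≤ n * (k + 1) := Nat.mul_le_mul_left _ (Nat.le_succ k)
    have h1 := ih fun j hj => hv j (hj.trans hle)
    have hsy : f.symm^[n] (z (k + 1)) = z k := by
      rw [hG.succ, Cf.symm_iterate_iterate]
    have hmul : n * (k + 1) = n + n * k := by ring
    have hvn : f.symm^[n] (f^[n * (k + 1)] v) = f^[n * k] v := by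
      rw [hmul, iterate_add_apply, Cf.symm_iterate_iterate]
    refine step_sign hh hb hsy (hG.sign k) (hG.sign (k + 1)) (hG.side k) ?_ ?_ ?_
    · intro j hj
      have e1 : ∀ p : M, f.symm^[j] (f^[n * (k + 1)] p) = f^[n * (k + 1) - j] p := by
        intro p
        rw [Cf.symm_iterate_iterate_of_le f (by omega)]
      rw [gap_iter hG (k + 1), e1, e1]
      exact (hv _ (Nat.sub_le _ _)).trans hδ
    · refine hδ' _ _ ?_
      rw [gap_iter hG (k + 1)]
      exact hv _ le_rfl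
    · rw [hvn]
      exact h1

/-- The set of points of a transversal on one side. -/
def side (κ : M → ℝ → M) (x : M) (e a b : ℝ) : Set M := κ x '' ((fun s => e * s) '' Icc a b)

theorem nr_side [CompactSpace M] {q₀ : ℕ} (hη : 0 < η)
    (hb : Box f E H κ r r₁ ε ρ) (hB : Bas f E A B r r₁) (hn : NrP f E κ A r₁ ρ η q₀) {w : M}
    {e s t : ℝ} (he : e = 1 ∨ e = -1) (hs : 0 ≤ s) (hst : s ≤ t) (ht : t ≤ ρ)
    (h : side κ w e s t ⊆ B) :
    ∀ᶠ j in atTop, ∃ n, Nr E A η n (f^[j] '' side κ w e s t) := by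
  obtain ⟨a', b', h1, h2, h3⟩ := sgn_Icc he hs hst
  simp only [side, h1] at h ⊢
  exact nr_eventually hη hb hB hn (by linarith) (by linarith) h

theorem specStart : SpecStart.{u} := by
  intro M _ _ f E H κ A B C ν r r₁ ε ρ η q₀ m a q lam hall hgap
  obtain ⟨hη, hh, hb, hA, hB, hn, hcomp, hm, hg⟩ := hall
  obtain ⟨n, c, z, e, hn0, hG, hSm⟩ := hgap
  have hr := hh.r_pos
  have hr1 := hh.r₁_le
  have hr1' := hh.r₁_pos
  have hε := hb.ε_le
  have hε0 := hb.ε_pos
  have hρ := hb.ρ_pos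
  have hc0 : (0 : ℝ) ≤ max c 0 := le_max_right _ _
  refine ⟨max c 0 * q, fun ρ₁ hρ₁ hρ₁ρ n₁ => ?_⟩
  set k := n₁ with hk
  have hnk : n₁ ≤ n * k := Nat.le_mul_of_pos_left _ hn0
  obtain ⟨δ₁, hδ₁, hδ₁r, hδ₁'⟩ := hb.exists_small hr (show 0 < ρ / 2 by positivity)
  obtain ⟨δ₂, hδ₂, hδ₂r, hδ₂'⟩ := hb.exists_small hr hρ₁
  set δ : ℝ := min δ₁ (r₁ / 4) with hδ
  have hδ0 : 0 < δ := by positivity
  have hδr : δ ≤ r₁ / 4 := min_le_right _ _
  have hδ' : ∀ x p, dist p x ≤ δ → |H x p| ≤ ρ / 2 := fun x p hp =>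
    hδ₁' x p (hp.trans (min_le_left _ _))
  -- points close to `z 0`
  have hev : ∀ᶠ p in 𝓝 (z 0), ∀ j ∈ Finset.range (n * k + 1),
      dist (f^[j] p) (f^[j] (z 0)) < δ := by
    rw [Filter.eventually_all_finset]
    intro j _
    exact ((f.continuous.iterate j).tendsto (z 0)) (Metric.ball_mem_nhds _ hδ0)
  obtain ⟨δ₃, hδ₃, hδ₃'⟩ := Metric.eventually_nhds_iff.1 hev
  obtain ⟨σ, hσ, hσ'⟩ := hb.κ_equi (min (δ₃ / 2) (min δ₂ (r₁ / 4))) (by positivity)
  set s₀ : ℝ := min σ (ρ / 2) with hs₀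
  have hs₀0 : 0 < s₀ := by positivity
  have hs₀ρ : s₀ ≤ ρ / 2 := min_le_right _ _
  have hsmall : ∀ t, |t| ≤ s₀ → dist (κ (z 0) t) (z 0) ≤ min (δ₃ / 2) (min δ₂ (r₁ / 4)) := by
    intro t ht
    have h1 := hσ' (z 0) t (abs_le.1 (by linarith)) 0 hb.zero_mem
      (by rw [sub_zero]; exact ht.trans (min_le_left _ _))
    rwa [hb.κ_zero] at h1
  have hclose : ∀ t, |t| ≤ s₀ → ∀ j ≤ n * k,
      dist (f^[j] (κ (z 0) t)) (f^[j] (z 0)) ≤ δ := by
    intro t ht j hj
    have h1 : dist (κ (z 0) t) (z 0) < δ₃ := by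
      have := (hsmall t ht).trans (min_le_left _ _)
      linarith
    exact (hδ₃' h1 j (Finset.mem_range.2 (by omega))).le
  have he0 := hG.sign 0
  have hek := hG.sign k
  -- the content of the side of `z 0`
  have hzk : ∀ i, f^[n * i] (z 0) = z i := fun i => (gap_iter hG i).symm
  have hcont : ∀ s', 0 < s' → s' ≤ s₀ →
      Sm f m a (max c 0 * q) (f^[n₁] '' side κ (z 0) (e 0) s' s₀) := by
    intro s' hs' hs's
    have habs : ∀ s ∈ Icc s' s₀, |e 0 * s| ≤ s₀ := by
      intro s hs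
      rw [sgn_abs he0, abs_of_nonneg (by linarith [hs.1])]
      exact hs.2
    set F : ℝ → ℝ := fun s => e k * H (z k) (f^[n * k] (κ (z 0) (e 0 * s))) with hF
    have hFpos : ∀ s ∈ Icc s' s₀, 0 < F s := by
      intro s hs
      refine iter_sign hh hb hG (by linarith) hδ' (hclose _ (habs s hs)) ?_
      have h1 : e 0 * s ∈ Icc (-ρ) ρ := abs_le.1 (by linarith [habs s hs])
      rw [hb.κ_H _ _ h1, sgn_mul he0]
      linarith [hs.1]
    have hFle : ∀ s ∈ Icc s' s₀, |H (z k) (f^[n * k] (κ (z 0) (e 0 * s)))| ≤ ρ / 2 := by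
      intro s hs
      refine hδ' _ _ ?_
      rw [← hzk k]
      exact hclose _ (habs s hs) _ le_rfl
    have hFc : ContinuousOn F (Icc s' s₀) := by
      refine continuousOn_const.mul ((hb.H_continuousOn (z k)).comp
        ((f.continuous.iterate (n * k)).comp_continuousOn
          ((hb.κ_continuousOn (z 0)).comp (by fun_prop) fun s hs => ?_)) fun s hs => ?_)
      · exact abs_le.1 (by linarith [habs s hs])
      · have h1 := hclose _ (habs s hs) _ le_rfl
        rw [hzk k] at h1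
        simp only [mem_ofPred_eq]
        linarith
    obtain ⟨s₁, hs₁, hmin⟩ := isCompact_Icc.exists_isMinOn ⟨s', le_rfl, hs's⟩ hFc
    set t := F s₁ with ht
    have ht0 : 0 < t := hFpos s₁ hs₁
    have htρ : t ≤ ρ / 2 := by
      have h1 := hFle s₁ hs₁
      rw [← sgn_abs hek] at h1
      exact (le_abs_self _).trans h1
    have hsideB : side κ (z k) (e k) t (ρ / 2) ⊆ B := by
      rintro _ ⟨_, ⟨s, hs, rfl⟩, rfl⟩
      exact hG.mem k s ⟨by linarith [hs.1], by linarith [hs.2]⟩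
    have hE : Ebd E r₁ 1 (f^[n * k] '' side κ (z 0) (e 0) s' s₀)
        (side κ (z k) (e k) t (ρ / 2)) := by
      refine Ebd.of_E hb hh ?_ ?_
      · rintro _ ⟨_, ⟨_, ⟨s, hs, rfl⟩, rfl⟩, rfl⟩
        have h1 := hFle s hs
        have h2 := hclose _ (habs s hs) _ le_rfl
        rw [hzk k] at h2
        have h3 : H (z k) (f^[n * k] (κ (z 0) (e 0 * s))) ∈ Icc (-ρ) ρ :=
          abs_le.1 (by linarith)
        refine ⟨κ (z k) (H (z k) (f^[n * k] (κ (z 0) (e 0 * s)))), ⟨_, ⟨F s, ⟨?_, ?_⟩, ?_⟩, rfl⟩,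
          ?_, ?_⟩
        · exact hmin hs
        · rw [← sgn_abs hek] at h1
          exact (le_abs_self _).trans h1
        · simp only [hF, sgn_mul hek]
        · have h4 := hb.dist_κ (z k) h3
          have h5 := dist_triangle_right (f^[n * k] (κ (z 0) (e 0 * s)))
            (κ (z k) (H (z k) (f^[n * k] (κ (z 0) (e 0 * s))))) (z k)
          linarith
        · refine hb.E_symm ?_ (hb.hit (by linarith) (by linarith) (by linarith))
          have h4 := hb.dist_κ (z k) h3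
          have h5 := dist_triangle_right (κ (z k) (H (z k) (f^[n * k] (κ (z 0) (e 0 * s)))))
            (f^[n * k] (κ (z 0) (e 0 * s))) (z k)
          linarith
      · rintro _ ⟨_, ⟨_, ⟨s, hs, rfl⟩, rfl⟩, rfl⟩ _ ⟨_, ⟨_, ⟨s2, hs2, rfl⟩, rfl⟩, rfl⟩ _ hEE
        have h1 : E (κ (z 0) (e 0 * s)) (κ (z 0) (e 0 * s2)) := by
          rw [hb.prop (n * k)]
          · exact hEE
          · intro j hj
            have h2 := hclose _ (habs s hs) j hj
            have h3 := hclose _ (habs s2 hs2) j hj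
            have h4 := dist_triangle_right (f^[j] (κ (z 0) (e 0 * s)))
              (f^[j] (κ (z 0) (e 0 * s2))) (f^[j] (z 0))
            linarith
        have h2 := hb.κ_inj (by linarith) (abs_le.1 (by linarith [habs s hs]))
          (abs_le.1 (by linarith [habs s2 hs2])) h1
        exact congrArg (fun x => f^[n * k] (κ (z 0) x)) h2
    have h1 : Sm f m a (max c 0) (side κ (z k) (e k) t (ρ / 2)) :=
      (hSm k t ht0 htρ).mono_c hg (le_max_left _ _)
    have h2 := h1.ebd hb hh hm hE (nr_side hη hb hB hn hek ht0.le htρ (by linarith) hsideB)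
    have h3 : f^[n * k] '' side κ (z 0) (e 0) s' s₀ =
        f^[n * k - n₁] '' (f^[n₁] '' side κ (z 0) (e 0) s' s₀) := by
      rw [← image_comp, ← iterate_add, Nat.sub_add_cancel hnk]
    rw [h3] at h2
    exact h2.of_iter' hg hc0 _
  -- the point `w`
  have hs₀ρ' : e 0 * s₀ ∈ Icc (-ρ) ρ := by
    refine abs_le.1 ?_
    rw [sgn_abs he0, abs_of_pos hs₀0]
    linarith
  have hs₀a : |e 0 * s₀| ≤ s₀ := by
    rw [sgn_abs he0, abs_of_pos hs₀0]
  set w := κ (z 0) (e 0 * s₀) with hw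
  have hwz : dist w (z 0) ≤ min δ₂ (r₁ / 4) := (hsmall _ hs₀a).trans (min_le_right _ _)
  have hwz' : dist w (z 0) ≤ r₁ / 4 := hwz.trans (min_le_right _ _)
  have hzw : dist (z 0) w ≤ r₁ / 4 := by rwa [dist_comm]
  have hτ : |H w (z 0)| ≤ ρ₁ := by
    refine hδ₂' _ _ ?_
    rw [dist_comm]
    exact hwz.trans (min_le_left _ _)
  set τ := H w (z 0) with hτ'
  have hτρ : τ ∈ Icc (-ρ) ρ := abs_le.1 (by linarith)
  have hEτ : E (κ w τ) (z 0) := hb.hit (by linarith) (by linarith) (by linarith)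
  have hdτ : dist (κ w τ) (z 0) ≤ r₁ := by
    have := dist_triangle (κ w τ) w (z 0)
    have := hb.dist_κ w hτρ
    linarith
  -- the heights at `z 0` along the transversal at `w`
  set Φ : ℝ → ℝ := fun t => H (z 0) (f.symm^[0] (κ w t)) with hΦ
  have hwin : dist (f.symm^[0] w) (z 0) + ε ≤ r := by
    simp only [iterate_zero, id_eq]
    linarith
  have hΦm := hb.win_mono (by linarith) 0 hwin
  have hΦ0 : Φ 0 = e 0 * s₀ := by
    simp only [hΦ, iterate_zero, id_eq, hb.κ_zero, hw]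
    rw [hb.κ_H _ _ hs₀ρ']
  have hΦτ : Φ τ = 0 := by
    simp only [hΦ, iterate_zero, id_eq]
    exact (hb.E_iff_self (by linarith)).1 hEτ
  -- `e₀ Φ` decreases from `s₀` to `0`
  have hmono : ∀ s ∈ Icc (0 : ℝ) 1, ∀ s' ∈ Icc (0 : ℝ) 1, s ≤ s' →
      e 0 * Φ (s' * τ) ≤ e 0 * Φ (s * τ) := by
    have hmem : ∀ s ∈ Icc (0 : ℝ) 1, s * τ ∈ Icc (-ρ) ρ := by
      intro s hs
      refine abs_le.1 ?_
      rw [abs_mul, abs_of_nonneg hs.1]
      have := abs_le.2 hτρ
      nlinarith [hs.1, hs.2, abs_nonneg τ]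
    have hτ0 : τ ≠ 0 := by
      intro h
      rw [h, hΦ0] at hΦτ
      have := sgn_abs he0 s₀
      rw [hΦτ, abs_zero, abs_of_pos hs₀0] at this
      linarith
    intro s hs s' hs' hss
    rcases hΦm with h | h
    · -- increasing
      rcases lt_or_gt_of_ne hτ0 with h0 | h0
      · have h1 : Φ τ < Φ 0 := h hτρ hb.zero_mem h0
        have h2 : Φ (s' * τ) ≤ Φ (s * τ) := by
          refine h.monotoneOn (hmem s' hs') (hmem s hs) ?_
          nlinarith
        have h3 : e 0 = 1 := by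
          rcases he0 with h4 | h4
          · exact h4
          · rw [hΦτ, hΦ0, h4] at h1
            linarith
        rw [h3]
        linarith
      · have h1 : Φ 0 < Φ τ := h hb.zero_mem hτρ h0
        have h2 : Φ (s * τ) ≤ Φ (s' * τ) := by
          refine h.monotoneOn (hmem s hs) (hmem s' hs') ?_
          nlinarith
        have h3 : e 0 = -1 := by
          rcases he0 with h4 | h4
          · rw [hΦτ, hΦ0, h4] at h1
            linarith
          · exact h4
        rw [h3]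
        linarith
    · -- decreasing
      rcases lt_or_gt_of_ne hτ0 with h0 | h0
      · have h1 : Φ 0 < Φ τ := h hτρ hb.zero_mem h0
        have h2 : Φ (s * τ) ≤ Φ (s' * τ) := by
          refine h.antitoneOn (hmem s' hs') (hmem s hs) ?_
          nlinarith
        have h3 : e 0 = -1 := by
          rcases he0 with h4 | h4
          · rw [hΦτ, hΦ0, h4] at h1
            linarith
          · exact h4
        rw [h3]
        linarith
      · have h1 : Φ τ < Φ 0 := h hb.zero_mem hτρ h0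
        have h2 : Φ (s' * τ) ≤ Φ (s * τ) := by
          refine h.antitoneOn (hmem s hs) (hmem s' hs') ?_
          nlinarith
        have h3 : e 0 = 1 := by
          rcases he0 with h4 | h4
          · exact h4
          · rw [hΦτ, hΦ0, h4] at h1
            linarith
        rw [h3]
        linarith
  have hmem : ∀ s ∈ Icc (0 : ℝ) 1, s * τ ∈ Icc (-ρ) ρ := by
    intro s hs
    refine abs_le.1 ?_
    rw [abs_mul, abs_of_nonneg hs.1]
    have := abs_le.2 hτρ
    nlinarith [hs.1, hs.2, abs_nonneg τ]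
  have hτ0 : τ ≠ 0 := by
    intro h
    rw [h, hΦ0] at hΦτ
    have := sgn_abs he0 s₀
    rw [hΦτ, abs_zero, abs_of_pos hs₀0] at this
    linarith
  have hΦinj := hb.win_inj (by linarith) 0 hwin
  have hpos : ∀ s ∈ Ico (0 : ℝ) 1, 0 < e 0 * Φ (s * τ) := by
    intro s hs
    have h1 := hmono s ⟨hs.1, hs.2.le⟩ 1 ⟨zero_le_one, le_rfl⟩ hs.2.le
    rw [one_mul, hΦτ, mul_zero] at h1
    refine lt_of_le_of_ne h1 fun h2 => ?_
    have h3 : Φ (s * τ) = Φ τ := by
      have := congrArg (fun x => e 0 * x) h2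
      simp only [sgn_mul he0, mul_zero] at this
      rw [hΦτ, ← this]
    have h4 := hΦinj (hmem s ⟨hs.1, hs.2.le⟩) hτρ h3
    have h5 : (s - 1) * τ = 0 := by linarith
    rcases mul_eq_zero.1 h5 with h6 | h6
    · linarith [hs.2]
    · exact hτ0 h6
  have hle : ∀ s ∈ Icc (0 : ℝ) 1, e 0 * Φ (s * τ) ≤ s₀ := by
    intro s hs
    have h1 := hmono 0 ⟨le_rfl, zero_le_one⟩ s hs hs.1
    rwa [zero_mul, hΦ0, sgn_mul he0] at h1
  -- the point of the transversal at `z 0`
  have hpt : ∀ s ∈ Ico (0 : ℝ) 1, E (κ w (s * τ)) (κ (z 0) (Φ (s * τ))) ∧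
      dist (κ w (s * τ)) (κ (z 0) (Φ (s * τ))) ≤ r₁ ∧ Φ (s * τ) ∈ Icc (-ρ) ρ := by
    intro s hs
    have hs' : s ∈ Icc (0 : ℝ) 1 := ⟨hs.1, hs.2.le⟩
    have h1 : |Φ (s * τ)| ≤ s₀ := by
      rw [← sgn_abs he0, abs_of_pos (hpos s hs)]
      exact hle s hs'
    have h2 : Φ (s * τ) ∈ Icc (-ρ) ρ := abs_le.1 (by linarith)
    have h3 : dist (κ w (s * τ)) (z 0) ≤ ε + r₁ / 4 := by
      have := dist_triangle (κ w (s * τ)) w (z 0)
      have := hb.dist_κ w (hmem s hs')
      linarith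
    have h4 : E (κ (z 0) (H (z 0) (κ w (s * τ)))) (κ w (s * τ)) :=
      hb.hit (by linarith) (by linarith) (by
        simp only [hΦ, iterate_zero, id_eq] at h1
        linarith)
    have h5 := hb.dist_κ (z 0) h2
    have h6 := dist_triangle_right (κ w (s * τ)) (κ (z 0) (Φ (s * τ))) (z 0)
    refine ⟨hb.E_symm ?_ h4, by linarith, h2⟩
    rw [dist_comm]
    simp only [hΦ, iterate_zero, id_eq] at h5 h6 ⊢
    linarith
  refine ⟨w, τ, hτ, ?_, fun s hs => ⟨?_, ?_⟩⟩
  · intro hcon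
    exact hG.notMem 0 ((hB.sat _ _ hdτ hEτ).1 hcon)
  · obtain ⟨h1, h2, h3⟩ := hpt s hs
    rw [hB.sat _ _ h2 h1]
    have h4 := hG.mem 0 (e 0 * Φ (s * τ)) ⟨hpos s hs, by
      have := hle s ⟨hs.1, hs.2.le⟩
      linarith⟩
    rwa [sgn_mul he0] at h4
  · have hsI : s ∈ Icc (0 : ℝ) 1 := ⟨hs.1, hs.2.le⟩
    set s' := e 0 * Φ (s * τ) with hs'
    have hs'0 := hpos s hs
    have hs's₀ := hle s hsI
    -- points of the arc
    have hpar : ∀ t ∈ uIcc 0 (s * τ), ∃ v ∈ Icc (0 : ℝ) s, t = v * τ := by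
      intro t ht
      refine ⟨t / τ, ?_, by field_simp⟩
      rcases lt_or_gt_of_ne hτ0 with h0 | h0
      · rw [uIcc_of_ge (by nlinarith [hs.1])] at ht
        constructor
        · exact div_nonneg_of_nonpos ht.2 h0.le
        · rw [div_le_iff_of_neg h0]
          exact ht.1
      · rw [uIcc_of_le (by nlinarith [hs.1])] at ht
        constructor
        · exact div_nonneg ht.1 h0.le
        · rw [div_le_iff₀ h0]
          exact ht.2
    have hE : Ebd E r₁ 1 (κ w '' uIcc 0 (s * τ)) (side κ (z 0) (e 0) s' s₀) := by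
      refine Ebd.of_E hb hh ?_ ?_
      · rintro _ ⟨t, ht, rfl⟩
        obtain ⟨v, hv, rfl⟩ := hpar t ht
        have hv1 : v ∈ Ico (0 : ℝ) 1 := ⟨hv.1, hv.2.trans_lt hs.2⟩
        obtain ⟨h1, h2, h3⟩ := hpt v hv1
        refine ⟨_, ⟨Φ (v * τ), ⟨e 0 * Φ (v * τ), ⟨?_, ?_⟩, ?_⟩, rfl⟩, h2, h1⟩
        · exact hmono v ⟨hv.1, hv1.2.le⟩ s hsI hv.2
        · exact hle v ⟨hv.1, hv1.2.le⟩
        · simp only [sgn_mul he0]
      · rintro _ ⟨t, ht, rfl⟩ _ ⟨t', ht', rfl⟩ _ hEE
        obtain ⟨v, hv, rfl⟩ := hpar t ht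
        obtain ⟨v', hv', rfl⟩ := hpar t' ht'
        rw [hb.κ_inj (by linarith) (hmem v ⟨hv.1, hv.2.trans hs.2.le⟩)
          (hmem v' ⟨hv'.1, hv'.2.trans hs.2.le⟩) hEE]
    obtain ⟨D, hD⟩ := Ebd.iterate hb hh
    refine (hcont s' hs'0 hs's₀).ebd hb hh hm (hD n₁ 1 _ _ hE) ?_
    have hsB : side κ (z 0) (e 0) s' s₀ ⊆ B := by
      rintro _ ⟨_, ⟨t, ht, rfl⟩, rfl⟩
      exact hG.mem 0 t ⟨by linarith [ht.1], by linarith [ht.2]⟩
    have h1 := (tendsto_add_atTop_nat n₁).eventually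
      (nr_side hη hb hB hn he0 hs'0.le hs's₀ (by linarith) hsB)
    filter_upwards [h1] with j hj
    rw [← image_comp, ← iterate_add]
    exact hj

end Pool.Agent.Lib.MP610fe3.T4.StartM
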