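import Pool.Agent.Lib.MP_610fe3_an.T4.MainC
import Pool.Agent.Lib.MP_610fe3_an.T4.Core
import Pool.Agent.Lib.MP_610fe3_an.T4.Alpha
import Pool.Agent.Lib.MP_610fe3_an.T4.Bas
import Pool.Agent.Lib.MP_610fe3_an.T4.Beta
import Pool.Agent.Lib.MP_610fe3_an.T4.Comp
import Pool.Agent.Lib.MP_610fe3_an.T4.Cont
import Pool.Agent.Lib.MP_610fe3_an.T4.Count
import Pool.Agent.Lib.MP_610fe3_an.T4.Gap
import Pool.Agent.Lib.MP_610fe3_an.T4.Gr
import Pool.Agent.Lib.MP_610fe3_an.T4.Grid
import Pool.Agent.Lib.MP_610fe3_an.T4.Kappa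
import Pool.Agent.Lib.MP_610fe3_an.T4.Lgrow
import Pool.Agent.Lib.MP_610fe3_an.T4.Loc
import Pool.Agent.Lib.MP_610fe3_an.T4.Move
import Pool.Agent.Lib.MP_610fe3_an.T4.Mtan
import Pool.Agent.Lib.MP_610fe3_an.T4.Nr
import Pool.Agent.Lib.MP_610fe3_an.T4.Pow
import Pool.Agent.Lib.MP_610fe3_an.T4.Start

/-!
# The codimension one foliation theorem: all modules but LPATH put together
-/

namespace Pool.Agent.Lib.MP610fe3.T4

universe u v w

theorem core : SpecCore.{v} :=
  specCore BasM.specBas specGrid specCount specCont specNr specComp specGr AlphaM.specAlpha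
    specGap specBeta StartM.specStart specMove

theorem main_of_lpath (specLpath : SpecLpath.{0, v}) : SpecMain.{u, v, w} :=
  MainC.specMain specLoc specKappa specLpath specLgrow specPow specMtan core

end Pool.Agent.Lib.MP610fe3.T4
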