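import Pool.Agent.Lib.MP_610fe3_an.T4.Spec

/-!
# Module SEQ: times at which a polynomially growing sequence grows slowly
-/

open Set Filter Function
open scoped Topology

namespace Pool.Agent.Lib.MP610fe3.T4

namespace Seq

theorem exists_slow {N : ℕ → ℝ} {K : ℝ} {D : ℕ} (hpos : ∀ k, 1 ≤ k → 0 < N k)
    (hle : ∀ k : ℕ, N k ≤ K * ((k : ℝ) + 1) ^ D) (L : ℕ) {d : ℝ} (hd : 1 < d) :
    ∃ k : ℕ, L < k ∧ N (k + L) ≤ d * N (k - L) := by
  by_contra hcon
  push Not at hcon
  have hgrow : ∀ m : ℕ, d ^ m * N 1 ≤ N (1 + 2 * L * m) := by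
    intro m
    induction m with
    | zero => simp
    | succ m ih =>
      have h1 := hcon (1 + 2 * L * m + L) (by omega)
      have h2 : 1 + 2 * L * m + L - L = 1 + 2 * L * m := by omega
      have h3 : 1 + 2 * L * m + L + L = 1 + 2 * L * (m + 1) := by ring
      rw [h2, h3] at h1
      calc d ^ (m + 1) * N 1 = d * (d ^ m * N 1) := by ring
        _ ≤ d * N (1 + 2 * L * m) := mul_le_mul_of_nonneg_left ih (by linarith)
        _ ≤ _ := h1.le
  have hK : 0 < K := by
    have h1 := hle 1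
    have h2 := hpos 1 le_rfl
    by_contra hk
    push Not at hk
    have h3 : K * ((1 : ℕ) + 1 : ℝ) ^ D ≤ 0 := mul_nonpos_of_nonpos_of_nonneg hk (by positivity)
    push_cast at h3 h1
    linarith
  have h1 : ∀ m : ℕ, 1 ≤ m → N 1 ≤ K * (2 + 2 * (L : ℝ)) ^ D * ((m : ℝ) ^ D / d ^ m) := by
    intro m hm
    have hm' : (1 : ℝ) ≤ m := by exact_mod_cast hm
    have h2 := (hgrow m).trans (hle _)
    have h3 : (((1 + 2 * L * m : ℕ) : ℝ) + 1) ≤ (2 + 2 * (L : ℝ)) * m := by
      push_cast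
      nlinarith
    have h4 : K * (((1 + 2 * L * m : ℕ) : ℝ) + 1) ^ D ≤ K * ((2 + 2 * (L : ℝ)) * m) ^ D :=
      mul_le_mul_of_nonneg_left (pow_le_pow_left₀ (by positivity) h3 D) hK.le
    have h5 := h2.trans h4
    have hdm : 0 < d ^ m := by positivity
    rw [← mul_div_assoc, le_div_iff₀ hdm]
    calc N 1 * d ^ m = d ^ m * N 1 := mul_comm _ _
      _ ≤ _ := h5
      _ = _ := by rw [mul_pow]; ring
  have h2 : Tendsto (fun m : ℕ => K * (2 + 2 * (L : ℝ)) ^ D * ((m : ℝ) ^ D / d ^ m)) atTop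
      (𝓝 (K * (2 + 2 * (L : ℝ)) ^ D * 0)) :=
    (tendsto_pow_const_div_const_pow_of_one_lt D hd).const_mul _
  rw [mul_zero] at h2
  have h3 : N 1 ≤ 0 := ge_of_tendsto h2 ((eventually_ge_atTop 1).mono h1)
  exact absurd (hpos 1 le_rfl) (not_lt.2 h3)

end Seq

theorem specSeq : SpecSeq := by
  intro N K D hN hpos hle
  have h1 : ∀ L : ℕ, ∃ k : ℕ, L < k ∧ N (k + L) ≤ (1 + 1 / ((L : ℝ) + 1)) * N (k - L) := by
    intro L
    refine Seq.exists_slow hpos hle L ?_
    have : (0 : ℝ) < 1 / ((L : ℝ) + 1) := by positivity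
    linarith
  choose k hk hkL using h1
  refine ⟨k, hk, fun j => ?_⟩
  have hlim : Tendsto (fun L : ℕ => 1 + 1 / ((L : ℝ) + 1)) atTop (𝓝 (1 + 0)) :=
    tendsto_const_nhds.add tendsto_one_div_add_atTop_nhds_zero_nat
  rw [add_zero] at hlim
  refine tendsto_of_tendsto_of_tendsto_of_le_of_le' tendsto_const_nhds hlim ?_ ?_
  · filter_upwards [eventually_ge_atTop j] with L hL
    have hp : 0 < N (k L - j) := hpos _ (by have := hk L; omega)
    rw [one_le_div hp]
    exact hN (by omega)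
  · filter_upwards [eventually_ge_atTop j] with L hL
    have hkl := hk L
    have hp : 0 < N (k L - j) := hpos _ (by omega)
    rw [div_le_iff₀ hp]
    have h2 : N (k L + j) ≤ N (k L + L) := hN (by omega)
    have h3 : N (k L - L) ≤ N (k L - j) := hN (by omega)
    have h4 : (0 : ℝ) ≤ 1 + 1 / ((L : ℝ) + 1) := by positivity
    exact h2.trans ((hkL L).trans (mul_le_mul_of_nonneg_left h3 h4))

end Pool.Agent.Lib.MP610fe3.T4
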