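import Pool.Agent.Lib.MP_610fe3_an.T4.Defs

/-!
# Modules of the abstract part of the codimension one foliation theorem

Text of the proof: `/team-store/MP_610fe3_an_T4_PROOF.md`.
-/

open Set Filter Function
open scoped Topology ENNReal

namespace Pool.Agent.Lib.MP610fe3.T4

open Cf H6

universe u

/-- the basin -/
def basin {M : Type u} [MetricSpace M] (f : M ≃ₜ M) (A : Set M) (r : ℝ) : Set M :=
  {x | ∃ n : ℕ, ∃ a ∈ A, f^[n] x ∈ Wl f r a}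

/-- Module BAS: the basin. -/
def SpecBas : Prop :=
  ∀ {M : Type u} [MetricSpace M] [CompactSpace M] (f : M ≃ₜ M) (E : M → M → Prop)
    (H : M → M → ℝ) (κ : M → ℝ → M) (A : Set M) (C ν r r₁ ε ρ e α₁ α₂ β₁ β₂ Λ : ℝ),
    Hyp f C ν r r₁ → Box f E H κ r r₁ ε ρ → Arcs f E r e α₁ α₂ β₁ β₂ Λ → 3 * C * e < r →
    64 * e ≤ r → Attr f A r → basin f A r ≠ univ → Bas f E A (basin f A r) r r₁

/-- Chains of `k` plaque steps are controlled after `O(log k)` iterations. -/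
def Grid {M : Type u} [MetricSpace M] (f : M ≃ₜ M) (E : M → M → Prop) (r r₁ : ℝ) (K : ℕ) :
    Prop :=
  ∀ (k : ℕ) (a P : M), Lk E r₁ k a P → ∀ N : ℕ, N = K * (Nat.log 2 (k + 1) + 1) → ∃ y : M,
    (∀ n ≥ N, dist (f.symm^[n] a) (f.symm^[n] y) ≤ r / 16) ∧
    (∀ n ≥ N, dist (f^[n] P) (f^[n] y) ≤ r / 16) ∧ E (f.symm^[N] a) (f.symm^[N] y)

/-- Module GRID. -/
def SpecGrid : Prop :=
  ∀ {M : Type u} [MetricSpace M] [CompactSpace M] (f : M ≃ₜ M) (E : M → M → Prop)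
    (H : M → M → ℝ) (κ : M → ℝ → M) (C ν r r₁ ε ρ e α₁ α₂ β₁ β₂ Λ : ℝ),
    Hyp f C ν r r₁ → Box f E H κ r r₁ ε ρ → Arcs f E r e α₁ α₂ β₁ β₂ Λ → 3 * C * e < r →
    64 * e ≤ r → ∃ K : ℕ, Grid f E r r₁ K

/-- The number of points of a transversal that can be reached by `k` steps grows at most
polynomially. -/
def Poly {M : Type u} [MetricSpace M] (E : M → M → Prop) (κ : M → ℝ → M) (r₁ ρ : ℝ) : Prop :=
  ∃ K D : ℕ, ∀ (x a : M) (k : ℕ),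
    (κ x '' Icc (-ρ) ρ ∩ {q | Lk E r₁ k a q}).encard ≤ ((K * (k + 1) ^ D : ℕ) : ℕ∞)

/-- Module COUNT. -/
def SpecCount : Prop :=
  ∀ {M : Type u} [MetricSpace M] [CompactSpace M] (f : M ≃ₜ M) (E : M → M → Prop)
    (H : M → M → ℝ) (κ : M → ℝ → M) (C ν r r₁ ε ρ : ℝ) (K : ℕ),
    Hyp f C ν r r₁ → Box f E H κ r r₁ ε ρ → Grid f E r r₁ K → Poly E κ r₁ ρ

/-- Module SEQ: times at which a polynomially growing sequence grows slowly. -/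
def SpecSeq : Prop :=
  ∀ (N : ℕ → ℝ) (K : ℝ) (D : ℕ), Monotone N → (∀ k, 1 ≤ k → 0 < N k) →
    (∀ k, N k ≤ K * (k + 1) ^ D) →
    ∃ k : ℕ → ℕ, (∀ L, L < k L) ∧ ∀ j : ℕ, Tendsto (fun L => N (k L + j) / N (k L - j))
      atTop (𝓝 1)

/-- Module CONT: the content. -/
def SpecCont : Prop :=
  ∀ {M : Type u} [MetricSpace M] [CompactSpace M] (f : M ≃ₜ M) (E : M → M → Prop)
    (H : M → M → ℝ) (κ : M → ℝ → M) (A : Set M) (C ν r r₁ ε ρ : ℝ),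
    Hyp f C ν r r₁ → Box f E H κ r r₁ ε ρ → Attr f A r → Poly E κ r₁ ρ →
    ∃ η₀ : ℝ, 0 < η₀ ∧ ∀ η, 0 < η → η ≤ η₀ → ∃ m : Set M → ℝ≥0∞, Cont E A r₁ η m

/-- Module NR. -/
def SpecNr : Prop :=
  ∀ {M : Type u} [MetricSpace M] [CompactSpace M] (f : M ≃ₜ M) (E : M → M → Prop)
    (H : M → M → ℝ) (κ : M → ℝ → M) (A : Set M) (C ν r r₁ ε ρ : ℝ),
    Hyp f C ν r r₁ → Box f E H κ r r₁ ε ρ → Attr f A r →
    ∃ η₀ : ℝ, 0 < η₀ ∧ ∀ η, 0 < η → η ≤ η₀ → ∃ q : ℕ, NrP f E κ A r₁ ρ η q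

/-- Module COMP. -/
def SpecComp : Prop :=
  ∀ {M : Type u} [MetricSpace M] [CompactSpace M] (f : M ≃ₜ M) (E : M → M → Prop)
    (H : M → M → ℝ) (κ : M → ℝ → M) (A : Set M) (C ν r r₁ ε ρ : ℝ),
    Hyp f C ν r r₁ → Box f E H κ r r₁ ε ρ → Attr f A r →
    ∃ η₀ : ℝ, 0 < η₀ ∧ ∀ η, 0 < η → η ≤ η₀ → CompP f E κ A r₁ ρ η

/-- Module GR: exponential growth of the content. -/
def SpecGr : Prop :=
  ∀ {M : Type u} [MetricSpace M] [CompactSpace M] (f : M ≃ₜ M) (E : M → M → Prop)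
    (H : M → M → ℝ) (κ : M → ℝ → M) (A : Set M) (C ν r r₁ ε ρ η : ℝ) (q₀ : ℕ)
    (m : Set M → ℝ≥0∞), 0 < η →
    Hyp f C ν r r₁ → Box f E H κ r r₁ ε ρ → Attr f A r → NrP f E κ A r₁ ρ η q₀ →
    CompP f E κ A r₁ ρ η → Cont E A r₁ η m → ∃ (a : ℕ → ℝ) (q lam : ℝ), Gr f E A η m a q lam

/-- Everything that is used in the last part. -/
structure All {M : Type u} [MetricSpace M] [CompactSpace M] (f : M ≃ₜ M) (E : M → M → Prop)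
    (H : M → M → ℝ) (κ : M → ℝ → M) (A B : Set M) (C ν r r₁ ε ρ η : ℝ) (q₀ : ℕ)
    (m : Set M → ℝ≥0∞) (a : ℕ → ℝ) (q lam : ℝ) : Prop where
  η_pos : 0 < η
  hyp : Hyp f C ν r r₁
  box : Box f E H κ r r₁ ε ρ
  attr : Attr f A r
  bas : Bas f E A B r r₁
  nrp : NrP f E κ A r₁ ρ η q₀
  comp : CompP f E κ A r₁ ρ η
  cont : Cont E A r₁ η m
  gr : Gr f E A η m a q lam

/-- Module ALPHA: arcs in the basin have large content after a fixed time. -/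
def SpecAlpha : Prop :=
  ∀ {M : Type u} [MetricSpace M] [CompactSpace M] (f : M ≃ₜ M) (E : M → M → Prop)
    (H : M → M → ℝ) (κ : M → ℝ → M) (A B : Set M) (C ν r r₁ ε ρ η : ℝ) (q₀ : ℕ)
    (m : Set M → ℝ≥0∞) (a : ℕ → ℝ) (q lam : ℝ),
    All f E H κ A B C ν r r₁ ε ρ η q₀ m a q lam →
    ∀ ρ₁, 0 < ρ₁ → ρ₁ ≤ ρ → ∀ c : ℝ, ∃ n : ℕ, ∀ (w : M) (τ : ℝ), |τ| = ρ₁ →
      κ w '' uIcc 0 τ ⊆ B → Lg f m a c (f^[n] '' (κ w '' uIcc 0 τ))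

/-- A sequence of gaps of the complement of `B`. -/
structure Gap {M : Type u} [MetricSpace M] (f : M ≃ₜ M) (H : M → M → ℝ) (κ : M → ℝ → M)
    (B : Set M) (ρ : ℝ) (n : ℕ) (z : ℕ → M) (e : ℕ → ℝ) : Prop where
  succ : ∀ i, z (i + 1) = f^[n] (z i)
  sign : ∀ i, e i = 1 ∨ e i = -1
  notMem : ∀ i, z i ∉ B
  mem : ∀ i, ∀ s ∈ Ioo 0 ρ, κ (z i) (e i * s) ∈ B
  side : ∀ i, ∀ s ∈ Icc 0 (ρ / 2),
    0 ≤ e i * H (z i) (f.symm^[n] (κ (z (i + 1)) (e (i + 1) * s)))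

/-- Module GAP. -/
def SpecGap : Prop :=
  ∀ {M : Type u} [MetricSpace M] [CompactSpace M] [ConnectedSpace M] (f : M ≃ₜ M)
    (E : M → M → Prop) (H : M → M → ℝ) (κ : M → ℝ → M) (A B : Set M) (C ν r r₁ ε ρ : ℝ),
    Hyp f C ν r r₁ → Box f E H κ r r₁ ε ρ → Bas f E A B r r₁ → Attr f A r →
    ∃ n₀ : ℕ, ∀ n ≥ n₀, ∃ (z : ℕ → M) (e : ℕ → ℝ), Gap f H κ B ρ n z e

/-- Module BETA: the content of the gaps is small. -/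
def SpecBeta : Prop :=
  ∀ {M : Type u} [MetricSpace M] [CompactSpace M] (f : M ≃ₜ M) (E : M → M → Prop)
    (H : M → M → ℝ) (κ : M → ℝ → M) (A B : Set M) (C ν r r₁ ε ρ η : ℝ) (q₀ : ℕ)
    (m : Set M → ℝ≥0∞) (a : ℕ → ℝ) (q lam : ℝ),
    All f E H κ A B C ν r r₁ ε ρ η q₀ m a q lam →
    (∃ n₀ : ℕ, ∀ n ≥ n₀, ∃ (z : ℕ → M) (e : ℕ → ℝ), Gap f H κ B ρ n z e) →
    ∃ (n : ℕ) (c : ℝ) (z : ℕ → M) (e : ℕ → ℝ), 0 < n ∧ Gap f H κ B ρ n z e ∧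
      ∀ i, ∀ t : ℝ, 0 < t → t ≤ ρ / 2 →
        Sm f m a c (κ (z i) '' ((fun s => e i * s) '' Icc t (ρ / 2)))

/-- Module START. -/
def SpecStart : Prop :=
  ∀ {M : Type u} [MetricSpace M] [CompactSpace M] (f : M ≃ₜ M) (E : M → M → Prop)
    (H : M → M → ℝ) (κ : M → ℝ → M) (A B : Set M) (C ν r r₁ ε ρ η : ℝ) (q₀ : ℕ)
    (m : Set M → ℝ≥0∞) (a : ℕ → ℝ) (q lam : ℝ),
    All f E H κ A B C ν r r₁ ε ρ η q₀ m a q lam →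
    (∃ (n : ℕ) (c : ℝ) (z : ℕ → M) (e : ℕ → ℝ), 0 < n ∧ Gap f H κ B ρ n z e ∧
      ∀ i, ∀ t : ℝ, 0 < t → t ≤ ρ / 2 →
        Sm f m a c (κ (z i) '' ((fun s => e i * s) '' Icc t (ρ / 2)))) →
    ∃ c : ℝ, ∀ ρ₁, 0 < ρ₁ → ρ₁ ≤ ρ → ∀ n : ℕ, ∃ (w : M) (τ : ℝ), |τ| ≤ ρ₁ ∧
      PP f κ B m a c n w τ

/-- Module MOVE: the property `PP` moves along the stable sets. -/
def SpecMove : Prop :=
  ∀ {M : Type u} [MetricSpace M] [CompactSpace M] (f : M ≃ₜ M) (E : M → M → Prop)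
    (H : M → M → ℝ) (κ : M → ℝ → M) (A B : Set M) (C ν r r₁ ε ρ η : ℝ) (q₀ : ℕ)
    (m : Set M → ℝ≥0∞) (a : ℕ → ℝ) (q lam : ℝ),
    All f E H κ A B C ν r r₁ ε ρ η q₀ m a q lam →
    ∃ ρ₁, 0 < ρ₁ ∧ ρ₁ ≤ ρ ∧ ∃ δ, 0 < δ ∧ ∀ (c : ℝ) (n : ℕ) (w w' : M) (τ : ℝ), |τ| ≤ ρ₁ →
      PP f κ B m a c n w τ → w' ∈ Wl f δ w → ∃ τ', |τ'| ≤ ρ ∧ PP f κ B m a c n w' τ'

/-- Module FINAL. -/
def SpecCore : Prop :=
  ∀ {M : Type u} [MetricSpace M] [CompactSpace M] [ConnectedSpace M] (f : M ≃ₜ M)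
    (E : M → M → Prop) (H : M → M → ℝ) (κ : M → ℝ → M) (A : Set M)
    (C ν r r₁ ε ρ e α₁ α₂ β₁ β₂ Λ : ℝ),
    Hyp f C ν r r₁ → Box f E H κ r r₁ ε ρ → Arcs f E r e α₁ α₂ β₁ β₂ Λ → 3 * C * e < r →
    64 * e ≤ r → Attr f A r → basin f A r = univ

end Pool.Agent.Lib.MP610fe3.T4
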